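import Pool.Agent.Lib.MP_b9430d_co.Mom.Defs

/-!
# There is no measurable Steinhaus set: definitions

Overview: /team-store/STEIN_SIMPLE.md (helper60) for the analytic part, /team-store/STEIN_ONEPAGE.md for the reduction.
Everything takes place in the plane `ℂ`; `rot θ = exp (iθ)`, `lat p` is the lattice point, `ind U` the indicator function
with values in `ℝ≥0∞`, `gau N` the Gaussian `N² exp (-π N² |x|²)`, `smo N` the convolution with it, `SS`, `SP` the sums over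
the rotated lattice (Mom/Defs).

EXPONENTS: `L = R ^ (1/100000)` is the basic large parameter, `L ^ 2000 ≤ R ≤ exp (√L)`; `R ≤ ‖w‖ ≤ 2 R`,
`L ^ 1500 ≤ ‖y‖ ≤ 2 R`. Level of the majorant `Q ≤ L`, constant `Λ ≤ L`. Widths: `κ₁ = 1 / L ^ 16` (variable
`w`), `κ₂ = 1 / R ^ 20` (before the Fresnel smoothing), `κ₃ = 1 / R ^ 8` (variable `y`); Gaussian smoothing `N = R ^ 6`.
The number theory (existence of `Maj`) is in the folder NT (helper61), whose `NT.nu`, `NT.cf` are `nuk`, `cof`.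
-/

set_option autoImplicit false

open MeasureTheory Complex Set Real Filter Topology
open scoped ENNReal

namespace Pool.Agent.Lib.SR

open Pool.MPb9430d Pool.MPb9430d.Rough Pool.MPb9430d.Frac Pool.MPb9430d.Mom

/-! ### Lattice points -/

/-- The norm `a² + b²` of a lattice point. -/
def nm (p : ℤ × ℤ) : ℕ := p.1.natAbs ^ 2 + p.2.natAbs ^ 2

/-- The lattice points of norm `m`. -/
noncomputable def pts (m : ℕ) : Finset (ℤ × ℤ) :=
  ((Finset.Icc (-(m : ℤ)) m) ×ˢ (Finset.Icc (-(m : ℤ)) m)).filter (fun p => nm p = m)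

/-- The number of lattice points of norm `m`. -/
noncomputable def rr (m : ℕ) : ℕ := (pts m).card

/-! ### Circle means, the finite sums `SF` -/

/-- The mean of `g` over the circle with centre `y` and radius `s`. -/
noncomputable def AA (s : ℝ) (g : ℂ → ℝ≥0∞) (y : ℂ) : ℝ≥0∞ :=
  ENNReal.ofReal (2 * π)⁻¹ * ∫⁻ θ in Ioc (-π) π, g (y + s * rot θ)

/-- The sum of the circle means over the radii `√m`, `m ∈ T`, with multiplicities `rr m`. -/
noncomputable def SF (T : Finset ℕ) (g : ℂ → ℝ≥0∞) (y : ℂ) : ℝ≥0∞ :=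
  ∑ m ∈ T, (rr m : ℝ≥0∞) * AA √(m : ℝ) g y

/-! ### Majorants -/

/-- The divisor sum `ν(k) = ∑_{q | k, q ≤ Q} c q`. -/
noncomputable def nuk (c : ℕ → ℝ) (Q : ℕ) (k : ℤ) : ℝ :=
  ∑ q ∈ (Finset.Icc 1 Q).filter (fun q : ℕ => (q : ℤ) ∣ k), c q

/-- The Fourier coefficient of `nuk c Q` at the reduced fractions with denominator `q`. -/
noncomputable def cof (c : ℕ → ℝ) (Q q : ℕ) : ℝ :=
  ∑ r ∈ (Finset.Icc 1 Q).filter (fun r : ℕ => q ∣ r), c r / r

/-- The scale parameters, and `nuk c Q` is a majorant of `rr` on the finite set `T`, with constant `Λ`. -/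
structure Maj (L R Λ : ℝ) (T : Finset ℕ) (c : ℕ → ℝ) (Q : ℕ) : Prop where
  L1 : 1 ≤ L
  Rl : L ^ 2000 ≤ R
  Ru : R ≤ Real.exp (√L)
  Q1 : 1 ≤ Q
  QL : (Q : ℝ) ≤ L
  Λ1 : 1 ≤ Λ
  ΛL : Λ ≤ L
  T1 : ∀ m ∈ T, 1 ≤ m
  Tu : ∀ m ∈ T, (m : ℝ) ≤ 16 * R ^ 2
  nonneg : ∀ k : ℤ, 0 ≤ nuk c Q k
  maj : ∀ m ∈ T, (rr m : ℝ) ≤ nuk c Q m
  cofb : ∀ q : ℕ, 1 ≤ q → |cof c Q q| ≤ Λ * (q : ℝ) ^ (-(99 / 100) : ℝ)

/-! ### The majorant kernel (band-limited) -/

/-- The Fejér kernel `(sin π t / π t)²`; its integral is `1`, its Fourier transform `(1 - |ξ|)₊`. -/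
noncomputable def fej (t : ℝ) : ℝ := (Real.sinc (π * t)) ^ 2

/-- The Fejér kernel of width `κ` on the line; Fourier transform `(1 - κ |ξ|)₊`. -/
noncomputable def phg (κ t : ℝ) : ℝ := κ⁻¹ * fej (t / κ)

/-- The smoothed density of `nuk c Q`; it is the finite sum of the `cof c Q α.den * (1 - κ |α|) * ee (α t)` over the
rational numbers `α` with `α.den ≤ Q` and `|α| < 1 / κ`. -/
noncomputable def DD (c : ℕ → ℝ) (Q : ℕ) (κ t : ℝ) : ℝ := ∑' m : ℤ, nuk c Q m * phg κ (t - m)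

/-- A Gaussian which is at least `1` for `‖x‖ ≤ 3 ρ`. -/
noncomputable def cG (ρ : ℝ) (x : ℂ) : ℝ := Real.exp (9 * π) * Real.exp (-(π * ‖x‖ ^ 2 / ρ ^ 2))

/-- The majorant kernel of the pair `(w, y)`. -/
noncomputable def KN (c : ℕ → ℝ) (Q : ℕ) (ρ κ κ' : ℝ) (w y : ℂ) : ℝ≥0∞ :=
  ∫⁻ x, ENNReal.ofReal (cG ρ x * DD c Q κ (‖x - w‖ ^ 2) * DD c Q κ' (‖x - y‖ ^ 2))

/-- The rational numbers with denominator at most `Q` and absolute value at most `H`. -/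
noncomputable def FQ (Q : ℕ) (H : ℝ) : Finset ℚ :=
  (((Finset.Icc (-⌊H * Q⌋) ⌊H * Q⌋) ×ˢ (Finset.Icc 1 Q)).image
    (fun a : ℤ × ℕ => (a.1 : ℚ) / a.2)).filter (fun α => |(α : ℝ)| ≤ H)

/-- The Gaussian integral with quadratic phase `σ` and linear phase `-2 ξ`. -/
noncomputable def II (ρ σ : ℝ) (ξ : ℂ) : ℂ := ∫ x, (cG ρ x : ℂ) * ee (σ * ‖x‖ ^ 2 - 2 * Frac.ip ξ x)

/-- The pair of frequencies `(α, β)` is resonant at `(w, y)`. -/
def Res (L : ℝ) (w y : ℂ) (α β : ℚ) : Prop :=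
  (α ≠ 0 ∨ β ≠ 0) ∧
    ‖((α : ℝ) : ℂ) * w + ((β : ℝ) : ℂ) * y‖ < L ^ 2 * (1 + |(α : ℝ) + β|)

/-! ### First facts -/

theorem nm_eq (p : ℤ × ℤ) : ((nm p : ℕ) : ℤ) = p.1 ^ 2 + p.2 ^ 2 := by
  unfold nm
  push_cast
  rw [sq_abs, sq_abs]

theorem nm_eq_zero {p : ℤ × ℤ} : nm p = 0 ↔ p = 0 := by
  unfold nm
  constructor
  · intro h
    have h1 : p.1.natAbs = 0 := by
      by_contra h0
      have : 0 < p.1.natAbs ^ 2 := by positivity
      omega
    have h2 : p.2.natAbs = 0 := by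
      by_contra h0
      have : 0 < p.2.natAbs ^ 2 := by positivity
      omega
    exact Prod.ext (Int.natAbs_eq_zero.1 h1) (Int.natAbs_eq_zero.1 h2)
  · rintro rfl
    simp

theorem mem_pts {m : ℕ} {p : ℤ × ℤ} : p ∈ pts m ↔ nm p = m := by
  unfold pts
  rw [Finset.mem_filter, Finset.mem_product, Finset.mem_Icc, Finset.mem_Icc]
  constructor
  · exact fun h => h.2
  · intro h
    refine ⟨?_, h⟩
    have h1 := nm_eq p
    rw [h] at h1
    have h2 : |p.1| ≤ m := by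
      rcases eq_or_ne p.1 0 with h3 | h3
      · rw [h3, abs_zero]; positivity
      · have h4 : 1 ≤ |p.1| := Int.one_le_abs h3
        have h5 : |p.1| ≤ p.1 ^ 2 := by nlinarith [sq_abs p.1, abs_nonneg p.1]
        nlinarith [sq_nonneg p.2]
    have h3 : |p.2| ≤ m := by
      rcases eq_or_ne p.2 0 with h3 | h3
      · rw [h3, abs_zero]; positivity
      · have h4 : 1 ≤ |p.2| := Int.one_le_abs h3
        have h5 : |p.2| ≤ p.2 ^ 2 := by nlinarith [sq_abs p.2, abs_nonneg p.2]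
        nlinarith [sq_nonneg p.1]
    exact ⟨abs_le.1 h2, abs_le.1 h3⟩

theorem nm_eq_sq (p : ℤ × ℤ) : (nm p : ℝ) = ‖lat p‖ ^ 2 := by
  have h : ((nm p : ℕ) : ℝ) = (((nm p : ℕ) : ℤ) : ℝ) := by norm_cast
  rw [h, nm_eq, ← Complex.normSq_eq_norm_sq, Complex.normSq_apply, lat_re, lat_im]
  push_cast
  ring

theorem norm_lat_eq (p : ℤ × ℤ) : ‖lat p‖ = √(nm p : ℝ) := by
  rw [nm_eq_sq, Real.sqrt_sq (norm_nonneg _)]

theorem mem_FQ {Q : ℕ} {H : ℝ} {α : ℚ} : α ∈ FQ Q H ↔ α.den ≤ Q ∧ |(α : ℝ)| ≤ H := by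
  unfold FQ
  rw [Finset.mem_filter, Finset.mem_image]
  constructor
  · rintro ⟨⟨⟨a, q⟩, h1, rfl⟩, h2⟩
    rw [Finset.mem_product, Finset.mem_Icc, Finset.mem_Icc] at h1
    refine ⟨?_, h2⟩
    have hq : 0 < q := by have := h1.2.1; simp only at this; omega
    have h3 : (((a : ℚ) / ((q : ℤ) : ℚ)).den : ℤ) ∣ (q : ℤ) := by
      have := Rat.den_dvd a q
      rwa [Rat.divInt_eq_div] at this
    rw [Int.cast_natCast] at h3
    exact (Nat.le_of_dvd hq (Int.natCast_dvd_natCast.1 h3)).trans h1.2.2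
  · rintro ⟨h1, h2⟩
    refine ⟨⟨(α.num, α.den), ?_, ?_⟩, h2⟩
    · rw [Finset.mem_product, Finset.mem_Icc, Finset.mem_Icc]
      have hd : (0 : ℝ) < α.den := by exact_mod_cast α.den_pos
      have h3 : (α : ℝ) = α.num / α.den := Rat.cast_def α
      have h4 : |(α.num : ℝ)| ≤ H * Q := by
        rw [h3, abs_div, abs_of_pos hd, div_le_iff₀ hd] at h2
        refine h2.trans ?_
        have h5 : 0 ≤ H := by
          by_contra h6
          push Not at h6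
          nlinarith [abs_nonneg (α.num : ℝ)]
        have h6 : (α.den : ℝ) ≤ Q := by exact_mod_cast h1
        exact mul_le_mul_of_nonneg_left h6 h5
      rw [abs_le] at h4
      refine ⟨⟨?_, Int.le_floor.2 h4.2⟩, α.den_pos, h1⟩
      rw [neg_le, Int.le_floor]
      push_cast
      linarith
    · exact Rat.num_div_den α

theorem fej_nonneg (t : ℝ) : 0 ≤ fej t := sq_nonneg _

theorem phg_nonneg {κ : ℝ} (hκ : 0 ≤ κ) (t : ℝ) : 0 ≤ phg κ t :=
  mul_nonneg (inv_nonneg.2 hκ) (fej_nonneg _)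

theorem cG_pos (ρ : ℝ) (x : ℂ) : 0 < cG ρ x := by
  unfold cG
  positivity

theorem one_le_cG {ρ : ℝ} (hρ : 0 < ρ) {x : ℂ} (hx : ‖x‖ ≤ 3 * ρ) : 1 ≤ cG ρ x := by
  unfold cG
  rw [← Real.exp_add, Real.one_le_exp_iff]
  have h : π * ‖x‖ ^ 2 / ρ ^ 2 ≤ 9 * π := by
    rw [div_le_iff₀ (by positivity)]
    have h1 : ‖x‖ ^ 2 ≤ (3 * ρ) ^ 2 := pow_le_pow_left₀ (norm_nonneg _) hx 2
    nlinarith [Real.pi_pos]
  linarith

end Pool.Agent.Lib.SR
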