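import Pool.Agent.Lib.MP_b9430d_co.SR.Defs
import Pool.Agent.Lib.MP_b9430d_co.Mom.Fin

/-!
# Ebas: the basic inequality

As in the proof of `Mom.all_moments` (copy from Mom/Fin.lean the private lemmas `decomp`, `near_mass`, `cutJ`, ...), with `W = ∅`, `V = E ∩ {R ^ (1/64) < ‖y‖}`,
`A = E ∩ {R ≤ ‖y‖}`, `U = E ∩ closedBall 0 (R ^ (1/64))`, `η = 1 / (8 (n+1))`: multiply `n = ind E x + SP (ind E) x` (a.e., `sp_tile`) by
`χ SS (ind A)`, `χ = ofReal (cut ρ)`, and integrate: `n ∫ χ SS(A) = ∫ χ ind E SS(A) + ∫ χ SP(U) SS(A) + ∫ χ SP(V) SS(A)`;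
`core_ineq`: `∫ χ ind E SS(A) ≤ (n-1)|A|`; `near_main`: `∫ χ SP(U) SS(A) ≤ (∫ χ SP(U))|A| + η|A|` and `∫ χ SS(A) ≥ (∫χ - η)|A|`; `near_mass`:
`∫ χ SP(U) + (n - 1/4) ≤ n ∫ χ`. So `∫ χ SP(V) SS(A) ≥ (n ∫χ - nη - (n-1) - ∫χ SP(U) - η)|A| ≥ (3/4 - (n+1)η)|A| ≥ |A|/2`. All
terms are finite (`|A| ≤ n`). `ρ = S + 2` depends only on `E`.
-/

set_option autoImplicit false

open MeasureTheory Complex Set Real Filter Topology
open scoped ENNReal

namespace Pool.Agent.Lib.SR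

open Pool.MPb9430d Pool.MPb9430d.Rough Pool.MPb9430d.Frac Pool.MPb9430d.Mom

private theorem Ebas_arith (n : ℕ) (hn : 1 ≤ n) {J a s x1 x2 x3 u e : ℝ≥0∞}
    (ha' : a ≠ ∞) (hJ : J ≠ ∞) (he : e = ENNReal.ofReal (1 / (8 * (n + 1))))
    (h1 : n * s ≤ x1 + (x2 + x3)) (h2 : x1 + a ≤ n * a)
    (h3 : J * a ≤ s + e * a) (h4 : x2 ≤ u * a + e * a)
    (h7 : u + ENNReal.ofReal (n - 1 / 4) ≤ n * J) : a ≤ 2 * x3 := by
  by_cases hx3 : x3 = ∞
  · rw [hx3, ENNReal.mul_top (by norm_num)]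
    exact le_top
  have he' : e ≠ ∞ := by rw [he]; exact ENNReal.ofReal_ne_top
  have hea : e * a ≠ ∞ := ENNReal.mul_ne_top he' ha'
  have hx1 : x1 ≠ ∞ := ne_top_of_le_ne_top
    (ENNReal.mul_ne_top (ENNReal.natCast_ne_top n) ha') (le_self_add.trans h2)
  have hu : u ≠ ∞ := ne_top_of_le_ne_top
    (ENNReal.mul_ne_top (ENNReal.natCast_ne_top n) hJ) (le_self_add.trans h7)
  have hx2 : x2 ≠ ∞ := ne_top_of_le_ne_top
    (ENNReal.add_ne_top.2 ⟨ENNReal.mul_ne_top hu ha', hea⟩) h4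
  have hs : s ≠ ∞ := by
    have h0 : n * s ≠ ∞ := ne_top_of_le_ne_top
      (ENNReal.add_ne_top.2 ⟨hx1, ENNReal.add_ne_top.2 ⟨hx2, hx3⟩⟩) h1
    intro h
    apply h0
    rw [h]
    exact ENNReal.mul_top (by exact_mod_cast (by omega : n ≠ 0))
  lift J to NNReal using hJ
  lift a to NNReal using ha'
  lift s to NNReal using hs
  lift x1 to NNReal using hx1
  lift x2 to NNReal using hx2
  lift x3 to NNReal using hx3
  lift u to NNReal using hu
  lift e to NNReal using he'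
  have hn1 : (1 : ℝ) ≤ n := by exact_mod_cast hn
  have hee : (e : ℝ) = 1 / (8 * (n + 1)) := by
    have := congrArg ENNReal.toReal he
    rw [ENNReal.toReal_ofReal (by positivity), ENNReal.coe_toReal] at this
    exact this
  have hq : ENNReal.ofReal ((n : ℝ) - 1 / 4) = ((Real.toNNReal (n - 1 / 4) : NNReal) : ℝ≥0∞) := rfl
  rw [hq] at h7
  have hqq : ((Real.toNNReal (n - 1 / 4) : NNReal) : ℝ) = n - 1 / 4 :=
    Real.coe_toNNReal _ (by linarith)
  norm_cast at h1 h2 h3 h4 h7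
  have g1 : (n : ℝ) * s ≤ x1 + (x2 + x3) := by exact_mod_cast h1
  have g2 : (x1 : ℝ) + a ≤ n * a := by exact_mod_cast h2
  have g3 : (J : ℝ) * a ≤ s + e * a := by exact_mod_cast h3
  have g4 : (x2 : ℝ) ≤ u * a + e * a := by exact_mod_cast h4
  have g7 : (u : ℝ) + (n - 1 / 4) ≤ n * J := by
    rw [← hqq]
    exact_mod_cast h7
  have ha0 : (0 : ℝ) ≤ a := NNReal.coe_nonneg a
  have g3' : (n : ℝ) * (J * a) ≤ n * (s + e * a) := mul_le_mul_of_nonneg_left g3 (by linarith)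
  have g7' : ((u : ℝ) + (n - 1 / 4)) * a ≤ n * J * a := mul_le_mul_of_nonneg_right g7 ha0
  have g8 : ((n : ℝ) + 1) * e = 1 / 8 := by
    rw [hee]
    field_simp
  have g9 : ((n : ℝ) + 1) * e * a = 1 / 8 * a := by rw [g8]
  have g10 : (a : ℝ) ≤ 2 * x3 := by nlinarith
  exact_mod_cast g10

private theorem cut_le_ind (ρ : ℝ) (x : ℂ) :
    ENNReal.ofReal (cut ρ x) ≤ ind (Metric.closedBall 0 ρ) x := by
  by_cases h : x ∈ Metric.closedBall (0 : ℂ) ρ
  · rw [ind_of_mem h]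
    exact (ENNReal.ofReal_le_ofReal (cut_le_one ρ x)).trans (le_of_eq ENNReal.ofReal_one)
  · rw [ind_of_notMem h]
    rw [mem_closedBall_zero_iff, not_le] at h
    rw [cut_of_ge h.le, ENNReal.ofReal_zero]

private theorem meas_cut (ρ : ℝ) : Measurable (fun x => ENNReal.ofReal (cut ρ x)) :=
  (continuous_cut ρ).measurable.ennreal_ofReal

private theorem cutJ (ρ : ℝ) : ∫⁻ x, ENNReal.ofReal (cut ρ x) ≠ ∞ := by
  refine ne_top_of_le_ne_top ?_ (lintegral_mono (cut_le_ind ρ))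
  rw [show (fun x => ind (Metric.closedBall (0 : ℂ) ρ) x) = (Metric.closedBall (0 : ℂ) ρ).indicator 1
    from rfl, lintegral_indicator_one Metric.isClosed_closedBall.measurableSet]
  exact measure_closedBall_lt_top.ne

/-- the decomposition of the sum over the tile -/
private theorem decomp {E A U V : Set ℂ} {n : ℕ} (hE : MeasurableSet E) (hT : Tile E n)
    (hA : MeasurableSet A) (hU : MeasurableSet U) (hV : MeasurableSet V)
    (hcov : E ⊆ U ∪ V) (ρ : ℝ) :
    n * ∫⁻ x, ENNReal.ofReal (cut ρ x) * SS (ind A) x ≤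
      (∫⁻ x, ENNReal.ofReal (cut ρ x) * ind E x * SS (ind A) x) +
      ((∫⁻ x, ENNReal.ofReal (cut ρ x) * SP (ind U) x * SS (ind A) x) +
      ∫⁻ x, ENNReal.ofReal (cut ρ x) * SP (ind V) x * SS (ind A) x) := by
  have hc := meas_cut ρ
  have mA := measurable_SS (measurable_ind hA)
  have mU := measurable_SP (measurable_ind hU)
  have mV := measurable_SP (measurable_ind hV)
  have kU : Measurable (fun x => ENNReal.ofReal (cut ρ x) * SP (ind U) x * SS (ind A) x) :=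
    (hc.mul mU).mul mA
  have kE : Measurable (fun x => ENNReal.ofReal (cut ρ x) * ind E x * SS (ind A) x) :=
    (hc.mul (measurable_ind hE)).mul mA
  have kA : Measurable (fun x => ENNReal.ofReal (cut ρ x) * SS (ind A) x) := hc.mul mA
  rw [← lintegral_add_left kU, ← lintegral_add_left kE,
    ← lintegral_const_mul _ kA]
  refine lintegral_mono_ae ?_
  filter_upwards [sp_tile hE hT] with x hx
  have h1 : SP (ind E) x ≤ SP (ind U) x + SP (ind V) x := by
    have h2 : SP (ind E) x ≤ SP (fun y => ind U y + ind V y) x := by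
      refine sp_mono (fun y => ?_) x
      by_cases hy : y ∈ E
      · rw [ind_of_mem hy]
        rcases hcov hy with h | h
        · rw [ind_of_mem h]; exact le_self_add
        · rw [ind_of_mem h, add_comm]; exact le_self_add
      · rw [ind_of_notMem hy]; exact zero_le
    rwa [sp_add (measurable_ind hU) (measurable_ind hV) x] at h2
  rw [← hx]
  calc (ind E x + SP (ind E) x) * (ENNReal.ofReal (cut ρ x) * SS (ind A) x)
      ≤ (ind E x + (SP (ind U) x + SP (ind V) x)) *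
        (ENNReal.ofReal (cut ρ x) * SS (ind A) x) := by
        gcongr
    _ = _ := by ring

/-- the near tile mass -/
private theorem near_mass {E U : Set ℂ} {n : ℕ} (hE : MeasurableSet E) (hT : Tile E n)
    (hU : U ⊆ E) {S : ℝ} (hS : volume.real (E \ Metric.closedBall 0 S) < 1 / 4) :
    (∫⁻ x, ENNReal.ofReal (cut (S + 2) x) * SP (ind U) x) + ENNReal.ofReal (n - 1 / 4) ≤
      n * ∫⁻ x, ENNReal.ofReal (cut (S + 2) x) := by
  have hc := meas_cut (S + 2)
  have hfin : volume E ≠ ∞ := (volume_lt_top hE hT).ne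
  have hB : MeasurableSet (Metric.closedBall (0 : ℂ) S) := Metric.isClosed_closedBall.measurableSet
  have h1 : ENNReal.ofReal (n - 1 / 4) ≤ ∫⁻ x, ENNReal.ofReal (cut (S + 2) x) * ind E x := by
    have h2 : volume (E ∩ Metric.closedBall 0 S) ≤
        ∫⁻ x, ENNReal.ofReal (cut (S + 2) x) * ind E x := by
      rw [← lintegral_indicator_one (hE.inter hB)]
      refine lintegral_mono fun x => ?_
      by_cases hx : x ∈ E ∩ Metric.closedBall 0 S
      · have hx2 := hx.2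
        rw [mem_closedBall_zero_iff] at hx2
        rw [Set.indicator_of_mem hx, Pi.one_apply, ind_of_mem hx.1,
          cut_of_le (by linarith), ENNReal.ofReal_one, one_mul]
      · rw [Set.indicator_of_notMem hx]
        exact zero_le
    refine le_trans ?_ h2
    have h3 := measureReal_inter_add_sdiff (μ := volume) (s := E)
      (t := Metric.closedBall (0 : ℂ) S) hB hfin
    have h4 : volume.real E = n := by
      rw [measureReal_def, vol_tile hE hT, ENNReal.toReal_natCast]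
    rw [← ofReal_measureReal (μ := volume) (s := E ∩ Metric.closedBall 0 S)
      (ne_top_of_le_ne_top hfin (measure_mono Set.inter_subset_left))]
    apply ENNReal.ofReal_le_ofReal
    linarith
  have h5 : n * ∫⁻ x, ENNReal.ofReal (cut (S + 2) x) =
      (∫⁻ x, ENNReal.ofReal (cut (S + 2) x) * ind E x) +
      ∫⁻ x, ENNReal.ofReal (cut (S + 2) x) * SP (ind E) x := by
    have kE : Measurable (fun x => ENNReal.ofReal (cut (S + 2) x) * ind E x) :=
      hc.mul (measurable_ind hE)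
    rw [← lintegral_add_left kE, ← lintegral_const_mul _ hc]
    refine lintegral_congr_ae ?_
    filter_upwards [sp_tile hE hT] with x hx
    rw [← hx]
    ring
  rw [h5, add_comm]
  refine add_le_add h1 (lintegral_mono fun x => ?_)
  gcongr
  refine sp_mono (fun y => ?_) x
  by_cases hy : y ∈ U
  · rw [ind_of_mem hy, ind_of_mem (hU hy)]
  · rw [ind_of_notMem hy]; exact zero_le

theorem basic {E : Set ℂ} {n : ℕ} (hn : 1 ≤ n) (hE : MeasurableSet E) (hT : Tile E n) :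
    ∃ ρ R₁ : ℝ, 1 ≤ ρ ∧ 1 ≤ R₁ ∧ ∀ R : ℝ, R₁ ≤ R →
      R ^ (-3 : ℝ) / 2 ≤ volume.real (E ∩ {y | R ≤ ‖y‖}) →
      volume (E ∩ {y | R ≤ ‖y‖}) ≤ 2 * ∫⁻ x, ENNReal.ofReal (cut ρ x) *
        SP (ind (E ∩ {y | R ^ (1 / 64 : ℝ) < ‖y‖})) x * SS (ind (E ∩ {y | R ≤ ‖y‖})) x := by
  have hfin : volume E ≠ ∞ := (volume_lt_top hE hT).ne
  obtain ⟨S, hS0, hS⟩ := exists_disc hE hfin (ε := 1 / 4) (by norm_num)
  obtain ⟨ρ, hρdef⟩ : ∃ ρ : ℝ, ρ = S + 2 := ⟨_, rfl⟩
  have hρ : 1 ≤ ρ := by linarith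
  obtain ⟨η, hηdef⟩ : ∃ η : ℝ, η = 1 / (8 * (n + 1)) := ⟨_, rfl⟩
  have hη : 0 < η := by rw [hηdef]; positivity
  obtain ⟨R1, hR1, hnear⟩ := near_main hE hT hρ hη
  refine ⟨ρ, max R1 (ρ + 1), hρ, le_trans (by linarith) (le_max_right _ _), fun R hR hAv => ?_⟩
  have hR1' : R1 ≤ R := (le_max_left _ _).trans hR
  have hRρ : ρ + 1 ≤ R := (le_max_right _ _).trans hR
  obtain ⟨U, hUdef⟩ : ∃ U : Set ℂ, U = E ∩ Metric.closedBall 0 (R ^ (1 / 64 : ℝ)) := ⟨_, rfl⟩
  obtain ⟨V, hVdef⟩ : ∃ V : Set ℂ, V = E ∩ {y | R ^ (1 / 64 : ℝ) < ‖y‖} := ⟨_, rfl⟩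
  obtain ⟨A, hAdef⟩ : ∃ A : Set ℂ, A = E ∩ {y | R ≤ ‖y‖} := ⟨_, rfl⟩
  have mU : MeasurableSet U := by
    rw [hUdef]; exact hE.inter Metric.isClosed_closedBall.measurableSet
  have mV : MeasurableSet V := by
    rw [hVdef]; exact hE.inter (measurableSet_lt measurable_const measurable_norm)
  have mA : MeasurableSet A := by
    rw [hAdef]; exact hE.inter (measurableSet_le measurable_const measurable_norm)
  have hUE : U ⊆ E := by rw [hUdef]; exact Set.inter_subset_left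
  have hAE : A ⊆ E := by rw [hAdef]; exact Set.inter_subset_left
  have hAR : ∀ y ∈ A, R ≤ ‖y‖ := by
    intro y hy
    rw [hAdef] at hy
    exact hy.2
  have hAfin : volume A ≠ ∞ := ne_top_of_le_ne_top hfin (measure_mono hAE)
  rw [← hVdef, ← hAdef]
  rw [← hAdef] at hAv
  obtain ⟨near1, near2⟩ := hnear R hR1' A mA hAE hAR hAv
  rw [← hUdef] at near2
  refine Ebas_arith n hn hAfin (cutJ ρ) (e := ENNReal.ofReal η) (by rw [hηdef])
    (decomp hE hT mA mU mV ?_ ρ) ?_ near1 near2 ?_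
  · intro y hy
    rcases le_or_gt ‖y‖ (R ^ (1 / 64 : ℝ)) with h1 | h1
    · left
      rw [hUdef]
      exact ⟨hy, mem_closedBall_zero_iff.2 h1⟩
    · right
      rw [hVdef]
      exact ⟨hy, h1⟩
  · refine core_ineq hE hT mA hAE (meas_cut ρ) (fun x => ?_) (fun x hx => ?_)
    · exact (ENNReal.ofReal_le_ofReal (cut_le_one ρ x)).trans (le_of_eq ENNReal.ofReal_one)
    · rw [cut_of_ge, ENNReal.ofReal_zero]
      have := hAR x hx
      linarith
  · rw [hρdef]
    exact near_mass hE hT hUE hS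

end Pool.Agent.Lib.SR
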