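import Pool.Agent.Lib.MP_b9430d_co.SR.Econ

/-!
# Ebri: from the number theory part (`NT.Maj`) to the structure `Maj`

`nuk g Q = NT.nu g Q`, `cof g Q = NT.cf g Q` by unfolding (`rfl`), `rr = rp` (`rr_eq`). `L = R ^ (1/10^5)`: `L ^ 2000 = R ^ (1/50) ≤ R`;
`R ≤ exp (√L)` means `log R ≤ R ^ (1/(2·10^5))`, true for large `R` (`isLittleO_log_rpow_atTop`); `1 ≤ ⌊L⌋₊ ≤ L`.
-/

set_option autoImplicit false

open MeasureTheory Complex Set Real Filter Topology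
open scoped ENNReal

namespace Pool.Agent.Lib.SR

open Pool.MPb9430d Pool.MPb9430d.Rough Pool.MPb9430d.Frac Pool.MPb9430d.Mom

open Classical in
/-- The elements of `T` between `R ^ (1/32) / 4` and `16 R²`. -/
noncomputable def TF (T : Set ℕ) (R : ℝ) : Finset ℕ :=
  (Finset.Icc 1 ⌊16 * R ^ 2⌋₊).filter (fun m => m ∈ T ∧ R ^ (1 / 32 : ℝ) / 4 ≤ (m : ℝ))

open Classical in
theorem mem_TF {T : Set ℕ} {R : ℝ} {m : ℕ} : m ∈ TF T R ↔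
    m ∈ Finset.Icc 1 ⌊16 * R ^ 2⌋₊ ∧ m ∈ T ∧ R ^ (1 / 32 : ℝ) / 4 ≤ (m : ℝ) := by
  unfold TF
  rw [Finset.mem_filter]

theorem bridge : ∃ R₀ : ℝ, 1 ≤ R₀ ∧ ∀ (T : Set ℕ) (R Λ : ℝ) (g : ℕ → ℝ), R₀ ≤ R → 1 ≤ Λ →
    Λ ≤ R ^ (1 / 10 ^ 5 : ℝ) →
    NT.Maj T (R ^ (1 / 32 : ℝ) / 4) (16 * R ^ 2) Λ ⌊R ^ (1 / 10 ^ 5 : ℝ)⌋₊ g →
    Maj (R ^ (1 / 10 ^ 5 : ℝ)) R Λ (TF T R) g ⌊R ^ (1 / 10 ^ 5 : ℝ)⌋₊ := by
  have h1 : ∀ᶠ R : ℝ in atTop, Real.log R ≤ R ^ (1 / (2 * 10 ^ 5) : ℝ) := by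
    have h2 := (isLittleO_log_rpow_atTop (r := (1 / (2 * 10 ^ 5) : ℝ)) (by norm_num)).bound
      (c := 1) one_pos
    filter_upwards [h2, eventually_ge_atTop (1 : ℝ)] with R h3 h4
    rw [Real.norm_of_nonneg (Real.log_nonneg h4), one_mul,
      Real.norm_of_nonneg (Real.rpow_nonneg (by linarith) _)] at h3
    exact h3
  obtain ⟨R₀, hR₀⟩ := eventually_atTop.1 h1
  refine ⟨max R₀ 1, le_max_right _ _, fun T R Λ g hR hΛ hΛL hM => ?_⟩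
  have hR1 : 1 ≤ R := (le_max_right _ _).trans hR
  have hR0 : (0 : ℝ) ≤ R := by linarith
  have hlog := hR₀ R ((le_max_left _ _).trans hR)
  have hL1 : (1 : ℝ) ≤ R ^ (1 / 10 ^ 5 : ℝ) := Real.one_le_rpow hR1 (by norm_num)
  have hL0 : (0 : ℝ) ≤ R ^ (1 / 10 ^ 5 : ℝ) := by linarith
  refine ⟨hL1, ?_, ?_, ?_, Nat.floor_le hL0, hΛ, hΛL, ?_, ?_, hM.nonneg, ?_, hM.coef⟩
  · rw [← Real.rpow_natCast, ← Real.rpow_mul hR0]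
    calc R ^ ((1 / 10 ^ 5 : ℝ) * ((2000 : ℕ) : ℝ)) ≤ R ^ (1 : ℝ) :=
          Real.rpow_le_rpow_of_exponent_le hR1 (by norm_num)
      _ = R := Real.rpow_one R
  · have h3 : √(R ^ (1 / 10 ^ 5 : ℝ)) = R ^ (1 / (2 * 10 ^ 5) : ℝ) := by
      rw [Real.sqrt_eq_rpow, ← Real.rpow_mul hR0]
      norm_num
    rw [h3]
    calc R = Real.exp (Real.log R) := (Real.exp_log (by linarith)).symm
      _ ≤ _ := Real.exp_le_exp.2 hlog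
  · exact Nat.le_floor (by exact_mod_cast hL1)
  · intro m hm
    exact (Finset.mem_Icc.1 (mem_TF.1 hm).1).1
  · intro m hm
    have h3 := (Finset.mem_Icc.1 (mem_TF.1 hm).1).2
    exact (Nat.le_floor_iff (by positivity)).1 h3
  · intro m hm
    obtain ⟨h3, h4, h5⟩ := mem_TF.1 hm
    rw [rr_eq]
    exact hM.maj m h4 h5 ((Nat.le_floor_iff (by positivity)).1 (Finset.mem_Icc.1 h3).2)

end Pool.Agent.Lib.SR
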