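import Pool.Agent.Lib.MP_b9430d_co.SR.Est

/-!
# Econ: from the sums over lattice points to the circle sums `SF`

`rr_eq`: both are the cardinality of the filter `natAbs² + natAbs² = m` of the same box. `st_fin`: for a finite set `T` of
norms, `NT.ST T g y = ∑ m ∈ T, ∑ p ∈ pts m, (2π)⁻¹ ∫⁻ θ in Ioc (-π) π, g (y + rot θ * lat p)` (the sum over `p` has finite support; exchange
with the integral, `lintegral_finset_sum` or `lintegral_tsum`) and for `lat p = √m * rot φ` (`φ = arg (lat p)`, `‖lat p‖ = √m`) one has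
`∫⁻ θ in Ioc (-π) π, g (y + rot (θ + φ) * √m) = ∫⁻ θ in Ioc (-π) π, g (y + √m * rot θ)` by periodicity (as in the
proof of `Mom.ss_symm` / `Mom.Sym2`, or `Function.Periodic` for lintegrals over `Ioc`, see Mom/KerP, Mom/XiR). `st_le_sf`: for `x` fixed and
every `p`, `θ`: `if nq p ∈ T then ind B (x + rot θ * lat p) else 0` is `0` unless `x + rot θ * lat p ∈ B`, and then
`√(nq p) = ‖lat p‖` lies between `r₁ - ρ` and `r₂ + ρ`, so `nq p ∈ T'`. `sf_le_ss`: `SF T g = NT.ST T g ≤ SS g`.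
-/

set_option autoImplicit false

open MeasureTheory Complex Set Real Filter Topology
open scoped ENNReal

namespace Pool.Agent.Lib.SR

open Pool.MPb9430d Pool.MPb9430d.Rough Pool.MPb9430d.Frac Pool.MPb9430d.Mom
open Pool.Agent.Lib.DG (rp nq)

theorem rr_eq (m : ℕ) : rr m = rp m := by
  unfold rr pts rp
  rfl

private theorem econ_norm_rot (θ : ℝ) : ‖rot θ‖ = 1 := by
  unfold rot
  exact Complex.norm_exp_ofReal_mul_I θ

/-- rotation of one lattice point -/
private theorem econ_pt {m : ℕ} {p : ℤ × ℤ} (hp : p ∈ pts m) (g : ℂ → ℝ≥0∞) (y : ℂ) :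
    ∫⁻ θ in Ioc (-π) π, g (y + rot θ * lat p) = ∫⁻ θ in Ioc (-π) π, g (y + (√(m : ℝ) : ℝ) * rot θ) := by
  have hn : ‖lat p‖ = √(m : ℝ) := by rw [norm_lat_eq, mem_pts.1 hp]
  have h2 : (‖lat p‖ : ℂ) * rot (arg (lat p)) = lat p := by
    rw [rot]
    exact Complex.norm_mul_exp_arg_mul_I _
  have h1 : ∀ θ : ℝ, g (y + rot θ * lat p) =
      (fun t : ℝ => g (y + (√(m : ℝ) : ℝ) * rot t)) (θ + arg (lat p)) := by
    intro θ
    have h3 : rot θ * lat p = ((√(m : ℝ) : ℝ) : ℂ) * rot (θ + arg (lat p)) := by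
      rw [rot_add, ← hn]
      nth_rewrite 1 [← h2]
      ring
    simp only
    rw [h3]
  rw [lintegral_congr (μ := volume.restrict (Ioc (-π) π)) (fun θ => h1 θ)]
  exact lintegral_shift (fun t : ℝ => g (y + (√(m : ℝ) : ℝ) * rot t)) (fun x => by rw [rot_periodic]) _

theorem st_fin (T : Finset ℕ) {g : ℂ → ℝ≥0∞} (hg : Measurable g) (y : ℂ) :
    NT.ST (T : Set ℕ) g y = SF T g y := by
  unfold NT.ST SF AA
  have h1 : ∀ θ : ℝ, (∑' p : ℤ × ℤ, @ite _ (nq p ∈ (T : Set ℕ)) (Classical.propDecidable _)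
      (g (y + rot θ * lat p)) 0) = ∑ m ∈ T, ∑ p ∈ pts m, g (y + rot θ * lat p) := by
    intro θ
    classical
    rw [tsum_eq_sum (s := T.biUnion pts)]
    · rw [Finset.sum_biUnion]
      · refine Finset.sum_congr rfl fun m hm => Finset.sum_congr rfl fun p hp => ?_
        rw [if_pos]
        have h2 : nq p = m := mem_pts.1 hp
        rw [h2]
        exact hm
      · intro a _ b _ hab
        rw [Function.onFun, Finset.disjoint_left]
        intro p hpa hpb
        exact hab ((mem_pts.1 hpa).symm.trans (mem_pts.1 hpb))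
    · intro p hp
      rw [if_neg]
      intro h
      apply hp
      rw [Finset.mem_biUnion]
      exact ⟨nq p, h, mem_pts.2 rfl⟩
  have h2 : (∫⁻ θ in Ioc (-π) π, ∑' p : ℤ × ℤ, @ite _ (nq p ∈ (T : Set ℕ)) (Classical.propDecidable _)
      (g (y + rot θ * lat p)) 0) =
      ∑ m ∈ T, (rr m : ℝ≥0∞) * ∫⁻ θ in Ioc (-π) π, g (y + (√(m : ℝ) : ℝ) * rot θ) := by
    rw [lintegral_congr (μ := volume.restrict (Ioc (-π) π)) (fun θ => h1 θ)]
    have hm : ∀ p : ℤ × ℤ, Measurable fun θ : ℝ => g (y + rot θ * lat p) := fun p =>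
      hg.comp (measurable_const.add (measurable_rot.mul_const _))
    rw [lintegral_finsetSum _ (fun m _ => Finset.measurable_sum _ fun p _ => hm p)]
    refine Finset.sum_congr rfl fun m _ => ?_
    rw [lintegral_finsetSum _ (fun p _ => hm p), Finset.sum_congr rfl fun p hp => econ_pt hp g y,
      Finset.sum_const, nsmul_eq_mul]
    rfl
  rw [h2, Finset.mul_sum]
  refine Finset.sum_congr rfl fun m _ => ?_
  rw [mul_left_comm]

theorem sf_le_ss (T : Finset ℕ) {g : ℂ → ℝ≥0∞} (hg : Measurable g) (y : ℂ) : SF T g y ≤ SS g y := by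
  rw [← st_fin T hg y]
  exact st_le_ss _ g y

/-- `B` lies in the annulus `r₁ ≤ ‖y‖ ≤ r₂` and `T'` contains the elements of `T` between `(r₁ - ρ)²` and
`(r₂ + ρ)²`. -/
theorem st_le_sf {T : Set ℕ} {T' : Finset ℕ} {B : Set ℂ} (hB : MeasurableSet B) {ρ r₁ r₂ : ℝ}
    (hρ : 0 ≤ ρ) (h1 : ρ ≤ r₁) (hBr : ∀ y ∈ B, r₁ ≤ ‖y‖ ∧ ‖y‖ ≤ r₂)
    (hT : ∀ m ∈ T, (r₁ - ρ) ^ 2 ≤ (m : ℝ) → (m : ℝ) ≤ (r₂ + ρ) ^ 2 → m ∈ T') {x : ℂ}
    (hx : ‖x‖ ≤ ρ) : NT.ST T (ind B) x ≤ SF T' (ind B) x := by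
  rw [← st_fin T' (measurable_ind hB) x]
  unfold NT.ST
  refine mul_le_mul' le_rfl ?_
  refine lintegral_mono (fun θ => ?_)
  refine ENNReal.tsum_le_tsum (fun p => ?_)
  by_cases hp : nq p ∈ T
  · by_cases hy : x + rot θ * lat p ∈ B
    · have ha : ‖rot θ * lat p‖ = ‖lat p‖ := by
        rw [norm_mul, econ_norm_rot, one_mul]
      have hn : ((nq p : ℕ) : ℝ) = ‖lat p‖ ^ 2 := nm_eq_sq p
      obtain ⟨b1, b2⟩ := hBr _ hy
      have c1 : r₁ - ρ ≤ ‖lat p‖ := by
        have h2 := norm_add_le x (rot θ * lat p)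
        rw [ha] at h2
        linarith
      have c2 : ‖lat p‖ ≤ r₂ + ρ := by
        have h2 : ‖rot θ * lat p‖ ≤ ‖x + rot θ * lat p‖ + ‖x‖ := by
          have h3 := norm_sub_le (x + rot θ * lat p) x
          rwa [add_sub_cancel_left] at h3
        rw [ha] at h2
        linarith
      have hmem : nq p ∈ T' := by
        refine hT _ hp ?_ ?_
        · rw [hn]
          exact pow_le_pow_left₀ (by linarith) c1 2
        · rw [hn]
          exact pow_le_pow_left₀ (norm_nonneg _) c2 2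
      rw [if_pos hp, if_pos (Finset.mem_coe.2 hmem)]
    · rw [if_pos hp]
      have : ind B (x + rot θ * lat p) = 0 := by
        unfold ind
        exact Set.indicator_of_notMem hy _
      rw [this]
      exact zero_le
  · rw [if_neg hp]
    exact zero_le

end Pool.Agent.Lib.SR
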