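import Pool.Agent.Lib.MP_b9430d_co.SR.Defs

/-!
# Edic: the dichotomy (pure real analysis)

`M ≥ 0` antitone, bounded by `B`. Suppose the second alternative fails for `R₁` (we may take `R₁ ≥ 3`): for all `R ≥ R₁` with `R ^ (-e) ≤ M R`
one has `C₁ M R < M (R ^ (1/64))`, `C₁ = 64 ^ (k+1)`. CLAIM: the first alternative holds. Let `R ≥ R₁ ^ 64` be large with `M R > (log R) ^ (-k)`
(otherwise we are done) and `(log R') ^ (-k) ≥ R' ^ (-e)` for all `R' ≥ R₁` (enlarge `R₁`). Put `R_i = R ^ (64 ^ (-i))`. By induction on `i`, as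
long as `R_i ≥ R₁` : `M (R_i) ≥ C₁ ^ i (log R) ^ (-k) ≥ (log R_i) ^ (-k) ≥ R_i ^ (-e)` (`log R_i = 64 ^ (-i) log R`, `C₁ ^ i = 64 ^ ((k+1) i)`), so
`M (R_(i+1)) > C₁ M (R_i)`. Take the last `i` with `R_i ≥ R₁`, so `R₁ ≤ R_i < R₁ ^ 64`, i.e. `64 ^ i ≥ log R / (64 log R₁)`. Then
`B ≥ M (R_i) ≥ 64 ^ ((k+1) i) (log R) ^ (-k) ≥ (log R) / (64 log R₁) ^ (k+1)`, which is false for large `R`. So `M R ≤ (log R) ^ (-k)` for all large `R`.
-/

set_option autoImplicit false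

open Set Real Filter Topology

namespace Pool.Agent.Lib.SR

theorem dichotomy {M : ℝ → ℝ} {B e : ℝ} (h0 : ∀ R, 0 ≤ M R) (hB : ∀ R, M R ≤ B) (he : 0 < e)
    (k : ℕ) :
    (∃ R₀ : ℝ, 1 < R₀ ∧ ∀ R : ℝ, R₀ ≤ R → M R ≤ (Real.log R) ^ (-(k : ℝ))) ∨
    (∀ R₁ : ℝ, ∃ R : ℝ, R₁ ≤ R ∧ R ^ (-e) ≤ M R ∧
      M (R ^ (1 / 64 : ℝ)) ≤ 64 ^ (k + 1) * M R) := by
  classical
  by_cases hsec : ∀ R₁ : ℝ, ∃ R : ℝ, R₁ ≤ R ∧ R ^ (-e) ≤ M R ∧
      M (R ^ (1 / 64 : ℝ)) ≤ 64 ^ (k + 1) * M R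
  · exact Or.inr hsec
  left
  push Not at hsec
  obtain ⟨R₁, hR₁⟩ := hsec
  -- eventually (log R)^k ≤ R^e
  have hlo : ∀ᶠ R : ℝ in atTop, (Real.log R) ^ k ≤ R ^ e := by
    have h1 : (fun x : ℝ => Real.log x ^ (k : ℝ)) =o[atTop] fun x => x ^ e :=
      isLittleO_log_rpow_rpow_atTop (k : ℝ) he
    have h2 := h1.bound (c := 1) one_pos
    filter_upwards [h2, eventually_ge_atTop (1 : ℝ)] with R hR hR1
    have hlog : 0 ≤ Real.log R := Real.log_nonneg hR1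
    rw [Real.rpow_natCast, Real.norm_of_nonneg (pow_nonneg hlog k),
      Real.norm_of_nonneg (Real.rpow_nonneg (by linarith) e), one_mul] at hR
    exact hR
  obtain ⟨R₃, hR₃⟩ := (hlo.and (eventually_ge_atTop (max R₁ 3))).exists_forall_of_atTop
  set R₂ : ℝ := max R₃ 3 with hR₂def
  have hR₂3 : 3 ≤ R₂ := le_max_right _ _
  have hgood : ∀ R : ℝ, R₂ ≤ R → (Real.log R) ^ k ≤ R ^ e ∧ R₁ ≤ R := by
    intro R hR
    have h3 := hR₃ R ((le_max_left _ _).trans hR)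
    exact ⟨h3.1, (le_max_left _ _).trans h3.2⟩
  set ℓ : ℝ := Real.log R₂ with hℓdef
  have hℓ : 0 < ℓ := Real.log_pos (by linarith)
  have hB0 : 0 ≤ B := (h0 0).trans (hB 0)
  -- threshold
  refine ⟨Real.exp (ℓ + B * (64 * ℓ) ^ (k + 1) + 1), ?_, ?_⟩
  · rw [Real.one_lt_exp_iff]
    have : 0 ≤ B * (64 * ℓ) ^ (k + 1) := by positivity
    linarith
  intro R hR
  have hX : 0 ≤ B * (64 * ℓ) ^ (k + 1) := by positivity
  have hRpos : 0 < R := lt_of_lt_of_le (Real.exp_pos _) hR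
  have hu : ℓ + B * (64 * ℓ) ^ (k + 1) + 1 ≤ Real.log R := by
    have := Real.log_le_log (Real.exp_pos _) hR
    rwa [Real.log_exp] at this
  set u : ℝ := Real.log R with hudef
  have hupos : 0 < u := by linarith
  by_contra hcon
  push Not at hcon
  have hcon' : (u ^ k)⁻¹ < M R := by
    rwa [Real.rpow_neg hupos.le, Real.rpow_natCast] at hcon
  -- induction
  have key : ∀ i : ℕ, ℓ ≤ u / 64 ^ i →
      ((64 : ℝ) ^ (k + 1)) ^ i * (u ^ k)⁻¹ ≤ M (Real.exp (u / 64 ^ i)) := by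
    intro i
    induction i with
    | zero =>
      intro _
      have : Real.exp (u / 64 ^ 0) = R := by
        rw [pow_zero, div_one, hudef, Real.exp_log hRpos]
      rw [this, pow_zero, one_mul]
      exact hcon'.le
    | succ i ih =>
      intro hi
      have h64 : (0 : ℝ) < 64 ^ i := by positivity
      have hle : u / 64 ^ (i + 1) ≤ u / 64 ^ i := by
        apply div_le_div_of_nonneg_left hupos.le h64
        exact pow_le_pow_right₀ (by norm_num) (Nat.le_succ i)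
      have hi' : ℓ ≤ u / 64 ^ i := hi.trans hle
      have hih := ih hi'
      set r : ℝ := Real.exp (u / 64 ^ i) with hr
      have hrpos : 0 < r := Real.exp_pos _
      have hlogr : Real.log r = u / 64 ^ i := by rw [hr, Real.log_exp]
      have hR2r : R₂ ≤ r := by
        have : Real.exp ℓ ≤ r := Real.exp_le_exp.mpr hi'
        rwa [hℓdef, Real.exp_log (by linarith)] at this
      obtain ⟨hg1, hg2⟩ := hgood r hR2r
      have hlogpos : 0 < Real.log r := by rw [hlogr]; positivity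
      -- r^(-e) ≤ M r
      have hA : r ^ (-e) ≤ (Real.log r ^ k)⁻¹ := by
        rw [Real.rpow_neg hrpos.le]
        apply inv_anti₀ (pow_pos hlogpos k) hg1
      have hBB : (Real.log r ^ k)⁻¹ ≤ ((64 : ℝ) ^ (k + 1)) ^ i * (u ^ k)⁻¹ := by
        rw [hlogr, div_pow, inv_div, div_eq_mul_inv]
        apply mul_le_mul_of_nonneg_right _ (by positivity)
        rw [← pow_mul, ← pow_mul]
        apply pow_le_pow_right₀ (by norm_num)
        nlinarith
      have hM : r ^ (-e) ≤ M r := hA.trans (hBB.trans hih)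
      have hnext := hR₁ r hg2 hM
      have hr64 : r ^ (1 / 64 : ℝ) = Real.exp (u / 64 ^ (i + 1)) := by
        rw [hr, ← Real.exp_mul]
        congr 1
        rw [pow_succ]
        field_simp
      rw [hr64] at hnext
      refine le_trans ?_ hnext.le
      rw [pow_succ ((64 : ℝ) ^ (k + 1)) i]
      have : ((64 : ℝ) ^ (k + 1)) ^ i * 64 ^ (k + 1) * (u ^ k)⁻¹
          = 64 ^ (k + 1) * (((64 : ℝ) ^ (k + 1)) ^ i * (u ^ k)⁻¹) := by ring
      rw [this]
      exact mul_le_mul_of_nonneg_left hih (by positivity)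
  have hx1 : 1 ≤ u / ℓ := by
    rw [le_div_iff₀ hℓ]; linarith
  obtain ⟨i, hi1, hi2⟩ := exists_nat_pow_near hx1 (by norm_num : (1 : ℝ) < 64)
  have h64 : (0 : ℝ) < 64 ^ i := by positivity
  have hi1' : ℓ ≤ u / 64 ^ i := by
    rw [le_div_iff₀ h64]
    rw [le_div_iff₀ hℓ] at hi1
    linarith
  have hk := (key i hi1').trans (hB _)
  -- 64^i > u/(64 ℓ)
  have hi2' : u / (64 * ℓ) ≤ 64 ^ i := by
    rw [div_le_iff₀ (by positivity)]
    rw [div_lt_iff₀ hℓ, pow_succ] at hi2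
    linarith
  have hpow : (u / (64 * ℓ)) ^ (k + 1) ≤ ((64 : ℝ) ^ (k + 1)) ^ i := by
    rw [← pow_mul, mul_comm (k + 1) i, pow_mul]
    exact pow_le_pow_left₀ (by positivity) hi2' (k + 1)
  have hfin : (u / (64 * ℓ)) ^ (k + 1) * (u ^ k)⁻¹ ≤ B :=
    (mul_le_mul_of_nonneg_right hpow (by positivity)).trans hk
  have hsimp : (u / (64 * ℓ)) ^ (k + 1) * (u ^ k)⁻¹ = u / (64 * ℓ) ^ (k + 1) := by
    rw [div_pow, pow_succ u k]
    field_simp
  rw [hsimp, div_le_iff₀ (by positivity)] at hfin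
  linarith

end Pool.Agent.Lib.SR
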