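import Pool.Agent.Lib.MP_b9430d_co.SR.Est
import Pool.Agent.Lib.MP_b9430d_co.Mom.TileF
import Pool.Agent.Lib.MP_b9430d_co.Mom.LocM

/-!
# Etru: truncation to the norms in `T`

`SP (ind V) ≤ SS (ind V) = a + b`, `SS (ind A) = c + d` with `a = ST T (ind V)`, `b = ST Tᶜ (ind V)`, `c = ST T (ind A)`,
`d = ST Tᶜ (ind A)` (`st_add_compl`). A.e. `a + b ≤ n` and `c + d ≤ n` (`ss_le`), so `χ (a+b)(c+d) = χ a c + χ a d + χ b (c+d) ≤ χ a c + n χ d + n χ b`.
`∫ χ b = ∫ χ ST Tᶜ (ind V) = ∫ ind V * ST Tᶜ χ ≤ ε |V|` (`st_symm`, hypothesis), the same for `d`, `A`.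
-/

set_option autoImplicit false

open MeasureTheory Complex Set Real Filter Topology
open scoped ENNReal

namespace Pool.Agent.Lib.SR

open Pool.MPb9430d Pool.MPb9430d.Rough Pool.MPb9430d.Frac Pool.MPb9430d.Mom

open Pool.Agent.Lib.DG (rp nq)

theorem trunc {E V A : Set ℂ} {n : ℕ} (hE : MeasurableSet E) (hT : Tile E n)
    (hV : MeasurableSet V) (hVE : V ⊆ E) (hA : MeasurableSet A) (hAE : A ⊆ E) (T : Set ℕ)
    {ρ X : ℝ} {ε : ℝ≥0∞} (hVX : ∀ y ∈ V, X ≤ ‖y‖) (hAX : ∀ y ∈ A, X ≤ ‖y‖)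
    (hm : ∀ y : ℂ, X ≤ ‖y‖ → NT.ST Tᶜ (fun x => ENNReal.ofReal (cut ρ x)) y ≤ ε) :
    ∫⁻ x, ENNReal.ofReal (cut ρ x) * SP (ind V) x * SS (ind A) x ≤
      (∫⁻ x, ENNReal.ofReal (cut ρ x) * NT.ST T (ind V) x * NT.ST T (ind A) x) +
        n * ε * (volume V + volume A) := by
  have hχ : Measurable (fun x : ℂ => ENNReal.ofReal (cut ρ x)) :=
    (continuous_cut ρ).measurable.ennreal_ofReal
  -- the discarded part of one set
  have htail : ∀ {U : Set ℂ}, MeasurableSet U → (∀ y ∈ U, X ≤ ‖y‖) →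
      ∫⁻ x, ENNReal.ofReal (cut ρ x) * NT.ST Tᶜ (ind U) x ≤ ε * volume U := by
    intro U hU hUX
    rw [st_symm Tᶜ hχ (measurable_ind hU)]
    calc ∫⁻ x, ind U x * NT.ST Tᶜ (fun x => ENNReal.ofReal (cut ρ x)) x
        ≤ ∫⁻ x, ε * ind U x := by
          refine lintegral_mono fun x => ?_
          by_cases hx : x ∈ U
          · rw [ind_of_mem hx, one_mul, mul_one]
            exact hm x (hUX x hx)
          · rw [ind_of_notMem hx, zero_mul, mul_zero]
      _ = ε * volume U := by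
          rw [lintegral_const_mul _ (measurable_ind hU)]
          congr 1
          unfold ind
          rw [lintegral_indicator_one hU]
  have hle : ∀ᵐ x : ℂ, ENNReal.ofReal (cut ρ x) * SP (ind V) x * SS (ind A) x ≤
      ENNReal.ofReal (cut ρ x) * NT.ST T (ind V) x * NT.ST T (ind A) x +
        (n * (ENNReal.ofReal (cut ρ x) * NT.ST Tᶜ (ind A) x) +
          n * (ENNReal.ofReal (cut ρ x) * NT.ST Tᶜ (ind V) x)) := by
    filter_upwards [ss_le hE hT hVE, ss_le hE hT hAE] with x h1 h2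
    have e1 := st_add_compl T (measurable_ind hV) x
    have e2 := st_add_compl T (measurable_ind hA) x
    rw [← e1] at h1
    have h3 : NT.ST T (ind V) x ≤ n := le_self_add.trans h1
    calc ENNReal.ofReal (cut ρ x) * SP (ind V) x * SS (ind A) x
        ≤ ENNReal.ofReal (cut ρ x) * SS (ind V) x * SS (ind A) x :=
          mul_le_mul' (mul_le_mul' le_rfl (sp_le_ss _ _)) le_rfl
      _ = ENNReal.ofReal (cut ρ x) * NT.ST T (ind V) x * NT.ST T (ind A) x +
          (NT.ST T (ind V) x * (ENNReal.ofReal (cut ρ x) * NT.ST Tᶜ (ind A) x) +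
            SS (ind A) x * (ENNReal.ofReal (cut ρ x) * NT.ST Tᶜ (ind V) x)) := by
          rw [← e1, ← e2]
          ring
      _ ≤ _ := by
          refine add_le_add le_rfl (add_le_add ?_ ?_)
          · exact mul_le_mul' h3 le_rfl
          · exact mul_le_mul' h2 le_rfl
  have m1 : Measurable (fun x => ENNReal.ofReal (cut ρ x) * NT.ST T (ind V) x * NT.ST T (ind A) x) :=
    (hχ.mul (measurable_ST T (measurable_ind hV))).mul (measurable_ST T (measurable_ind hA))
  have m2 : Measurable (fun x => ENNReal.ofReal (cut ρ x) * NT.ST Tᶜ (ind A) x) :=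
    hχ.mul (measurable_ST Tᶜ (measurable_ind hA))
  have m3 : Measurable (fun x => ENNReal.ofReal (cut ρ x) * NT.ST Tᶜ (ind V) x) :=
    hχ.mul (measurable_ST Tᶜ (measurable_ind hV))
  refine (lintegral_mono_ae hle).trans ?_
  rw [lintegral_add_left m1, lintegral_add_left (m2.const_mul _), lintegral_const_mul _ m2,
    lintegral_const_mul _ m3]
  refine add_le_add le_rfl ?_
  calc (n : ℝ≥0∞) * (∫⁻ x, ENNReal.ofReal (cut ρ x) * NT.ST Tᶜ (ind A) x) +
        n * ∫⁻ x, ENNReal.ofReal (cut ρ x) * NT.ST Tᶜ (ind V) x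
      ≤ n * (ε * volume A) + n * (ε * volume V) :=
        add_le_add (mul_le_mul' le_rfl (htail hA hAX)) (mul_le_mul' le_rfl (htail hV hVX))
    _ = n * ε * (volume V + volume A) := by ring

/-- If `T` contains all norms `m ≥ 1` nothing is lost. -/
theorem trunc_all {V A : Set ℂ} (hV : MeasurableSet V) (hA : MeasurableSet A) {ρ : ℝ}
    (hAρ : ∀ y ∈ A, ρ < ‖y‖) :
    ∫⁻ x, ENNReal.ofReal (cut ρ x) * SP (ind V) x * SS (ind A) x ≤
      ∫⁻ x, ENNReal.ofReal (cut ρ x) * NT.ST {m | 1 ≤ m} (ind V) x *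
        NT.ST {m | 1 ≤ m} (ind A) x := by
  have hsp : ∀ (g : ℂ → ℝ≥0∞) (x : ℂ), SP g x = NT.ST {m | 1 ≤ m} g x := by
    intro g x
    unfold SP NT.ST
    congr 1
    refine lintegral_congr fun θ => tsum_congr fun p => ?_
    have hp : nq p ∈ ({m | 1 ≤ m} : Set ℕ) ↔ p ≠ 0 := by
      rw [Set.mem_ofPred_eq]
      constructor
      · rintro h rfl
        simp [nq] at h
      · intro h
        unfold nq
        by_contra hcon
        have h0 : p.1.natAbs ^ 2 + p.2.natAbs ^ 2 = 0 := by omega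
        have h1 : p.1.natAbs = 0 := by
          by_contra h2
          have : 0 < p.1.natAbs ^ 2 := by positivity
          omega
        have h3 : p.2.natAbs = 0 := by
          by_contra h2
          have : 0 < p.2.natAbs ^ 2 := by positivity
          omega
        exact h (Prod.ext (Int.natAbs_eq_zero.1 h1) (Int.natAbs_eq_zero.1 h3))
    by_cases h : p = 0
    · rw [if_pos h, if_neg (fun h' => (hp.1 h') h)]
    · rw [if_neg h, if_pos (hp.2 h)]
  refine lintegral_mono fun x => ?_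
  rw [← hsp, ← hsp, ss_eq (measurable_ind hA)]
  by_cases hx : x ∈ A
  · rw [cut_of_ge (hAρ x hx).le, ENNReal.ofReal_zero, zero_mul, zero_mul]
    exact bot_le
  · rw [ind_of_notMem hx, zero_add]

end Pool.Agent.Lib.SR
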