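import Pool.Agent.Lib.MP_b9430d_co.SR.Esta
import Pool.Agent.Lib.MP_b9430d_co.SR.Etru
import Pool.Agent.Lib.MP_b9430d_co.SR.Ebas
import Pool.Agent.Lib.MP_b9430d_co.SR.Edic
import Pool.Agent.Lib.MP_b9430d_co.NT.MajS
import Pool.Agent.Lib.MP_b9430d_co.NT.MajF
import Pool.Agent.Lib.MP_b9430d_co.NT.TypM
import Pool.Agent.Lib.MP_b9430d_co.Mom.Fin
import Pool.Agent.Lib.MP_b9430d_co.Mom.Tail

/-!
# Efin: no measurable set is tiled

The basic inequality (`basic`), the dichotomy, and `star` in each of the two regimes.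
-/

set_option autoImplicit false

open MeasureTheory Complex Set Real Filter Topology
open scoped ENNReal

namespace Pool.Agent.Lib.SR

open Pool.MPb9430d Pool.MPb9430d.Rough Pool.MPb9430d.Frac Pool.MPb9430d.Mom

/-- the mass outside the disc of radius `R` -/
private noncomputable def mu (E : Set ℂ) (R : ℝ) : ℝ := volume.real (E ∩ {y | R ≤ ‖y‖})

private theorem mu_nonneg (E : Set ℂ) (R : ℝ) : 0 ≤ mu E R := measureReal_nonneg

private theorem mu_le {E : Set ℂ} {n : ℕ} (hE : MeasurableSet E) (hT : Tile E n) (R : ℝ) :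
    mu E R ≤ n := by
  have hfin : volume E ≠ ∞ := (volume_lt_top hE hT).ne
  have h4 : volume.real E = n := by
    rw [measureReal_def, vol_tile hE hT, ENNReal.toReal_natCast]
  rw [← h4]
  exact measureReal_mono Set.inter_subset_left hfin

private theorem mu_tendsto {E : Set ℂ} (hE : MeasurableSet E) (hfin : volume E ≠ ∞) :
    Tendsto (mu E) atTop (𝓝 0) := by
  rw [Metric.tendsto_atTop]
  intro ε hε
  obtain ⟨S, hS0, hS⟩ := exists_disc hE hfin hε
  refine ⟨S + 1, fun R hR => ?_⟩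
  rw [Real.dist_0_eq_abs, abs_of_nonneg (mu_nonneg E R)]
  refine lt_of_le_of_lt (measureReal_mono ?_ (ne_top_of_le_ne_top hfin
    (measure_mono Set.sdiff_subset))) hS
  rintro y ⟨h1, h2⟩
  refine ⟨h1, fun h3 => ?_⟩
  rw [mem_closedBall_zero_iff] at h3
  have h4 : R ≤ ‖y‖ := h2
  linarith

private theorem rpow64 : Tendsto (fun R : ℝ => R ^ (1 / 64 : ℝ)) atTop atTop :=
  tendsto_rpow_atTop (by norm_num)

/-- slow regime: the constant function -/
private theorem hasMaj_slow {d : ℝ} (hd : 0 < d) (hd1 : d ≤ 8 / 10 ^ 5) :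
    ∃ Λ : ℝ, HasMaj (NT.Typ d) (fun _ => Λ) := by
  obtain ⟨Λ, R₀, hΛ, hR₀, h⟩ := NT.maj_s hd hd1
  refine ⟨Λ, ?_, ?_⟩
  · intro h0
    have h1 : 1 ≤ (0 : ℕ) := h0.1
    omega
  · have h2 : Tendsto (fun R : ℝ => R ^ (1 / 10 ^ 5 : ℝ)) atTop atTop :=
      tendsto_rpow_atTop (by norm_num)
    obtain ⟨R₁, hR₁⟩ := eventually_atTop.1 (h2.eventually_ge_atTop Λ)
    refine ⟨max R₀ R₁, fun R hR => ⟨hΛ, hR₁ R ((le_max_right _ _).trans hR), ?_⟩⟩
    exact h R ((le_max_left _ _).trans hR)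

/-- fast regime -/
private theorem hasMaj_fast : ∃ C : ℝ, 0 < C ∧
    HasMaj {m | 1 ≤ m} (fun R => (C + 1) * (1 + Real.log R) ^ C) := by
  obtain ⟨C, hC, h⟩ := NT.maj_f
  refine ⟨C, hC, ?_, ?_⟩
  · intro h0
    have h1 : 1 ≤ (0 : ℕ) := h0
    omega
  · have h2 : ∀ᶠ R : ℝ in atTop, (C + 1) * (1 + Real.log R) ^ C ≤ R ^ (1 / 10 ^ 5 : ℝ) := by
      have h3 : (fun x : ℝ => x ^ C) =o[atTop] (fun x : ℝ => Real.exp ((1 / 10 ^ 5 : ℝ) * x)) :=
        isLittleO_rpow_exp_pos_mul_atTop C (by norm_num)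
      have h4 : Tendsto (fun R : ℝ => 1 + Real.log R) atTop atTop :=
        tendsto_const_nhds.add_atTop Real.tendsto_log_atTop
      have h5 := (h3.comp_tendsto h4).def (c := ((C + 1) * Real.exp (1 / 10 ^ 5 : ℝ))⁻¹)
        (by positivity)
      filter_upwards [h5, eventually_ge_atTop (1 : ℝ)] with R hR hR1
      have hlog : 0 ≤ Real.log R := Real.log_nonneg hR1
      simp only [Function.comp_apply] at hR
      rw [Real.norm_of_nonneg (Real.rpow_nonneg (by linarith) _),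
        Real.norm_of_nonneg (Real.exp_pos _).le] at hR
      have h6 : Real.exp ((1 / 10 ^ 5 : ℝ) * (1 + Real.log R)) =
          Real.exp (1 / 10 ^ 5 : ℝ) * R ^ (1 / 10 ^ 5 : ℝ) := by
        rw [Real.rpow_def_of_pos (by linarith), ← Real.exp_add]
        congr 1
        ring
      rw [h6] at hR
      have hC1 : 0 < C + 1 := by linarith
      have hex := Real.exp_pos (1 / 10 ^ 5 : ℝ)
      calc (C + 1) * (1 + Real.log R) ^ C
          ≤ (C + 1) * (((C + 1) * Real.exp (1 / 10 ^ 5 : ℝ))⁻¹ *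
            (Real.exp (1 / 10 ^ 5 : ℝ) * R ^ (1 / 10 ^ 5 : ℝ))) :=
            mul_le_mul_of_nonneg_left hR hC1.le
        _ = R ^ (1 / 10 ^ 5 : ℝ) := by field_simp
    obtain ⟨R₁, hR₁⟩ := eventually_atTop.1 h2
    refine ⟨max 2 R₁, fun R hR => ?_⟩
    have hR2 : 2 ≤ R := (le_max_left _ _).trans hR
    have hlog : 0 ≤ Real.log R := Real.log_nonneg (by linarith)
    have hpow : 1 ≤ (1 + Real.log R) ^ C := Real.one_le_rpow (by linarith) hC.le
    refine ⟨?_, hR₁ R ((le_max_right _ _).trans hR), ?_⟩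
    · nlinarith
    · obtain ⟨g, hg⟩ := h R hR2
      refine ⟨g, ⟨hg.nonneg, fun m hm h1 h2 => ?_, fun q hq => ?_⟩⟩
      · refine hg.maj m (Set.mem_univ _) ?_ h2
        have h3 : (1 : ℕ) ≤ m := hm
        exact_mod_cast h3
      · refine (hg.coef q hq).trans ?_
        have h3 : (0 : ℝ) ≤ (q : ℝ) ^ (-(99 / 100) : ℝ) := Real.rpow_nonneg (Nat.cast_nonneg q) _
        refine mul_le_mul_of_nonneg_right ?_ h3
        nlinarith

private theorem fast_tendsto {E : Set ℂ} {C : ℝ} (hC : 0 < C) {k : ℕ} (hk : 4 * C + 4 < k)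
    (hF : ∃ R₀ : ℝ, 1 < R₀ ∧ ∀ R : ℝ, R₀ ≤ R → mu E R ≤ (Real.log R) ^ (-(k : ℝ))) :
    Tendsto (fun R : ℝ => ((C + 1) * (1 + Real.log R) ^ C) ^ 2 *
      (√(mu E (R ^ (1 / 64 : ℝ))) + mu E (R ^ (1 / 64 : ℝ)))) atTop (𝓝 0) := by
  obtain ⟨R₀, hR₀, h⟩ := hF
  have hk0 : (0 : ℝ) < k := by linarith
  have hpos : 0 < (k : ℝ) / 2 - 2 * C := by linarith
  have hlim : Tendsto (fun R : ℝ => (C + 1) ^ 2 * 2 ^ (2 * C) * (2 * 64 ^ ((k : ℝ) / 2)) *
      (Real.log R) ^ (-((k : ℝ) / 2 - 2 * C))) atTop (𝓝 0) := by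
    have h1 := (tendsto_rpow_neg_atTop hpos).comp Real.tendsto_log_atTop
    have h2 := h1.const_mul ((C + 1) ^ 2 * 2 ^ (2 * C) * (2 * 64 ^ ((k : ℝ) / 2)))
    rw [mul_zero] at h2
    exact h2
  refine tendsto_of_tendsto_of_tendsto_of_le_of_le' tendsto_const_nhds hlim ?_ ?_
  · filter_upwards [] with R
    have := mu_nonneg E (R ^ (1 / 64 : ℝ))
    positivity
  · filter_upwards [rpow64.eventually_ge_atTop R₀, Real.tendsto_log_atTop.eventually_ge_atTop 64,
      eventually_gt_atTop (1 : ℝ)] with R h1 h2 h3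
    have h4 := h _ h1
    have h5 : Real.log (R ^ (1 / 64 : ℝ)) = Real.log R / 64 := by
      rw [Real.log_rpow (by linarith)]
      ring
    rw [h5] at h4
    set x := Real.log R with hx
    have hx0 : 0 < x := by linarith
    have hx64 : 1 ≤ x / 64 := by linarith
    have h6 : (x / 64) ^ (-(k : ℝ)) ≤ (x / 64) ^ (-((k : ℝ) / 2)) :=
      Real.rpow_le_rpow_of_exponent_le hx64 (by linarith)
    have h7 : √(mu E (R ^ (1 / 64 : ℝ))) ≤ (x / 64) ^ (-((k : ℝ) / 2)) := by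
      calc √(mu E (R ^ (1 / 64 : ℝ))) ≤ √((x / 64) ^ (-(k : ℝ))) := Real.sqrt_le_sqrt h4
        _ = (x / 64) ^ (-((k : ℝ) / 2)) := by
            rw [Real.sqrt_eq_rpow, ← Real.rpow_mul (by positivity)]
            congr 1
            ring
    have h8 : √(mu E (R ^ (1 / 64 : ℝ))) + mu E (R ^ (1 / 64 : ℝ)) ≤
        2 * (x / 64) ^ (-((k : ℝ) / 2)) := by linarith [h4.trans h6]
    have h9 : (x / 64) ^ (-((k : ℝ) / 2)) = 64 ^ ((k : ℝ) / 2) * x ^ (-((k : ℝ) / 2)) := by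
      rw [Real.div_rpow hx0.le (by norm_num), Real.rpow_neg (by norm_num : (0 : ℝ) ≤ 64),
        div_inv_eq_mul, mul_comm]
    have h10 : (1 + x) ^ C ≤ 2 ^ C * x ^ C := by
      rw [← Real.mul_rpow (by norm_num) hx0.le]
      exact Real.rpow_le_rpow (by linarith) (by linarith) hC.le
    have h11 : ((C + 1) * (1 + x) ^ C) ^ 2 ≤ (C + 1) ^ 2 * 2 ^ (2 * C) * x ^ (2 * C) := by
      calc ((C + 1) * (1 + x) ^ C) ^ 2 ≤ ((C + 1) * (2 ^ C * x ^ C)) ^ 2 := by
            have : 0 ≤ (1 + x) ^ C := Real.rpow_nonneg (by linarith) _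
            gcongr
        _ = (C + 1) ^ 2 * (2 ^ C * 2 ^ C) * (x ^ C * x ^ C) := by ring
        _ = (C + 1) ^ 2 * 2 ^ (2 * C) * x ^ (2 * C) := by
            rw [← Real.rpow_add (by norm_num), ← Real.rpow_add hx0, two_mul]
    have h12 : x ^ (2 * C) * x ^ (-((k : ℝ) / 2)) = x ^ (-((k : ℝ) / 2 - 2 * C)) := by
      rw [← Real.rpow_add hx0]
      congr 1
      ring
    calc ((C + 1) * (1 + x) ^ C) ^ 2 *
          (√(mu E (R ^ (1 / 64 : ℝ))) + mu E (R ^ (1 / 64 : ℝ)))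
        ≤ ((C + 1) ^ 2 * 2 ^ (2 * C) * x ^ (2 * C)) * (2 * (x / 64) ^ (-((k : ℝ) / 2))) := by
          refine mul_le_mul h11 h8 ?_ (by positivity)
          have := mu_nonneg E (R ^ (1 / 64 : ℝ))
          positivity
      _ = (C + 1) ^ 2 * 2 ^ (2 * C) * (2 * 64 ^ ((k : ℝ) / 2)) *
          (x ^ (2 * C) * x ^ (-((k : ℝ) / 2))) := by
          rw [h9]
          ring
      _ = _ := by rw [h12]

private theorem slow_tendsto {E : Set ℂ} (hE : MeasurableSet E) (hfin : volume E ≠ ∞) (Λ : ℝ) :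
    Tendsto (fun R : ℝ => Λ ^ 2 *
      (√(mu E (R ^ (1 / 64 : ℝ))) + mu E (R ^ (1 / 64 : ℝ)))) atTop (𝓝 0) := by
  have h1 : Tendsto (fun R : ℝ => mu E (R ^ (1 / 64 : ℝ))) atTop (𝓝 0) :=
    (mu_tendsto hE hfin).comp rpow64
  have h2 : Tendsto (fun R : ℝ => √(mu E (R ^ (1 / 64 : ℝ)))) atTop (𝓝 0) := by
    have := (Real.continuous_sqrt.tendsto 0).comp h1
    rw [Real.sqrt_zero] at this
    exact this
  have h3 := (h2.add h1).const_mul (Λ ^ 2)
  rw [add_zero, mul_zero] at h3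
  exact h3

/-- `a ≤ 2 J`, `J ≤ (3/16) a` is impossible for a positive finite `a`. -/
private theorem contra {a J : ℝ≥0∞} (h0 : a ≠ 0) (hfin : a ≠ ∞) (h1 : a ≤ 2 * J)
    (h2 : J ≤ ENNReal.ofReal (3 / 16) * a) : False := by
  have h3 : a ≤ ENNReal.ofReal (3 / 8) * a := by
    calc a ≤ 2 * (ENNReal.ofReal (3 / 16) * a) := h1.trans (by gcongr)
      _ = ENNReal.ofReal (3 / 8) * a := by
          rw [← mul_assoc, show (2 : ℝ≥0∞) = ENNReal.ofReal 2 by norm_num,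
            ← ENNReal.ofReal_mul (by norm_num)]
          norm_num
  have h4 : ENNReal.ofReal (3 / 8) * a < 1 * a :=
    ENNReal.mul_lt_mul_left h0 hfin (by rw [← ENNReal.ofReal_one]; exact (ENNReal.ofReal_lt_ofReal_iff (by norm_num)).2 (by norm_num))
  rw [one_mul] at h4
  exact absurd h3 (not_le.2 h4)

theorem no_tile {E : Set ℂ} {n : ℕ} (hn : 1 ≤ n) (hE : MeasurableSet E) (hT : Tile E n) :
    False := by
  have hfin : volume E ≠ ∞ := (volume_lt_top hE hT).ne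
  obtain ⟨ρ, Rb, hρ, hRb, hbas⟩ := basic hn hE hT
  obtain ⟨C, hC, hfast⟩ := hasMaj_fast
  obtain ⟨k, hk⟩ := exists_nat_gt (4 * C + 4)
  have hfinA : ∀ R : ℝ, volume (E ∩ {y | R ≤ ‖y‖}) ≠ ∞ := fun R =>
    ne_top_of_le_ne_top hfin (measure_mono Set.inter_subset_left)
  have hne : ∀ R : ℝ, 0 < mu E R → volume (E ∩ {y | R ≤ ‖y‖}) ≠ 0 := by
    intro R hR h
    unfold mu at hR
    rw [measureReal_def, h, ENNReal.toReal_zero] at hR
    exact lt_irrefl _ hR
  have hof : ∀ R : ℝ, volume (E ∩ {y | R ≤ ‖y‖}) = ENNReal.ofReal (mu E R) := fun R =>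
    (ofReal_measureReal (hfinA R)).symm
  have he : (0 : ℝ) < 1 / 10 ^ 5 := by norm_num
  have mV : ∀ R : ℝ, MeasurableSet (E ∩ {y | R ^ (1 / 64 : ℝ) < ‖y‖}) := fun R =>
    hE.inter (measurableSet_lt measurable_const measurable_norm)
  have mA : ∀ R : ℝ, MeasurableSet (E ∩ {y | R ≤ ‖y‖}) := fun R =>
    hE.inter (measurableSet_le measurable_const measurable_norm)
  have hcube : ∀ R : ℝ, 1 ≤ R → R ^ (-3 : ℝ) / 2 ≤ R ^ (-(1 / 10 ^ 5) : ℝ) := by
    intro R hR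
    have h1 : R ^ (-3 : ℝ) ≤ R ^ (-(1 / 10 ^ 5) : ℝ) :=
      Real.rpow_le_rpow_of_exponent_le hR (by norm_num)
    have h2 : 0 ≤ R ^ (-3 : ℝ) := Real.rpow_nonneg (by linarith) _
    linarith
  rcases dichotomy (M := mu E) (B := n) (mu_nonneg E) (mu_le hE hT) he k with hF | hS
  · -- fast regime
    obtain ⟨R₁, hR₁, hstar⟩ := star hE hT hρ hfast (fast_tendsto hC hk hF)
      (η := 3 / 16) (by norm_num)
    have hbig := big_tail_eps hE hfin (β := 1 / (2 * 10 ^ 5)) (ε := 1 / 10 ^ 5) (by norm_num)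
      (by norm_num) (all_moments hn hE hT (by norm_num)) (max (max R₁ Rb) (ρ + 1))
    obtain ⟨R, hR, hRm⟩ := hbig
    have hR1 : R₁ ≤ R := ((le_max_left _ _).trans (le_max_left _ _)).trans hR
    have hR2 : Rb ≤ R := ((le_max_right _ _).trans (le_max_left _ _)).trans hR
    have hR3 : ρ + 1 ≤ R := (le_max_right _ _).trans hR
    have hR0 : 1 ≤ R := by linarith
    have hpos : 0 < mu E R := lt_trans (Real.rpow_pos_of_pos (by linarith) _) hRm
    refine contra (hne R hpos) (hfinA R) (hbas R hR2 ((hcube R hR0).trans hRm.le)) ?_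
    refine (trunc_all (mV R) (mA R) ?_).trans (hstar R hR1 hRm.le)
    rintro y ⟨-, hy⟩
    have hy' : R ≤ ‖y‖ := hy
    linarith
  · -- slow regime
    have hn0 : (0 : ℝ) < n := by exact_mod_cast hn
    obtain ⟨C₁, hC₁⟩ : ∃ C₁ : ℝ, C₁ = 64 ^ (k + 1) := ⟨_, rfl⟩
    have hC₁0 : 0 < C₁ := by rw [hC₁]; positivity
    obtain ⟨ε, hε⟩ : ∃ ε : ℝ, ε = 1 / (16 * n * (C₁ + 1)) := ⟨_, rfl⟩
    have hε0 : 0 < ε := by rw [hε]; positivity
    obtain ⟨d, hd, hd1, X₀, hX₀, htyp⟩ := NT.typ_mass hρ hε0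
    obtain ⟨Λ, hslow⟩ := hasMaj_slow hd hd1
    obtain ⟨R₁, hR₁, hstar⟩ := star hE hT hρ hslow (slow_tendsto hE hfin Λ)
      (η := 1 / 8) (by norm_num)
    obtain ⟨R₂, hR₂⟩ := eventually_atTop.1 (rpow64.eventually_ge_atTop X₀)
    obtain ⟨R, hR, hRm, hRS⟩ := hS (max (max R₁ Rb) (max (ρ + 1) (max R₂ X₀)))
    have hR1 : R₁ ≤ R := ((le_max_left _ _).trans (le_max_left _ _)).trans hR
    have hR2 : Rb ≤ R := ((le_max_right _ _).trans (le_max_left _ _)).trans hR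
    have hR3 : ρ + 1 ≤ R := ((le_max_left _ _).trans (le_max_right _ _)).trans hR
    have hR4 : R₂ ≤ R :=
      (((le_max_left _ _).trans (le_max_right _ _)).trans (le_max_right _ _)).trans hR
    have hR5 : X₀ ≤ R :=
      (((le_max_right _ _).trans (le_max_right _ _)).trans (le_max_right _ _)).trans hR
    have hR0 : 1 ≤ R := by linarith
    have hpos : 0 < mu E R := lt_of_lt_of_le (Real.rpow_pos_of_pos (by linarith) _) hRm
    refine contra (hne R hpos) (hfinA R) (hbas R hR2 ((hcube R hR0).trans hRm)) ?_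
    have htr := trunc hE hT (mV R) Set.inter_subset_left (mA R) Set.inter_subset_left (NT.Typ d)
      (ρ := ρ) (X := X₀) (ε := ENNReal.ofReal ε) ?_ ?_ htyp
    · refine htr.trans ?_
      have h1 := hstar R hR1 hRm
      have h2 : volume (E ∩ {y | R ^ (1 / 64 : ℝ) < ‖y‖}) ≤ ENNReal.ofReal (C₁ * mu E R) := by
        calc volume (E ∩ {y | R ^ (1 / 64 : ℝ) < ‖y‖})
            ≤ volume (E ∩ {y | R ^ (1 / 64 : ℝ) ≤ ‖y‖}) := by
              refine measure_mono ?_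
              rintro y ⟨h1, h2⟩
              exact ⟨h1, le_of_lt (show R ^ (1 / 64 : ℝ) < ‖y‖ from h2)⟩
          _ = ENNReal.ofReal (mu E (R ^ (1 / 64 : ℝ))) := hof _
          _ ≤ ENNReal.ofReal (C₁ * mu E R) := by
              apply ENNReal.ofReal_le_ofReal
              rw [hC₁]
              exact hRS
      have h3 : (n : ℝ≥0∞) * ENNReal.ofReal ε * (volume (E ∩ {y | R ^ (1 / 64 : ℝ) < ‖y‖}) +
          volume (E ∩ {y | R ≤ ‖y‖})) ≤ ENNReal.ofReal (1 / 16) * volume (E ∩ {y | R ≤ ‖y‖}) := by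
        calc (n : ℝ≥0∞) * ENNReal.ofReal ε * (volume (E ∩ {y | R ^ (1 / 64 : ℝ) < ‖y‖}) +
              volume (E ∩ {y | R ≤ ‖y‖}))
            ≤ ENNReal.ofReal n * ENNReal.ofReal ε * (ENNReal.ofReal (C₁ * mu E R) +
              ENNReal.ofReal (mu E R)) := by
              rw [ENNReal.ofReal_natCast, ← hof R]
              gcongr
          _ = ENNReal.ofReal (1 / 16) * ENNReal.ofReal (mu E R) := by
              rw [← ENNReal.ofReal_add (by positivity) hpos.le, ← ENNReal.ofReal_mul hn0.le,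
                ← ENNReal.ofReal_mul (by positivity), ← ENNReal.ofReal_mul (by norm_num)]
              congr 1
              rw [hε]
              field_simp
          _ = _ := by rw [hof R]
      calc (∫⁻ x, ENNReal.ofReal (cut ρ x) *
            NT.ST (NT.Typ d) (ind (E ∩ {y | R ^ (1 / 64 : ℝ) < ‖y‖})) x *
            NT.ST (NT.Typ d) (ind (E ∩ {y | R ≤ ‖y‖})) x) + n * ENNReal.ofReal ε *
              (volume (E ∩ {y | R ^ (1 / 64 : ℝ) < ‖y‖}) + volume (E ∩ {y | R ≤ ‖y‖}))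
          ≤ ENNReal.ofReal (1 / 8) * volume (E ∩ {y | R ≤ ‖y‖}) +
            ENNReal.ofReal (1 / 16) * volume (E ∩ {y | R ≤ ‖y‖}) := add_le_add h1 h3
        _ = ENNReal.ofReal (3 / 16) * volume (E ∩ {y | R ≤ ‖y‖}) := by
            rw [← add_mul, ← ENNReal.ofReal_add (by norm_num) (by norm_num)]
            norm_num
    · rintro y ⟨-, hy⟩
      have hy' : R ^ (1 / 64 : ℝ) < ‖y‖ := hy
      have := hR₂ R hR4
      linarith
    · rintro y ⟨-, hy⟩
      have hy' : R ≤ ‖y‖ := hy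
      linarith

end Pool.Agent.Lib.SR
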