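import Pool.Agent.Lib.MP_b9430d_co.SR.Defs
import Pool.Agent.Lib.MP_b9430d_co.Mom.NearM

/-!
# Env: the near part of one shell

Variant of the second half of `Mom.near_main` (same proof, copy it from Mom/NearM.lean): `U ⊆ E ∩ closedBall 0 (R ^ (1/64))` is now an
arbitrary measurable subset and no lower bound for `|A|` is assumed, so the error terms of `Mom.lem_g` are kept.
`X = R ^ (1/64) + ρ`, `g x = cut ρ x * min (phi U X x) n` (`phi_eq`: `SP (ind U) x = ofReal (phi U X x)` for `‖x‖ ≤ ρ`; `phi_le`: `phi U X ≤ n` a.e.,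
`phi_smooth`: `∫ (g - smo N g)² ≤ (60 X² (√|U| + n + 1) ρ)² / N`; `|U| ≤ |E| = n` (`vol_tile`)). `lem_g` with `K = n`, `Λ = 60 X² (√n + n + 1) ρ ≤ C R^(1/32)`:
`|∫ g sA A - |A| ∫ g| ≤ C R^(1/32) (R^(-1/20) |A| + R^(-4) √|A| + R^(-10)) ≤ η |A| + R^(-3)` for `R ≥ R₁` (`√|A| ≤ √n`).
-/

set_option autoImplicit false

open MeasureTheory Complex Set Real Filter Topology
open scoped ENNReal

namespace Pool.Agent.Lib.SR

open Pool.MPb9430d Pool.MPb9430d.Rough Pool.MPb9430d.Frac Pool.MPb9430d.Mom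

private theorem Env_gint {K ρ : ℝ} {g : ℂ → ℝ} (hg : Measurable g) (h0 : ∀ x, 0 ≤ g x)
    (hK : ∀ x, g x ≤ K) (hs : ∀ x, ρ < ‖x‖ → g x = 0) : Integrable g := by
  have h1 : IntegrableOn g (Metric.closedBall 0 ρ) := by
    refine Measure.integrableOn_of_bounded (M := K) measure_closedBall_lt_top.ne
      hg.aestronglyMeasurable (Eventually.of_forall fun x => ?_)
    rw [Real.norm_of_nonneg (h0 x)]
    exact hK x
  refine (integrableOn_iff_integrable_of_support_subset ?_).1 h1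
  intro x hx
  rw [mem_closedBall_zero_iff]
  by_contra hcon
  exact hx (hs x (not_le.1 hcon))

private theorem Env_conv {A : Set ℂ} {n : ℕ} (hA : MeasurableSet A)
    (hn : ∀ᵐ x : ℂ, SS (ind A) x ≤ n) {K ρ : ℝ} {g : ℂ → ℝ} (hg : Measurable g)
    (h0 : ∀ x, 0 ≤ g x) (hK : ∀ x, g x ≤ K) (hs : ∀ x, ρ < ‖x‖ → g x = 0) :
    (∫⁻ x, ENNReal.ofReal (g x) = ENNReal.ofReal (∫ x, g x)) ∧
      ∫⁻ x, ENNReal.ofReal (g x) * SS (ind A) x = ENNReal.ofReal (∫ x, g x * sA A x) := by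
  obtain ⟨h1, h2, h3, h4⟩ := sA_facts hA hn
  have hi := Env_gint hg h0 hK hs
  refine ⟨(ofReal_integral_eq_lintegral_ofReal hi (Eventually.of_forall h0)).symm, ?_⟩
  have hi2 : Integrable (fun x => g x * sA A x) := by
    refine Integrable.mul_bdd (c := n) hi h1.aestronglyMeasurable ?_
    filter_upwards [h3] with x hx
    rw [Real.norm_of_nonneg (h2 x)]
    exact hx
  rw [ofReal_integral_eq_lintegral_ofReal hi2
    (Eventually.of_forall fun x => mul_nonneg (h0 x) (h2 x))]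
  refine lintegral_congr_ae ?_
  filter_upwards [h4] with x hx
  rw [ENNReal.ofReal_mul (h0 x), hx]

private theorem Env_err {R a V C B η Q : ℝ} (hR : 1 ≤ R) (ha : 0 ≤ a) (haV : a ≤ V) (hC : 0 < C)
    (hB : 0 < B) (h1 : R ^ (-(3 / 160) : ℝ) ≤ η / (C * B))
    (h2 : R ^ (-(3 / 160) : ℝ) ≤ 1 / (C * B * (√V + 1))) (hQ0 : 0 ≤ Q)
    (hQ : Q ≤ B * R ^ (1 / 32 : ℝ)) :
    C * Q * (R ^ (-(1 / 20) : ℝ) * a + R ^ (-4 : ℝ) * √a + R ^ (-10 : ℝ)) ≤
      η * a + R ^ (-3 : ℝ) := by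
  have hR0 : 0 < R := by linarith
  have hp20 : 0 < R ^ (-(1 / 20) : ℝ) := Real.rpow_pos_of_pos hR0 _
  have hp4 : 0 < R ^ (-4 : ℝ) := Real.rpow_pos_of_pos hR0 _
  have hp3 : 0 < R ^ (-3 : ℝ) := Real.rpow_pos_of_pos hR0 _
  have hV : √a ≤ √V := Real.sqrt_le_sqrt haV
  have hV0 : 0 ≤ √V := Real.sqrt_nonneg V
  have e1 : R ^ (1 / 32 : ℝ) * R ^ (-(1 / 20) : ℝ) = R ^ (-(3 / 160) : ℝ) := by
    rw [← Real.rpow_add hR0]
    norm_num
  have e2 : R ^ (1 / 32 : ℝ) * R ^ (-4 : ℝ) ≤ R ^ (-(3 / 160) : ℝ) * R ^ (-3 : ℝ) := by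
    rw [← Real.rpow_add hR0, ← Real.rpow_add hR0]
    exact Real.rpow_le_rpow_of_exponent_le hR (by norm_num)
  have e3 : R ^ (-10 : ℝ) ≤ R ^ (-4 : ℝ) := Real.rpow_le_rpow_of_exponent_le hR (by norm_num)
  have hs : R ^ (-4 : ℝ) * √a + R ^ (-10 : ℝ) ≤ R ^ (-4 : ℝ) * (√V + 1) := by
    have := mul_le_mul_of_nonneg_left hV hp4.le
    linarith
  have k1 : C * Q * (R ^ (-(1 / 20) : ℝ) * a) ≤ η * a := by
    calc C * Q * (R ^ (-(1 / 20) : ℝ) * a) = (C * R ^ (-(1 / 20) : ℝ) * a) * Q := by ring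
      _ ≤ (C * R ^ (-(1 / 20) : ℝ) * a) * (B * R ^ (1 / 32 : ℝ)) :=
          mul_le_mul_of_nonneg_left hQ (by positivity)
      _ = (C * B) * (R ^ (1 / 32 : ℝ) * R ^ (-(1 / 20) : ℝ)) * a := by ring
      _ = (C * B) * R ^ (-(3 / 160) : ℝ) * a := by rw [e1]
      _ ≤ (C * B) * (η / (C * B)) * a :=
          mul_le_mul_of_nonneg_right (mul_le_mul_of_nonneg_left h1 (by positivity)) ha
      _ = η * a := by rw [mul_div_cancel₀ _ (by positivity)]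
  have k2 : C * Q * (R ^ (-4 : ℝ) * √a + R ^ (-10 : ℝ)) ≤ R ^ (-3 : ℝ) := by
    calc C * Q * (R ^ (-4 : ℝ) * √a + R ^ (-10 : ℝ))
        ≤ C * Q * (R ^ (-4 : ℝ) * (√V + 1)) :=
          mul_le_mul_of_nonneg_left hs (mul_nonneg hC.le hQ0)
      _ = (C * R ^ (-4 : ℝ) * (√V + 1)) * Q := by ring
      _ ≤ (C * R ^ (-4 : ℝ) * (√V + 1)) * (B * R ^ (1 / 32 : ℝ)) :=
          mul_le_mul_of_nonneg_left hQ (by positivity)
      _ = (C * B * (√V + 1)) * (R ^ (1 / 32 : ℝ) * R ^ (-4 : ℝ)) := by ring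
      _ ≤ (C * B * (√V + 1)) * (R ^ (-(3 / 160) : ℝ) * R ^ (-3 : ℝ)) :=
          mul_le_mul_of_nonneg_left e2 (by positivity)
      _ = ((C * B * (√V + 1)) * R ^ (-(3 / 160) : ℝ)) * R ^ (-3 : ℝ) := by ring
      _ ≤ ((C * B * (√V + 1)) * (1 / (C * B * (√V + 1)))) * R ^ (-3 : ℝ) :=
          mul_le_mul_of_nonneg_right (mul_le_mul_of_nonneg_left h2 (by positivity)) hp3.le
      _ = R ^ (-3 : ℝ) := by
          rw [mul_one_div_cancel (by positivity), one_mul]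
  have k3 : C * Q * (R ^ (-(1 / 20) : ℝ) * a + R ^ (-4 : ℝ) * √a + R ^ (-10 : ℝ)) =
      C * Q * (R ^ (-(1 / 20) : ℝ) * a) + C * Q * (R ^ (-4 : ℝ) * √a + R ^ (-10 : ℝ)) := by ring
  rw [k3]
  linarith

theorem near_var {E : Set ℂ} {n : ℕ} (hE : MeasurableSet E) (hT : Tile E n) {ρ : ℝ}
    (hρ : 1 ≤ ρ) {η : ℝ} (hη : 0 < η) : ∃ R₁ : ℝ, 1 ≤ R₁ ∧ ∀ R : ℝ, R₁ ≤ R → ∀ A U : Set ℂ,
    MeasurableSet A → A ⊆ E → (∀ y ∈ A, R ≤ ‖y‖) → MeasurableSet U → U ⊆ E →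
    (∀ y ∈ U, ‖y‖ ≤ R ^ (1 / 64 : ℝ)) →
    (∫⁻ x, ENNReal.ofReal (cut ρ x) * SP (ind U) x * SS (ind A) x) ≤
      (∫⁻ x, ENNReal.ofReal (cut ρ x) * SP (ind U) x) * volume A +
        ENNReal.ofReal η * volume A + ENNReal.ofReal (R ^ (-3 : ℝ)) := by
  have hEfin : volume E ≠ ∞ := (volume_lt_top hE hT).ne
  obtain ⟨C, R₁, hC, hR₁, hlem⟩ := lem_g n hρ
  have hρ0 : 0 < ρ := by linarith
  have hn0 : (0 : ℝ) ≤ n := Nat.cast_nonneg n
  set V : ℝ := volume.real E with hVdef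
  have hV0 : 0 ≤ V := measureReal_nonneg
  set B : ℝ := n + 60 * (1 + ρ) ^ 2 * (√V + n + 1) * ρ + 1 with hBdef
  have hB0 : 0 < B := by positivity
  have hlim := (tendsto_rpow_neg_atTop (show (0 : ℝ) < 3 / 160 by norm_num)).eventually
    (gt_mem_nhds (show 0 < min (η / (C * B)) (1 / (C * B * (√V + 1))) by
      apply lt_min <;> positivity))
  obtain ⟨R₂, hR₂⟩ := eventually_atTop.1 hlim
  refine ⟨max R₁ (max R₂ 1), le_max_of_le_left hR₁,
    fun R hR A U hA hAE hAR hU hUE hUR => ?_⟩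
  have hRR₁ : R₁ ≤ R := (le_max_left _ _).trans hR
  have hRR₂ : R₂ ≤ R := ((le_max_left _ _).trans (le_max_right _ _)).trans hR
  have hR1 : 1 ≤ R := hR₁.trans hRR₁
  have hR0 : 0 < R := by linarith
  have hAfin : volume A ≠ ∞ := measure_ne_top_of_subset hAE hEfin
  have hss := ss_le hE hT hAE
  have hkey := hlem R hRR₁ A hA hAfin hss hAR
  set a : ℝ := volume.real A with hadef
  have ha0 : 0 ≤ a := measureReal_nonneg
  have haV : a ≤ V := measureReal_mono hAE hEfin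
  have hvA : volume A = ENNReal.ofReal a := by
    rw [hadef, ofReal_measureReal hAfin]
  -- the error bound
  have herr : ∀ Q : ℝ, 0 ≤ Q → Q ≤ B * R ^ (1 / 32 : ℝ) →
      C * Q * (R ^ (-(1 / 20) : ℝ) * a + R ^ (-4 : ℝ) * √a + R ^ (-10 : ℝ)) ≤
        η * a + R ^ (-3 : ℝ) := by
    intro Q hQ0 hQ
    have h2 := (hR₂ R hRR₂).le
    exact Env_err hR1 ha0 haV hC hB0 (h2.trans (min_le_left _ _)) (h2.trans (min_le_right _ _))
      hQ0 hQ
  have hcut0 : ∀ x, ρ < ‖x‖ → cut ρ x = 0 := fun x hx => cut_of_ge hx.le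
  have hUfin : volume U ≠ ∞ := measure_ne_top_of_subset hUE hEfin
  have hR64 : 1 ≤ R ^ (1 / 64 : ℝ) := Real.one_le_rpow hR1 (by norm_num)
  set X : ℝ := R ^ (1 / 64 : ℝ) + ρ with hXdef
  have hX1 : 1 ≤ X := by linarith
  obtain ⟨hpm, hp0⟩ := phi_facts hU hUfin X
  have hple := phi_le hE hT hU hUE hUfin X
  set g : ℂ → ℝ := fun x => cut ρ x * min (phi U X x) n with hgdef
  have hgm : Measurable g := (continuous_cut ρ).measurable.mul (hpm.min measurable_const)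
  have hg0 : ∀ x, 0 ≤ g x := fun x => mul_nonneg (cut_nonneg ρ x) (le_min (hp0 x) hn0)
  have hgn : ∀ x, g x ≤ n := fun x => by
    calc g x ≤ 1 * n := mul_le_mul (cut_le_one ρ x) (min_le_right _ _)
          (le_min (hp0 x) hn0) zero_le_one
      _ = n := one_mul _
  have hgs : ∀ x, ρ < ‖x‖ → g x = 0 := fun x hx => by
    simp only [hgdef]
    rw [hcut0 x hx, zero_mul]
  obtain ⟨e1, e2⟩ := Env_conv (K := n) (ρ := ρ) hA hss hgm hg0 hgn hgs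
  set Λ : ℝ := 60 * X ^ 2 * (√(volume.real U) + n + 1) * ρ with hΛdef
  have hΛ0 : 0 ≤ Λ := by positivity
  have h1 := hkey n Λ hn0 hΛ0 g hgm hg0 hgn hgs
    (fun N hN => phi_smooth hE hT hU hUE hUfin hρ hX1 hN)
  have hX2 : X ^ 2 ≤ (1 + ρ) ^ 2 * R ^ (1 / 32 : ℝ) := by
    have hx1 : X ≤ (1 + ρ) * R ^ (1 / 64 : ℝ) := by
      rw [hXdef]
      nlinarith
    have hx2 : (R ^ (1 / 64 : ℝ)) ^ 2 = R ^ (1 / 32 : ℝ) := by
      rw [← Real.rpow_natCast (R ^ (1 / 64 : ℝ)) 2, ← Real.rpow_mul hR0.le]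
      norm_num
    calc X ^ 2 ≤ ((1 + ρ) * R ^ (1 / 64 : ℝ)) ^ 2 := pow_le_pow_left₀ (by linarith) hx1 2
      _ = _ := by rw [mul_pow, hx2]
  have hUV : √(volume.real U) ≤ √V := Real.sqrt_le_sqrt (measureReal_mono hUE hEfin)
  have hΛ : Λ ≤ 60 * (1 + ρ) ^ 2 * (√V + n + 1) * ρ * R ^ (1 / 32 : ℝ) := by
    calc Λ = 60 * ρ * (X ^ 2 * (√(volume.real U) + n + 1)) := by
          rw [hΛdef]
          ring
      _ ≤ 60 * ρ * (((1 + ρ) ^ 2 * R ^ (1 / 32 : ℝ)) * (√V + n + 1)) := by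
          refine mul_le_mul_of_nonneg_left ?_ (by positivity)
          exact mul_le_mul hX2 (by linarith) (by positivity) (by positivity)
      _ = _ := by ring
  have hR32 : 1 ≤ R ^ (1 / 32 : ℝ) := Real.one_le_rpow hR1 (by norm_num)
  have h2 := herr (n + Λ) (by positivity) (by
    have h3 : (n : ℝ) ≤ n * R ^ (1 / 32 : ℝ) := by nlinarith
    have h4 : 0 ≤ 1 * R ^ (1 / 32 : ℝ) := by positivity
    calc (n : ℝ) + Λ ≤ n * R ^ (1 / 32 : ℝ) +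
          60 * (1 + ρ) ^ 2 * (√V + n + 1) * ρ * R ^ (1 / 32 : ℝ) +
          1 * R ^ (1 / 32 : ℝ) := by linarith
      _ = B * R ^ (1 / 32 : ℝ) := by
          rw [hBdef]
          ring)
  have h3 := (abs_le.1 (h1.trans h2)).2
  have hae : ∀ᵐ x : ℂ, ENNReal.ofReal (cut ρ x) * SP (ind U) x = ENNReal.ofReal (g x) := by
    filter_upwards [hple] with x hx
    by_cases hxρ : ‖x‖ ≤ ρ
    · rw [phi_eq hU (r := R ^ (1 / 64 : ℝ)) (ρ := ρ) (X := X) (fun y hy => hUR y hy) le_rfl hxρ,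
        ← ENNReal.ofReal_mul (cut_nonneg ρ x)]
      simp only [hgdef]
      rw [min_eq_left hx]
    · rw [hcut0 x (not_le.1 hxρ), hgs x (not_le.1 hxρ)]
      simp
  have f1 : ∫⁻ x, ENNReal.ofReal (cut ρ x) * SP (ind U) x = ENNReal.ofReal (∫ x, g x) := by
    rw [← e1]
    exact lintegral_congr_ae hae
  have f2 : ∫⁻ x, ENNReal.ofReal (cut ρ x) * SP (ind U) x * SS (ind A) x =
      ENNReal.ofReal (∫ x, g x * sA A x) := by
    rw [← e2]
    refine lintegral_congr_ae ?_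
    filter_upwards [hae] with x hx
    rw [hx]
  have hg00 : 0 ≤ ∫ x, g x := integral_nonneg hg0
  have hR3 : 0 ≤ R ^ (-3 : ℝ) := (Real.rpow_pos_of_pos hR0 _).le
  rw [f1, f2, hvA, ← ENNReal.ofReal_mul hg00, ← ENNReal.ofReal_mul hη.le,
    ← ENNReal.ofReal_add (mul_nonneg hg00 ha0) (mul_nonneg hη.le ha0),
    ← ENNReal.ofReal_add (by positivity) hR3]
  refine ENNReal.ofReal_le_ofReal ?_
  linarith

end Pool.Agent.Lib.SR
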