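import Pool.Agent.Lib.MP_b9430d_co.SR.Defs
import Pool.Agent.Lib.MP_b9430d_co.NT.Defs
import Pool.Agent.Lib.MP_b9430d_co.Mom.Sym

/-!
# Est: first facts on the restricted sums `NT.ST T`

`NT.ST T g y = (2π)⁻¹ ∫⁻ θ in Ioc (-π) π, ∑' p, if nq p ∈ T then g (y + rot θ * lat p) else 0`. Everything exactly as in
Mom/Sym (`SS`, `SP`): measurability by `Measurable.lintegral_prod_right'`-type lemmas of the measurable function
`(y, θ) ↦ ∑' p, ...` (countable sum, `Measurable.ennreal_tsum`). `st_symm`: for fixed `θ` and `p` the translation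
`∫⁻ x, f x * g (x + rot θ * lat p) = ∫⁻ x, g x * f (x - rot θ * lat p)` and `- rot θ * lat p = rot θ * lat (-p)`, `nq (-p) = nq p`
(reindex the sum by `Equiv.neg`); the indicator `if nq p ∈ T` is the same for `p` and `-p`. `st_add_compl`: termwise
`(if nq p ∈ T then a else 0) + (if nq p ∈ Tᶜ then a else 0) = a`. `st_tsum`: `g = ∑' i, g i` termwise, exchange the sums
(`ENNReal.tsum_comm`) and the integral (`lintegral_tsum`).
-/

set_option autoImplicit false

open MeasureTheory Complex Set Real Filter Topology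
open scoped ENNReal

namespace Pool.Agent.Lib.SR

open Pool.MPb9430d Pool.MPb9430d.Rough Pool.MPb9430d.Frac Pool.MPb9430d.Mom
open Pool.Agent.Lib.DG (rp nq)

/-- Weighted form of `SS`. -/
private noncomputable def estK (k : ℤ × ℤ → ℝ≥0∞) (g : ℂ → ℝ≥0∞) (y : ℂ) : ℝ≥0∞ :=
  ENNReal.ofReal (2 * π)⁻¹ * ∫⁻ θ in Ioc (-π) π, ∑' p : ℤ × ℤ, k p * g (y + rot θ * lat p)

private theorem est_meas0 (k : ℤ × ℤ → ℝ≥0∞) {g : ℂ → ℝ≥0∞} (hg : Measurable g) :
    Measurable (fun q : ℂ × ℝ => ∑' p : ℤ × ℤ, k p * g (q.1 + rot q.2 * lat p)) := by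
  refine Measurable.ennreal_tsum (fun p => ?_)
  refine Measurable.const_mul ?_ _
  exact hg.comp (measurable_fst.add ((measurable_rot.comp measurable_snd).mul_const _))

private theorem est_meas1 (k : ℤ × ℤ → ℝ≥0∞) {g : ℂ → ℝ≥0∞} (hg : Measurable g) (y : ℂ) :
    Measurable (fun θ : ℝ => ∑' p : ℤ × ℤ, k p * g (y + rot θ * lat p)) :=
  (est_meas0 k hg).comp (measurable_const.prodMk measurable_id)

private theorem est_meas (k : ℤ × ℤ → ℝ≥0∞) {g : ℂ → ℝ≥0∞} (hg : Measurable g) :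
    Measurable (estK k g) := by
  unfold estK
  exact (Measurable.lintegral_prod_right' (ν := volume.restrict (Ioc (-π) π))
    (est_meas0 k hg)).const_mul _

private theorem est_expand (k : ℤ × ℤ → ℝ≥0∞) {f g : ℂ → ℝ≥0∞} (hf : Measurable f)
    (hg : Measurable g) :
    ∫⁻ x, f x * estK k g x = ENNReal.ofReal (2 * π)⁻¹ * ∫⁻ θ in Ioc (-π) π,
      ∑' p : ℤ × ℤ, k p * ∫⁻ x, f x * g (x + rot θ * lat p) := by
  have h1 : ∀ x, f x * estK k g x = ENNReal.ofReal (2 * π)⁻¹ * ∫⁻ θ in Ioc (-π) π,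
      f x * ∑' p : ℤ × ℤ, k p * g (x + rot θ * lat p) := by
    intro x
    unfold estK
    rw [lintegral_const_mul _ (est_meas1 k hg x)]
    ring
  simp only [h1]
  rw [lintegral_const_mul' _ _ ENNReal.ofReal_ne_top]
  congr 1
  rw [lintegral_lintegral_swap]
  · refine lintegral_congr (fun θ => ?_)
    have h2 : ∀ x, f x * ∑' p : ℤ × ℤ, k p * g (x + rot θ * lat p)
        = ∑' p : ℤ × ℤ, k p * (f x * g (x + rot θ * lat p)) := by
      intro x
      rw [← ENNReal.tsum_mul_left]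
      refine tsum_congr (fun p => ?_)
      ring
    simp only [h2]
    have h3 : ∀ p : ℤ × ℤ, Measurable (fun x => f x * g (x + rot θ * lat p)) := fun p =>
      hf.mul (hg.comp (measurable_id.add_const _))
    rw [lintegral_tsum (fun p => ((h3 p).const_mul _).aemeasurable)]
    refine tsum_congr (fun p => ?_)
    rw [lintegral_const_mul _ (h3 p)]
  · exact ((hf.comp measurable_fst).mul (est_meas0 k hg)).aemeasurable

private theorem est_shift {f g : ℂ → ℝ≥0∞} (a : ℂ) :
    ∫⁻ x, f x * g (x + a) = ∫⁻ x, g x * f (x + -a) := by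
  have h := lintegral_add_right_eq_self (μ := (volume : Measure ℂ))
    (fun x => f (x + -a) * g x) a
  have e1 : ∀ x : ℂ, f (x + a + -a) * g (x + a) = f x * g (x + a) := by
    intro x
    rw [add_neg_cancel_right]
  simp only [e1] at h
  rw [h]
  refine lintegral_congr (fun x => ?_)
  ring

private theorem est_symm (k : ℤ × ℤ → ℝ≥0∞) (hk : ∀ p, k (-p) = k p) {f g : ℂ → ℝ≥0∞}
    (hf : Measurable f) (hg : Measurable g) :
    ∫⁻ x, f x * estK k g x = ∫⁻ x, g x * estK k f x := by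
  rw [est_expand k hf hg, est_expand k hg hf]
  congr 1
  refine lintegral_congr (fun θ => ?_)
  rw [← (Equiv.neg (ℤ × ℤ)).tsum_eq (fun p => k p * ∫⁻ x, g x * f (x + rot θ * lat p))]
  refine tsum_congr (fun p => ?_)
  rw [est_shift (rot θ * lat p)]
  rw [Equiv.neg_apply, hk, lat_neg, mul_neg]

private theorem est_add (k : ℤ × ℤ → ℝ≥0∞) {f g : ℂ → ℝ≥0∞} (hf : Measurable f) (y : ℂ) :
    estK k (fun x => f x + g x) y = estK k f y + estK k g y := by
  unfold estK
  rw [← mul_add, ← lintegral_add_left (est_meas1 k hf y)]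
  congr 1
  refine lintegral_congr (fun θ => ?_)
  rw [← ENNReal.tsum_add]
  refine tsum_congr (fun p => ?_)
  ring

private theorem est_mono (k : ℤ × ℤ → ℝ≥0∞) {f g : ℂ → ℝ≥0∞} (h : ∀ x, f x ≤ g x) (y : ℂ) :
    estK k f y ≤ estK k g y := by
  unfold estK
  refine mul_le_mul' le_rfl ?_
  refine lintegral_mono (fun θ => ?_)
  refine ENNReal.tsum_le_tsum (fun p => ?_)
  exact mul_le_mul' le_rfl (h _)

open Classical in
private theorem est_ST (T : Set ℕ) (g : ℂ → ℝ≥0∞) (y : ℂ) :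
    NT.ST T g y = estK (fun p => if nq p ∈ T then 1 else 0) g y := by
  unfold NT.ST estK
  congr 1
  refine lintegral_congr (fun θ => tsum_congr (fun p => ?_))
  beta_reduce
  by_cases h : nq p ∈ T
  · rw [if_pos h, if_pos h, one_mul]
  · rw [if_neg h, if_neg h, zero_mul]

private theorem est_SS (g : ℂ → ℝ≥0∞) (y : ℂ) : SS g y = estK (fun _ => 1) g y := by
  unfold SS estK
  simp only [one_mul]

private theorem est_nq (p : ℤ × ℤ) : nq (-p) = nq p := by
  unfold nq
  simp

theorem measurable_ST (T : Set ℕ) {g : ℂ → ℝ≥0∞} (hg : Measurable g) : Measurable (NT.ST T g) := by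
  classical
  have h : NT.ST T g = estK (fun p => if nq p ∈ T then 1 else 0) g := funext (est_ST T g)
  rw [h]
  exact est_meas _ hg

theorem st_symm (T : Set ℕ) {f g : ℂ → ℝ≥0∞} (hf : Measurable f) (hg : Measurable g) :
    ∫⁻ x, f x * NT.ST T g x = ∫⁻ x, g x * NT.ST T f x := by
  classical
  simp only [est_ST]
  refine est_symm _ (fun p => ?_) hf hg
  simp only [est_nq]

theorem st_mono (T : Set ℕ) {f g : ℂ → ℝ≥0∞} (h : ∀ x, f x ≤ g x) (y : ℂ) :
    NT.ST T f y ≤ NT.ST T g y := by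
  classical
  rw [est_ST, est_ST]
  exact est_mono _ h y

theorem st_le_ss (T : Set ℕ) (g : ℂ → ℝ≥0∞) (y : ℂ) : NT.ST T g y ≤ SS g y := by
  classical
  rw [est_ST, est_SS]
  unfold estK
  refine mul_le_mul' le_rfl ?_
  refine lintegral_mono (fun θ => ?_)
  refine ENNReal.tsum_le_tsum (fun p => ?_)
  refine mul_le_mul' ?_ le_rfl
  beta_reduce
  split_ifs
  · exact le_rfl
  · exact zero_le_one

theorem st_add_compl (T : Set ℕ) {g : ℂ → ℝ≥0∞} (hg : Measurable g) (y : ℂ) :
    NT.ST T g y + NT.ST Tᶜ g y = SS g y := by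
  classical
  rw [est_ST, est_ST, est_SS]
  unfold estK
  rw [← mul_add, ← lintegral_add_left (est_meas1 _ hg y)]
  congr 1
  refine lintegral_congr (fun θ => ?_)
  rw [← ENNReal.tsum_add]
  refine tsum_congr (fun p => ?_)
  rw [← add_mul]
  congr 1
  beta_reduce
  by_cases h : nq p ∈ T
  · have h2 : ¬ nq p ∈ Tᶜ := fun h3 => h3 h
    rw [if_pos h, if_neg h2, add_zero]
  · have h2 : nq p ∈ Tᶜ := h
    rw [if_neg h, if_pos h2, zero_add]

theorem st_tsum (T : Set ℕ) {ι : Type} [Countable ι] {g : ι → ℂ → ℝ≥0∞} (hg : ∀ i, Measurable (g i))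
    (y : ℂ) : NT.ST T (fun x => ∑' i, g i x) y = ∑' i, NT.ST T (g i) y := by
  classical
  rw [est_ST]
  simp only [est_ST]
  unfold estK
  rw [ENNReal.tsum_mul_left]
  congr 1
  rw [← lintegral_tsum (fun i => (est_meas1 _ (hg i) y).aemeasurable)]
  refine lintegral_congr (fun θ => ?_)
  rw [ENNReal.tsum_comm]
  refine tsum_congr (fun p => ?_)
  rw [ENNReal.tsum_mul_left]

end Pool.Agent.Lib.SR
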