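import Pool.Agent.Lib.MP_b9430d_co.SR.Kdd

/-!
# XInn: measurability and size of the inner integrals, Cauchy-Schwarz on a set
-/

set_option autoImplicit false

open MeasureTheory Complex Set Real Filter Topology
open scoped ENNReal

namespace Pool.Agent.Lib.SR

open Pool.MPb9430d Pool.MPb9430d.Rough Pool.MPb9430d.Frac Pool.MPb9430d.Mom

theorem dd_bdd (c : ℕ → ℝ) (Q : ℕ) {κ : ℝ} (hκ : 0 < κ) : ∃ B : ℝ, 0 ≤ B ∧ ∀ t, |DD c Q κ t| ≤ B := by
  refine ⟨∑ α ∈ FQ Q (1 / κ), |cof c Q α.den * (1 - κ * |(α : ℝ)|)|,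
    Finset.sum_nonneg fun _ _ => abs_nonneg _, fun t => ?_⟩
  have h := dd_eq c Q hκ t
  have h1 : |DD c Q κ t| = ‖(DD c Q κ t : ℂ)‖ := by
    rw [Complex.norm_real, Real.norm_eq_abs]
  rw [h1, h]
  refine (norm_sum_le _ _).trans (Finset.sum_le_sum fun α _ => ?_)
  rw [norm_mul, norm_ee, mul_one, Complex.norm_real, Real.norm_eq_abs]

theorem measurable_inner {h : ℂ → ℝ} (hm : Measurable h) {d : ℝ → ℝ} (hd : Continuous d) :
    Measurable (fun w : ℂ => ∫ x, h x * d (‖x - w‖ ^ 2)) := by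
  have h1 : Measurable (fun p : ℂ × ℂ => h p.2 * d (‖p.2 - p.1‖ ^ 2)) := by
    refine (hm.comp measurable_snd).mul (hd.measurable.comp ?_)
    fun_prop
  exact (h1.stronglyMeasurable.integral_prod_right').measurable

theorem integrable_inner {h : ℂ → ℝ} (hi : Integrable h) {d : ℝ → ℝ} (hd : Continuous d) {B : ℝ}
    (hB : ∀ t, |d t| ≤ B) (w : ℂ) : Integrable (fun x => h x * d (‖x - w‖ ^ 2)) := by
  refine hi.mul_bdd (c := B) ?_ (Eventually.of_forall fun x => ?_)
  · exact (hd.comp (by fun_prop)).aestronglyMeasurable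
  · rw [Real.norm_eq_abs]
    exact hB _

theorem abs_inner_le {h : ℂ → ℝ} (hi : Integrable h) {d : ℝ → ℝ} {B : ℝ}
    (hB : ∀ t, |d t| ≤ B) (w : ℂ) : |∫ x, h x * d (‖x - w‖ ^ 2)| ≤ B * ∫ x, |h x| := by
  rw [← integral_const_mul]
  refine (abs_integral_le_integral_abs).trans ?_
  refine integral_mono_of_nonneg (Eventually.of_forall fun t => abs_nonneg _) (hi.abs.const_mul _)
    (Eventually.of_forall fun x => ?_)
  show |h x * d (‖x - w‖ ^ 2)| ≤ B * |h x|
  rw [abs_mul, mul_comm B]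
  exact mul_le_mul_of_nonneg_left (hB _) (abs_nonneg _)

theorem cs_set {A S : Set ℂ} (hA : MeasurableSet A) (hS : MeasurableSet S) (hAS : A ⊆ S)
    (hfin : volume S ≠ ∞) {f : ℂ → ℝ} (hf : Measurable f) {B : ℝ} (hB : ∀ w, |f w| ≤ B) :
    ∫⁻ w in A, ENNReal.ofReal |f w| ≤
      ENNReal.ofReal (√(volume.real A) * √(∫ w in S, f w ^ 2)) := by
  have hfinA : volume A ≠ ∞ := ne_top_of_le_ne_top hfin (measure_mono hAS)
  have hB0 : 0 ≤ B := (abs_nonneg _).trans (hB 0)
  have i1 : ∀ U : Set ℂ, volume U ≠ ∞ → IntegrableOn (fun w => |f w|) U := by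
    intro U hU
    refine Measure.integrableOn_of_bounded (M := B) hU hf.abs.aestronglyMeasurable
      (Eventually.of_forall fun w => ?_)
    rw [Real.norm_eq_abs, abs_abs]
    exact hB w
  have i2 : ∀ U : Set ℂ, volume U ≠ ∞ → IntegrableOn (fun w => f w ^ 2) U := by
    intro U hU
    refine Measure.integrableOn_of_bounded (M := B ^ 2) hU (hf.pow_const 2).aestronglyMeasurable
      (Eventually.of_forall fun w => ?_)
    rw [Real.norm_eq_abs, abs_pow]
    exact pow_le_pow_left₀ (abs_nonneg _) (hB w) 2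
  rw [← ofReal_integral_eq_lintegral_ofReal (i1 A hfinA) (Eventually.of_forall fun w => abs_nonneg _)]
  refine ENNReal.ofReal_le_ofReal ?_
  set K := ∫ w in A, |f w| with hK
  set m := volume.real A with hm
  set S2 := ∫ w in A, f w ^ 2 with hS2
  have hm0 : 0 ≤ m := measureReal_nonneg
  have hK0 : 0 ≤ K := integral_nonneg fun w => abs_nonneg _
  have hS20 : 0 ≤ S2 := integral_nonneg fun w => sq_nonneg _
  have h1 : S2 ≤ ∫ w in S, f w ^ 2 :=
    setIntegral_mono_set (i2 S hfin) (Eventually.of_forall fun w => sq_nonneg _)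
      (HasSubset.Subset.eventuallyLE hAS)
  have h2 : m * K ^ 2 ≤ m ^ 2 * S2 := by
    have h3 : 0 ≤ ∫ w in A, (m * |f w| - K) ^ 2 := integral_nonneg fun w => sq_nonneg _
    have h4 : ∫ w in A, (m * |f w| - K) ^ 2 = m ^ 2 * S2 - 2 * m * K * K + K ^ 2 * m := by
      have e1 : ∀ w, (m * |f w| - K) ^ 2 = (m ^ 2 * f w ^ 2 - 2 * m * K * |f w|) + K ^ 2 := by
        intro w
        rw [sub_sq, mul_pow, sq_abs]
        ring
      rw [integral_congr_ae (Eventually.of_forall e1), integral_add, integral_sub,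
        integral_const_mul, integral_const_mul, setIntegral_const, smul_eq_mul]
      · ring
      · exact (i2 A hfinA).const_mul _
      · exact (i1 A hfinA).const_mul _
      · exact ((i2 A hfinA).const_mul _).sub ((i1 A hfinA).const_mul _)
      · exact integrableOn_const hfinA
    rw [h4] at h3
    nlinarith
  have h5 : K ^ 2 ≤ m * S2 := by
    rcases hm0.eq_or_lt with h0 | h0
    · have h6 : volume A = 0 := by
        rw [hm, Measure.real, eq_comm, ENNReal.toReal_eq_zero_iff] at h0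
        exact h0.resolve_right hfinA
      have h7 : K = 0 := by
        rw [hK, Measure.restrict_eq_zero.2 h6, integral_zero_measure]
      rw [h7, ← h0]
      simp
    · have h8 : m * K ^ 2 ≤ m * (m * S2) := by nlinarith
      exact le_of_mul_le_mul_left h8 h0
  have h6 : K ≤ √(m * S2) := Real.le_sqrt_of_sq_le h5
  rw [Real.sqrt_mul hm0] at h6
  exact h6.trans (mul_le_mul_of_nonneg_left (Real.sqrt_le_sqrt h1) (Real.sqrt_nonneg _))

end Pool.Agent.Lib.SR
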