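import Pool.Agent.Lib.MP_b9430d_co.SR.Defs

/-!
# The density `DD` is a finite trigonometric sum

Poisson summation for the triangle function: `∑_k δ⁻¹ fej ((u - k) / δ) = ∑_j (1 - δ |j|)₊ e(j u)`; for the multiples of `q`
put `δ = κ / q`, `u = t / q`; then collect the terms `j / q = α`.
-/

set_option autoImplicit false

open MeasureTheory Complex Set Real Filter Topology
open scoped ENNReal FourierTransform

namespace Pool.Agent.Lib.SR

open Pool.MPb9430d Pool.MPb9430d.Rough Pool.MPb9430d.Frac Pool.MPb9430d.Mom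

/-- The triangle function. -/
noncomputable def kddTri (x : ℝ) : ℝ := max 0 (1 - |x|)

private theorem kdd_tri_cont : Continuous kddTri := by
  unfold kddTri
  fun_prop

private theorem kdd_tri_zero {x : ℝ} (h : 1 ≤ |x|) : kddTri x = 0 := by
  unfold kddTri
  exact max_eq_left (by linarith)

private theorem kdd_tri_of_le {x : ℝ} (h : |x| ≤ 1) : kddTri x = 1 - |x| := by
  unfold kddTri
  exact max_eq_right (by linarith)

private theorem kdd_left (v : ℂ) (hv : v ≠ 0) :
    ∫ x in (-1 : ℝ)..0, (1 + (x : ℂ)) * cexp (v * x) = 1 / v - 1 / v ^ 2 + cexp (-v) / v ^ 2 := by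
  have hd : ∀ x ∈ Set.uIcc (-1 : ℝ) 0, HasDerivAt (fun x : ℝ =>
      (1 + (x : ℂ)) * cexp (v * x) / v - cexp (v * x) / v ^ 2) ((1 + (x : ℂ)) * cexp (v * x)) x := by
    intro x _
    have h1 : HasDerivAt (fun x : ℝ => (x : ℂ)) 1 x := Complex.ofRealCLM.hasDerivAt
    have h2 : HasDerivAt (fun x : ℝ => cexp (v * x)) (cexp (v * x) * (v * 1)) x :=
      (h1.const_mul v).cexp
    have h3 := (((h1.const_add 1).mul h2).div_const v).sub (h2.div_const (v ^ 2))
    refine h3.congr_deriv ?_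
    field_simp
    ring
  rw [intervalIntegral.integral_eq_sub_of_hasDerivAt hd
    (Continuous.intervalIntegrable (by fun_prop) _ _)]
  simp only [ofReal_neg, ofReal_one, ofReal_zero, mul_neg, mul_one, mul_zero, Complex.exp_zero]
  ring

private theorem kdd_right (v : ℂ) (hv : v ≠ 0) :
    ∫ x in (0 : ℝ)..1, (1 - (x : ℂ)) * cexp (v * x) = cexp v / v ^ 2 - 1 / v - 1 / v ^ 2 := by
  have hd : ∀ x ∈ Set.uIcc (0 : ℝ) 1, HasDerivAt (fun x : ℝ =>
      (1 - (x : ℂ)) * cexp (v * x) / v + cexp (v * x) / v ^ 2) ((1 - (x : ℂ)) * cexp (v * x)) x := by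
    intro x _
    have h1 : HasDerivAt (fun x : ℝ => (x : ℂ)) 1 x := Complex.ofRealCLM.hasDerivAt
    have h2 : HasDerivAt (fun x : ℝ => cexp (v * x)) (cexp (v * x) * (v * 1)) x :=
      (h1.const_mul v).cexp
    have h3 := (((h1.const_sub 1).mul h2).div_const v).add (h2.div_const (v ^ 2))
    refine h3.congr_deriv ?_
    field_simp
    ring
  rw [intervalIntegral.integral_eq_sub_of_hasDerivAt hd
    (Continuous.intervalIntegrable (by fun_prop) _ _)]
  simp only [ofReal_one, ofReal_zero, mul_one, mul_zero, Complex.exp_zero]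
  ring

private theorem kdd_split (v : ℂ) :
    ∫ x : ℝ, (kddTri x : ℂ) * cexp (v * x) =
      (∫ x in (-1 : ℝ)..0, (1 + (x : ℂ)) * cexp (v * x)) +
        ∫ x in (0 : ℝ)..1, (1 - (x : ℂ)) * cexp (v * x) := by
  have hc : Continuous (fun x : ℝ => (kddTri x : ℂ) * cexp (v * x)) :=
    (Complex.continuous_ofReal.comp kdd_tri_cont).mul (by fun_prop)
  have hsupp : Function.support (fun x : ℝ => (kddTri x : ℂ) * cexp (v * x)) ⊆ Set.Ioc (-1) 1 := by
    intro x hx
    rw [Function.mem_support] at hx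
    by_contra h
    apply hx
    have : 1 ≤ |x| := by
      by_contra h2
      push Not at h2
      rw [abs_lt] at h2
      exact h ⟨h2.1, h2.2.le⟩
    rw [kdd_tri_zero this]
    simp
  rw [← intervalIntegral.integral_eq_integral_of_support_subset hsupp,
    ← intervalIntegral.integral_add_adjacent_intervals (hc.intervalIntegrable (-1) 0)
      (hc.intervalIntegrable 0 1)]
  congr 1
  · refine intervalIntegral.integral_congr fun x hx => ?_
    rw [Set.uIcc_of_le (by norm_num)] at hx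
    rw [kdd_tri_of_le (by rw [abs_le]; constructor <;> linarith [hx.1, hx.2]), abs_of_nonpos hx.2]
    push_cast
    ring
  · refine intervalIntegral.integral_congr fun x hx => ?_
    rw [Set.uIcc_of_le (by norm_num)] at hx
    rw [kdd_tri_of_le (by rw [abs_le]; constructor <;> linarith [hx.1, hx.2]), abs_of_nonneg hx.1]
    push_cast
    ring

/-- The Fourier transform of the triangle function is the Fejér kernel. -/
theorem kdd_fourier (y : ℝ) :
    ∫ x : ℝ, (kddTri x : ℂ) * cexp (((2 * π * y : ℝ) * I) * x) = (fej y : ℂ) := by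
  rcases eq_or_ne y 0 with rfl | hy
  · rw [kdd_split]
    simp only [mul_zero, ofReal_zero, zero_mul, Complex.exp_zero, mul_one]
    have e1 : ∫ x in (-1 : ℝ)..0, (1 + (x : ℂ)) = ((∫ x in (-1 : ℝ)..0, (1 + x) : ℝ) : ℂ) := by
      rw [← intervalIntegral.integral_ofReal]
      refine intervalIntegral.integral_congr fun x _ => ?_
      simp
    have e2 : ∫ x in (0 : ℝ)..1, (1 - (x : ℂ)) = ((∫ x in (0 : ℝ)..1, (1 - x) : ℝ) : ℂ) := by
      rw [← intervalIntegral.integral_ofReal]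
      refine intervalIntegral.integral_congr fun x _ => ?_
      simp
    rw [e1, e2, intervalIntegral.integral_add (by simp) (by simp),
      intervalIntegral.integral_sub (by simp) (by simp)]
    unfold fej
    simp
    norm_num
  · set v : ℂ := ((2 * π * y : ℝ) * I) with hv
    have hpi := Real.pi_ne_zero
    have hv0 : v ≠ 0 := by
      rw [hv]
      refine mul_ne_zero ?_ Complex.I_ne_zero
      exact_mod_cast (by positivity : (2 * π * y : ℝ) ≠ 0)
    rw [kdd_split, kdd_left v hv0, kdd_right v hv0]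
    have h1 : cexp v + cexp (-v) = 2 * Complex.cos ((2 * π * y : ℝ)) := by
      rw [Complex.two_cos, hv]
      ring_nf
    have h2 : v ^ 2 = -((2 * π * y : ℝ) : ℂ) ^ 2 := by
      rw [hv, mul_pow, Complex.I_sq]
      ring
    have h3 : 1 / v - 1 / v ^ 2 + cexp (-v) / v ^ 2 + (cexp v / v ^ 2 - 1 / v - 1 / v ^ 2) =
        ((cexp v + cexp (-v)) - 2) / v ^ 2 := by ring
    rw [h3, h1, h2, ← Complex.ofReal_cos]
    unfold fej
    rw [Real.sinc_of_ne_zero (by positivity)]
    have h4 : Real.cos (2 * π * y) = 1 - 2 * Real.sin (π * y) ^ 2 := by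
      have := Real.cos_sq' (π * y)
      have h5 := Real.cos_two_mul (π * y)
      rw [show 2 * π * y = 2 * (π * y) by ring, h5, this]
      ring
    rw [h4]
    push_cast
    have hpc : (π : ℂ) ≠ 0 := by exact_mod_cast hpi
    have hyc : (y : ℂ) ≠ 0 := by exact_mod_cast hy
    field_simp
    ring

/-! ### Summability -/

private theorem kdd_fej_le (t : ℝ) : fej t ≤ 2 / (1 + t ^ 2) := by
  unfold fej
  have h1 : Real.sinc (π * t) ^ 2 ≤ 1 := by
    rw [← sq_abs, ← one_pow 2]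
    exact pow_le_pow_left₀ (abs_nonneg _) (Real.abs_sinc_le_one _) 2
  rcases le_or_gt (t ^ 2) 1 with h | h
  · refine h1.trans ?_
    rw [le_div_iff₀ (by positivity)]
    linarith
  · have ht : t ≠ 0 := by
      rintro rfl
      norm_num at h
    have hpi := Real.pi_gt_three
    rw [Real.sinc_of_ne_zero (by positivity), div_pow, div_le_div_iff₀ (by positivity) (by positivity)]
    have h2 : Real.sin (π * t) ^ 2 ≤ 1 := by
      rw [← sq_abs, ← one_pow 2]
      exact pow_le_pow_left₀ (abs_nonneg _) (Real.abs_sin_le_one _) 2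
    have h3 : 9 * t ^ 2 ≤ (π * t) ^ 2 := by
      rw [mul_pow]
      have : 9 ≤ π ^ 2 := by nlinarith
      exact mul_le_mul_of_nonneg_right this (sq_nonneg _)
    nlinarith [sq_nonneg (Real.sin (π * t))]

private theorem kdd_sum_int : Summable (fun k : ℤ => 1 / (1 + (k : ℝ) ^ 2)) := by
  have h := (Real.summable_one_div_int_add_rpow (1 / 2) 2).2 (by norm_num)
  refine Summable.of_nonneg_of_le (fun k => by positivity) (fun k => ?_) (h.mul_left 2)
  have hk : ((k : ℝ) + 1 / 2) ≠ 0 := by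
    intro h0
    have h1 : (2 * (k : ℝ)) + 1 = 0 := by linarith
    have h2 : ((2 * k + 1 : ℤ) : ℝ) = 0 := by push_cast; exact h1
    have h3 : (2 * k + 1 : ℤ) = 0 := by exact_mod_cast h2
    omega
  have e : |(k : ℝ) + 1 / 2| ^ (2 : ℝ) = ((k : ℝ) + 1 / 2) ^ 2 := by
    rw [show (2 : ℝ) = ((2 : ℕ) : ℝ) by norm_num, Real.rpow_natCast, sq_abs]
  rw [e, mul_one_div, div_le_div_iff₀ (by positivity) (by positivity)]
  nlinarith [sq_nonneg ((k : ℝ) - 1 / 2), sq_nonneg (k : ℝ)]

theorem kdd_summable_fej {δ : ℝ} (hδ : 0 < δ) (u : ℝ) :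
    Summable (fun k : ℤ => fej ((u - k) / δ)) := by
  refine Summable.of_nonneg_of_le (fun k => fej_nonneg _) (fun k => ?_)
    (kdd_sum_int.mul_left (2 * (2 * δ ^ 2 + 2 * u ^ 2 + 1)))
  refine (kdd_fej_le _).trans ?_
  rw [mul_one_div, div_le_div_iff₀ (by positivity) (by positivity)]
  have h1 : (k : ℝ) ^ 2 ≤ 2 * (u - k) ^ 2 + 2 * u ^ 2 := by nlinarith [sq_nonneg (2 * u - k)]
  have h2 : (u - k) ^ 2 = δ ^ 2 * ((u - k) / δ) ^ 2 := by
    field_simp
  have h3 : 0 ≤ ((u - k) / δ) ^ 2 := sq_nonneg _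
  have h4 : 1 + (k : ℝ) ^ 2 ≤ (2 * δ ^ 2 + 2 * u ^ 2 + 1) * (1 + ((u - k) / δ) ^ 2) := by
    nlinarith [sq_nonneg δ, sq_nonneg u, mul_nonneg (sq_nonneg u) h3]
  linarith

theorem kdd_fej_neg (t : ℝ) : fej (-t) = fej t := by
  unfold fej
  rw [show π * -t = -(π * t) by ring, Real.sinc_neg]

/-! ### Poisson summation -/

private theorem kdd_ft {δ : ℝ} (hδ : 0 < δ) (u n : ℝ) :
    𝓕 (fun x : ℝ => (kddTri (δ * x) : ℂ) * ee (u * x)) n = ((δ⁻¹ * fej ((u - n) / δ) : ℝ) : ℂ) := by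
  rw [Real.fourier_real_eq_integral_exp_smul]
  have h1 : ∀ v : ℝ, cexp (↑(-2 * π * v * n) * I) • ((kddTri (δ * v) : ℂ) * ee (u * v)) =
      (fun x : ℝ => (kddTri x : ℂ) * cexp (((2 * π * ((u - n) / δ) : ℝ) * I) * x)) (δ * v) := by
    intro v
    simp only [smul_eq_mul]
    unfold ee
    rw [mul_comm, mul_assoc, ← Complex.exp_add]
    congr 2
    have : (δ : ℂ) ≠ 0 := by exact_mod_cast hδ.ne'
    push_cast
    field_simp
    ring
  rw [integral_congr_ae (Filter.Eventually.of_forall h1),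
    Measure.integral_comp_mul_left (fun x : ℝ => (kddTri x : ℂ) *
      cexp (((2 * π * ((u - n) / δ) : ℝ) * I) * x)) δ, kdd_fourier, abs_of_pos (inv_pos.2 hδ)]
  rw [Complex.real_smul]
  push_cast
  ring

/-- Poisson summation. -/
theorem kdd_poisson {δ : ℝ} (hδ : 0 < δ) (u : ℝ) :
    ((∑' k : ℤ, δ⁻¹ * fej ((u - k) / δ) : ℝ) : ℂ) =
      ∑' j : ℤ, (kddTri (δ * j) : ℂ) * ee (u * j) := by
  set f : ℝ → ℂ := fun x : ℝ => (kddTri (δ * x) : ℂ) * ee (u * x) with hf
  have hee : Continuous (fun x : ℝ => ee (u * x)) := by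
    unfold ee
    fun_prop
  have hc : Continuous f := by
    rw [hf]
    exact (Complex.continuous_ofReal.comp (kdd_tri_cont.comp (by fun_prop))).mul hee
  have hO : f =O[cocompact ℝ] (fun x : ℝ => |x| ^ (-2 : ℝ)) := by
    have h0 : f =ᶠ[cocompact ℝ] 0 := by
      have : (Metric.closedBall (0 : ℝ) δ⁻¹)ᶜ ∈ cocompact ℝ :=
        (isCompact_closedBall _ _).compl_mem_cocompact
      filter_upwards [this] with x hx
      rw [Set.mem_compl_iff, Metric.mem_closedBall, dist_zero_right, not_le, Real.norm_eq_abs] at hx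
      have : 1 ≤ |δ * x| := by
        rw [abs_mul, abs_of_pos hδ]
        have := mul_lt_mul_of_pos_left hx hδ
        rw [mul_inv_cancel₀ hδ.ne'] at this
        exact this.le
      rw [hf]
      simp only [Pi.zero_apply]
      rw [kdd_tri_zero this]
      simp
    exact h0.trans_isBigO (Asymptotics.isBigO_zero _ _)
  have hF : Summable (fun n : ℤ => 𝓕 f n) := by
    have h1 : (fun n : ℤ => 𝓕 f n) = fun n : ℤ => ((δ⁻¹ * fej ((u - n) / δ) : ℝ) : ℂ) := by
      funext n
      exact kdd_ft hδ u n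
    rw [h1, Complex.summable_ofReal]
    exact (kdd_summable_fej hδ u).mul_left _
  have h := Real.tsum_eq_tsum_fourier_of_rpow_decay_of_summable hc (b := 2) (by norm_num) hO hF 0
  have h2 : ∑' n : ℤ, 𝓕 f n * fourier n ((0 : ℝ) : UnitAddCircle) =
      ∑' n : ℤ, ((δ⁻¹ * fej ((u - n) / δ) : ℝ) : ℂ) := by
    refine tsum_congr fun n => ?_
    rw [show ((0 : ℝ) : UnitAddCircle) = 0 by simp, fourier_eval_zero, mul_one]
    exact kdd_ft hδ u n
  rw [h2] at h
  rw [Complex.ofReal_tsum, ← h]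
  refine tsum_congr fun n => ?_
  rw [zero_add]

/-! ### The multiples of `q` -/

private theorem kdd_fraction {q : ℕ} (hq : 0 < q) (α : ℚ) (h : α.den ∣ q) :
    ∃ j : ℤ, (j : ℚ) / q = α := by
  obtain ⟨d, hd⟩ := h
  refine ⟨α.num * d, ?_⟩
  have h1 : (α.den : ℚ) ≠ 0 := by exact_mod_cast α.den_ne_zero
  have h2 : (d : ℚ) ≠ 0 := by
    rintro h3
    have : d = 0 := by exact_mod_cast h3
    rw [this, mul_zero] at hd
    omega
  rw [hd]
  push_cast
  rw [mul_div_mul_right _ _ h2]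
  exact Rat.num_div_den α

private theorem kdd_den (q : ℕ) (j : ℤ) : ((j : ℚ) / q).den ∣ q := by
  have h3 : (((j : ℚ) / ((q : ℤ) : ℚ)).den : ℤ) ∣ (q : ℤ) := by
    have := Rat.den_dvd j q
    rwa [Rat.divInt_eq_div] at this
  rw [Int.cast_natCast] at h3
  exact Int.natCast_dvd_natCast.1 h3

private theorem kdd_multiples {Q q : ℕ} (hq : 0 < q) (hqQ : q ≤ Q) {κ : ℝ} (hκ : 0 < κ) (t : ℝ) :
    ((∑' k : ℤ, phg κ (t - (q : ℝ) * k) : ℝ) : ℂ) = ∑ α ∈ FQ Q (1 / κ),
      (if α.den ∣ q then ((1 / (q : ℝ) * (1 - κ * |(α : ℝ)|) : ℝ) : ℂ) * ee (α * t) else 0) := by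
  have hq' : (0 : ℝ) < q := by exact_mod_cast hq
  have hδ : 0 < κ / q := by positivity
  have h1 : ∑' k : ℤ, phg κ (t - (q : ℝ) * k) =
      1 / (q : ℝ) * ∑' k : ℤ, (κ / q)⁻¹ * fej ((t / q - k) / (κ / q)) := by
    rw [← tsum_mul_left]
    refine tsum_congr fun k => ?_
    unfold phg
    have e1 : (t - (q : ℝ) * k) / κ = (t / q - k) / (κ / q) := by field_simp
    rw [e1]
    field_simp
  rw [h1, Complex.ofReal_mul, kdd_poisson hδ (t / q)]
  set F : ℚ → ℂ := fun α => (kddTri (κ * α) : ℂ) * ee (α * t) with hF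
  have hinj : Function.Injective (fun j : ℤ => (j : ℚ) / q) := by
    intro i j hij
    have hq0 : (q : ℚ) ≠ 0 := by exact_mod_cast hq.ne'
    simp only at hij
    rw [div_left_inj' hq0] at hij
    exact_mod_cast hij
  have h2 : ∑' j : ℤ, (kddTri (κ / q * j) : ℂ) * ee (t / q * j) =
      ∑' j : ℤ, (fun α : ℚ => if α.den ∣ q then F α else 0) ((j : ℚ) / q) := by
    refine tsum_congr fun j => ?_
    simp only
    rw [if_pos (kdd_den q j), hF]
    simp only
    rw [show κ / (q : ℝ) * (j : ℝ) = κ * (((j : ℚ) / q : ℚ) : ℝ) by push_cast; ring,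
      show t / (q : ℝ) * (j : ℝ) = (((j : ℚ) / q : ℚ) : ℝ) * t by push_cast; ring]
  rw [h2, hinj.tsum_eq (f := fun α : ℚ => if α.den ∣ q then F α else 0), tsum_eq_sum
    (s := FQ Q (1 / κ)), Finset.mul_sum]
  · refine Finset.sum_congr rfl fun α hα => ?_
    rw [mem_FQ] at hα
    by_cases hd : α.den ∣ q
    · rw [if_pos hd, if_pos hd, hF]
      simp only
      rw [kdd_tri_of_le]
      · rw [abs_mul, abs_of_pos hκ]
        push_cast
        ring
      · rw [abs_mul, abs_of_pos hκ]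
        have := mul_le_mul_of_nonneg_left hα.2 hκ.le
        rwa [mul_one_div, div_self hκ.ne'] at this
    · rw [if_neg hd, if_neg hd, mul_zero]
  · intro α hα
    rw [mem_FQ] at hα
    by_cases hd : α.den ∣ q
    · have h3 : 1 / κ < |(α : ℝ)| := by
        by_contra h4
        push Not at h4
        exact hα ⟨(Nat.le_of_dvd hq hd).trans hqQ, h4⟩
      rw [if_pos hd, hF]
      simp only
      rw [kdd_tri_zero, Complex.ofReal_zero, zero_mul]
      rw [abs_mul, abs_of_pos hκ]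
      have := mul_lt_mul_of_pos_left h3 hκ
      rw [mul_one_div, div_self hκ.ne'] at this
      exact this.le
    · rw [if_neg hd]
  · intro α hα
    rw [Function.mem_support] at hα
    by_cases hd : α.den ∣ q
    · exact kdd_fraction hq α hd
    · exact absurd (if_neg hd) hα

theorem kdd_summable_phg {κ : ℝ} (hκ : 0 < κ) (t : ℝ) : Summable (fun m : ℤ => phg κ (t - m)) := by
  unfold phg
  exact (kdd_summable_fej hκ t).mul_left _

private theorem kdd_phg_q (q : ℕ) {κ : ℝ} (hκ : 0 < κ) (t : ℝ) (a : ℝ) :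
    Summable (fun m : ℤ => (if (q : ℤ) ∣ m then a else 0) * phg κ (t - m)) := by
  refine Summable.of_norm_bounded ((kdd_summable_phg hκ t).mul_left |a|) fun m => ?_
  rw [norm_mul, Real.norm_eq_abs, Real.norm_eq_abs, abs_of_nonneg (phg_nonneg hκ.le _)]
  refine mul_le_mul_of_nonneg_right ?_ (phg_nonneg hκ.le _)
  split_ifs
  · exact le_rfl
  · rw [abs_zero]
    exact abs_nonneg a

private theorem kdd_DD (c : ℕ → ℝ) (Q : ℕ) {κ : ℝ} (hκ : 0 < κ) (t : ℝ) :
    DD c Q κ t = ∑ q ∈ Finset.Icc 1 Q, c q * ∑' k : ℤ, phg κ (t - (q : ℝ) * k) := by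
  unfold DD nuk
  have h1 : ∀ m : ℤ, (∑ q ∈ (Finset.Icc 1 Q).filter (fun q : ℕ => (q : ℤ) ∣ m), c q) *
      phg κ (t - m) = ∑ q ∈ Finset.Icc 1 Q, (if (q : ℤ) ∣ m then c q else 0) * phg κ (t - m) := by
    intro m
    rw [Finset.sum_filter, Finset.sum_mul]
  rw [tsum_congr h1, Summable.tsum_finsetSum]
  · refine Finset.sum_congr rfl fun q hq => ?_
    have hq1 : 0 < q := by
      have := (Finset.mem_Icc.1 hq).1
      omega
    rw [← tsum_mul_left]
    have hinj : Function.Injective (fun k : ℤ => (q : ℤ) * k) := by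
      intro i j hij
      have hq0 : (q : ℤ) ≠ 0 := by exact_mod_cast hq1.ne'
      exact mul_left_cancel₀ hq0 hij
    have h2 := hinj.tsum_eq (f := fun m : ℤ => (if (q : ℤ) ∣ m then c q else 0) * phg κ (t - m)) (by
      intro m hm
      rw [Function.mem_support] at hm
      by_cases hd : (q : ℤ) ∣ m
      · obtain ⟨k, hk⟩ := hd
        exact ⟨k, hk.symm⟩
      · rw [if_neg hd, zero_mul] at hm
        exact absurd rfl hm)
    rw [← h2]
    refine tsum_congr fun k => ?_
    rw [if_pos (dvd_mul_right _ _)]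
    push_cast
    rfl
  · intro q _
    exact kdd_phg_q q hκ t (c q)

/-- The density is a finite trigonometric sum. -/
theorem dd_eq (c : ℕ → ℝ) (Q : ℕ) {κ : ℝ} (hκ : 0 < κ) (t : ℝ) :
    (DD c Q κ t : ℂ) = ∑ α ∈ FQ Q (1 / κ),
      ((cof c Q α.den * (1 - κ * |(α : ℝ)|) : ℝ) : ℂ) * ee (α * t) := by
  rw [kdd_DD c Q hκ t, Complex.ofReal_sum]
  have h1 : ∀ q ∈ Finset.Icc 1 Q, ((c q * ∑' k : ℤ, phg κ (t - (q : ℝ) * k) : ℝ) : ℂ) =
      ∑ α ∈ FQ Q (1 / κ), (if α.den ∣ q then
        ((c q / (q : ℝ) * (1 - κ * |(α : ℝ)|) : ℝ) : ℂ) * ee (α * t) else 0) := by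
    intro q hq
    rw [Finset.mem_Icc] at hq
    rw [Complex.ofReal_mul, kdd_multiples (by omega) hq.2 hκ t, Finset.mul_sum]
    refine Finset.sum_congr rfl fun α _ => ?_
    split_ifs
    · push_cast
      ring
    · rw [mul_zero]
  rw [Finset.sum_congr rfl h1, Finset.sum_comm]
  refine Finset.sum_congr rfl fun α _ => ?_
  unfold cof
  rw [← Finset.sum_filter, ← Finset.sum_mul, ← Complex.ofReal_sum, ← Finset.sum_mul]

/-- The density is nonnegative. -/
theorem dd_nonneg {c : ℕ → ℝ} {Q : ℕ} (h : ∀ k : ℤ, 0 ≤ nuk c Q k) {κ : ℝ} (hκ : 0 < κ) (t : ℝ) :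
    0 ≤ DD c Q κ t :=
  tsum_nonneg fun m => mul_nonneg (h m) (phg_nonneg hκ.le _)

/-- The density is continuous. -/
theorem dd_continuous (c : ℕ → ℝ) (Q : ℕ) {κ : ℝ} (hκ : 0 < κ) : Continuous (DD c Q κ) := by
  have h1 : DD c Q κ = fun t => (∑ α ∈ FQ Q (1 / κ),
      ((cof c Q α.den * (1 - κ * |(α : ℝ)|) : ℝ) : ℂ) * ee (α * t)).re := by
    funext t
    rw [← dd_eq c Q hκ t, Complex.ofReal_re]
  rw [h1]
  unfold ee
  fun_prop

end Pool.Agent.Lib.SR
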