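import Pool.Agent.Lib.MP_b9430d_co.SR.FH
import Pool.Agent.Lib.MP_b9430d_co.SR.Kdd

/-!
# XLf: Lemma F (Fresnel smoothing in `L²(dw)`)
-/

set_option autoImplicit false

open MeasureTheory Complex Set Real Filter Topology
open scoped ENNReal

namespace Pool.Agent.Lib.SR

open Pool.MPb9430d Pool.MPb9430d.Rough Pool.MPb9430d.Frac Pool.MPb9430d.Mom

/-- Lemma F for every first width between `1 / R ^ 100` and `1 / L ^ 16`. -/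
theorem fresnel_gen {ρ : ℝ} (hρ : 1 ≤ ρ) : ∃ C L₀ : ℝ, 0 < C ∧ ∀ (L R Λ : ℝ) (T : Finset ℕ)
    (c : ℕ → ℝ) (Q : ℕ), L₀ ≤ L → Maj L R Λ T c Q → ∀ κ₂ : ℝ, 1 / R ^ 100 ≤ κ₂ → κ₂ ≤ 1 / L ^ 16 →
    ∀ (h : ℂ → ℝ) (B : ℝ), Measurable h → (∀ x, |h x| ≤ B) → (∀ x, ρ < ‖x‖ → h x = 0) →
    ∫ w in {w : ℂ | R ≤ ‖w‖ ∧ ‖w‖ ≤ 2 * R},
      (∫ x, h x * (DD c Q κ₂ (‖x - w‖ ^ 2) - DD c Q (1 / L ^ 16) (‖x - w‖ ^ 2))) ^ 2 ≤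
      C * B ^ 2 / L ^ 9 := by
  obtain ⟨C, L₀, hC, H⟩ := Fres.fresnel_aux hρ
  exact ⟨C, L₀, hC, fun L R Λ T c Q hL hM κ₂ h1 h2 h B hm hb hs =>
    H L R Λ T c Q hL hM (fun κ hκ t => dd_eq c Q hκ t) κ₂ h1 h2 h B hm hb hs⟩

/-- Lemma F with the first width `1 / R ^ 100`. -/
theorem fresnel {ρ : ℝ} (hρ : 1 ≤ ρ) : ∃ C L₀ : ℝ, 0 < C ∧ ∀ (L R Λ : ℝ) (T : Finset ℕ)
    (c : ℕ → ℝ) (Q : ℕ), L₀ ≤ L → Maj L R Λ T c Q → ∀ (h : ℂ → ℝ) (B : ℝ), Measurable h →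
    (∀ x, |h x| ≤ B) → (∀ x, ρ < ‖x‖ → h x = 0) →
    ∫ w in {w : ℂ | R ≤ ‖w‖ ∧ ‖w‖ ≤ 2 * R},
      (∫ x, h x * (DD c Q (1 / R ^ 100) (‖x - w‖ ^ 2) - DD c Q (1 / L ^ 16) (‖x - w‖ ^ 2))) ^ 2 ≤
      C * B ^ 2 / L ^ 9 := by
  obtain ⟨C, L₀, hC, H⟩ := fresnel_gen hρ
  refine ⟨C, L₀, hC, fun L R Λ T c Q hL hM h B hm hb hs => H L R Λ T c Q hL hM _ le_rfl ?_ h B hm hb hs⟩
  have hL1 := hM.L1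
  have h1 : L ^ 16 ≤ R := (pow_le_pow_right₀ hL1 (by norm_num)).trans hM.Rl
  have h2 : (1 : ℝ) ≤ R := (one_le_pow₀ hL1).trans h1
  apply one_div_le_one_div_of_le (by positivity)
  calc L ^ 16 ≤ R := h1
    _ = R ^ 1 := (pow_one R).symm
    _ ≤ R ^ 100 := pow_le_pow_right₀ h2 (by norm_num)

end Pool.Agent.Lib.SR
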