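import Pool.Agent.Lib.MP_b9430d_co.SR.Defs

/-!
# XRr: the number of lattice points with norm in `T`
-/

set_option autoImplicit false

open MeasureTheory Complex Set Real Filter Topology
open scoped ENNReal

namespace Pool.Agent.Lib.SR

open Pool.MPb9430d Pool.MPb9430d.Rough Pool.MPb9430d.Frac Pool.MPb9430d.Mom

theorem sum_rr_le {T : Finset ℕ} {R : ℝ} (hR : 1 ≤ R) (hT : ∀ m ∈ T, (m : ℝ) ≤ 16 * R ^ 2) :
    ∑ m ∈ T, (rr m : ℝ) ≤ 81 * R ^ 2 := by
  classical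
  set K : ℤ := ⌊4 * R⌋ with hK
  have hK0 : 0 ≤ K := Int.floor_nonneg.2 (by linarith)
  have hK1 : (K : ℝ) ≤ 4 * R := Int.floor_le _
  have hdis : ∀ m ∈ (T : Set ℕ), ∀ m' ∈ (T : Set ℕ), m ≠ m' → Disjoint (pts m) (pts m') := by
    intro m _ m' _ hne
    rw [Finset.disjoint_left]
    intro p hp hp'
    exact hne ((mem_pts.1 hp).symm.trans (mem_pts.1 hp'))
  have h1 : (∑ m ∈ T, rr m) = (T.biUnion pts).card := by
    rw [Finset.card_biUnion hdis]
    rfl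
  have h2 : T.biUnion pts ⊆ Finset.Icc (-K) K ×ˢ Finset.Icc (-K) K := by
    intro p hp
    rw [Finset.mem_biUnion] at hp
    obtain ⟨m, hm, hp⟩ := hp
    have h3 := mem_pts.1 hp
    have h4 := nm_eq p
    rw [h3] at h4
    have h5 : ((p.1 : ℝ)) ^ 2 + (p.2 : ℝ) ^ 2 = m := by exact_mod_cast h4.symm
    have h6 := hT m hm
    have h7 : |(p.1 : ℝ)| ≤ 4 * R := abs_le_of_sq_le_sq (by nlinarith [sq_nonneg (p.2 : ℝ)]) (by linarith)
    have h8 : |(p.2 : ℝ)| ≤ 4 * R := abs_le_of_sq_le_sq (by nlinarith [sq_nonneg (p.1 : ℝ)]) (by linarith)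
    have h9 : |p.1| ≤ K := by
      rw [hK, Int.le_floor]
      push_cast
      exact h7
    have h10 : |p.2| ≤ K := by
      rw [hK, Int.le_floor]
      push_cast
      exact h8
    rw [Finset.mem_product, Finset.mem_Icc, Finset.mem_Icc]
    exact ⟨abs_le.1 h9, abs_le.1 h10⟩
  have h3 := Finset.card_le_card h2
  rw [Finset.card_product, Int.card_Icc, ← h1] at h3
  have h4 : ((∑ m ∈ T, rr m : ℕ) : ℝ) ≤ (((K + 1 - -K).toNat : ℕ) : ℝ) * (((K + 1 - -K).toNat : ℕ) : ℝ) := by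
    exact_mod_cast h3
  have h5 : (((K + 1 - -K).toNat : ℕ) : ℝ) = 2 * K + 1 := by
    have h6 : (((K + 1 - -K).toNat : ℤ)) = K + 1 - -K := Int.toNat_of_nonneg (by omega)
    have h7 : ((((K + 1 - -K).toNat : ℤ)) : ℝ) = ((K + 1 - -K : ℤ) : ℝ) := by rw [h6]
    rw [Int.cast_natCast] at h7
    rw [h7]
    push_cast
    ring
  rw [h5] at h4
  push_cast at h4
  have hK2 : (0 : ℝ) ≤ K := by exact_mod_cast hK0
  nlinarith

end Pool.Agent.Lib.SR
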