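import Pool.Agent.Lib.MP_b9430d_co.SR.XK
import Pool.Agent.Lib.MP_b9430d_co.SR.XRr
import Pool.Agent.Lib.MP_b9430d_co.SR.Kdd

/-!
# XM: the finite sum of circle means is bounded by the smoothed density of the majorant

`h ≥ 0` Lipschitz with support in the disc of radius `ρ < ‖y‖`; `A(v)` the mean of `h` over the circle with centre `y` and radius
`√v` (`0` for `v ≤ 0`). `|A(v) - A(m)| ≤ M √|v - m|`, so `A(m) ≤ ∫ phg κ (v - m) A(v) dv + M √κ ∫ fej t √|t| dt`; sum over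
`m ∈ T` with the weights `rr m ≤ nuk c Q m`, drop the other terms of `DD`, polar coordinates `v = ‖x - y‖²` (`lint_AA`).
-/

set_option autoImplicit false

open MeasureTheory Complex Set Real Filter Topology
open scoped ENNReal FourierTransform

namespace Pool.Agent.Lib.SR

open Pool.MPb9430d Pool.MPb9430d.Rough Pool.MPb9430d.Frac Pool.MPb9430d.Mom

/-- The constant `∫ fej t √|t| dt`. -/
noncomputable def cF : ℝ := ∫ t, fej t * √|t|

theorem integrable_fej_sqrt : Integrable (fun t : ℝ => fej t * √|t|) := by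
  have h1 : Integrable (fun t : ℝ => 4 * (1 + ‖t‖) ^ (-(3 / 2) : ℝ)) :=
    (integrable_one_add_norm (by
      rw [Module.finrank_self]
      norm_num)).const_mul 4
  refine h1.mono' (continuous_fej.mul (Real.continuous_sqrt.comp continuous_abs)).aestronglyMeasurable
    (Eventually.of_forall fun t => ?_)
  rw [Real.norm_of_nonneg (mul_nonneg (fej_nonneg t) (Real.sqrt_nonneg _)), Real.norm_eq_abs]
  have h2 : 0 < 1 + |t| := by positivity
  have h3 : √|t| ≤ (1 + |t|) ^ (1 / 2 : ℝ) := by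
    rw [← Real.sqrt_eq_rpow]
    exact Real.sqrt_le_sqrt (by linarith)
  have h4 : fej t ≤ 4 / (1 + |t|) ^ 2 := by
    refine (fej_le_two t).trans ?_
    rw [div_le_div_iff₀ (by positivity) (by positivity)]
    nlinarith [sq_abs t, sq_nonneg (1 - |t|)]
  calc fej t * √|t| ≤ 4 / (1 + |t|) ^ 2 * (1 + |t|) ^ (1 / 2 : ℝ) :=
        mul_le_mul h4 h3 (Real.sqrt_nonneg _) (by positivity)
    _ = 4 * (1 + |t|) ^ (-(3 / 2) : ℝ) := by
        rw [div_mul_eq_mul_div, mul_div_assoc, ← Real.rpow_natCast (1 + |t|) 2, ← Real.rpow_sub h2]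
        norm_num

theorem cF_nonneg : 0 ≤ cF := integral_nonneg fun t => mul_nonneg (fej_nonneg t) (Real.sqrt_nonneg _)

theorem lint_phg_sqrt {κ : ℝ} (hκ : 0 < κ) (m : ℝ) :
    ∫⁻ v, ENNReal.ofReal (phg κ (v - m) * √|v - m|) = ENNReal.ofReal (cF * √κ) := by
  have h1 : ∫⁻ v, ENNReal.ofReal (phg κ (v - m) * √|v - m|) = ∫⁻ v, ENNReal.ofReal (phg κ v * √|v|) :=
    lintegral_sub_right_eq_self (fun v => ENNReal.ofReal (phg κ v * √|v|)) m
  have h2 : ∀ v : ℝ, phg κ v * √|v| = (κ⁻¹ * √κ) * (fej (v / κ) * √|v / κ|) := by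
    intro v
    unfold phg
    rw [abs_div, abs_of_pos hκ, Real.sqrt_div (abs_nonneg _)]
    have : √κ ≠ 0 := (Real.sqrt_pos.2 hκ).ne'
    field_simp
  have h3 : ∫ v, phg κ v * √|v| = cF * √κ := by
    simp only [h2]
    rw [integral_const_mul, Measure.integral_comp_div (fun t => fej t * √|t|) κ, abs_of_pos hκ, smul_eq_mul]
    unfold cF
    field_simp
  have h4 : Integrable (fun v => phg κ v * √|v|) := by
    simp only [h2]
    exact (integrable_fej_sqrt.comp_div hκ.ne').const_mul _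
  rw [h1, ← h3, ofReal_integral_eq_lintegral_ofReal h4
    (Eventually.of_forall fun v => mul_nonneg (phg_nonneg hκ.le _) (Real.sqrt_nonneg _))]

theorem integrable_fej : Integrable fej := by
  refine (integrable_inv_one_add_sq.const_mul 2).mono' continuous_fej.aestronglyMeasurable
    (Eventually.of_forall fun t => ?_)
  rw [Real.norm_of_nonneg (fej_nonneg t), ← div_eq_mul_inv]
  exact fej_le_two t

private theorem fej_tri {ξ : ℝ} (hξ : ξ ≠ 0) :
    ∫ v : ℝ, cexp (↑(-2 * π * v * ξ) * I) • ((max 0 (1 - |v|) : ℝ) : ℂ) = (fej ξ : ℂ) := by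
  obtain ⟨c, hc⟩ : ∃ c : ℂ, c = -(2 * π * ξ) * I := ⟨_, rfl⟩
  have hc0 : c ≠ 0 := by
    rw [hc]
    refine mul_ne_zero (neg_ne_zero.2 ?_) I_ne_zero
    exact mul_ne_zero (mul_ne_zero two_ne_zero (by exact_mod_cast Real.pi_ne_zero)) (by exact_mod_cast hξ)
  have h1 : ∀ v : ℝ, cexp (↑(-2 * π * v * ξ) * I) • ((max 0 (1 - |v|) : ℝ) : ℂ) =
      (Ioc (-1 : ℝ) 1).indicator (fun v : ℝ => cexp (c * v) * ((1 - |v| : ℝ) : ℂ)) v := by
    intro v
    have e1 : (↑(-2 * π * v * ξ) * I : ℂ) = c * v := by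
      rw [hc]
      push_cast
      ring
    rw [e1, smul_eq_mul]
    by_cases hv : v ∈ Ioc (-1 : ℝ) 1
    · rw [indicator_of_mem hv, max_eq_right]
      have : |v| ≤ 1 := abs_le.2 ⟨hv.1.le, hv.2⟩
      linarith
    · rw [indicator_of_notMem hv, max_eq_left]
      · simp
      · by_contra h
        push Not at h
        have h2 : |v| < 1 := by linarith
        exact hv ⟨(abs_lt.1 h2).1, (abs_lt.1 h2).2.le⟩
  simp only [h1]
  rw [integral_indicator measurableSet_Ioc, ← intervalIntegral.integral_of_le (by norm_num)]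
  have hcont : Continuous fun v : ℝ => cexp (c * v) * ((1 - |v| : ℝ) : ℂ) := by fun_prop
  rw [← intervalIntegral.integral_add_adjacent_intervals (hcont.intervalIntegrable (-1) 0)
    (hcont.intervalIntegrable 0 1)]
  have h2 : ∫ v in (-1 : ℝ)..0, cexp (c * v) * ((1 - |v| : ℝ) : ℂ) = 1 / c - 1 / c ^ 2 + cexp (-c) / c ^ 2 := by
    have e1 : ∫ v in (-1 : ℝ)..0, cexp (c * v) * ((1 - |v| : ℝ) : ℂ) =
        ∫ v in (-1 : ℝ)..0, (1 + (v : ℂ)) * cexp (c * v) := by
      refine intervalIntegral.integral_congr fun v hv => ?_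
      rw [uIcc_of_le (by norm_num)] at hv
      show cexp (c * v) * ((1 - |v| : ℝ) : ℂ) = (1 + (v : ℂ)) * cexp (c * v)
      rw [abs_of_nonpos hv.2]
      push_cast
      ring
    rw [e1]
    have e2 : ∀ v ∈ uIcc (-1 : ℝ) 0, HasDerivAt
        (fun v : ℝ => (1 + (v : ℂ)) * cexp (c * v) / c - cexp (c * v) / c ^ 2)
        ((1 + (v : ℂ)) * cexp (c * v)) v := by
      intro v _
      have d1 : HasDerivAt (fun v : ℝ => (v : ℂ)) 1 v := Complex.ofRealCLM.hasDerivAt
      have d2 : HasDerivAt (fun v : ℝ => cexp (c * v)) (cexp (c * v) * (c * 1)) v := (d1.const_mul c).cexp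
      have d3 := ((d1.const_add 1).mul d2).div_const c
      have d4 := d3.sub (d2.div_const (c ^ 2))
      refine d4.congr_deriv ?_
      field_simp
      ring
    rw [intervalIntegral.integral_eq_sub_of_hasDerivAt e2
      ((by fun_prop : Continuous fun v : ℝ => (1 + (v : ℂ)) * cexp (c * v)).intervalIntegrable _ _)]
    push_cast
    rw [mul_zero, Complex.exp_zero, mul_neg, mul_one]
    ring
  have h3 : ∫ v in (0 : ℝ)..1, cexp (c * v) * ((1 - |v| : ℝ) : ℂ) = cexp c / c ^ 2 - 1 / c - 1 / c ^ 2 := by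
    have e1 : ∫ v in (0 : ℝ)..1, cexp (c * v) * ((1 - |v| : ℝ) : ℂ) =
        ∫ v in (0 : ℝ)..1, (1 - (v : ℂ)) * cexp (c * v) := by
      refine intervalIntegral.integral_congr fun v hv => ?_
      rw [uIcc_of_le (by norm_num)] at hv
      show cexp (c * v) * ((1 - |v| : ℝ) : ℂ) = (1 - (v : ℂ)) * cexp (c * v)
      rw [abs_of_nonneg hv.1]
      push_cast
      ring
    rw [e1]
    have e2 : ∀ v ∈ uIcc (0 : ℝ) 1, HasDerivAt
        (fun v : ℝ => (1 - (v : ℂ)) * cexp (c * v) / c + cexp (c * v) / c ^ 2)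
        ((1 - (v : ℂ)) * cexp (c * v)) v := by
      intro v _
      have d1 : HasDerivAt (fun v : ℝ => (v : ℂ)) 1 v := Complex.ofRealCLM.hasDerivAt
      have d2 : HasDerivAt (fun v : ℝ => cexp (c * v)) (cexp (c * v) * (c * 1)) v := (d1.const_mul c).cexp
      have d3 := ((d1.const_sub 1).mul d2).div_const c
      have d4 := d3.add (d2.div_const (c ^ 2))
      refine d4.congr_deriv ?_
      field_simp
      ring
    rw [intervalIntegral.integral_eq_sub_of_hasDerivAt e2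
      ((by fun_prop : Continuous fun v : ℝ => (1 - (v : ℂ)) * cexp (c * v)).intervalIntegrable _ _)]
    push_cast
    rw [mul_zero, Complex.exp_zero, mul_one]
    ring
  rw [h2, h3]
  have h4 : cexp c + cexp (-c) = 2 * ((Real.cos (2 * π * ξ) : ℝ) : ℂ) := by
    rw [hc, Complex.ofReal_cos, Complex.two_cos]
    have e1 : -(2 * π * ξ) * I = -((2 * π * ξ : ℝ) : ℂ) * I := by push_cast; ring
    have e2 : -(-((2 * π * ξ : ℝ) : ℂ) * I) = ((2 * π * ξ : ℝ) : ℂ) * I := by ring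
    rw [e1, e2, add_comm]
  have h5 : (fej ξ : ℂ) = (2 - 2 * ((Real.cos (2 * π * ξ) : ℝ) : ℂ)) / (4 * π ^ 2 * ξ ^ 2) := by
    have hp : π * ξ ≠ 0 := mul_ne_zero Real.pi_ne_zero hξ
    have e : fej ξ = (2 - 2 * Real.cos (2 * π * ξ)) / (4 * π ^ 2 * ξ ^ 2) := by
      unfold fej
      rw [Real.sinc_of_ne_zero hp, div_pow, mul_assoc 2 π ξ, Real.cos_two_mul, Real.cos_sq']
      have h6 : π ≠ 0 := Real.pi_ne_zero
      field_simp
      ring
    rw [e]
    push_cast
    ring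
  have h6 : c ^ 2 = -(4 * π ^ 2 * ξ ^ 2) := by
    rw [hc]
    ring_nf
    rw [I_sq]
    ring
  have h7 : (1 / c - 1 / c ^ 2 + cexp (-c) / c ^ 2) + (cexp c / c ^ 2 - 1 / c - 1 / c ^ 2) =
      (cexp c + cexp (-c) - 2) / c ^ 2 := by ring
  rw [h7, h4, h5, h6, div_neg, ← neg_div]
  congr 1
  ring

theorem integral_fej : ∫ t, fej t = 1 := by
  obtain ⟨f, hf⟩ : ∃ f : ℝ → ℂ, f = fun v => ((max 0 (1 - |v|) : ℝ) : ℂ) := ⟨_, rfl⟩
  have hfc : Continuous f := by
    rw [hf]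
    fun_prop
  have hfi : Integrable f := by
    have h1 : HasCompactSupport f := by
      refine HasCompactSupport.of_support_subset_isCompact (isCompact_Icc (a := (-1 : ℝ)) (b := 1)) ?_
      intro v hv
      by_contra h
      apply hv
      rw [hf]
      show ((max 0 (1 - |v|) : ℝ) : ℂ) = 0
      rw [max_eq_left, Complex.ofReal_zero]
      by_contra h3
      push Not at h3
      exact h ⟨(abs_lt.1 (by linarith : |v| < 1)).1.le, (abs_lt.1 (by linarith : |v| < 1)).2.le⟩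
    exact hfc.integrable_of_hasCompactSupport h1
  have hF : ∀ ξ : ℝ, ξ ≠ 0 → 𝓕 f ξ = (fej ξ : ℂ) := by
    intro ξ hξ
    rw [Real.fourier_real_eq_integral_exp_smul, hf]
    exact fej_tri hξ
  have hae : 𝓕 f =ᵐ[volume] fun ξ => (fej ξ : ℂ) := by
    have : ∀ᵐ ξ : ℝ, ξ ≠ 0 := by
      rw [ae_iff]
      simp
    filter_upwards [this] with ξ hξ
    exact hF ξ hξ
  have hFi : Integrable (𝓕 f) := (integrable_congr hae).2 (integrable_fej.ofReal)
  have h1 := hfi.fourierInv_fourier_eq hFi (v := 0) hfc.continuousAt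
  rw [Real.fourierInv_eq'] at h1
  simp only [inner_zero_right, mul_zero, Complex.ofReal_zero, zero_mul, Complex.exp_zero, one_smul] at h1
  rw [integral_congr_ae hae, integral_complex_ofReal] at h1
  have h2 : f 0 = 1 := by
    rw [hf]
    simp
  rw [h2] at h1
  exact_mod_cast h1
theorem lint_phg {κ : ℝ} (hκ : 0 < κ) (m : ℝ) : ∫⁻ v, ENNReal.ofReal (phg κ (v - m)) = 1 := by
  have h1 : ∫⁻ v, ENNReal.ofReal (phg κ (v - m)) = ∫⁻ v, ENNReal.ofReal (phg κ v) :=
    lintegral_sub_right_eq_self (fun v => ENNReal.ofReal (phg κ v)) m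
  have h3 : ∫ v, phg κ v = 1 := by
    unfold phg
    rw [integral_const_mul, Measure.integral_comp_div (fun t => fej t) κ, abs_of_pos hκ, smul_eq_mul, integral_fej,
      mul_one, inv_mul_cancel₀ hκ.ne']
  have h4 : Integrable (phg κ) := by
    unfold phg
    exact (integrable_fej.comp_div hκ.ne').const_mul _
  rw [h1, ← ofReal_integral_eq_lintegral_ofReal h4 (Eventually.of_forall fun v => phg_nonneg hκ.le _), h3,
    ENNReal.ofReal_one]

private theorem XM_sqrt (a b : ℝ) (ha : 0 ≤ a) : |√a - √b| ≤ √|b - a| := by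
  rcases le_total 0 b with hb | hb
  · refine Real.le_sqrt_of_sq_le ?_
    rw [sq_abs]
    rcases le_total a b with h | h
    · have h1 := Real.sqrt_le_sqrt h
      rw [abs_of_nonneg (by linarith)]
      nlinarith [Real.sq_sqrt ha, Real.sq_sqrt hb, Real.sqrt_nonneg a, Real.sqrt_nonneg b]
    · have h1 := Real.sqrt_le_sqrt h
      rw [abs_of_nonpos (by linarith)]
      nlinarith [Real.sq_sqrt ha, Real.sq_sqrt hb, Real.sqrt_nonneg a, Real.sqrt_nonneg b]
  · rw [Real.sqrt_eq_zero_of_nonpos hb, sub_zero, abs_of_nonneg (Real.sqrt_nonneg a)]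
    refine Real.sqrt_le_sqrt ?_
    rw [abs_of_nonpos (by linarith)]
    linarith

private theorem XM_zero (F : ℂ → ℝ≥0∞) (y : ℂ) (hy : F y = 0) {v : ℝ} (hv : v ≤ 0) : AA √v F y = 0 := by
  unfold AA
  rw [Real.sqrt_eq_zero_of_nonpos hv]
  have h : ∀ θ : ℝ, F (y + ((0 : ℝ) : ℂ) * rot θ) = 0 := by
    intro θ
    rw [Complex.ofReal_zero, zero_mul, add_zero, hy]
  simp only [h, lintegral_zero, mul_zero]

/-- The general form. -/
theorem maj_int_gen {T : Finset ℕ} {c : ℕ → ℝ} {Q : ℕ} (hc : ∀ k : ℤ, 0 ≤ nuk c Q k)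
    (hmaj : ∀ m ∈ T, (rr m : ℝ) ≤ nuk c Q m) {h : ℂ → ℝ} {M κ : ℝ} (hm : Measurable h)
    (h0 : ∀ x, 0 ≤ h x) (hM : 0 ≤ M) (hl : ∀ x y, |h x - h y| ≤ M * ‖x - y‖) (hκ : 0 < κ) {y : ℂ}
    (hy : h y = 0) :
    SF T (fun x => ENNReal.ofReal (h x)) y ≤
      ENNReal.ofReal π⁻¹ * (∫⁻ x, ENNReal.ofReal (h x) * ENNReal.ofReal (DD c Q κ (‖x - y‖ ^ 2))) +
        (∑ m ∈ T, (rr m : ℝ≥0∞)) * ENNReal.ofReal (M * (cF * √κ)) := by
  classical
  set F : ℂ → ℝ≥0∞ := fun x => ENNReal.ofReal (h x) with hF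
  have hFm : Measurable F := hm.ennreal_ofReal
  have hFl : ∀ x y, F x ≤ F y + ENNReal.ofReal (M * ‖x - y‖) := by
    intro x z
    rw [hF]
    show ENNReal.ofReal (h x) ≤ ENNReal.ofReal (h z) + _
    rw [← ENNReal.ofReal_add (h0 z) (by positivity)]
    refine ENNReal.ofReal_le_ofReal ?_
    have := (abs_le.1 (hl x z)).2
    linarith
  have hFy : F y = 0 := by
    show ENNReal.ofReal (h y) = 0
    rw [hy, ENNReal.ofReal_zero]
  have hpm : ∀ m : ℝ, Measurable (fun v : ℝ => ENNReal.ofReal (phg κ (v - m))) := fun m =>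
    ((continuous_phg κ).comp (continuous_id.sub continuous_const)).measurable.ennreal_ofReal
  have hAm : Measurable (fun v : ℝ => AA √v F y) :=
    (measurable_AA_rad hFm y).comp Real.continuous_sqrt.measurable
  -- one circle
  have h1 : ∀ m : ℕ, AA √(m : ℝ) F y ≤
      (∫⁻ v in Ioi (0 : ℝ), ENNReal.ofReal (phg κ (v - m)) * AA √v F y) + ENNReal.ofReal (M * (cF * √κ)) := by
    intro m
    have e1 : AA √(m : ℝ) F y = ∫⁻ v, ENNReal.ofReal (phg κ (v - m)) * AA √(m : ℝ) F y := by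
      rw [lintegral_mul_const _ (hpm m), lint_phg hκ, one_mul]
    have e2 : ∫⁻ v, ENNReal.ofReal (phg κ (v - m)) * AA √(m : ℝ) F y ≤
        ∫⁻ v, (ENNReal.ofReal (phg κ (v - m)) * AA √v F y +
          ENNReal.ofReal M * ENNReal.ofReal (phg κ (v - m) * √|v - m|)) := by
      refine lintegral_mono fun v => ?_
      show ENNReal.ofReal (phg κ (v - m)) * AA √(m : ℝ) F y ≤ _
      have e3 := AA_lip hFl √(m : ℝ) √v y
      have e4 : M * |√(m : ℝ) - √v| ≤ M * √|v - m| :=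
        mul_le_mul_of_nonneg_left (XM_sqrt _ _ (Nat.cast_nonneg m)) hM
      calc ENNReal.ofReal (phg κ (v - m)) * AA √(m : ℝ) F y
          ≤ ENNReal.ofReal (phg κ (v - m)) * (AA √v F y + ENNReal.ofReal (M * √|v - m|)) := by
            refine mul_le_mul_right (e3.trans ?_) _
            exact add_le_add le_rfl (ENNReal.ofReal_le_ofReal e4)
        _ = _ := by
            rw [mul_add, ENNReal.ofReal_mul hM, ENNReal.ofReal_mul (phg_nonneg hκ.le _)]
            ring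
    have e5 : ∫⁻ v, ENNReal.ofReal (phg κ (v - m)) * AA √v F y =
        ∫⁻ v in Ioi (0 : ℝ), ENNReal.ofReal (phg κ (v - m)) * AA √v F y := by
      rw [← lintegral_indicator measurableSet_Ioi]
      refine lintegral_congr fun v => ?_
      by_cases hv : v ∈ Ioi (0 : ℝ)
      · rw [indicator_of_mem hv]
      · rw [indicator_of_notMem hv, XM_zero F y hFy (not_lt.1 hv), mul_zero]
    have e6 : Measurable (fun v : ℝ => ENNReal.ofReal (phg κ (v - m)) * AA √v F y) := (hpm m).mul hAm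
    rw [lintegral_add_left e6, e5] at e2
    have e7 : Measurable (fun v : ℝ => ENNReal.ofReal (phg κ (v - m) * √|v - m|)) := by
      refine Measurable.ennreal_ofReal ?_
      exact (((continuous_phg κ).comp (continuous_id.sub continuous_const)).mul
        (Real.continuous_sqrt.comp ((continuous_id.sub continuous_const).abs))).measurable
    rw [lintegral_const_mul _ e7, lint_phg_sqrt hκ, ← ENNReal.ofReal_mul hM] at e2
    exact e1.le.trans e2
  -- the sum
  have h2 : SF T F y ≤ ∑ m ∈ T, ((rr m : ℝ≥0∞) * (∫⁻ v in Ioi (0 : ℝ), ENNReal.ofReal (phg κ (v - m)) * AA √v F y) +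
      (rr m : ℝ≥0∞) * ENNReal.ofReal (M * (cF * √κ))) := by
    unfold SF
    refine Finset.sum_le_sum fun m _ => ?_
    rw [← mul_add]
    exact mul_le_mul_right (h1 m) _
  rw [Finset.sum_add_distrib, ← Finset.sum_mul] at h2
  refine h2.trans (add_le_add ?_ le_rfl)
  have h3 : ∑ m ∈ T, (rr m : ℝ≥0∞) * (∫⁻ v in Ioi (0 : ℝ), ENNReal.ofReal (phg κ (v - m)) * AA √v F y) =
      ∫⁻ v in Ioi (0 : ℝ), ∑ m ∈ T, (rr m : ℝ≥0∞) * (ENNReal.ofReal (phg κ (v - m)) * AA √v F y) := by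
    rw [lintegral_finsetSum]
    · refine Finset.sum_congr rfl fun m _ => ?_
      exact (lintegral_const_mul _ ((hpm m).mul hAm)).symm
    · intro m _
      exact ((hpm m).mul hAm).const_mul _
  have h4 : ∀ v : ℝ, ∑ m ∈ T, (rr m : ℝ≥0∞) * (ENNReal.ofReal (phg κ (v - m)) * AA √v F y) ≤
      ENNReal.ofReal (DD c Q κ v) * AA √v F y := by
    intro v
    have e1 : ∑ m ∈ T, (rr m : ℝ≥0∞) * (ENNReal.ofReal (phg κ (v - m)) * AA √v F y) =
        (∑ m ∈ T, (rr m : ℝ≥0∞) * ENNReal.ofReal (phg κ (v - m))) * AA √v F y := by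
      rw [Finset.sum_mul]
      exact Finset.sum_congr rfl fun m _ => (mul_assoc _ _ _).symm
    rw [e1]
    refine mul_le_mul_left ?_ _
    rw [ofReal_DD hc hκ]
    have e2 : ∑ m ∈ T, (rr m : ℝ≥0∞) * ENNReal.ofReal (phg κ (v - m)) ≤
        ∑ k ∈ T.map Nat.castEmbedding, ENNReal.ofReal (nuk c Q k) * ENNReal.ofReal (phg κ (v - (k : ℤ))) := by
      rw [Finset.sum_map]
      refine Finset.sum_le_sum fun m hm' => ?_
      rw [Nat.castEmbedding_apply, Int.cast_natCast]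
      refine mul_le_mul_left ?_ _
      rw [← ENNReal.ofReal_natCast]
      exact ENNReal.ofReal_le_ofReal (hmaj m hm')
    exact e2.trans (ENNReal.sum_le_tsum _)
  have h5 : Measurable fun t : ℝ => ENNReal.ofReal (DD c Q κ t) := measurable_ofReal_DD hc hκ
  have h6 := lint_AA hFm h5 y
  have h7 : ENNReal.ofReal π⁻¹ * ENNReal.ofReal π = 1 := by
    rw [← ENNReal.ofReal_mul (by positivity), inv_mul_cancel₀ Real.pi_ne_zero, ENNReal.ofReal_one]
  rw [h3, show (∫⁻ x, F x * ENNReal.ofReal (DD c Q κ (‖x - y‖ ^ 2))) =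
    ENNReal.ofReal π * ∫⁻ v in Ioi (0 : ℝ), ENNReal.ofReal (DD c Q κ v) * AA √v F y from h6,
    ← mul_assoc, h7, one_mul]
  exact lintegral_mono fun v => h4 v

theorem integrable_mul_DD {c : ℕ → ℝ} {Q : ℕ} {h : ℂ → ℝ} {ρ B κ : ℝ} (hm : Measurable h)
    (hB : ∀ x, |h x| ≤ B) (hs : ∀ x, ρ < ‖x‖ → h x = 0) (hκ : 0 < κ) (y : ℂ) :
    Integrable (fun x => h x * DD c Q κ (‖x - y‖ ^ 2)) := by
  have hB0 : 0 ≤ B := (abs_nonneg _).trans (hB 0)
  have hc : Continuous fun x : ℂ => DD c Q κ (‖x - y‖ ^ 2) :=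
    (dd_continuous c Q hκ).comp ((continuous_id.sub continuous_const).norm.pow 2)
  obtain ⟨K, hK⟩ := (isCompact_closedBall (0 : ℂ) ρ).exists_bound_of_continuousOn hc.continuousOn
  have h1 : Integrable ((Metric.closedBall (0 : ℂ) ρ).indicator fun _ : ℂ => B * K) := by
    rw [integrable_indicator_iff Metric.isClosed_closedBall.measurableSet]
    exact integrableOn_const (measure_closedBall_lt_top).ne
  refine h1.mono' (hm.mul hc.measurable).aestronglyMeasurable (Eventually.of_forall fun x => ?_)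
  by_cases hx : ‖x‖ ≤ ρ
  · have hx' : x ∈ Metric.closedBall (0 : ℂ) ρ := mem_closedBall_zero_iff.2 hx
    rw [indicator_of_mem hx', norm_mul, Real.norm_eq_abs]
    exact mul_le_mul (hB x) (hK x hx') (norm_nonneg _) hB0
  · have hx' : x ∉ Metric.closedBall (0 : ℂ) ρ := fun h' => hx (mem_closedBall_zero_iff.1 h')
    rw [indicator_of_notMem hx', hs x (not_le.1 hx), zero_mul, norm_zero]

theorem maj_int {ρ : ℝ} (hρ : 1 ≤ ρ) : ∃ C L₀ : ℝ, 0 < C ∧ ∀ (L R Λ : ℝ) (T : Finset ℕ)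
    (c : ℕ → ℝ) (Q : ℕ), L₀ ≤ L → Maj L R Λ T c Q → ∀ (h : ℂ → ℝ) (B M κ : ℝ), Measurable h →
    (∀ x, 0 ≤ h x) → (∀ x, h x ≤ B) → (∀ x, ρ < ‖x‖ → h x = 0) →
    (∀ x y, |h x - h y| ≤ M * ‖x - y‖) → 0 < κ → κ ≤ 1 → ∀ y : ℂ, L ^ 1500 ≤ ‖y‖ → ‖y‖ ≤ 2 * R →
    SF T (fun x => ENNReal.ofReal (h x)) y ≤
      ENNReal.ofReal (π⁻¹ * (∫ x, h x * DD c Q κ (‖x - y‖ ^ 2)) + C * R ^ 2 * (B + M) * √κ) := by
  refine ⟨81 * cF + 1, ρ + 1, by linarith [cF_nonneg], ?_⟩
  intro L R Λ T c Q hL hMaj h B M κ hm h0 hB hs hl hκ _ y hy _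
  have hL1 := hMaj.L1
  have hR1 : 1 ≤ R := (one_le_pow₀ hL1).trans hMaj.Rl
  have hyρ : ρ < ‖y‖ := by
    have h1 : L ≤ L ^ 1500 := le_self_pow₀ hL1 (by norm_num)
    linarith
  have hM : 0 ≤ M := by
    have h1 := hl 1 0
    rw [sub_zero, norm_one, mul_one] at h1
    exact (abs_nonneg _).trans h1
  have hB0 : 0 ≤ B := (h0 0).trans (hB 0)
  have h1 := maj_int_gen (T := T) (c := c) (Q := Q) hMaj.nonneg hMaj.maj hm h0 hM hl hκ (hs y hyρ)
  have hint := integrable_mul_DD (c := c) (Q := Q) hm (B := B) (fun x => by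
    rw [abs_of_nonneg (h0 x)]
    exact hB x) hs hκ y
  have hD := DD_nonneg (c := c) (Q := Q) hMaj.nonneg hκ
  have h2 : ∫⁻ x, ENNReal.ofReal (h x) * ENNReal.ofReal (DD c Q κ (‖x - y‖ ^ 2)) =
      ENNReal.ofReal (∫ x, h x * DD c Q κ (‖x - y‖ ^ 2)) := by
    rw [ofReal_integral_eq_lintegral_ofReal hint (Eventually.of_forall fun x => mul_nonneg (h0 x) (hD _))]
    refine lintegral_congr fun x => ?_
    rw [ENNReal.ofReal_mul (h0 x)]
  have h3 : (∑ m ∈ T, (rr m : ℝ≥0∞)) ≤ ENNReal.ofReal (81 * R ^ 2) := by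
    have e1 := sum_rr_le hR1 hMaj.Tu
    have e2 : (∑ m ∈ T, (rr m : ℝ≥0∞)) = ENNReal.ofReal (∑ m ∈ T, (rr m : ℝ)) := by
      rw [ENNReal.ofReal_sum_of_nonneg fun m _ => Nat.cast_nonneg _]
      exact Finset.sum_congr rfl fun m _ => (ENNReal.ofReal_natCast _).symm
    rw [e2]
    exact ENNReal.ofReal_le_ofReal e1
  rw [h2, ← ENNReal.ofReal_mul (by positivity)] at h1
  have hI : 0 ≤ ∫ x, h x * DD c Q κ (‖x - y‖ ^ 2) := integral_nonneg fun x => mul_nonneg (h0 x) (hD _)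
  have hcF := cF_nonneg
  refine h1.trans ?_
  rw [ENNReal.ofReal_add (by positivity) (by positivity)]
  refine add_le_add le_rfl ?_
  refine (mul_le_mul_left h3 _).trans ?_
  rw [← ENNReal.ofReal_mul (by positivity)]
  refine ENNReal.ofReal_le_ofReal ?_
  have hs0 := Real.sqrt_nonneg κ
  have e1 : 81 * R ^ 2 * (M * (cF * √κ)) = (81 * cF) * (R ^ 2 * M * √κ) := by ring
  have e2 : (81 * cF + 1) * R ^ 2 * (B + M) * √κ = (81 * cF + 1) * (R ^ 2 * (B + M) * √κ) := by ring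
  rw [e1, e2]
  refine mul_le_mul (by linarith) ?_ (by positivity) (by positivity)
  refine mul_le_mul_of_nonneg_right ?_ hs0
  exact mul_le_mul_of_nonneg_left (by linarith) (by positivity)

end Pool.Agent.Lib.SR
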