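import Pool.Agent.Lib.MP_b9430d_co.SR.Defs

/-!
# XK: the Fejér kernel, the smoothed density `DD`, circle means

`fej ≤ min (1, 1 / (9 t²)) ≤ 2 / (1 + t²)`, summability and measurability of `DD`, Lipschitz dependence of the circle mean `AA` on the
radius, polar coordinates `∫⁻ F x G(‖x - w‖²) = π ∫⁻_{v > 0} G v AA √v F w`.
-/

set_option autoImplicit false

open MeasureTheory Complex Set Real Filter Topology
open scoped ENNReal

namespace Pool.Agent.Lib.SR

open Pool.MPb9430d Pool.MPb9430d.Rough Pool.MPb9430d.Frac Pool.MPb9430d.Mom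

/-! ### The kernels `fej`, `phg` -/

theorem continuous_fej : Continuous fej := by
  unfold fej
  exact (Real.continuous_sinc.comp (continuous_const.mul continuous_id)).pow 2

theorem fej_le_one (t : ℝ) : fej t ≤ 1 := by
  unfold fej
  have h := Real.abs_sinc_le_one (π * t)
  rw [← sq_abs]
  exact pow_le_one₀ (abs_nonneg _) h

theorem fej_le {t : ℝ} (ht : t ≠ 0) : fej t ≤ 1 / (9 * t ^ 2) := by
  unfold fej
  have hp : π * t ≠ 0 := mul_ne_zero Real.pi_ne_zero ht
  rw [Real.sinc_of_ne_zero hp, div_pow]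
  have h1 : Real.sin (π * t) ^ 2 ≤ 1 := Real.sin_sq_le_one _
  have h2 : (9 : ℝ) * t ^ 2 ≤ (π * t) ^ 2 := by
    rw [mul_pow]
    have h3 : (3 : ℝ) ^ 2 ≤ π ^ 2 := pow_le_pow_left₀ (by norm_num) Real.pi_gt_three.le 2
    nlinarith [sq_nonneg t]
  have h4 : 0 < 9 * t ^ 2 := by positivity
  calc Real.sin (π * t) ^ 2 / (π * t) ^ 2 ≤ 1 / (π * t) ^ 2 :=
        div_le_div_of_nonneg_right h1 (sq_nonneg _)
    _ ≤ 1 / (9 * t ^ 2) := one_div_le_one_div_of_le h4 h2

theorem fej_le_two (t : ℝ) : fej t ≤ 2 / (1 + t ^ 2) := by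
  rw [le_div_iff₀ (by positivity)]
  rcases le_total |t| 1 with h | h
  · have h1 := fej_le_one t
    have h3 : t ^ 2 ≤ 1 := by
      rw [← sq_abs]
      exact pow_le_one₀ (abs_nonneg _) h
    have h4 := fej_nonneg t
    nlinarith [sq_nonneg t]
  · have h1 : 1 ≤ t ^ 2 := by
      rw [← sq_abs]
      exact one_le_pow₀ h
    have h2 : t ≠ 0 := by
      intro h3
      rw [h3] at h1
      norm_num at h1
    have h6 : fej t ≤ 1 / (9 * t ^ 2) := fej_le h2
    have h8 : 1 / (9 * t ^ 2) * (1 + t ^ 2) ≤ 1 := by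
      rw [div_mul_eq_mul_div, div_le_one (by positivity)]
      nlinarith
    have h9 : 0 < 1 + t ^ 2 := by positivity
    nlinarith [mul_le_mul_of_nonneg_right h6 h9.le]

theorem phg_le {κ : ℝ} (hκ : 0 < κ) (t : ℝ) : phg κ t ≤ 2 * κ / (κ ^ 2 + t ^ 2) := by
  unfold phg
  have h := fej_le_two (t / κ)
  calc κ⁻¹ * fej (t / κ) ≤ κ⁻¹ * (2 / (1 + (t / κ) ^ 2)) :=
        mul_le_mul_of_nonneg_left h (inv_nonneg.2 hκ.le)
    _ = 2 * κ / (κ ^ 2 + t ^ 2) := by
        field_simp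

theorem continuous_phg (κ : ℝ) : Continuous (phg κ) := by
  unfold phg
  exact continuous_const.mul (continuous_fej.comp (continuous_id.div_const κ))

theorem summable_phg {κ : ℝ} (hκ : 0 < κ) (t : ℝ) : Summable (fun m : ℤ => phg κ (t - m)) := by
  have h1 : Summable (fun m : ℤ => 1 / |(m : ℝ) + (-t)| ^ (2 : ℝ)) :=
    (Real.summable_one_div_int_add_rpow (-t) 2).2 (by norm_num)
  refine Summable.of_norm_bounded_eventually (g := fun m : ℤ => 2 * κ * (1 / |(m : ℝ) + (-t)| ^ (2 : ℝ)))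
    (h1.mul_left _) ?_
  have h2 : {m : ℤ | (m : ℝ) = t}.Finite := by
    refine Set.Subsingleton.finite ?_
    intro a ha b hb
    have : (a : ℝ) = b := by rw [show (a : ℝ) = t from ha, show (b : ℝ) = t from hb]
    exact_mod_cast this
  filter_upwards [h2.compl_mem_cofinite] with m hm
  have hm' : (m : ℝ) + -t ≠ 0 := by
    intro h
    exact hm (show (m : ℝ) = t by linarith)
  rw [Real.norm_of_nonneg (phg_nonneg hκ.le _)]
  refine (phg_le hκ _).trans ?_
  rw [Real.rpow_two, sq_abs, mul_one_div]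
  have h3 : 0 < ((m : ℝ) + -t) ^ 2 := by positivity
  refine div_le_div_of_nonneg_left (by positivity) h3 ?_
  nlinarith [sq_nonneg κ]

theorem abs_nuk_le (c : ℕ → ℝ) (Q : ℕ) (k : ℤ) : |nuk c Q k| ≤ ∑ q ∈ Finset.Icc 1 Q, |c q| := by
  unfold nuk
  refine (Finset.abs_sum_le_sum_abs _ _).trans ?_
  exact Finset.sum_le_sum_of_subset_of_nonneg (Finset.filter_subset _ _) fun _ _ _ => abs_nonneg _

theorem summable_DD (c : ℕ → ℝ) (Q : ℕ) {κ : ℝ} (hκ : 0 < κ) (t : ℝ) :
    Summable (fun m : ℤ => nuk c Q m * phg κ (t - m)) := by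
  refine Summable.of_norm_bounded (g := fun m : ℤ => (∑ q ∈ Finset.Icc 1 Q, |c q|) * phg κ (t - m))
    ((summable_phg hκ t).mul_left _) fun m => ?_
  rw [norm_mul, Real.norm_of_nonneg (phg_nonneg hκ.le _), Real.norm_eq_abs]
  exact mul_le_mul_of_nonneg_right (abs_nuk_le c Q m) (phg_nonneg hκ.le _)

theorem DD_nonneg {c : ℕ → ℝ} {Q : ℕ} (hc : ∀ k : ℤ, 0 ≤ nuk c Q k) {κ : ℝ} (hκ : 0 < κ) (t : ℝ) :
    0 ≤ DD c Q κ t :=
  tsum_nonneg fun m => mul_nonneg (hc m) (phg_nonneg hκ.le _)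

theorem ofReal_DD {c : ℕ → ℝ} {Q : ℕ} (hc : ∀ k : ℤ, 0 ≤ nuk c Q k) {κ : ℝ} (hκ : 0 < κ) (t : ℝ) :
    ENNReal.ofReal (DD c Q κ t) =
      ∑' m : ℤ, ENNReal.ofReal (nuk c Q m) * ENNReal.ofReal (phg κ (t - m)) := by
  unfold DD
  rw [ENNReal.ofReal_tsum_of_nonneg (fun m => mul_nonneg (hc m) (phg_nonneg hκ.le _)) (summable_DD c Q hκ t)]
  refine tsum_congr fun m => ?_
  rw [ENNReal.ofReal_mul (hc m)]

theorem measurable_ofReal_DD {c : ℕ → ℝ} {Q : ℕ} (hc : ∀ k : ℤ, 0 ≤ nuk c Q k) {κ : ℝ} (hκ : 0 < κ) :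
    Measurable (fun t => ENNReal.ofReal (DD c Q κ t)) := by
  simp only [ofReal_DD hc hκ]
  refine Measurable.tsum fun m => ?_
  exact measurable_const.mul ((continuous_phg κ).measurable.comp (measurable_id.sub_const _)).ennreal_ofReal

theorem measurable_DD {c : ℕ → ℝ} {Q : ℕ} (hc : ∀ k : ℤ, 0 ≤ nuk c Q k) {κ : ℝ} (hκ : 0 < κ) :
    Measurable (DD c Q κ) := by
  have h : DD c Q κ = fun t => (ENNReal.ofReal (DD c Q κ t)).toReal := by
    funext t
    rw [ENNReal.toReal_ofReal (DD_nonneg hc hκ t)]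
  rw [h]
  exact (measurable_ofReal_DD hc hκ).ennreal_toReal

/-! ### Circle means -/

private theorem XM_c : ENNReal.ofReal (2 * π)⁻¹ * ENNReal.ofReal (2 * π) = 1 := by
  have hp := Real.pi_pos
  rw [← ENNReal.ofReal_mul (by positivity), inv_mul_cancel₀ (by positivity), ENNReal.ofReal_one]

private theorem XM_vol : volume (Ioc (-π) π) = ENNReal.ofReal (2 * π) := by
  rw [Real.volume_Ioc]
  congr 1
  ring

/-- Lipschitz dependence of the circle mean on the radius. -/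
theorem AA_lip {F : ℂ → ℝ≥0∞} {K : ℝ}
    (hF : ∀ x y, F x ≤ F y + ENNReal.ofReal (K * ‖x - y‖)) (s t : ℝ) (w : ℂ) :
    AA s F w ≤ AA t F w + ENNReal.ofReal (K * |s - t|) := by
  unfold AA
  have h1 : ∀ θ : ℝ, F (w + s * rot θ) ≤ F (w + t * rot θ) + ENNReal.ofReal (K * |s - t|) := by
    intro θ
    refine (hF _ (w + t * rot θ)).trans ?_
    have h2 : w + s * rot θ - (w + t * rot θ) = ((s - t : ℝ) : ℂ) * rot θ := by
      push_cast
      ring
    rw [h2, norm_mul, norm_rot, mul_one, Complex.norm_real, Real.norm_eq_abs]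
  calc ENNReal.ofReal (2 * π)⁻¹ * ∫⁻ θ in Ioc (-π) π, F (w + s * rot θ)
      ≤ ENNReal.ofReal (2 * π)⁻¹ * ∫⁻ θ in Ioc (-π) π,
          (F (w + t * rot θ) + ENNReal.ofReal (K * |s - t|)) := by
        gcongr with θ
        exact h1 θ
    _ = (ENNReal.ofReal (2 * π)⁻¹ * ∫⁻ θ in Ioc (-π) π, F (w + t * rot θ)) +
          ENNReal.ofReal (K * |s - t|) := by
        rw [lintegral_add_right _ measurable_const, mul_add, setLIntegral_const, XM_vol,
          mul_comm (ENNReal.ofReal (K * |s - t|)), ← mul_assoc (ENNReal.ofReal (2 * π)⁻¹), XM_c, one_mul]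

theorem measurable_AA_rad {F : ℂ → ℝ≥0∞} (hF : Measurable F) (w : ℂ) : Measurable (fun s : ℝ => AA s F w) := by
  unfold AA
  refine Measurable.const_mul ?_ _
  have h : Measurable (fun p : ℝ × ℝ => F (w + p.1 * rot p.2)) :=
    hF.comp (measurable_const.add ((Complex.measurable_ofReal.comp measurable_fst).mul
      (measurable_rot.comp measurable_snd)))
  exact h.lintegral_prod_right'

/-- Polar coordinates around `w`, with the square of the distance as the variable. -/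
theorem lint_AA {F : ℂ → ℝ≥0∞} (hF : Measurable F) {G : ℝ → ℝ≥0∞} (hG : Measurable G) (w : ℂ) :
    ∫⁻ x, F x * G (‖x - w‖ ^ 2) =
      ENNReal.ofReal π * ∫⁻ v in Ioi (0 : ℝ), G v * AA √v F w := by
  have h0 : ∫⁻ x, F x * G (‖x - w‖ ^ 2) = ∫⁻ x, F (w + x) * G (‖x‖ ^ 2) := by
    rw [← lintegral_add_left_eq_self (fun x => F x * G (‖x - w‖ ^ 2)) w]
    refine lintegral_congr fun x => ?_
    rw [add_sub_cancel_left]
  rw [h0, ← Complex.lintegral_comp_polarCoord_symm]
  have htar : (polarCoord.target : Set (ℝ × ℝ)) = Ioi (0 : ℝ) ×ˢ Ioo (-π) π := rfl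
  rw [htar]
  have hsymm : ∀ q : ℝ × ℝ, Complex.polarCoord.symm q = (q.1 : ℂ) * rot q.2 := by
    intro q
    rw [Complex.polarCoord_symm_apply]
    unfold rot
    rw [Complex.exp_mul_I, Complex.ofReal_cos, Complex.ofReal_sin]
  simp only [hsymm]
  rw [Measure.volume_eq_prod, ← Measure.prod_restrict]
  have hFm : Measurable fun q : ℝ × ℝ => F (w + (q.1 : ℂ) * rot q.2) :=
    hF.comp (measurable_const.add ((Complex.measurable_ofReal.comp measurable_fst).mul
      (measurable_rot.comp measurable_snd)))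
  have hGm : Measurable fun q : ℝ × ℝ => G (‖(q.1 : ℂ) * rot q.2‖ ^ 2) :=
    hG.comp ((((Complex.measurable_ofReal.comp measurable_fst).mul
      (measurable_rot.comp measurable_snd)).norm).pow_const 2)
  have hmeas : Measurable fun q : ℝ × ℝ =>
      ENNReal.ofReal q.1 • (F (w + (q.1 : ℂ) * rot q.2) * G (‖(q.1 : ℂ) * rot q.2‖ ^ 2)) :=
    Measurable.smul (measurable_fst.ennreal_ofReal) (hFm.mul hGm)
  rw [lintegral_prod _ hmeas.aemeasurable]
  rw [Measure.restrict_congr_set (Ioo_ae_eq_Ioc : Ioo (-π) π =ᵐ[volume] Ioc (-π) π)]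
  -- the inner integral
  have h1 : ∀ s ∈ Ioi (0 : ℝ), ∫⁻ θ in Ioc (-π) π, ENNReal.ofReal s •
      (F (w + (s : ℂ) * rot θ) * G (‖(s : ℂ) * rot θ‖ ^ 2)) =
      ENNReal.ofReal (|2 * s|) * (ENNReal.ofReal π * (G (s ^ 2) * AA √(s ^ 2) F w)) := by
    intro s hs
    have hs0 : 0 < s := hs
    have h2 : ∀ θ : ℝ, ENNReal.ofReal s • (F (w + (s : ℂ) * rot θ) * G (‖(s : ℂ) * rot θ‖ ^ 2)) =
        ENNReal.ofReal s * G (s ^ 2) * F (w + (s : ℂ) * rot θ) := by
      intro θ
      rw [norm_mul, norm_rot, mul_one, Complex.norm_real, Real.norm_eq_abs, sq_abs, smul_eq_mul]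
      ring
    simp only [h2]
    have h2m : Measurable fun θ : ℝ => F (w + (s : ℂ) * rot θ) :=
      hF.comp (measurable_const.add (measurable_const.mul measurable_rot))
    rw [lintegral_const_mul _ h2m, Real.sqrt_sq hs0.le]
    unfold AA
    rw [abs_of_pos (by positivity : 0 < 2 * s), ENNReal.ofReal_mul (by norm_num : (0 : ℝ) ≤ 2)]
    have h3 : ENNReal.ofReal 2 * ENNReal.ofReal π * ENNReal.ofReal (2 * π)⁻¹ = 1 := by
      rw [← ENNReal.ofReal_mul (by norm_num), ← ENNReal.ofReal_mul (by positivity),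
        mul_inv_cancel₀ (by positivity), ENNReal.ofReal_one]
    calc ENNReal.ofReal s * G (s ^ 2) * ∫⁻ θ in Ioc (-π) π, F (w + (s : ℂ) * rot θ)
        = (ENNReal.ofReal 2 * ENNReal.ofReal π * ENNReal.ofReal (2 * π)⁻¹) *
            (ENNReal.ofReal s * G (s ^ 2) * ∫⁻ θ in Ioc (-π) π, F (w + (s : ℂ) * rot θ)) := by
          rw [h3, one_mul]
      _ = _ := by ring
  rw [setLIntegral_congr_fun measurableSet_Ioi h1]
  have himg : (fun s : ℝ => s ^ 2) '' Ioi (0 : ℝ) = Ioi 0 := by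
    ext v
    constructor
    · rintro ⟨s, hs, rfl⟩
      have hs0 : 0 < s := hs
      show 0 < s ^ 2
      positivity
    · intro hv
      exact ⟨√v, Real.sqrt_pos.2 hv, Real.sq_sqrt (le_of_lt hv)⟩
  have h4 := lintegral_image_eq_lintegral_abs_deriv_mul (s := Ioi (0 : ℝ)) (f := fun s : ℝ => s ^ 2)
    (f' := fun s => 2 * s) measurableSet_Ioi (fun s _ => by
      have := (hasDerivAt_pow 2 s).hasDerivWithinAt (s := Ioi (0 : ℝ))
      simpa using this) (by
      intro a ha b hb hab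
      have ha0 : 0 < a := ha
      have hb0 : 0 < b := hb
      have h5 : a ^ 2 = b ^ 2 := hab
      exact (pow_left_inj₀ ha0.le hb0.le (by norm_num)).1 h5)
    (fun v => ENNReal.ofReal π * (G v * AA √v F w))
  rw [himg] at h4
  have h5 : Measurable fun v : ℝ => G v * AA √v F w :=
    hG.mul ((measurable_AA_rad hF w).comp Real.continuous_sqrt.measurable)
  rw [← h4, lintegral_const_mul _ h5]

end Pool.Agent.Lib.SR
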