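import Pool.Agent.Lib.MP_b9430d_co.SR.XHv
import Pool.Agent.Lib.MP_b9430d_co.SR.XK
import Pool.Agent.Lib.MP_b9430d_co.SR.XRr
import Pool.Agent.Lib.MP_b9430d_co.Mom.CirS

/-!
# XSm: x-smoothing

`s = ∑ rr m * cA √m A` is the real form of `SF T (ind A)`; `cA_smooth` (Mom/CirS): `∫ (cA s A - smo N (cA s A))² ≤ 16 |A| / N`,
`N = R⁶`, and the sum over `T` of `rr m` is at most `81 R²`. With `g = gV`, `hV = cut (ρ + 2) * smo N g`:
`∫ g s = ∫ g (s - smo N s) + ∫ smo N g * s`, Cauchy-Schwarz in the first integral, `∫ smo N g * s ≤ ∫ hV s + n ∫_{‖x‖ > ρ + 1} smo N g`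
(`tail_smo`), and `∫ hV s` is the integral over `A` of `SF T hV` by symmetry.
-/

set_option autoImplicit false

open MeasureTheory Complex Set Real Filter Topology
open scoped ENNReal

namespace Pool.Agent.Lib.SR

open Pool.MPb9430d Pool.MPb9430d.Rough Pool.MPb9430d.Frac Pool.MPb9430d.Mom

private theorem XSm_cs {μ : Measure ℂ} {f g : ℂ → ℝ} (hf : AEStronglyMeasurable f μ)
    (hg : AEStronglyMeasurable g μ) (hf0 : ∀ x, 0 ≤ f x) (hg0 : ∀ x, 0 ≤ g x)
    (hf2 : Integrable (fun x => f x ^ 2) μ) (hg2 : Integrable (fun x => g x ^ 2) μ) :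
    ∫ x, f x * g x ∂μ ≤ √(∫ x, f x ^ 2 ∂μ) * √(∫ x, g x ^ 2 ∂μ) := by
  have h2 : ENNReal.ofReal (2 : ℝ) = 2 := by simp
  have hf3 : MemLp f (ENNReal.ofReal 2) μ := by
    rw [h2]
    exact (memLp_two_iff_integrable_sq hf).2 hf2
  have hg3 : MemLp g (ENNReal.ofReal 2) μ := by
    rw [h2]
    exact (memLp_two_iff_integrable_sq hg).2 hg2
  have h := integral_mul_le_Lp_mul_Lq_of_nonneg Real.HolderConjugate.two_two
    (ae_of_all _ hf0) (ae_of_all _ hg0) hf3 hg3
  rw [Real.sqrt_eq_rpow, Real.sqrt_eq_rpow]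
  simpa [Real.rpow_two] using h

private theorem XSm_even (N : ℝ) (x y : ℂ) : gau N (x - y) = gau N (y - x) := by
  unfold gau
  rw [norm_sub_rev]

/-- The convolution with `gau N` is symmetric. -/
theorem smo_pair {N K : ℝ} (hN : 0 < N) {g s : ℂ → ℝ} (hi : Integrable g) (hsm : Measurable s)
    (hsK : ∀ x, |s x| ≤ K) : ∫ x, smo N g x * s x = ∫ x, g x * smo N s x := by
  have hI : Integrable (fun p : ℂ × ℂ => g p.2 * gau N (p.1 - p.2)) (volume.prod volume) :=
    hi.convolution_integrand (ContinuousLinearMap.mul ℝ ℝ) (integrable_gau hN)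
  have hJ : Integrable (fun p : ℂ × ℂ => g p.2 * gau N (p.1 - p.2) * s p.1)
      (volume.prod volume) := by
    refine hI.mul_bdd (c := K) (hsm.comp measurable_fst).aestronglyMeasurable ?_
    exact ae_of_all _ fun p => hsK p.1
  calc ∫ x, smo N g x * s x = ∫ x, ∫ t, g t * gau N (x - t) * s x := by
        refine integral_congr_ae (ae_of_all _ fun x => ?_)
        simp only [smo]
        rw [← integral_mul_const]
        refine integral_congr_ae (ae_of_all _ fun t => ?_)
        simp only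
        ring
    _ = ∫ t, ∫ x, g t * gau N (x - t) * s x := integral_integral_swap hJ
    _ = ∫ t, g t * smo N s t := by
        refine integral_congr_ae (ae_of_all _ fun t => ?_)
        simp only [smo]
        rw [← integral_const_mul]
        refine integral_congr_ae (ae_of_all _ fun x => ?_)
        simp only
        rw [XSm_even N t x]
        ring

/-- The circle mean of an indicator function in real form. -/
theorem AA_ind {A : Set ℂ} (hA : MeasurableSet A) (s : ℝ) (x : ℂ) :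
    AA s (ind A) x = ENNReal.ofReal (cA s A x) := by
  unfold AA cA
  rw [ENNReal.ofReal_mul (by positivity), intervalIntegral.integral_of_le (by linarith [Real.pi_pos])]
  congr 1
  have hm : Measurable fun φ : ℝ => chi A (x + s * rot φ) := by
    have h1 : Measurable (chi A) := measurable_const.indicator hA
    exact h1.comp (measurable_const.add (measurable_const.mul measurable_rot))
  have h0 : ∀ z : ℂ, 0 ≤ chi A z ∧ chi A z ≤ 1 := by
    intro z
    unfold chi
    by_cases h : z ∈ A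
    · rw [indicator_of_mem h]
      exact ⟨zero_le_one, le_rfl⟩
    · rw [indicator_of_notMem h]
      exact ⟨le_rfl, zero_le_one⟩
  have hi : Integrable (fun φ : ℝ => chi A (x + s * rot φ)) (volume.restrict (Ioc (-π) π)) := by
    refine (integrable_const (1 : ℝ)).mono' hm.aestronglyMeasurable (Eventually.of_forall fun φ => ?_)
    rw [Real.norm_of_nonneg (h0 _).1]
    exact (h0 _).2
  rw [ofReal_integral_eq_lintegral_ofReal hi (Eventually.of_forall fun φ => (h0 _).1)]
  refine lintegral_congr fun φ => ?_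
  unfold chi
  by_cases h : x + s * rot φ ∈ A
  · rw [ind_of_mem h, indicator_of_mem h, ENNReal.ofReal_one]
  · rw [ind_of_notMem h, indicator_of_notMem h, ENNReal.ofReal_zero]

/-- The real form of `SF T (ind A)`. -/
noncomputable def sT (T : Finset ℕ) (A : Set ℂ) (x : ℂ) : ℝ := ∑ m ∈ T, (rr m : ℝ) * cA √(m : ℝ) A x

theorem sT_facts (T : Finset ℕ) {A : Set ℂ} (hA : MeasurableSet A) (hfin : volume A ≠ ∞) :
    Measurable (sT T A) ∧ (∀ x, 0 ≤ sT T A x) ∧ (∀ x, sT T A x ≤ ∑ m ∈ T, (rr m : ℝ)) ∧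
      (∀ x, SF T (ind A) x = ENNReal.ofReal (sT T A x)) := by
  have hc := fun s => cA_facts hA hfin s
  refine ⟨?_, ?_, ?_, ?_⟩
  · unfold sT
    exact Finset.measurable_sum _ fun m _ => (hc _).1.const_mul _
  · intro x
    exact Finset.sum_nonneg fun m _ => mul_nonneg (Nat.cast_nonneg _) ((hc _).2.1 x)
  · intro x
    exact Finset.sum_le_sum fun m _ => mul_le_of_le_one_right (Nat.cast_nonneg _) ((hc _).2.2.1 x)
  · intro x
    unfold SF sT
    rw [ENNReal.ofReal_sum_of_nonneg fun m _ => mul_nonneg (Nat.cast_nonneg _) ((hc _).2.1 x)]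
    refine Finset.sum_congr rfl fun m _ => ?_
    rw [AA_ind hA, ENNReal.ofReal_mul (Nat.cast_nonneg _), ENNReal.ofReal_natCast]

private theorem XSm_smo_sum {T : Finset ℕ} {A : Set ℂ} (hA : MeasurableSet A) (hfin : volume A ≠ ∞)
    {N : ℝ} (hN : 0 < N) (x : ℂ) :
    smo N (sT T A) x = ∑ m ∈ T, (rr m : ℝ) * smo N (cA √(m : ℝ) A) x := by
  have hc := fun s => cA_facts hA hfin s
  unfold smo sT
  have hI : ∀ m : ℕ, Integrable (fun t => gau N (x - t) * cA √(m : ℝ) A t) := by
    intro m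
    refine Integrable.mul_bdd (c := (1 : ℝ)) ((integrable_gau hN).comp_sub_left x)
      (hc _).1.aestronglyMeasurable (ae_of_all _ fun t => ?_)
    rw [Real.norm_of_nonneg ((hc _).2.1 t)]
    exact (hc _).2.2.1 t
  have h1 : ∀ t, gau N (x - t) * ∑ m ∈ T, (rr m : ℝ) * cA √(m : ℝ) A t =
      ∑ m ∈ T, (rr m : ℝ) * (gau N (x - t) * cA √(m : ℝ) A t) := by
    intro t
    rw [Finset.mul_sum]
    exact Finset.sum_congr rfl fun m _ => by ring
  simp only [h1]
  rw [integral_finsetSum _ fun m _ => (hI m).const_mul _]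
  refine Finset.sum_congr rfl fun m _ => ?_
  rw [integral_const_mul]

/-- The smoothed function with a cut-off. -/
noncomputable def hh (ρ R : ℝ) (g : ℂ → ℝ) (x : ℂ) : ℝ := cut (ρ + 2) x * smo (R ^ 6) g x

theorem hh_facts {ρ R K : ℝ} (hR : 1 ≤ R) {g : ℂ → ℝ} (hgm : Measurable g) (hg0 : ∀ x, 0 ≤ g x)
    (hgK : ∀ x, g x ≤ K) (hgi : Integrable g) : Measurable (hh ρ R g) ∧ (∀ x, 0 ≤ hh ρ R g x) ∧
      (∀ x, hh ρ R g x ≤ K) ∧ (∀ x, ρ + 2 ≤ ‖x‖ → hh ρ R g x = 0) ∧ Integrable (hh ρ R g) := by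
  have hN0 : 0 < R ^ 6 := by positivity
  have h1 : Measurable (hh ρ R g) := (continuous_cut _).measurable.mul (measurable_smo hgm)
  have h2 := smo_nonneg (N := R ^ 6) hg0
  have h3 : ∀ x, smo (R ^ 6) g x ≤ K := fun x =>
    (le_abs_self _).trans (abs_smo_le hN0 hgm (fun x => by
      rw [abs_of_nonneg (hg0 x)]
      exact hgK x) x)
  have h4 : ∀ x, hh ρ R g x ≤ smo (R ^ 6) g x := fun x =>
    mul_le_of_le_one_left (h2 x) (cut_le_one _ _)
  refine ⟨h1, fun x => mul_nonneg (cut_nonneg _ _) (h2 x), fun x => (h4 x).trans (h3 x), fun x hx => ?_, ?_⟩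
  · unfold hh
    rw [cut_of_ge hx, zero_mul]
  · refine (integrable_smo hN0 hgi).mono' h1.aestronglyMeasurable (ae_of_all _ fun x => ?_)
    have h5 : 0 ≤ hh ρ R g x := mul_nonneg (cut_nonneg _ _) (h2 x)
    rw [Real.norm_of_nonneg h5]
    exact h4 x

/-- x-smoothing, general form. -/
theorem x_smooth_gen {ρ : ℝ} (hρ : 1 ≤ ρ) (n : ℕ) : ∃ C L₀ : ℝ, 0 < C ∧ ∀ (L R Λ : ℝ)
    (T : Finset ℕ) (c : ℕ → ℝ) (Q : ℕ), L₀ ≤ L → Maj L R Λ T c Q → ∀ A : Set ℂ,
    MeasurableSet A → volume A ≤ n → (∀ᵐ x : ℂ, SF T (ind A) x ≤ n) →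
    ∀ g : ℂ → ℝ, Measurable g → (∀ x, 0 ≤ g x) → (∀ x, g x ≤ n) → (∀ x, ρ < ‖x‖ → g x = 0) →
    ∫⁻ x, ENNReal.ofReal (g x) * SF T (ind A) x ≤
      (∫⁻ w in A, SF T (fun x => ENNReal.ofReal (hh ρ R g x)) w) +
        ENNReal.ofReal (C * √(volume.real A) / R) + ENNReal.ofReal (Real.exp (-R)) := by
  refine ⟨648 * n * ρ + 1, 8 * n ^ 2 * ρ ^ 2 + 2, by positivity, ?_⟩
  intro L R Λ T c Q hL hMaj A hA hAn hAe g hgm hg0 hgn hgs
  have hn0 : (0 : ℝ) ≤ n := Nat.cast_nonneg n
  have hfin : volume A ≠ ∞ := ne_top_of_le_ne_top (ENNReal.natCast_ne_top n) hAn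
  have hρ0 : 0 < ρ := by linarith
  have hLR1 : L ≤ R := (le_self_pow₀ hMaj.L1 (by norm_num)).trans hMaj.Rl
  have hR2 : 2 ≤ R := by nlinarith [sq_nonneg ((n : ℝ) * ρ)]
  have hL2 : 8 * n ^ 2 * ρ ^ 2 ≤ R := by linarith
  have hR1 : 1 ≤ R := hMaj.L1.trans hLR1
  have hR0 : 0 < R := by linarith
  set N : ℝ := R ^ 6 with hN
  have hN1 : 1 ≤ N := one_le_pow₀ hR1
  have hN0 : 0 < N := by linarith
  have hgind : ∀ x, g x ≤ (Metric.closedBall (0 : ℂ) ρ).indicator (fun _ => (n : ℝ)) x := by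
    intro x
    by_cases hx : x ∈ Metric.closedBall (0 : ℂ) ρ
    · rw [indicator_of_mem hx]
      exact hgn x
    · rw [indicator_of_notMem hx]
      exact (hgs x (not_le.1 fun h' => hx (mem_closedBall_zero_iff.2 h'))).le
  have hindi : Integrable ((Metric.closedBall (0 : ℂ) ρ).indicator (fun _ => (n : ℝ))) := by
    rw [integrable_indicator_iff measurableSet_closedBall]
    exact integrableOn_const measure_closedBall_lt_top.ne
  have hgi : Integrable g := hindi.mono' hgm.aestronglyMeasurable (ae_of_all _ fun x => by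
    rw [Real.norm_of_nonneg (hg0 x)]
    exact hgind x)
  obtain ⟨hhm, hh0, hhn, hhs, hhi⟩ := hh_facts (ρ := ρ) hR1 hgm hg0 hgn hgi
  obtain ⟨hsm, hs0, hsB, hsS⟩ := sT_facts T hA hfin
  obtain ⟨s, hs⟩ : ∃ s : ℂ → ℝ, s = sT T A := ⟨_, rfl⟩
  obtain ⟨h, hh'⟩ : ∃ h : ℂ → ℝ, h = hh ρ R g := ⟨_, rfl⟩
  rw [← hh'] at hhm hh0 hhn hhs hhi
  rw [← hs] at hsm hs0 hsB hsS
  have hsum := sum_rr_le hR1 hMaj.Tu
  have hsB' : ∀ x, |s x| ≤ 81 * R ^ 2 := fun x => by
    rw [abs_of_nonneg (hs0 x)]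
    exact (hsB x).trans hsum
  have hsn : ∀ᵐ x : ℂ, s x ≤ n := by
    filter_upwards [hAe] with x hx
    rw [hsS x] at hx
    rw [← ENNReal.ofReal_natCast] at hx
    exact (ENNReal.ofReal_le_ofReal_iff hn0).1 hx
  have hgabs : ∀ x, |g x| ≤ n := fun x => by
    rw [abs_of_nonneg (hg0 x)]
    exact hgn x
  -- the left-hand side
  have e1 : ∫⁻ x, ENNReal.ofReal (g x) * SF T (ind A) x = ENNReal.ofReal (∫ x, g x * s x) := by
    have hgs' : Integrable (fun x => g x * s x) :=
      hgi.mul_bdd (c := 81 * R ^ 2) hsm.aestronglyMeasurable (ae_of_all _ fun x => by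
        rw [Real.norm_eq_abs]
        exact hsB' x)
    rw [ofReal_integral_eq_lintegral_ofReal hgs' (ae_of_all _ fun x => mul_nonneg (hg0 x) (hs0 x))]
    refine lintegral_congr fun x => ?_
    rw [hsS x, ENNReal.ofReal_mul (hg0 x)]
  -- the first part
  have hsmm : Measurable (smo N s) := measurable_smo hsm
  have hsmB : ∀ x, |smo N s x| ≤ 81 * R ^ 2 := fun x => abs_smo_le hN0 hsm hsB' x
  have hcf := fun m : ℕ => cA_facts hA hfin √(m : ℝ)
  have e2 : ∫ x, g x * (s x - smo N s x) ≤ 648 * n * ρ * √(volume.real A) / R := by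
    have p1 : ∀ x, g x * (s x - smo N s x) ≤
        ∑ m ∈ T, (rr m : ℝ) * (g x * |cA √(m : ℝ) A x - smo N (cA √(m : ℝ) A) x|) := by
      intro x
      have q1 : s x - smo N s x = ∑ m ∈ T, (rr m : ℝ) * (cA √(m : ℝ) A x - smo N (cA √(m : ℝ) A) x) := by
        rw [hs, XSm_smo_sum hA hfin hN0]
        unfold sT
        rw [← Finset.sum_sub_distrib]
        exact Finset.sum_congr rfl fun m _ => by ring
      rw [q1, Finset.mul_sum]
      refine Finset.sum_le_sum fun m _ => ?_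
      have q2 := le_abs_self (cA √(m : ℝ) A x - smo N (cA √(m : ℝ) A) x)
      have q3 : g x * ((rr m : ℝ) * (cA √(m : ℝ) A x - smo N (cA √(m : ℝ) A) x)) =
        (rr m : ℝ) * (g x * (cA √(m : ℝ) A x - smo N (cA √(m : ℝ) A) x)) := by ring
      rw [q3]
      exact mul_le_mul_of_nonneg_left (mul_le_mul_of_nonneg_left q2 (hg0 x)) (Nat.cast_nonneg _)
    have hF : ∀ m : ℕ, Measurable (fun x => cA √(m : ℝ) A x - smo N (cA √(m : ℝ) A) x) ∧
        Integrable (fun x => cA √(m : ℝ) A x - smo N (cA √(m : ℝ) A) x) ∧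
        (∀ x, |cA √(m : ℝ) A x - smo N (cA √(m : ℝ) A) x| ≤ 2) := by
      intro m
      obtain ⟨a1, a2, a3, a4⟩ := hcf m
      have a5 : ∀ x, |cA √(m : ℝ) A x| ≤ 1 := fun x => by
        rw [abs_of_nonneg (a2 x)]
        exact a3 x
      refine ⟨a1.sub (measurable_smo a1), a4.sub (integrable_smo hN0 a4), fun x => ?_⟩
      have a6 := abs_smo_le hN0 a1 a5 x
      exact (abs_sub _ _).trans (by linarith [a5 x])
    have p2 : ∀ m : ℕ, Integrable (fun x => g x * |cA √(m : ℝ) A x - smo N (cA √(m : ℝ) A) x|) := by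
      intro m
      refine hgi.mul_bdd (c := (2 : ℝ)) (hF m).1.abs.aestronglyMeasurable (ae_of_all _ fun x => ?_)
      rw [Real.norm_eq_abs, abs_abs]
      exact (hF m).2.2 x
    have p3 : ∫ x, g x * (s x - smo N s x) ≤
        ∑ m ∈ T, (rr m : ℝ) * ∫ x, g x * |cA √(m : ℝ) A x - smo N (cA √(m : ℝ) A) x| := by
      have q1 : ∑ m ∈ T, (rr m : ℝ) * ∫ x, g x * |cA √(m : ℝ) A x - smo N (cA √(m : ℝ) A) x| =
          ∫ x, ∑ m ∈ T, (rr m : ℝ) * (g x * |cA √(m : ℝ) A x - smo N (cA √(m : ℝ) A) x|) := by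
        rw [integral_finsetSum _ fun m _ => (p2 m).const_mul _]
        exact Finset.sum_congr rfl fun m _ => (integral_const_mul _ _).symm
      rw [q1]
      refine integral_mono ?_ (integrable_finsetSum _ fun m _ => (p2 m).const_mul _) p1
      refine hgi.mul_bdd (c := 81 * R ^ 2 + 81 * R ^ 2) (hsm.sub hsmm).aestronglyMeasurable
        (ae_of_all _ fun x => ?_)
      rw [Real.norm_eq_abs]
      exact (abs_sub _ _).trans (add_le_add (hsB' x) (hsmB x))
    have hg2 : Integrable (fun x => g x ^ 2) := by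
      have := hgi.mul_bdd (c := (n : ℝ)) hgm.aestronglyMeasurable (ae_of_all _ fun x => by
        rw [Real.norm_eq_abs]
        exact hgabs x)
      refine this.congr (ae_of_all _ fun x => ?_)
      simp only
      ring
    have p4 : ∫ x, g x ^ 2 ≤ (2 * n * ρ) ^ 2 := by
      have q1 : ∫ x, g x ^ 2 ≤ ∫ x, n * g x := by
        refine integral_mono hg2 (hgi.const_mul _) fun x => ?_
        simp only
        nlinarith [hg0 x, hgn x]
      have q2 : ∫ x, g x ≤ n * (π * ρ ^ 2) := by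
        refine (integral_mono hgi hindi hgind).trans (le_of_eq ?_)
        rw [integral_indicator measurableSet_closedBall, setIntegral_const, smul_eq_mul, measureReal_def,
          Complex.volume_closedBall, ENNReal.toReal_mul, ENNReal.toReal_pow, ENNReal.toReal_ofReal hρ0.le,
          ENNReal.coe_toReal, NNReal.coe_real_pi]
        ring
      rw [integral_const_mul] at q1
      have q3 : (n : ℝ) * ∫ x, g x ≤ n * (n * (π * ρ ^ 2)) := mul_le_mul_of_nonneg_left q2 hn0
      have q4 : π ≤ 4 := Real.pi_le_four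
      have q5 : (n : ℝ) * (n * (π * ρ ^ 2)) ≤ (2 * n * ρ) ^ 2 := by nlinarith [sq_nonneg ((n : ℝ) * ρ)]
      linarith
    have p5 : ∀ m ∈ T, ∫ x, g x * |cA √(m : ℝ) A x - smo N (cA √(m : ℝ) A) x| ≤
        2 * n * ρ * (4 * √(volume.real A) / R ^ 3) := by
      intro m hm
      have q1 := XSm_cs (μ := volume) hgm.aestronglyMeasurable (hF m).1.abs.aestronglyMeasurable hg0
        (fun x => abs_nonneg _) hg2 (by
          have := (hF m).2.1.mul_bdd (c := (2 : ℝ)) (hF m).1.aestronglyMeasurable (ae_of_all _ fun x => by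
            rw [Real.norm_eq_abs]
            exact (hF m).2.2 x)
          refine this.congr (ae_of_all _ fun x => ?_)
          simp only
          rw [sq_abs]
          ring)
      refine q1.trans ?_
      have q2 : √(∫ x, g x ^ 2) ≤ 2 * n * ρ := by
        rw [← Real.sqrt_sq (by positivity : (0 : ℝ) ≤ 2 * n * ρ)]
        exact Real.sqrt_le_sqrt p4
      have q3 : ∫ x, |cA √(m : ℝ) A x - smo N (cA √(m : ℝ) A) x| ^ 2 ≤ (4 * √(volume.real A) / R ^ 3) ^ 2 := by
        have r1 : (1 : ℝ) ≤ √(m : ℝ) := by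
          rw [Real.one_le_sqrt]
          exact_mod_cast hMaj.T1 m hm
        have r2 := cA_smooth hA hfin r1 hN1
        have r3 : ∀ x, |cA √(m : ℝ) A x - smo N (cA √(m : ℝ) A) x| ^ 2 =
          (cA √(m : ℝ) A x - smo N (cA √(m : ℝ) A) x) ^ 2 := fun x => sq_abs _
        simp only [r3]
        refine r2.trans (le_of_eq ?_)
        rw [div_pow, mul_pow, Real.sq_sqrt measureReal_nonneg, ← pow_mul, hN]
        norm_num
      have q4 : √(∫ x, |cA √(m : ℝ) A x - smo N (cA √(m : ℝ) A) x| ^ 2) ≤ 4 * √(volume.real A) / R ^ 3 := by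
        rw [← Real.sqrt_sq (by positivity : (0 : ℝ) ≤ 4 * √(volume.real A) / R ^ 3)]
        exact Real.sqrt_le_sqrt q3
      exact mul_le_mul q2 q4 (Real.sqrt_nonneg _) (by positivity)
    calc ∫ x, g x * (s x - smo N s x)
        ≤ ∑ m ∈ T, (rr m : ℝ) * (2 * n * ρ * (4 * √(volume.real A) / R ^ 3)) :=
          p3.trans (Finset.sum_le_sum fun m hm => mul_le_mul_of_nonneg_left (p5 m hm) (Nat.cast_nonneg _))
      _ = (∑ m ∈ T, (rr m : ℝ)) * (2 * n * ρ * (4 * √(volume.real A) / R ^ 3)) := by rw [Finset.sum_mul]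
      _ ≤ (81 * R ^ 2) * (2 * n * ρ * (4 * √(volume.real A) / R ^ 3)) :=
          mul_le_mul_of_nonneg_right hsum (by positivity)
      _ = 648 * n * ρ * √(volume.real A) / R := by
          field_simp
          ring
  -- the second part
  have hsmg : Measurable (smo N g) := measurable_smo hgm
  have hsmg0 : ∀ x, 0 ≤ smo N g x := smo_nonneg hg0
  have hsmgi : Integrable (smo N g) := integrable_smo hN0 hgi
  have hdef : ∀ x, h x = cut (ρ + 2) x * smo N g x := by
    intro x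
    rw [hh']
    rfl
  have e3 : ∫ x, smo N g x * s x ≤ (∫ x, h x * s x) + n * (8 * n * ρ ^ 2 * Real.exp (-N ^ 2)) := by
    have hi1 : Integrable (fun x => smo N g x * s x) :=
      hsmgi.mul_bdd (c := 81 * R ^ 2) hsm.aestronglyMeasurable (ae_of_all _ fun x => by
        rw [Real.norm_eq_abs]
        exact hsB' x)
    have hi2 : Integrable (fun x => h x * s x) :=
      hhi.mul_bdd (c := 81 * R ^ 2) hsm.aestronglyMeasurable (ae_of_all _ fun x => by
        rw [Real.norm_eq_abs]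
        exact hsB' x)
    have hset : MeasurableSet {x : ℂ | ρ + 1 < ‖x‖} := measurableSet_lt measurable_const measurable_norm
    have hi3 : Integrable ({x : ℂ | ρ + 1 < ‖x‖}.indicator fun x => n * |smo N g x|) := by
      rw [integrable_indicator_iff hset]
      exact (hsmgi.abs.const_mul _).integrableOn
    have p1 : ∫ x, smo N g x * s x ≤
        ∫ x, (h x * s x + {x : ℂ | ρ + 1 < ‖x‖}.indicator (fun x => n * |smo N g x|) x) := by
      refine integral_mono_ae hi1 (hi2.add hi3) ?_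
      filter_upwards [hsn] with x hx
      by_cases hx1 : ρ + 1 < ‖x‖
      · rw [indicator_of_mem (show x ∈ {x : ℂ | ρ + 1 < ‖x‖} from hx1), abs_of_nonneg (hsmg0 x)]
        have q1 := mul_le_mul_of_nonneg_left hx (hsmg0 x)
        have q2 := mul_nonneg (hh0 x) (hs0 x)
        linarith
      · rw [indicator_of_notMem (show x ∉ {x : ℂ | ρ + 1 < ‖x‖} from hx1), add_zero, hdef x,
          cut_of_le (by linarith), one_mul]
    rw [integral_add hi2 hi3, integral_indicator hset, integral_const_mul] at p1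
    have p2 := tail_smo (N := N) (K := n) hN1 hρ hn0 hgm hgabs hgs
    exact p1.trans (add_le_add le_rfl (mul_le_mul_of_nonneg_left p2 hn0))
  have e4 : ∫ x, g x * s x = (∫ x, g x * (s x - smo N s x)) + ∫ x, smo N g x * s x := by
    rw [smo_pair hN0 hgi hsm hsB']
    have hi1 : Integrable (fun x => g x * (s x - smo N s x)) := by
      refine hgi.mul_bdd (c := 81 * R ^ 2 + 81 * R ^ 2) (hsm.sub hsmm).aestronglyMeasurable
        (ae_of_all _ fun x => ?_)
      rw [Real.norm_eq_abs]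
      exact (abs_sub _ _).trans (add_le_add (hsB' x) (hsmB x))
    have hi2 : Integrable (fun x => g x * smo N s x) :=
      hgi.mul_bdd (c := 81 * R ^ 2) hsmm.aestronglyMeasurable (ae_of_all _ fun x => by
        rw [Real.norm_eq_abs]
        exact hsmB x)
    rw [← integral_add hi1 hi2]
    refine integral_congr_ae (ae_of_all _ fun x => ?_)
    simp only
    ring
  -- the third part
  have e5 : ENNReal.ofReal (∫ x, h x * s x) = ∫⁻ w in A, SF T (fun x => ENNReal.ofReal (h x)) w := by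
    have hi2 : Integrable (fun x => h x * s x) :=
      hhi.mul_bdd (c := 81 * R ^ 2) hsm.aestronglyMeasurable (ae_of_all _ fun x => by
        rw [Real.norm_eq_abs]
        exact hsB' x)
    rw [ofReal_integral_eq_lintegral_ofReal hi2 (ae_of_all _ fun x => mul_nonneg (hh0 x) (hs0 x)),
      ← SF_adj_ind T hhm.ennreal_ofReal hA]
    refine lintegral_congr fun x => ?_
    rw [hsS x, ENNReal.ofReal_mul (hh0 x)]
  -- conclusion
  have hI : 0 ≤ ∫ x, h x * s x := integral_nonneg fun x => mul_nonneg (hh0 x) (hs0 x)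
  have f1 : 648 * n * ρ * √(volume.real A) / R ≤ (648 * n * ρ + 1) * √(volume.real A) / R := by
    refine div_le_div_of_nonneg_right ?_ hR0.le
    exact mul_le_mul_of_nonneg_right (by linarith) (Real.sqrt_nonneg _)
  have f2 : n * (8 * n * ρ ^ 2 * Real.exp (-N ^ 2)) ≤ Real.exp (-R) := by
    have q1 : R ≤ Real.exp R := by linarith [Real.add_one_le_exp R]
    have q2 : 2 * R ≤ N ^ 2 := by
      have r1 : R ≤ N := le_self_pow₀ hR1 (by norm_num)
      nlinarith
    have q3 : Real.exp (-N ^ 2) ≤ Real.exp (-R) * Real.exp (-R) := by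
      rw [← Real.exp_add]
      exact Real.exp_le_exp.2 (by linarith)
    have q4 : Real.exp R * Real.exp (-R) = 1 := by rw [← Real.exp_add]; simp
    calc n * (8 * n * ρ ^ 2 * Real.exp (-N ^ 2)) = (8 * n ^ 2 * ρ ^ 2) * Real.exp (-N ^ 2) := by ring
      _ ≤ Real.exp R * (Real.exp (-R) * Real.exp (-R)) :=
          mul_le_mul (hL2.trans q1) q3 (Real.exp_pos _).le (Real.exp_pos _).le
      _ = Real.exp (-R) := by rw [← mul_assoc, q4, one_mul]
  have f3 : ∫ x, g x * s x ≤
      (∫ x, h x * s x) + (648 * n * ρ + 1) * √(volume.real A) / R + Real.exp (-R) := by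
    rw [e4]
    linarith
  rw [e1, ← hh', ← e5]
  refine (ENNReal.ofReal_le_ofReal f3).trans (le_of_eq ?_)
  rw [ENNReal.ofReal_add (by positivity) (Real.exp_pos _).le, ENNReal.ofReal_add hI (by positivity)]

theorem x_smooth {ρ : ℝ} (hρ : 1 ≤ ρ) (n : ℕ) : ∃ L₀ : ℝ, ∀ (L R Λ : ℝ)
    (T : Finset ℕ) (c : ℕ → ℝ) (Q : ℕ), L₀ ≤ L → Maj L R Λ T c Q → ∀ A V : Set ℂ,
    MeasurableSet A → MeasurableSet V → volume A ≤ n → volume V ≤ n →
    (∀ᵐ x : ℂ, SF T (ind A) x ≤ n) → (∀ᵐ x : ℂ, SF T (ind V) x ≤ n) →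
    ∫⁻ x, ENNReal.ofReal (cut ρ x) * SF T (ind V) x * SF T (ind A) x ≤
      (∫⁻ w in A, SF T (fun x => ENNReal.ofReal (hV T ρ R n V x)) w) +
        ENNReal.ofReal (1 / L ^ 4 * √(volume.real A)) + ENNReal.ofReal (Real.exp (-L)) := by
  obtain ⟨C, L₀, hC, hmain⟩ := x_smooth_gen hρ n
  refine ⟨max L₀ C, ?_⟩
  intro L R Λ T c Q hL hMaj A V hA hVm hAn _ hAe hVe
  have hL1 : C ≤ L := (le_max_right _ _).trans hL
  have hL0 : 0 < L := by linarith [hMaj.L1]
  have hLR : L ^ 5 ≤ R := (pow_le_pow_right₀ hMaj.L1 (by norm_num)).trans hMaj.Rl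
  have hLR1 : L ≤ R := (le_self_pow₀ hMaj.L1 (by norm_num)).trans hLR
  have hR0 : 0 < R := by linarith
  obtain ⟨hgm, hg0, hgn, hgs, -⟩ := gv_facts T ρ n hVm
  have h1 := hmain L R Λ T c Q ((le_max_left _ _).trans hL) hMaj A hA hAn hAe (gV T ρ n V) hgm hg0 hgn
    (fun x hx => hgs x hx.le)
  have h2 : ∫⁻ x, ENNReal.ofReal (cut ρ x) * SF T (ind V) x * SF T (ind A) x =
      ∫⁻ x, ENNReal.ofReal (gV T ρ n V x) * SF T (ind A) x := by
    refine lintegral_congr_ae ?_
    filter_upwards [gv_eq (ρ := ρ) hVe] with x hx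
    rw [← hx]
  rw [h2]
  refine h1.trans (add_le_add (add_le_add le_rfl (ENNReal.ofReal_le_ofReal ?_)) (ENNReal.ofReal_le_ofReal ?_))
  · have q1 : C / R ≤ 1 / L ^ 4 := by
      rw [div_le_div_iff₀ hR0 (by positivity)]
      calc C * L ^ 4 ≤ L * L ^ 4 := mul_le_mul_of_nonneg_right hL1 (by positivity)
        _ = L ^ 5 := by ring
        _ ≤ 1 * R := by linarith
    calc C * √(volume.real A) / R = C / R * √(volume.real A) := by ring
      _ ≤ _ := mul_le_mul_of_nonneg_right q1 (Real.sqrt_nonneg _)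
  · exact Real.exp_le_exp.2 (by linarith)

end Pool.Agent.Lib.SR
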