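import Pool.Agent.Lib.MP_b9430d_co.SR.PrD
import Pool.Agent.Lib.MP_bc6037_nt.DivBound

/-!
# Proposition A: class 2, the sum of the squares of the L² norms

PROOF. `a = k / P`, `b = k' / P'` reduced, `N1 = |k| P'`, `N2 = |k'| P`: `1 / b² = P'² / k'² = (P P')² / N2²`, so one
summand is `(P P')^(-1.98) (P P')² / N2² = (P P')^(0.02) / N2²`. As `P ∣ N2`, `P' ∣ N1`, `N1 = |a| P P' ≤ 3 |b| P P' = 3 N2`:
`(P P')^(0.02) ≤ (3 N2²)^(0.02)`. Number of pairs with given `(N1, N2)`: `(a.den, b.den, sign a, sign b)` determine `(a, b)`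
and `a.den ∣ N2`, `b.den ∣ N1`: at most `4 τ(N1) τ(N2)`. Number of `N1 ≤ 3 n` for given `N2 = n`, when the pair is not in
class 1: `j = gcd (N1, n) ∣ n` and (`j² > n` or `G² < j n`, `G ≥ |n - N1|` in both cases of the signs). For each `j ∣ n`:
`N1` is a multiple of `j`; if `j² > n` there are `≤ 3 n / j ≤ 3 √n` of them; otherwise `|N1 - n| < √(j n)` gives
`≤ 2 √(j n) / j + 1 ≤ 3 √n`. Hence at most `3 τ(n) √n` values `N1`. The whole sum is at most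
`∑_n 3 τ(n) √n * 4 C (3n)^ε τ(n) * (3 n²)^(0.02) / n² ≤ C ∑ n^(-1.5 + 0.04 + 3 ε) < ∞` for `ε = 1/100`.
-/

set_option autoImplicit false

open MeasureTheory Complex Set Real Filter Topology
open scoped ENNReal

namespace Pool.Agent.Lib.SR

private theorem PrC2_Aj {n j : ℕ} (hn : 1 ≤ n) (hj : j ∣ n) :
    (((Finset.Icc 1 (3 * n)).filter (fun m : ℕ => j ∣ m ∧
      (n < j ^ 2 ∨ ((m : ℤ) - n) ^ 2 < j * n))).card : ℝ) ≤ 3 * √(n : ℝ) := by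
  have hj0 : 0 < j := Nat.pos_of_dvd_of_pos hj hn
  have hjr : (0 : ℝ) < j := by exact_mod_cast hj0
  have hnr : (1 : ℝ) ≤ n := by exact_mod_cast hn
  have hs1 : 1 ≤ √(n : ℝ) := by
    rw [Real.one_le_sqrt]
    exact hnr
  by_cases hc : n < j ^ 2
  · have hsub : (Finset.Icc 1 (3 * n)).filter (fun m : ℕ => j ∣ m ∧
        (n < j ^ 2 ∨ ((m : ℤ) - n) ^ 2 < j * n)) ⊆ (Finset.Icc 1 (3 * n / j)).image (fun t => j * t) := by
      intro m hm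
      rw [Finset.mem_filter, Finset.mem_Icc] at hm
      obtain ⟨⟨h1, h2⟩, ⟨t, rfl⟩, _⟩ := hm
      rw [Finset.mem_image]
      refine ⟨t, ?_, rfl⟩
      rw [Finset.mem_Icc]
      constructor
      · rcases Nat.eq_zero_or_pos t with h0 | h0
        · rw [h0, mul_zero] at h1
          omega
        · exact h0
      · rw [Nat.le_div_iff_mul_le hj0, mul_comm]
        exact h2
    have hcard : ((Finset.Icc 1 (3 * n)).filter (fun m : ℕ => j ∣ m ∧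
        (n < j ^ 2 ∨ ((m : ℤ) - n) ^ 2 < j * n))).card ≤ 3 * n / j := by
      refine (Finset.card_le_card hsub).trans (Finset.card_image_le.trans ?_)
      rw [Nat.card_Icc, Nat.add_sub_cancel]
    have h1 : ((3 * n / j : ℕ) : ℝ) ≤ (3 * n : ℕ) / (j : ℝ) := Nat.cast_div_le
    have h2 : √(n : ℝ) ≤ j := by
      rw [Real.sqrt_le_left hjr.le]
      exact_mod_cast hc.le
    have h3 : √(n : ℝ) * √(n : ℝ) = n := Real.mul_self_sqrt (by positivity)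
    calc (((Finset.Icc 1 (3 * n)).filter (fun m : ℕ => j ∣ m ∧
        (n < j ^ 2 ∨ ((m : ℤ) - n) ^ 2 < j * n))).card : ℝ) ≤ ((3 * n / j : ℕ) : ℝ) := by
          exact_mod_cast hcard
      _ ≤ (3 * n : ℕ) / (j : ℝ) := h1
      _ ≤ 3 * √(n : ℝ) := by
          rw [div_le_iff₀ hjr]
          push_cast
          nlinarith
  · have hmem : ∀ m ∈ (Finset.Icc 1 (3 * n)).filter (fun m : ℕ => j ∣ m ∧
        (n < j ^ 2 ∨ ((m : ℤ) - n) ^ 2 < j * n)),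
        ((m : ℤ) - n) / j ∈ Finset.Icc (-(Nat.sqrt n : ℤ)) (Nat.sqrt n) := by
      intro m hm
      rw [Finset.mem_filter, Finset.mem_Icc] at hm
      obtain ⟨_, h3, h4⟩ := hm
      have h5 : ((m : ℤ) - n) ^ 2 < j * n := by
        rcases h4 with h4 | h4
        · exact absurd h4 hc
        · exact h4
      have hdv : (j : ℤ) ∣ (m : ℤ) - n :=
        dvd_sub (Int.natCast_dvd_natCast.2 h3) (Int.natCast_dvd_natCast.2 hj)
      obtain ⟨t, ht⟩ := hdv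
      have hjz : (0 : ℤ) < j := by exact_mod_cast hj0
      rw [ht, Int.mul_ediv_cancel_left _ hjz.ne']
      rw [ht] at h5
      have h6 : (j : ℤ) * t ^ 2 < n := by
        have h7 : (j : ℤ) * (j * t ^ 2) < j * n := by nlinarith
        exact lt_of_mul_lt_mul_left h7 hjz.le
      have h7 : t ^ 2 < n := by
        have h8 : t ^ 2 ≤ j * t ^ 2 := by nlinarith [sq_nonneg t]
        linarith
      have h8 : t.natAbs ≤ Nat.sqrt n := by
        rw [Nat.le_sqrt']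
        have h9 : ((t.natAbs ^ 2 : ℕ) : ℤ) ≤ (n : ℤ) := by
          push_cast
          rw [sq_abs]
          exact h7.le
        exact_mod_cast h9
      rw [Finset.mem_Icc]
      omega
    have hinj : Set.InjOn (fun m : ℕ => ((m : ℤ) - n) / j)
        ((Finset.Icc 1 (3 * n)).filter (fun m : ℕ => j ∣ m ∧
        (n < j ^ 2 ∨ ((m : ℤ) - n) ^ 2 < j * n)) : Finset ℕ) := by
      intro a ha b hb hab
      rw [Finset.mem_coe, Finset.mem_filter] at ha hb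
      have hda : (j : ℤ) ∣ (a : ℤ) - n :=
        dvd_sub (Int.natCast_dvd_natCast.2 ha.2.1) (Int.natCast_dvd_natCast.2 hj)
      have hdb : (j : ℤ) ∣ (b : ℤ) - n :=
        dvd_sub (Int.natCast_dvd_natCast.2 hb.2.1) (Int.natCast_dvd_natCast.2 hj)
      have h1 := Int.mul_ediv_cancel' hda
      have h2 := Int.mul_ediv_cancel' hdb
      have hab' : ((a : ℤ) - n) / j = ((b : ℤ) - n) / j := hab
      rw [hab'] at h1
      omega
    have hcard := Finset.card_le_card_of_injOn _ hmem hinj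
    rw [Int.card_Icc] at hcard
    have h9 : ((Nat.sqrt n : ℤ) + 1 - -(Nat.sqrt n : ℤ)).toNat = 2 * Nat.sqrt n + 1 := by omega
    rw [h9] at hcard
    have h10 : (Nat.sqrt n : ℝ) ≤ √(n : ℝ) := Real.nat_sqrt_le_real_sqrt
    calc (((Finset.Icc 1 (3 * n)).filter (fun m : ℕ => j ∣ m ∧
        (n < j ^ 2 ∨ ((m : ℤ) - n) ^ 2 < j * n))).card : ℝ) ≤ ((2 * Nat.sqrt n + 1 : ℕ) : ℝ) := by
          exact_mod_cast hcard
      _ ≤ 3 * √(n : ℝ) := by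
          push_cast
          linarith

/-- The possible values of `N1` for pairs in class 2 with `N2 = n`. -/
private def PrC2_NN (n : ℕ) : Finset ℕ :=
  (Finset.Icc 1 (3 * n)).filter (fun m : ℕ => n < (Nat.gcd m n) ^ 2 ∨
    ((m : ℤ) - n) ^ 2 < (Nat.gcd m n : ℤ) * n)

private theorem PrC2_card {n : ℕ} (hn : 1 ≤ n) :
    ((PrC2_NN n).card : ℝ) ≤ n.divisors.card * (3 * √(n : ℝ)) := by
  have hsub : PrC2_NN n ⊆ n.divisors.biUnion (fun j => (Finset.Icc 1 (3 * n)).filter (fun m : ℕ => j ∣ m ∧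
      (n < j ^ 2 ∨ ((m : ℤ) - n) ^ 2 < j * n))) := by
    intro m hm
    unfold PrC2_NN at hm
    rw [Finset.mem_filter] at hm
    rw [Finset.mem_biUnion]
    refine ⟨Nat.gcd m n, ?_, ?_⟩
    · rw [Nat.mem_divisors]
      exact ⟨Nat.gcd_dvd_right m n, by omega⟩
    · rw [Finset.mem_filter]
      exact ⟨hm.1, Nat.gcd_dvd_left m n, hm.2⟩
  have h1 : ((PrC2_NN n).card : ℝ) ≤ ∑ j ∈ n.divisors,
      (((Finset.Icc 1 (3 * n)).filter (fun m : ℕ => j ∣ m ∧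
      (n < j ^ 2 ∨ ((m : ℤ) - n) ^ 2 < j * n))).card : ℝ) := by
    exact_mod_cast (Finset.card_le_card hsub).trans Finset.card_biUnion_le
  refine h1.trans ?_
  calc ∑ j ∈ n.divisors, (((Finset.Icc 1 (3 * n)).filter (fun m : ℕ => j ∣ m ∧
      (n < j ^ 2 ∨ ((m : ℤ) - n) ^ 2 < j * n))).card : ℝ) ≤ ∑ j ∈ n.divisors, 3 * √(n : ℝ) :=
        Finset.sum_le_sum fun j hj => PrC2_Aj hn (Nat.dvd_of_mem_divisors hj)
    _ = n.divisors.card * (3 * √(n : ℝ)) := by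
        rw [Finset.sum_const, nsmul_eq_mul]

private theorem PrC2_N1_le {p : ℚ × ℚ} (h : |p.1| ≤ 3 * |p.2|) : N1 p ≤ 3 * N2 p := by
  unfold N1 N2
  have h1 : (0 : ℚ) < p.1.den := by exact_mod_cast p.1.den_pos
  have h2 : (0 : ℚ) < p.2.den := by exact_mod_cast p.2.den_pos
  have e1 : |p.1| = (p.1.num.natAbs : ℚ) / p.1.den := by
    rw [Nat.cast_natAbs, Int.cast_abs]
    conv_lhs => rw [← Rat.num_div_den p.1]
    rw [abs_div, abs_of_pos h1]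
  have e2 : |p.2| = (p.2.num.natAbs : ℚ) / p.2.den := by
    rw [Nat.cast_natAbs, Int.cast_abs]
    conv_lhs => rw [← Rat.num_div_den p.2]
    rw [abs_div, abs_of_pos h2]
  rw [e1, e2] at h
  have h3 : (p.1.num.natAbs : ℚ) * p.2.den ≤ 3 * (p.2.num.natAbs * p.1.den) := by
    rw [div_le_iff₀ h1] at h
    have h4 : 3 * ((p.2.num.natAbs : ℚ) / p.2.den) * p.1.den * p.2.den =
        3 * (p.2.num.natAbs * p.1.den) := by
      field_simp
    calc (p.1.num.natAbs : ℚ) * p.2.den ≤ 3 * ((p.2.num.natAbs : ℚ) / p.2.den) * p.1.den * p.2.den :=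
          mul_le_mul_of_nonneg_right h h2.le
      _ = _ := h4
  exact_mod_cast h3

private theorem PrC2_G {p : ℚ × ℚ} : ((N1 p : ℤ) - N2 p) ^ 2 ≤ (G12 p : ℤ) ^ 2 := by
  unfold N1 N2 G12
  push_cast
  rw [sq_abs]
  have h1 : |p.1.num| * |p.2.num| * (p.1.den * p.2.den) ≥ -(p.1.num * p.2.num * (p.1.den * p.2.den)) := by
    have h2 : -(p.1.num * p.2.num) ≤ |p.1.num| * |p.2.num| := by
      rw [← abs_mul]
      exact neg_le_abs _
    have h3 : (0 : ℤ) ≤ p.1.den * p.2.den := by positivity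
    nlinarith
  have e1 : |p.1.num| ^ 2 = p.1.num ^ 2 := sq_abs _
  have e2 : |p.2.num| ^ 2 = p.2.num ^ 2 := sq_abs _
  have e3 : (|p.1.num| * (p.2.den : ℤ) - |p.2.num| * p.1.den) ^ 2 =
      |p.1.num| ^ 2 * (p.2.den : ℤ) ^ 2 + |p.2.num| ^ 2 * (p.1.den : ℤ) ^ 2 -
        2 * (|p.1.num| * |p.2.num| * (p.1.den * p.2.den)) := by ring
  rw [e3, e1, e2]
  nlinarith

private theorem PrC2_mem {p : ℚ × ℚ} (h1 : p.1 ≠ 0) (h : |p.1| ≤ 3 * |p.2|) (hc : ¬ Cl1 p) :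
    N1 p ∈ PrC2_NN (N2 p) := by
  unfold PrC2_NN
  rw [Finset.mem_filter, Finset.mem_Icc]
  refine ⟨⟨?_, PrC2_N1_le h⟩, ?_⟩
  · unfold N1
    have h2 : 0 < p.1.num.natAbs := Int.natAbs_pos.2 (Rat.num_ne_zero.2 h1)
    exact Nat.mul_pos h2 p.2.den_pos
  · unfold Cl1 at hc
    rw [not_and_or, not_le, not_le] at hc
    rcases hc with hc | hc
    · exact Or.inl hc
    · right
      refine lt_of_le_of_lt PrC2_G ?_
      exact_mod_cast hc

private theorem PrC2_inj {p q : ℚ × ℚ} (hp1 : p.1 ≠ 0) (hp2 : p.2 ≠ 0)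
    (hN2 : N2 p = N2 q) (hN1 : N1 p = N1 q) (hd1 : p.1.den = q.1.den) (hd2 : p.2.den = q.2.den)
    (hs1 : 0 < p.1 ↔ 0 < q.1) (hs2 : 0 < p.2 ↔ 0 < q.2) : p = q := by
  unfold N1 at hN1
  unfold N2 at hN2
  rw [hd2] at hN1
  rw [hd1] at hN2
  have h1 : p.1.num.natAbs = q.1.num.natAbs := Nat.eq_of_mul_eq_mul_right q.2.den_pos hN1
  have h2 : p.2.num.natAbs = q.2.num.natAbs := Nat.eq_of_mul_eq_mul_right q.1.den_pos hN2
  have key : ∀ a b : ℚ, a ≠ 0 → a.num.natAbs = b.num.natAbs → a.den = b.den → (0 < a ↔ 0 < b) → a = b := by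
    intro a b ha hn hd hs
    rw [← Rat.num_pos, ← Rat.num_pos] at hs
    have ha' : a.num ≠ 0 := Rat.num_ne_zero.2 ha
    refine Rat.ext ?_ hd
    omega
  exact Prod.ext (key _ _ hp1 h1 hd1 hs1) (key _ _ hp2 h2 hd2 hs2)

private theorem PrC2_count {η C : ℝ} (hη : 0 < η) (hC : 1 ≤ C)
    (hτ : ∀ n : ℕ, n ≠ 0 → (n.divisors.card : ℝ) ≤ C * (n : ℝ) ^ η) {S : Finset (ℚ × ℚ)}
    (hS : ∀ p ∈ S, p.1 ≠ 0 ∧ p.2 ≠ 0 ∧ |p.1| ≤ 3 * |p.2| ∧ ¬ Cl1 p) {n : ℕ} (hn : 1 ≤ n) :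
    ((S.filter (fun p => N2 p = n)).card : ℝ) ≤ 12 * C ^ 3 * 3 ^ η * (n : ℝ) ^ (1 / 2 + 3 * η) := by
  classical
  have hn0 : n ≠ 0 := by omega
  have hnr : (0 : ℝ) < n := by exact_mod_cast hn
  set T : Finset (ℕ × (Σ _ : ℕ, ℕ) × Bool × Bool) :=
    n.divisors ×ˢ ((PrC2_NN n).sigma (fun m => m.divisors)) ×ˢ (Finset.univ : Finset (Bool × Bool)) with hT
  have h1 : (S.filter (fun p => N2 p = n)).card ≤ T.card := by
    refine Finset.card_le_card_of_injOn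
      (fun p => (p.1.den, (⟨N1 p, p.2.den⟩ : Σ _ : ℕ, ℕ), (decide (0 < p.1), decide (0 < p.2)))) ?_ ?_
    · intro p hp
      rw [Finset.mem_coe, Finset.mem_filter] at hp
      obtain ⟨hpS, hpn⟩ := hp
      obtain ⟨h2, h3, h4, h5⟩ := hS p hpS
      rw [hT, Finset.mem_coe, Finset.mem_product, Finset.mem_product, Finset.mem_sigma, Nat.mem_divisors,
        Nat.mem_divisors]
      have h6 := PrC2_mem h2 h4 h5
      rw [hpn] at h6
      refine ⟨⟨?_, hn0⟩, ⟨h6, ?_, ?_⟩, Finset.mem_univ _⟩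
      · rw [← hpn]
        exact Dvd.intro_left _ rfl
      · exact Dvd.intro_left _ rfl
      · have h7 : 0 < p.1.num.natAbs := Int.natAbs_pos.2 (Rat.num_ne_zero.2 h2)
        exact (Nat.mul_pos h7 p.2.den_pos).ne'
    · intro p hp q hq hpq
      rw [Finset.mem_coe, Finset.mem_filter] at hp hq
      obtain ⟨h2, h3, _, _⟩ := hS p hp.1
      simp only [Prod.mk.injEq, Sigma.mk.injEq, heq_eq_eq, decide_eq_decide] at hpq
      obtain ⟨e1, ⟨e2, e3⟩, e4, e5⟩ := hpq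
      exact PrC2_inj h2 h3 (hp.2.trans hq.2.symm) e2 e1 e3 e4 e5
  have h2 : (T.card : ℝ) = n.divisors.card * ((∑ m ∈ PrC2_NN n, (m.divisors.card : ℝ)) * 4) := by
    rw [hT, Finset.card_product, Finset.card_product, Finset.card_sigma]
    push_cast
    simp
  have h3 : ∀ m ∈ PrC2_NN n, (m.divisors.card : ℝ) ≤ C * (3 ^ η * (n : ℝ) ^ η) := by
    intro m hm
    unfold PrC2_NN at hm
    rw [Finset.mem_filter, Finset.mem_Icc] at hm
    have hm0 : m ≠ 0 := by omega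
    refine (hτ m hm0).trans ?_
    have h4 : (m : ℝ) ≤ 3 * n := by exact_mod_cast hm.1.2
    have h5 : (m : ℝ) ^ η ≤ 3 ^ η * (n : ℝ) ^ η := by
      rw [← Real.mul_rpow (by norm_num) hnr.le]
      exact Real.rpow_le_rpow (by positivity) h4 hη.le
    exact mul_le_mul_of_nonneg_left h5 (by linarith)
  have h4 : ∑ m ∈ PrC2_NN n, (m.divisors.card : ℝ) ≤
      (C * (n : ℝ) ^ η * (3 * √(n : ℝ))) * (C * (3 ^ η * (n : ℝ) ^ η)) := by
    calc ∑ m ∈ PrC2_NN n, (m.divisors.card : ℝ) ≤ ∑ m ∈ PrC2_NN n, C * (3 ^ η * (n : ℝ) ^ η) :=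
          Finset.sum_le_sum h3
      _ = (PrC2_NN n).card * (C * (3 ^ η * (n : ℝ) ^ η)) := by rw [Finset.sum_const, nsmul_eq_mul]
      _ ≤ (C * (n : ℝ) ^ η * (3 * √(n : ℝ))) * (C * (3 ^ η * (n : ℝ) ^ η)) := by
          refine mul_le_mul_of_nonneg_right ?_ (by positivity)
          refine (PrC2_card hn).trans ?_
          exact mul_le_mul_of_nonneg_right (hτ n hn0) (by positivity)
  have h5 : (n : ℝ) ^ (1 / 2 + 3 * η) = √(n : ℝ) * ((n : ℝ) ^ η * ((n : ℝ) ^ η * (n : ℝ) ^ η)) := by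
    rw [Real.sqrt_eq_rpow, ← Real.rpow_add hnr, ← Real.rpow_add hnr, ← Real.rpow_add hnr]
    congr 1
    ring
  calc ((S.filter (fun p => N2 p = n)).card : ℝ) ≤ (T.card : ℝ) := by exact_mod_cast h1
    _ = n.divisors.card * ((∑ m ∈ PrC2_NN n, (m.divisors.card : ℝ)) * 4) := h2
    _ ≤ (C * (n : ℝ) ^ η) * (((C * (n : ℝ) ^ η * (3 * √(n : ℝ))) * (C * (3 ^ η * (n : ℝ) ^ η))) * 4) := by
        refine mul_le_mul (hτ n hn0) ?_ ?_ ?_
        · exact mul_le_mul_of_nonneg_right h4 (by norm_num)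
        · exact mul_nonneg (Finset.sum_nonneg fun _ _ => Nat.cast_nonneg _) (by norm_num)
        · have : 0 ≤ C := by linarith
          positivity
    _ = 12 * C ^ 3 * 3 ^ η * (n : ℝ) ^ (1 / 2 + 3 * η) := by
        rw [h5]
        ring

private theorem PrC2_term {p : ℚ × ℚ} (h1 : p.1 ≠ 0) (h2 : p.2 ≠ 0) (h : |p.1| ≤ 3 * |p.2|) :
    ((p.1.den : ℝ) * p.2.den) ^ (-(99 / 50) : ℝ) / (p.2 : ℝ) ^ 2 ≤
      3 ^ (1 / 50 : ℝ) * (N2 p : ℝ) ^ (-(49 / 25) : ℝ) := by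
  have hP : (0 : ℝ) < p.1.den := by exact_mod_cast p.1.den_pos
  have hP' : (0 : ℝ) < p.2.den := by exact_mod_cast p.2.den_pos
  have hk : 0 < p.2.num.natAbs := Int.natAbs_pos.2 (Rat.num_ne_zero.2 h2)
  have hkr : (0 : ℝ) < p.2.num.natAbs := by exact_mod_cast hk
  have hk1 : 0 < p.1.num.natAbs := Int.natAbs_pos.2 (Rat.num_ne_zero.2 h1)
  have hN2 : (N2 p : ℝ) = p.2.num.natAbs * p.1.den := by
    unfold N2
    push_cast
    ring
  have hN2p : (0 : ℝ) < N2 p := by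
    rw [hN2]
    positivity
  set D : ℝ := (p.1.den : ℝ) * p.2.den with hD
  have hDp : 0 < D := by positivity
  have e2 : (p.2 : ℝ) ^ 2 = ((N2 p : ℝ) / D) ^ 2 := by
    have h3 : |(p.2 : ℝ)| = (N2 p : ℝ) / D := by
      have h4 : (p.2 : ℝ) = p.2.num / p.2.den := Rat.cast_def p.2
      rw [h4, abs_div, abs_of_pos hP', hN2, hD, Nat.cast_natAbs, Int.cast_abs]
      field_simp
    rw [← sq_abs, h3]
  have e3 : D ^ (-(99 / 50) : ℝ) / (p.2 : ℝ) ^ 2 = D ^ (1 / 50 : ℝ) * (N2 p : ℝ) ^ (-2 : ℝ) := by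
    rw [e2]
    have h3 : D ^ (-(99 / 50) : ℝ) = D ^ (1 / 50 : ℝ) * (D ^ 2)⁻¹ := by
      rw [← Real.rpow_natCast, ← Real.rpow_neg hDp.le, ← Real.rpow_add hDp]
      norm_num
    have h4 : (N2 p : ℝ) ^ (-2 : ℝ) = ((N2 p : ℝ) ^ 2)⁻¹ := by
      rw [Real.rpow_neg hN2p.le]
      norm_num
    rw [h3, h4]
    field_simp
  rw [e3]
  have h3 : D ≤ 3 * (N2 p : ℝ) ^ 2 := by
    have h4 : (p.1.den : ℝ) ≤ N2 p := by
      rw [hN2]
      have : (1 : ℝ) ≤ p.2.num.natAbs := by exact_mod_cast hk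
      nlinarith
    have h5 : (p.2.den : ℝ) ≤ N1 p := by
      unfold N1
      push_cast [Nat.cast_mul]
      have : (1 : ℝ) ≤ p.1.num.natAbs := by exact_mod_cast hk1
      have h6 : (p.2.den : ℝ) ≤ p.1.num.natAbs * p.2.den := by nlinarith
      exact_mod_cast h6
    have h6 : (N1 p : ℝ) ≤ 3 * N2 p := by exact_mod_cast PrC2_N1_le h
    calc D ≤ (N2 p : ℝ) * (3 * N2 p) := mul_le_mul h4 (h5.trans h6) hP'.le hN2p.le
      _ = 3 * (N2 p : ℝ) ^ 2 := by ring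
  have h4 : D ^ (1 / 50 : ℝ) ≤ 3 ^ (1 / 50 : ℝ) * (N2 p : ℝ) ^ (1 / 25 : ℝ) := by
    calc D ^ (1 / 50 : ℝ) ≤ (3 * (N2 p : ℝ) ^ 2) ^ (1 / 50 : ℝ) :=
          Real.rpow_le_rpow hDp.le h3 (by norm_num)
      _ = 3 ^ (1 / 50 : ℝ) * (N2 p : ℝ) ^ (1 / 25 : ℝ) := by
          rw [Real.mul_rpow (by norm_num) (by positivity), ← Real.rpow_natCast, ← Real.rpow_mul hN2p.le]
          norm_num
  calc D ^ (1 / 50 : ℝ) * (N2 p : ℝ) ^ (-2 : ℝ) ≤
      (3 ^ (1 / 50 : ℝ) * (N2 p : ℝ) ^ (1 / 25 : ℝ)) * (N2 p : ℝ) ^ (-2 : ℝ) :=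
        mul_le_mul_of_nonneg_right h4 (by positivity)
    _ = 3 ^ (1 / 50 : ℝ) * (N2 p : ℝ) ^ (-(49 / 25) : ℝ) := by
        rw [mul_assoc, ← Real.rpow_add hN2p]
        norm_num

/-- Module PrC2. -/
theorem class_two : ∃ C : ℝ, 0 < C ∧ ∀ S : Finset (ℚ × ℚ),
    (∀ p ∈ S, p.1 ≠ 0 ∧ p.2 ≠ 0 ∧ |p.1| ≤ 3 * |p.2| ∧ ¬ Cl1 p) →
    ∑ p ∈ S, ((p.1.den : ℝ) * p.2.den) ^ (-(99 / 50) : ℝ) / (p.2 : ℝ) ^ 2 ≤ C := by
  classical
  obtain ⟨C, hC, hτ⟩ := Pool.Agent.Lib.MP_bc6037_nt.card_divisors_le_rpow (show (0 : ℝ) < 1 / 100 by norm_num)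
  set K : ℝ := 12 * C ^ 3 * 3 ^ (1 / 100 : ℝ) * 3 ^ (1 / 50 : ℝ) with hK
  have hK0 : 0 < K := by
    have : 0 < C := by linarith
    positivity
  have hsum : Summable (fun n : ℕ => (n : ℝ) ^ (-(143 / 100) : ℝ)) :=
    Real.summable_nat_rpow.2 (by norm_num)
  have hts : 0 ≤ ∑' n : ℕ, (n : ℝ) ^ (-(143 / 100) : ℝ) := tsum_nonneg fun n => by positivity
  refine ⟨K * (∑' n : ℕ, (n : ℝ) ^ (-(143 / 100) : ℝ)) + 1, by positivity, fun S hS => ?_⟩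
  have h0 : ∀ p ∈ S, 1 ≤ N2 p := by
    intro p hp
    have h2 : 0 < p.2.num.natAbs := Int.natAbs_pos.2 (Rat.num_ne_zero.2 (hS p hp).2.1)
    exact Nat.mul_pos h2 p.1.den_pos
  have h1 : ∑ p ∈ S, ((p.1.den : ℝ) * p.2.den) ^ (-(99 / 50) : ℝ) / (p.2 : ℝ) ^ 2 ≤
      ∑ p ∈ S, 3 ^ (1 / 50 : ℝ) * (N2 p : ℝ) ^ (-(49 / 25) : ℝ) :=
    Finset.sum_le_sum fun p hp => PrC2_term (hS p hp).1 (hS p hp).2.1 (hS p hp).2.2.1
  have h2 : ∑ p ∈ S, 3 ^ (1 / 50 : ℝ) * (N2 p : ℝ) ^ (-(49 / 25) : ℝ) =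
      ∑ n ∈ S.image N2, ∑ p ∈ S.filter (fun p => N2 p = n), 3 ^ (1 / 50 : ℝ) * (N2 p : ℝ) ^ (-(49 / 25) : ℝ) :=
    (Finset.sum_fiberwise_of_maps_to (fun p hp => Finset.mem_image_of_mem N2 hp) _).symm
  have h3 : ∀ n ∈ S.image N2, ∑ p ∈ S.filter (fun p => N2 p = n),
      3 ^ (1 / 50 : ℝ) * (N2 p : ℝ) ^ (-(49 / 25) : ℝ) ≤ K * (n : ℝ) ^ (-(143 / 100) : ℝ) := by
    intro n hn
    rw [Finset.mem_image] at hn
    obtain ⟨p, hp, rfl⟩ := hn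
    have hn1 := h0 p hp
    set n := N2 p
    have hnr : (0 : ℝ) < n := by exact_mod_cast hn1
    have h4 : ∑ p ∈ S.filter (fun p => N2 p = n), 3 ^ (1 / 50 : ℝ) * (N2 p : ℝ) ^ (-(49 / 25) : ℝ) =
        (S.filter (fun p => N2 p = n)).card * (3 ^ (1 / 50 : ℝ) * (n : ℝ) ^ (-(49 / 25) : ℝ)) := by
      rw [← nsmul_eq_mul, ← Finset.sum_const]
      refine Finset.sum_congr rfl fun q hq => ?_
      rw [(Finset.mem_filter.1 hq).2]
    rw [h4]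
    have h5 := PrC2_count (show (0 : ℝ) < 1 / 100 by norm_num) hC hτ hS hn1
    calc ((S.filter (fun p => N2 p = n)).card : ℝ) * (3 ^ (1 / 50 : ℝ) * (n : ℝ) ^ (-(49 / 25) : ℝ)) ≤
        (12 * C ^ 3 * 3 ^ (1 / 100 : ℝ) * (n : ℝ) ^ (1 / 2 + 3 * (1 / 100) : ℝ)) *
          (3 ^ (1 / 50 : ℝ) * (n : ℝ) ^ (-(49 / 25) : ℝ)) :=
          mul_le_mul_of_nonneg_right h5 (by positivity)
      _ = K * ((n : ℝ) ^ (1 / 2 + 3 * (1 / 100) : ℝ) * (n : ℝ) ^ (-(49 / 25) : ℝ)) := by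
          rw [hK]
          ring
      _ = K * (n : ℝ) ^ (-(143 / 100) : ℝ) := by
          rw [← Real.rpow_add hnr]
          norm_num
  calc ∑ p ∈ S, ((p.1.den : ℝ) * p.2.den) ^ (-(99 / 50) : ℝ) / (p.2 : ℝ) ^ 2 ≤
      ∑ n ∈ S.image N2, ∑ p ∈ S.filter (fun p => N2 p = n),
        3 ^ (1 / 50 : ℝ) * (N2 p : ℝ) ^ (-(49 / 25) : ℝ) := h1.trans_eq h2
    _ ≤ ∑ n ∈ S.image N2, K * (n : ℝ) ^ (-(143 / 100) : ℝ) := Finset.sum_le_sum h3
    _ = K * ∑ n ∈ S.image N2, (n : ℝ) ^ (-(143 / 100) : ℝ) := by rw [Finset.mul_sum]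
    _ ≤ K * ∑' n : ℕ, (n : ℝ) ^ (-(143 / 100) : ℝ) := by
        refine mul_le_mul_of_nonneg_left ?_ hK0.le
        exact hsum.sum_le_tsum _ (fun n _ => by positivity)
    _ ≤ K * (∑' n : ℕ, (n : ℝ) ^ (-(143 / 100) : ℝ)) + 1 := by linarith

end Pool.Agent.Lib.SR
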