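import Pool.Agent.Lib.MP_b9430d_co.SR.Defs

/-!
# SR / Kii: the Gaussian integral

`II ρ s ξ = exp(9 π) Γ⁻¹ exp(-4 π |ξ|² / Γ)`, `Γ = ρ⁻² - 2 i s`.
-/

set_option autoImplicit false

open MeasureTheory Complex Set Real Filter Topology
open scoped ENNReal

namespace Pool.Agent.Lib.SR

open Pool.MPb9430d Pool.MPb9430d.Rough Pool.MPb9430d.Frac Pool.MPb9430d.Mom

/-- `ρ⁻² - 2 i s` -/
noncomputable def Gm (ρ s : ℝ) : ℂ := ((1 / ρ ^ 2 : ℝ) : ℂ) - ((2 * s : ℝ) : ℂ) * I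

theorem Gm_re (ρ s : ℝ) : (Gm ρ s).re = 1 / ρ ^ 2 := by
  unfold Gm
  simp only [Complex.sub_re, Complex.mul_re, Complex.ofReal_re, Complex.ofReal_im, Complex.I_re, Complex.I_im]
  ring

theorem Gm_im (ρ s : ℝ) : (Gm ρ s).im = -(2 * s) := by
  unfold Gm
  simp only [Complex.sub_im, Complex.mul_im, Complex.ofReal_re, Complex.ofReal_im, Complex.I_re, Complex.I_im]
  ring

theorem Gm_re_pos {ρ : ℝ} (hρ : 0 < ρ) (s : ℝ) : 0 < (Gm ρ s).re := by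
  rw [Gm_re]
  positivity

theorem Gm_ne {ρ : ℝ} (hρ : 0 < ρ) (s : ℝ) : Gm ρ s ≠ 0 := by
  intro h
  have h1 := Gm_re_pos hρ s
  rw [h, Complex.zero_re] at h1
  exact lt_irrefl _ h1

theorem Gm_normSq (ρ s : ℝ) : Complex.normSq (Gm ρ s) = (1 / ρ ^ 2) ^ 2 + 4 * s ^ 2 := by
  rw [Complex.normSq_apply, Gm_re, Gm_im]
  ring

theorem Gm_norm_sq (ρ s : ℝ) : ‖Gm ρ s‖ ^ 2 = (1 / ρ ^ 2) ^ 2 + 4 * s ^ 2 := by
  rw [← Complex.normSq_eq_norm_sq, Gm_normSq]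

/-- the Gaussian integral in the plane -/
theorem gint {Λ : ℂ} (hΛ : 0 < Λ.re) (t : ℝ) (ζ : ℂ) :
    ∫ z : ℂ, Complex.exp (-(π * Λ) * ‖z‖ ^ 2) * ee (t * Frac.ip ζ z) = Λ⁻¹ * Complex.exp (-((π * t ^ 2 * ‖ζ‖ ^ 2 : ℝ) : ℂ) / Λ) := by
  have hb : 0 < ((π : ℂ) * Λ).re := by
    rw [Complex.re_ofReal_mul]
    exact mul_pos Real.pi_pos hΛ
  have hΛ0 : Λ ≠ 0 := by
    intro h
    rw [h, Complex.zero_re] at hΛ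
    exact lt_irrefl _ hΛ
  have h := GaussianFourier.integral_cexp_neg_mul_sq_norm_add (V := ℂ) hb (2 * π * t * I) ζ
  have e1 : ∀ z : ℂ, Complex.exp (-(π * Λ) * ‖z‖ ^ 2) * ee (t * Frac.ip ζ z) =
      Complex.exp (-(π * Λ) * ‖z‖ ^ 2 + 2 * π * t * I * inner ℝ ζ z) := by
    intro z
    rw [ee, ← Complex.exp_add, ip_eq_inner]
    congr 2
    push_cast
    ring
  simp_rw [e1]
  rw [h, Complex.finrank_real_complex]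
  have hpi : (π : ℂ) ≠ 0 := by exact_mod_cast Real.pi_ne_zero
  congr 1
  · rw [show (((2 : ℕ) : ℂ) / 2) = 1 by norm_num, Complex.cpow_one]
    field_simp
  · congr 1
    push_cast
    field_simp
    rw [Complex.I_sq]
    ring

theorem gint_integrable {Λ : ℂ} (hΛ : 0 < Λ.re) (t : ℝ) (ζ : ℂ) :
    Integrable (fun z : ℂ => Complex.exp (-(π * Λ) * ‖z‖ ^ 2) * ee (t * Frac.ip ζ z)) := by
  have hb : 0 < ((π : ℂ) * Λ).re := by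
    rw [Complex.re_ofReal_mul]
    exact mul_pos Real.pi_pos hΛ
  have h := GaussianFourier.integrable_cexp_neg_mul_sq_norm_add (V := ℂ) hb (2 * π * t * I) ζ
  refine h.congr (Filter.Eventually.of_forall fun z => ?_)
  simp only
  rw [ee, ← Complex.exp_add, ip_eq_inner]
  congr 2
  push_cast
  ring

theorem cG_ee_eq (ρ : ℝ) (s : ℝ) (ξ x : ℂ) : (cG ρ x : ℂ) * ee (s * ‖x‖ ^ 2 - 2 * Frac.ip ξ x) =
    ((Real.exp (9 * π) : ℝ) : ℂ) * (Complex.exp (-(π * Gm ρ s) * ‖x‖ ^ 2) * ee (-2 * Frac.ip ξ x)) := by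
  unfold cG ee Gm
  rw [Complex.ofReal_mul, Complex.ofReal_exp (-(π * ‖x‖ ^ 2 / ρ ^ 2)), mul_assoc, ← Complex.exp_add, ← Complex.exp_add]
  congr 2
  push_cast
  ring

/-- The value of the Gaussian integral. -/
theorem II_eq {ρ : ℝ} (hρ : 0 < ρ) (s : ℝ) (ξ : ℂ) : II ρ s ξ =
    ((Real.exp (9 * π) : ℝ) : ℂ) * ((Gm ρ s)⁻¹ * Complex.exp (-((4 * π * ‖ξ‖ ^ 2 : ℝ) : ℂ) / Gm ρ s)) := by
  unfold II
  simp_rw [cG_ee_eq]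
  rw [integral_const_mul, gint (Gm_re_pos hρ s) (-2) ξ]
  rw [show (π * (-2) ^ 2 * ‖ξ‖ ^ 2 : ℝ) = 4 * π * ‖ξ‖ ^ 2 by ring]

theorem II_integrable {ρ : ℝ} (hρ : 0 < ρ) (s : ℝ) (ξ : ℂ) :
    Integrable fun x : ℂ => (cG ρ x : ℂ) * ee (s * ‖x‖ ^ 2 - 2 * Frac.ip ξ x) := by
  simp_rw [cG_ee_eq]
  exact (gint_integrable (Gm_re_pos hρ s) (-2) ξ).const_mul _

theorem re_neg_div (r : ℝ) (z : ℂ) : (-(r : ℂ) / z).re = -(r * z.re / ‖z‖ ^ 2) := by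
  rw [neg_div, Complex.neg_re, Complex.div_re, Complex.ofReal_re, Complex.ofReal_im, ← Complex.normSq_eq_norm_sq]
  ring

theorem norm_II {ρ : ℝ} (hρ : 0 < ρ) (s : ℝ) (ξ : ℂ) :
    ‖II ρ s ξ‖ = Real.exp (9 * π) * (‖Gm ρ s‖⁻¹ * Real.exp (-(4 * π * ‖ξ‖ ^ 2 * (1 / ρ ^ 2) / ‖Gm ρ s‖ ^ 2))) := by
  rw [II_eq hρ, norm_mul, norm_mul, Complex.norm_real, Real.norm_of_nonneg (Real.exp_pos _).le, norm_inv, Complex.norm_exp, re_neg_div, Gm_re]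

theorem norm_Gm (ρ s : ℝ) : ‖Gm ρ s‖ = √((ρ ^ 4)⁻¹ + 4 * s ^ 2) := by
  rw [eq_comm, Real.sqrt_eq_iff_mul_self_eq (by positivity) (norm_nonneg _), ← sq, Gm_norm_sq, one_div, inv_pow, ← pow_mul]

/-- Module Kii. The Gaussian integral. -/
theorem norm_ii {ρ : ℝ} (hρ : 0 < ρ) (σ : ℝ) (ξ : ℂ) : ‖II ρ σ ξ‖ =
    Real.exp (9 * π) / √((ρ ^ 4)⁻¹ + 4 * σ ^ 2) *
      Real.exp (-(4 * π * ‖ξ‖ ^ 2 / (ρ ^ 2 * ((ρ ^ 4)⁻¹ + 4 * σ ^ 2)))) := by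
  have h0 : (0 : ℝ) < (ρ ^ 4)⁻¹ + 4 * σ ^ 2 := by positivity
  rw [norm_II hρ, norm_Gm, Real.sq_sqrt h0.le, ← mul_assoc, ← div_eq_mul_inv]
  congr 3
  rw [mul_one_div, div_div]

theorem Gm_lo {ρ : ℝ} (s : ℝ) : 1 / ρ ^ 2 ≤ ‖Gm ρ s‖ := by
  rw [← Gm_re ρ s]
  exact (le_abs_self _).trans (Complex.abs_re_le_norm _)

theorem Gm_lo2 {ρ : ℝ} (s : ℝ) : 2 * |s| ≤ ‖Gm ρ s‖ := by
  have h := Complex.abs_im_le_norm (Gm ρ s)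
  rw [Gm_im, abs_neg, abs_mul, abs_of_pos (by norm_num : (0 : ℝ) < 2)] at h
  exact h

theorem norm_Gm_inv_le {ρ : ℝ} (hρ : 0 < ρ) (s : ℝ) : ‖Gm ρ s‖⁻¹ ≤ ρ ^ 2 := by
  have h1 := Gm_lo (ρ := ρ) s
  have h2 : 0 < 1 / ρ ^ 2 := by positivity
  rw [inv_le_comm₀ (lt_of_lt_of_le h2 h1) (by positivity)]
  rwa [one_div] at h1

theorem norm_II_le {ρ : ℝ} (hρ : 0 < ρ) (s : ℝ) (ξ : ℂ) : ‖II ρ s ξ‖ ≤ Real.exp (9 * π) * ‖Gm ρ s‖⁻¹ := by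
  rw [norm_II hρ]
  have h1 : Real.exp (-(4 * π * ‖ξ‖ ^ 2 * (1 / ρ ^ 2) / ‖Gm ρ s‖ ^ 2)) ≤ 1 := by
    rw [Real.exp_le_one_iff]
    have : 0 ≤ 4 * π * ‖ξ‖ ^ 2 * (1 / ρ ^ 2) / ‖Gm ρ s‖ ^ 2 := by positivity
    linarith
  exact mul_le_mul_of_nonneg_left (mul_le_of_le_one_right (by positivity) h1) (by positivity)

theorem norm_II_le1 {ρ : ℝ} (hρ : 0 < ρ) (s : ℝ) (ξ : ℂ) : ‖II ρ s ξ‖ ≤ Real.exp (9 * π) * ρ ^ 2 :=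
  (norm_II_le hρ s ξ).trans (mul_le_mul_of_nonneg_left (norm_Gm_inv_le hρ s) (Real.exp_pos _).le)

theorem norm_II_le2 {ρ : ℝ} (hρ : 0 < ρ) {s : ℝ} (hs : s ≠ 0) (ξ : ℂ) : ‖II ρ s ξ‖ ≤ Real.exp (9 * π) / |s| := by
  refine (norm_II_le hρ s ξ).trans ?_
  rw [div_eq_mul_inv]
  refine mul_le_mul_of_nonneg_left ?_ (Real.exp_pos _).le
  have h1 := Gm_lo2 (ρ := ρ) s
  have h2 : 0 < |s| := abs_pos.2 hs
  exact inv_anti₀ h2 (by linarith)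

/-- far terms are negligible -/
theorem II_far {ρ T s : ℝ} (hρ : 1 ≤ ρ) (hT : 0 ≤ T) {ξ : ℂ} (h : T * (1 + |s|) ≤ ‖ξ‖) :
    ‖II ρ s ξ‖ ≤ Real.exp (9 * π) * ρ ^ 2 * Real.exp (-(π * T ^ 2 / ρ ^ 2)) := by
  have hρ0 : 0 < ρ := by linarith
  rw [norm_II hρ0, ← mul_assoc]
  have h0 : Real.exp (9 * π) * ‖Gm ρ s‖⁻¹ ≤ Real.exp (9 * π) * ρ ^ 2 :=
    mul_le_mul_of_nonneg_left (norm_Gm_inv_le hρ0 s) (Real.exp_pos _).le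
  refine mul_le_mul h0 ?_ (Real.exp_pos _).le (by positivity)
  rw [Real.exp_le_exp, neg_le_neg_iff, Gm_norm_sq]
  have h1 : (1 / ρ ^ 2) ^ 2 + 4 * s ^ 2 ≤ 4 * (1 + |s|) ^ 2 := by
    have h2 : 1 / ρ ^ 2 ≤ 1 := by
      rw [div_le_one (by positivity)]
      nlinarith
    have h3 : (1 / ρ ^ 2) ^ 2 ≤ 1 := pow_le_one₀ (by positivity) h2
    have h4 : s ^ 2 = |s| ^ 2 := (sq_abs s).symm
    rw [h4]
    nlinarith [abs_nonneg s]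
  have h2 : T ^ 2 * (1 + |s|) ^ 2 ≤ ‖ξ‖ ^ 2 := by
    rw [← mul_pow]
    exact pow_le_pow_left₀ (by positivity) h 2
  rw [div_le_div_iff₀ (by positivity) (by positivity)]
  have h3 : 4 * π * ‖ξ‖ ^ 2 * (1 / ρ ^ 2) * ρ ^ 2 = 4 * π * ‖ξ‖ ^ 2 := by
    field_simp
  rw [h3]
  calc π * T ^ 2 * ((1 / ρ ^ 2) ^ 2 + 4 * s ^ 2) ≤ π * T ^ 2 * (4 * (1 + |s|) ^ 2) :=
        mul_le_mul_of_nonneg_left h1 (by positivity)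
    _ = 4 * π * (T ^ 2 * (1 + |s|) ^ 2) := by ring
    _ ≤ 4 * π * ‖ξ‖ ^ 2 := mul_le_mul_of_nonneg_left h2 (by positivity)

end Pool.Agent.Lib.SR
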