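import Pool.Agent.Lib.MP_b9430d_co.SR.PrD
import Pool.Agent.Lib.MP_b9430d_co.SR.Kii
import Pool.Agent.Lib.MP_b9430d_co.SR.Kdd

/-!
# Proposition A: the expansion of the kernel (helper70)

PROOF. `KN = ∫⁻ ofReal f`, `f x = cG ρ x * DD c Q κ (‖x - w‖²) * DD c Q κ' (‖x - y‖²) ≥ 0` (dd_nonneg). By `dd_eq` and
`a ‖x - w‖² + b ‖x - y‖² = (a + b) ‖x‖² - 2 ip (a w + b y) x + a ‖w‖² + b ‖y‖²`, as complex numbers
`f x = ∑_{(a,b)} cc κ c Q a * cc κ' c Q b * ee (a ‖w‖² + b ‖y‖²) * (cG ρ x * ee ((a+b) ‖x‖² - 2 ip (a w + b y) x))`,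
integrable by `II_integrable` (Kii). So `∫ f = re (∑ tm) ≤ ‖∑ tm‖`, and `∫⁻ ofReal f = ofReal (∫ f)`
(`ofReal_integral_eq_lintegral_ofReal`).
-/

set_option autoImplicit false

open MeasureTheory Complex Set Real Filter Topology
open scoped ENNReal

namespace Pool.Agent.Lib.SR

open Pool.MPb9430d Pool.MPb9430d.Rough Pool.MPb9430d.Frac Pool.MPb9430d.Mom

private theorem prex_phase (a b : ℝ) (x w y : ℂ) :
    a * ‖x - w‖ ^ 2 + b * ‖x - y‖ ^ 2 = (a * ‖w‖ ^ 2 + b * ‖y‖ ^ 2) +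
      ((a + b) * ‖x‖ ^ 2 - 2 * Frac.ip ((a : ℂ) * w + (b : ℂ) * y) x) := by
  unfold Frac.ip
  simp only [← Complex.normSq_eq_norm_sq, Complex.normSq_apply, Complex.sub_re, Complex.sub_im,
    Complex.add_re, Complex.add_im, Complex.re_ofReal_mul, Complex.im_ofReal_mul]
  ring

private theorem prex_ee_add (s t : ℝ) : ee (s + t) = ee s * ee t := by
  unfold ee
  rw [← Complex.exp_add]
  congr 1
  push_cast
  ring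

private theorem prex_expand (ρ : ℝ) (c : ℕ → ℝ) (Q : ℕ) {κ κ' : ℝ} (hκ : 0 < κ)
    (hκ' : 0 < κ') (w y x : ℂ) :
    ((cG ρ x * DD c Q κ (‖x - w‖ ^ 2) * DD c Q κ' (‖x - y‖ ^ 2) : ℝ) : ℂ) =
      ∑ p ∈ FQ Q (1 / κ) ×ˢ FQ Q (1 / κ'),
        (((cc κ c Q p.1 * cc κ' c Q p.2 : ℝ) : ℂ) *
          ee ((p.1 : ℝ) * ‖w‖ ^ 2 + (p.2 : ℝ) * ‖y‖ ^ 2)) *
        ((cG ρ x : ℂ) * ee (((p.1 : ℝ) + p.2) * ‖x‖ ^ 2 -
          2 * Frac.ip (((p.1 : ℝ) : ℂ) * w + ((p.2 : ℝ) : ℂ) * y) x)) := by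
  rw [Complex.ofReal_mul, Complex.ofReal_mul, dd_eq c Q hκ, dd_eq c Q hκ', mul_assoc,
    Finset.sum_mul_sum, Finset.sum_product, Finset.mul_sum]
  refine Finset.sum_congr rfl fun a _ => ?_
  rw [Finset.mul_sum]
  refine Finset.sum_congr rfl fun b _ => ?_
  have h1 : ee ((a : ℝ) * ‖x - w‖ ^ 2) * ee ((b : ℝ) * ‖x - y‖ ^ 2) =
      ee ((a : ℝ) * ‖w‖ ^ 2 + (b : ℝ) * ‖y‖ ^ 2) * ee (((a : ℝ) + b) * ‖x‖ ^ 2 -
          2 * Frac.ip (((a : ℝ) : ℂ) * w + ((b : ℝ) : ℂ) * y) x) := by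
    rw [← prex_ee_add, ← prex_ee_add, prex_phase]
  unfold cc
  calc (cG ρ x : ℂ) * (((cof c Q a.den * (1 - κ * |(a : ℝ)|) : ℝ) : ℂ) * ee (a * ‖x - w‖ ^ 2) *
        (((cof c Q b.den * (1 - κ' * |(b : ℝ)|) : ℝ) : ℂ) * ee (b * ‖x - y‖ ^ 2))) =
      ((cof c Q a.den * (1 - κ * |(a : ℝ)|) : ℝ) : ℂ) *
        ((cof c Q b.den * (1 - κ' * |(b : ℝ)|) : ℝ) : ℂ) * (cG ρ x : ℂ) *
        (ee ((a : ℝ) * ‖x - w‖ ^ 2) * ee ((b : ℝ) * ‖x - y‖ ^ 2)) := by ring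
    _ = _ := by
      rw [h1]
      push_cast
      ring

/-- Module PrEx. -/
theorem kn_le {ρ : ℝ} (hρ : 0 < ρ) {c : ℕ → ℝ} {Q : ℕ} (hc : ∀ k : ℤ, 0 ≤ nuk c Q k) {κ κ' : ℝ} (hκ : 0 < κ)
    (hκ' : 0 < κ') (w y : ℂ) : KN c Q ρ κ κ' w y ≤
      ENNReal.ofReal ‖∑ p ∈ FQ Q (1 / κ) ×ˢ FQ Q (1 / κ'), tm ρ (cc κ c Q) (cc κ' c Q) w y p‖ := by
  set f : ℂ → ℝ := fun x => cG ρ x * DD c Q κ (‖x - w‖ ^ 2) * DD c Q κ' (‖x - y‖ ^ 2) with hf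
  set F : ℚ × ℚ → ℂ → ℂ := fun p x => (((cc κ c Q p.1 * cc κ' c Q p.2 : ℝ) : ℂ) *
          ee ((p.1 : ℝ) * ‖w‖ ^ 2 + (p.2 : ℝ) * ‖y‖ ^ 2)) *
        ((cG ρ x : ℂ) * ee (((p.1 : ℝ) + p.2) * ‖x‖ ^ 2 -
          2 * Frac.ip (((p.1 : ℝ) : ℂ) * w + ((p.2 : ℝ) : ℂ) * y) x)) with hF
  have hFi : ∀ p, Integrable (F p) := fun p => (II_integrable hρ _ _).const_mul _
  have hfe : (fun x => ((f x : ℝ) : ℂ)) = fun x => ∑ p ∈ FQ Q (1 / κ) ×ˢ FQ Q (1 / κ'), F p x := by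
    funext x
    exact prex_expand ρ c Q hκ hκ' w y x
  have hfi : Integrable (fun x => ((f x : ℝ) : ℂ)) := by
    rw [hfe]
    exact integrable_finsetSum _ fun p _ => hFi p
  have hfr : Integrable f := by
    have := hfi.re
    exact this
  have hf0 : ∀ x, 0 ≤ f x := fun x =>
    mul_nonneg (mul_nonneg (cG_pos ρ x).le (dd_nonneg hc hκ _)) (dd_nonneg hc hκ' _)
  have h1 : KN c Q ρ κ κ' w y = ENNReal.ofReal (∫ x, f x) := by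
    unfold KN
    rw [ofReal_integral_eq_lintegral_ofReal hfr (Filter.Eventually.of_forall hf0)]
  have h2 : ((∫ x, f x : ℝ) : ℂ) =
      ∑ p ∈ FQ Q (1 / κ) ×ˢ FQ Q (1 / κ'), tm ρ (cc κ c Q) (cc κ' c Q) w y p := by
    rw [← integral_complex_ofReal, hfe, integral_finsetSum _ fun p _ => hFi p]
    refine Finset.sum_congr rfl fun p _ => ?_
    rw [hF]
    simp only
    rw [integral_const_mul]
    rfl
  rw [h1, ← h2]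
  refine ENNReal.ofReal_le_ofReal ?_
  rw [Complex.norm_real]
  exact le_abs_self _

end Pool.Agent.Lib.SR
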