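import Pool.Agent.Lib.MP_b9430d_co.SR.PrPt
import Pool.Agent.Lib.MP_b9430d_co.SR.PrEx
import Pool.Agent.Lib.MP_b9430d_co.SR.PrC2

/-!
# Proposition A
-/

set_option autoImplicit false

open MeasureTheory Complex Set Real Filter Topology
open scoped ENNReal

namespace Pool.Agent.Lib.SR

open Pool.MPb9430d Pool.MPb9430d.Rough Pool.MPb9430d.Frac Pool.MPb9430d.Mom

open Classical in
/-- The sum over the quotients of the squares of the `L²` norms. -/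
theorem class_two_int {ρ : ℝ} (hρ : 1 ≤ ρ) : ∃ C L₀ : ℝ, 0 < C ∧ ∀ (L R Λ : ℝ) (T : Finset ℕ) (c : ℕ → ℝ)
    (Q : ℕ), L₀ ≤ L → Maj L R Λ T c Q → ∀ κ' : ℝ, 0 < κ' → ∀ w : ℂ, R ≤ ‖w‖ →
    Integrable (fun y => ∑ l ∈ Ll L (FQ Q (1 / (1 / L ^ 16)) ×ˢ FQ Q (1 / κ')),
        ‖∑ p ∈ Pl L (FQ Q (1 / (1 / L ^ 16)) ×ˢ FQ Q (1 / κ')) l, tm ρ (cc (1 / L ^ 16) c Q) (cc κ' c Q) w y p‖ ^ 2) ∧
    ∫ y, (∑ l ∈ Ll L (FQ Q (1 / (1 / L ^ 16)) ×ˢ FQ Q (1 / κ')),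
        ‖∑ p ∈ Pl L (FQ Q (1 / (1 / L ^ 16)) ×ˢ FQ Q (1 / κ')) l, tm ρ (cc (1 / L ^ 16) c Q) (cc κ' c Q) w y p‖ ^ 2) ≤
      C * Λ ^ 4 := by
  obtain ⟨C₂, hC₂, h2⟩ := class_two
  obtain ⟨C₃, L₃, hC₃, horth⟩ := orth hρ
  refine ⟨C₃ * C₂, max L₃ 1, by positivity, ?_⟩
  intro L R Λ T c Q hL hM κ' hκ' w hw
  have hL₃ : L₃ ≤ L := (le_max_left _ _).trans hL
  have hL1 : 1 ≤ L := (le_max_right _ _).trans hL
  have hL0 : 0 < L := by linarith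
  have hκ1 : (0 : ℝ) < 1 / L ^ 16 := by positivity
  set P : Finset (ℚ × ℚ) := FQ Q (1 / (1 / L ^ 16)) ×ˢ FQ Q (1 / κ') with hP
  set u := cc (1 / L ^ 16) c Q with hu
  set v := cc κ' c Q with hv
  have hPmem : ∀ p ∈ P, p.1 ∈ FQ Q (1 / (1 / L ^ 16)) ∧ p.2 ∈ FQ Q (1 / κ') := fun p hp => Finset.mem_product.1 hp
  have hden1 : ∀ p ∈ P, (p.1.den : ℝ) ≤ L := fun p hp =>
    (Nat.cast_le.2 (mem_FQ.1 (hPmem p hp).1).1).trans hM.QL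
  have hden2 : ∀ p ∈ P, p.2.den ≤ Q := fun p hp => (mem_FQ.1 (hPmem p hp).2).1
  have horth' : ∀ l ∈ Ll L P, Integrable (fun y => ‖∑ p ∈ Pl L P l, tm ρ u v w y p‖ ^ 2) ∧
      ∫ y, ‖∑ p ∈ Pl L P l, tm ρ u v w y p‖ ^ 2 ≤ C₃ * ∑ p ∈ Pl L P l, (u p.1 * v p.2) ^ 2 / (p.2 : ℝ) ^ 2 := by
    intro l hl
    unfold Ll at hl
    obtain ⟨p₀, hp₀, hpl⟩ := Finset.mem_image.1 hl
    obtain ⟨hpP, ha, hb, hb47, hab⟩ := mem_Ps.1 hp₀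
    have hbr : 0 < |(p₀.2 : ℝ)| := abs_pos.2 (Rat.cast_ne_zero.2 hb)
    have hlr : |(l : ℝ)| = |(p₀.1 : ℝ)| / |(p₀.2 : ℝ)| := by
      rw [← hpl, Rat.cast_div, abs_div]
    have hab' : |(p₀.1 : ℝ)| ≤ 3 * |(p₀.2 : ℝ)| := by exact_mod_cast hab
    refine horth L Q hL₃ hM.QL w (hM.Rl.trans hw) l ?_ ?_ (Pl L P l) ?_ u v
    · rw [hlr, div_le_iff₀ hbr]
      exact hab'
    · rw [hlr]
      have h3 : 1 / L ≤ |(p₀.1 : ℝ)| := one_div_le_abs ha (hden1 p₀ hpP)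
      calc 1 / L ^ 48 = (1 / L) / L ^ 47 := by rw [div_div, ← pow_succ']
        _ ≤ |(p₀.1 : ℝ)| / |(p₀.2 : ℝ)| := div_le_div₀ (abs_nonneg _) h3 hbr hb47
    · intro p hp
      obtain ⟨⟨hps, -⟩, hpq⟩ := mem_Pl.1 hp
      obtain ⟨hpP', -, hb', hb47', -⟩ := mem_Ps.1 hps
      exact ⟨hb', hden2 p hpP', hb47', by rw [← hpq, div_mul_cancel₀ _ hb']⟩
  refine ⟨integrable_finsetSum _ fun l hl => (horth' l hl).1, ?_⟩
  rw [integral_finsetSum _ fun l hl => (horth' l hl).1]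
  have h3 : ∑ l ∈ Ll L P, ∫ y, ‖∑ p ∈ Pl L P l, tm ρ u v w y p‖ ^ 2 ≤
      C₃ * ∑ l ∈ Ll L P, ∑ p ∈ Pl L P l, (u p.1 * v p.2) ^ 2 / (p.2 : ℝ) ^ 2 := by
    rw [Finset.mul_sum]
    exact Finset.sum_le_sum fun l hl => (horth' l hl).2
  have h4 : ∑ l ∈ Ll L P, ∑ p ∈ Pl L P l, (u p.1 * v p.2) ^ 2 / (p.2 : ℝ) ^ 2 =
      ∑ p ∈ (Ps L P).filter (fun p => ¬ Cl1 p), (u p.1 * v p.2) ^ 2 / (p.2 : ℝ) ^ 2 := by
    unfold Pl
    refine Finset.sum_fiberwise_of_maps_to (fun p hp => ?_) _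
    unfold Ll
    exact Finset.mem_image_of_mem _ (Finset.mem_filter.1 hp).1
  have h5 : ∑ p ∈ (Ps L P).filter (fun p => ¬ Cl1 p), (u p.1 * v p.2) ^ 2 / (p.2 : ℝ) ^ 2 ≤
      Λ ^ 4 * ∑ p ∈ (Ps L P).filter (fun p => ¬ Cl1 p), ((p.1.den : ℝ) * p.2.den) ^ (-(99 / 50) : ℝ) / (p.2 : ℝ) ^ 2 := by
    rw [Finset.mul_sum]
    refine Finset.sum_le_sum fun p hp => ?_
    obtain ⟨hps, -⟩ := Finset.mem_filter.1 hp
    obtain ⟨hpP, -⟩ := mem_Ps.1 hps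
    have hd1 : (0 : ℝ) < p.1.den := by exact_mod_cast p.1.den_pos
    have hd2 : (0 : ℝ) < p.2.den := by exact_mod_cast p.2.den_pos
    have h6 : |u p.1| ≤ Λ * (p.1.den : ℝ) ^ (-(99 / 100) : ℝ) := cc_le hM hκ1 (hPmem p hpP).1
    have h7 : |v p.2| ≤ Λ * (p.2.den : ℝ) ^ (-(99 / 100) : ℝ) := cc_le hM hκ' (hPmem p hpP).2
    have hΛ0 : 0 ≤ Λ := by linarith [hM.Λ1]
    have h8 : |u p.1 * v p.2| ≤ Λ ^ 2 * ((p.1.den : ℝ) * p.2.den) ^ (-(99 / 100) : ℝ) := by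
      rw [abs_mul, Real.mul_rpow hd1.le hd2.le]
      calc |u p.1| * |v p.2| ≤ (Λ * (p.1.den : ℝ) ^ (-(99 / 100) : ℝ)) * (Λ * (p.2.den : ℝ) ^ (-(99 / 100) : ℝ)) :=
            mul_le_mul h6 h7 (abs_nonneg _) (by positivity)
        _ = _ := by ring
    have h9 : (u p.1 * v p.2) ^ 2 ≤ Λ ^ 4 * ((p.1.den : ℝ) * p.2.den) ^ (-(99 / 50) : ℝ) := by
      rw [← sq_abs]
      calc |u p.1 * v p.2| ^ 2 ≤ (Λ ^ 2 * ((p.1.den : ℝ) * p.2.den) ^ (-(99 / 100) : ℝ)) ^ 2 :=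
            pow_le_pow_left₀ (abs_nonneg _) h8 2
        _ = Λ ^ 4 * ((p.1.den : ℝ) * p.2.den) ^ (-(99 / 50) : ℝ) := by
            rw [mul_pow, ← pow_mul, ← Real.rpow_natCast (((p.1.den : ℝ) * p.2.den) ^ (-(99 / 100) : ℝ)) 2,
              ← Real.rpow_mul (by positivity)]
            norm_num
    rw [← mul_div_assoc]
    exact div_le_div_of_nonneg_right h9 (sq_nonneg _)
  have h6 : ∑ p ∈ (Ps L P).filter (fun p => ¬ Cl1 p), ((p.1.den : ℝ) * p.2.den) ^ (-(99 / 50) : ℝ) / (p.2 : ℝ) ^ 2 ≤ C₂ := by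
    refine h2 _ fun p hp => ?_
    obtain ⟨hps, hc⟩ := Finset.mem_filter.1 hp
    obtain ⟨-, ha, hb, -, hab⟩ := mem_Ps.1 hps
    exact ⟨ha, hb, hab, hc⟩
  calc ∑ l ∈ Ll L P, ∫ y, ‖∑ p ∈ Pl L P l, tm ρ u v w y p‖ ^ 2
      ≤ C₃ * (Λ ^ 4 * C₂) := h3.trans (mul_le_mul_of_nonneg_left (h4.le.trans (h5.trans (mul_le_mul_of_nonneg_left h6 (by positivity)))) hC₃.le)
    _ = C₃ * C₂ * Λ ^ 4 := by ring

/-- Module PrA. Proposition A, for every second width between `1 / R ^ 8` and infinity. -/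
theorem prop_a_gen {ρ : ℝ} (hρ : 1 ≤ ρ) : ∃ C L₀ : ℝ, 0 < C ∧ ∀ (L R Λ : ℝ) (T : Finset ℕ) (c : ℕ → ℝ)
    (Q : ℕ), L₀ ≤ L → Maj L R Λ T c Q → ∀ κ' : ℝ, 1 / R ^ 8 ≤ κ' → ∀ w : ℂ, R ≤ ‖w‖ → ‖w‖ ≤ 2 * R → ∀ V : Set ℂ,
    MeasurableSet V → volume V ≠ ∞ → (∀ y ∈ V, L ^ 1500 ≤ ‖y‖ ∧ ‖y‖ ≤ 2 * R) →
    ∫⁻ y in V, KN c Q ρ (1 / L ^ 16) κ' w y ≤
      ENNReal.ofReal (C * Λ ^ 2 * (√(volume.real V) + volume.real V)) := by
  obtain ⟨C₁, L₁, hC₁, h1⟩ := pointwise hρ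
  obtain ⟨C₂, L₂, hC₂, h2⟩ := class_two_int hρ
  refine ⟨C₁ + √C₂, max (max L₁ L₂) 1, by positivity, ?_⟩
  intro L R Λ T c Q hL hM κ' hκ' w hw hw2 V hV hVt hVy
  have hL₁ : L₁ ≤ L := (le_max_left _ _).trans ((le_max_left _ _).trans hL)
  have hL₂ : L₂ ≤ L := (le_max_right _ _).trans ((le_max_left _ _).trans hL)
  have hL1 : 1 ≤ L := (le_max_right _ _).trans hL
  have hL0 : 0 < L := by linarith
  have hR0 : 0 < R := lt_of_lt_of_le (by positivity) hM.Rl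
  have hκ0 : 0 < κ' := lt_of_lt_of_le (by positivity) hκ'
  have hκ1 : (0 : ℝ) < 1 / L ^ 16 := by positivity
  have hρ0 : 0 < ρ := by linarith
  have hΛ1 := hM.Λ1
  have hΛ0 : 0 < Λ := by linarith
  obtain ⟨hint, hle⟩ := h2 L R Λ T c Q hL₂ hM κ' hκ0 w hw
  set G : ℂ → ℝ := fun y => ∑ l ∈ Ll L (FQ Q (1 / (1 / L ^ 16)) ×ˢ FQ Q (1 / κ')),
        ‖∑ p ∈ Pl L (FQ Q (1 / (1 / L ^ 16)) ×ˢ FQ Q (1 / κ')) l, tm ρ (cc (1 / L ^ 16) c Q) (cc κ' c Q) w y p‖ ^ 2 with hG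
  have hG0 : ∀ y, 0 ≤ G y := fun y => Finset.sum_nonneg fun l _ => sq_nonneg _
  set M : ℝ := volume.real V with hMV
  have hM0 : 0 ≤ M := measureReal_nonneg
  rcases hM0.eq_or_lt with hM00 | hMpos
  · have hV0 : volume V = 0 := by
      rw [hMV, Measure.real, eq_comm, ENNReal.toReal_eq_zero_iff] at hM00
      exact hM00.resolve_right hVt
    rw [Measure.restrict_eq_zero.2 hV0, lintegral_zero_measure]
    exact zero_le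
  set t : ℝ := √C₂ * Λ ^ 2 / √M with ht
  have hsM : 0 < √M := Real.sqrt_pos.2 hMpos
  have hsC : 0 < √C₂ := Real.sqrt_pos.2 hC₂
  have ht0 : 0 < t := by positivity
  have hpt : ∀ y ∈ V, KN c Q ρ (1 / L ^ 16) κ' w y ≤
      ENNReal.ofReal (C₁ * Λ ^ 2 + t / 2) + ENNReal.ofReal (1 / (2 * t)) * ENNReal.ofReal (G y) := by
    intro y hy
    refine (kn_le hρ0 hM.nonneg hκ1 hκ0 w y).trans ?_
    rw [← ENNReal.ofReal_mul (by positivity), ← ENNReal.ofReal_add (by positivity) (mul_nonneg (by positivity) (hG0 y))]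
    refine ENNReal.ofReal_le_ofReal ((h1 L R Λ T c Q hL₁ hM κ' hκ' w y hw hw2 (hVy y hy).1 (hVy y hy).2).trans ?_)
    have h3 : √(G y) ≤ t / 2 + 1 / (2 * t) * G y := by
      have h4 : (√(G y)) ^ 2 = G y := Real.sq_sqrt (hG0 y)
      have h5 : 0 ≤ (√(G y) - t) ^ 2 / (2 * t) := by positivity
      have h6 : (√(G y) - t) ^ 2 / (2 * t) = t / 2 + 1 / (2 * t) * G y - √(G y) := by
        rw [sub_sq, h4]
        field_simp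
        ring
      linarith
    have h7 : √(∑ l ∈ Ll L (FQ Q (1 / (1 / L ^ 16)) ×ˢ FQ Q (1 / κ')),
        ‖∑ p ∈ Pl L (FQ Q (1 / (1 / L ^ 16)) ×ˢ FQ Q (1 / κ')) l, tm ρ (cc (1 / L ^ 16) c Q) (cc κ' c Q) w y p‖ ^ 2) = √(G y) := rfl
    rw [h7]
    linarith
  calc ∫⁻ y in V, KN c Q ρ (1 / L ^ 16) κ' w y
      ≤ ∫⁻ y in V, (ENNReal.ofReal (C₁ * Λ ^ 2 + t / 2) + ENNReal.ofReal (1 / (2 * t)) * ENNReal.ofReal (G y)) :=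
        setLIntegral_mono' hV hpt
    _ = ENNReal.ofReal (C₁ * Λ ^ 2 + t / 2) * volume V + ENNReal.ofReal (1 / (2 * t)) * ∫⁻ y in V, ENNReal.ofReal (G y) := by
        rw [lintegral_add_left measurable_const, lintegral_const, Measure.restrict_apply_univ,
          lintegral_const_mul' _ _ ENNReal.ofReal_ne_top]
    _ ≤ ENNReal.ofReal (C₁ * Λ ^ 2 + t / 2) * volume V + ENNReal.ofReal (1 / (2 * t)) * ENNReal.ofReal (C₂ * Λ ^ 4) := by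
        refine add_le_add le_rfl (mul_le_mul' le_rfl ?_)
        refine (setLIntegral_le_lintegral _ _).trans ?_
        rw [← ofReal_integral_eq_lintegral_ofReal hint (Filter.Eventually.of_forall hG0)]
        exact ENNReal.ofReal_le_ofReal hle
    _ = ENNReal.ofReal ((C₁ * Λ ^ 2 + t / 2) * M + 1 / (2 * t) * (C₂ * Λ ^ 4)) := by
        have hVM : volume V = ENNReal.ofReal M := by
          rw [hMV, Measure.real, ENNReal.ofReal_toReal hVt]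
        rw [hVM, ← ENNReal.ofReal_mul (by positivity), ← ENNReal.ofReal_mul (by positivity),
          ← ENNReal.ofReal_add (by positivity) (by positivity)]
    _ ≤ ENNReal.ofReal ((C₁ + √C₂) * Λ ^ 2 * (√M + M)) := by
        refine ENNReal.ofReal_le_ofReal ?_
        have h3 : √M * √M = M := Real.mul_self_sqrt hM0
        have h4 : √C₂ * √C₂ = C₂ := Real.mul_self_sqrt hC₂.le
        have h5 : t / 2 * M = √C₂ * Λ ^ 2 * √M / 2 := by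
          rw [ht]
          nth_rewrite 2 [← h3]
          field_simp
        have h6 : 1 / (2 * t) * (C₂ * Λ ^ 4) = √C₂ * Λ ^ 2 * √M / 2 := by
          rw [ht]
          nth_rewrite 2 [← h4]
          field_simp
        have h7 : (C₁ * Λ ^ 2 + t / 2) * M + 1 / (2 * t) * (C₂ * Λ ^ 4) = C₁ * Λ ^ 2 * M + √C₂ * Λ ^ 2 * √M := by
          rw [add_mul, h5, h6]
          ring
        rw [h7]
        have h8 : 0 ≤ C₁ * Λ ^ 2 * √M := by positivity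
        have h9 : 0 ≤ √C₂ * Λ ^ 2 * M := by positivity
        nlinarith

/-- Module PrA. Proposition A: step (7) of STEIN_SIMPLE. -/
theorem prop_a {ρ : ℝ} (hρ : 1 ≤ ρ) : ∃ C L₀ : ℝ, 0 < C ∧ ∀ (L R Λ : ℝ) (T : Finset ℕ) (c : ℕ → ℝ)
    (Q : ℕ), L₀ ≤ L → Maj L R Λ T c Q → ∀ w : ℂ, R ≤ ‖w‖ → ‖w‖ ≤ 2 * R → ∀ V : Set ℂ,
    MeasurableSet V → volume V ≠ ∞ → (∀ y ∈ V, L ^ 1500 ≤ ‖y‖ ∧ ‖y‖ ≤ 2 * R) →
    ∫⁻ y in V, KN c Q ρ (1 / L ^ 16) (1 / R ^ 8) w y ≤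
      ENNReal.ofReal (C * Λ ^ 2 * (√(volume.real V) + volume.real V)) := by
  obtain ⟨C, L₀, hC, h⟩ := prop_a_gen hρ
  exact ⟨C, L₀, hC, fun L R Λ T c Q hL hM w hw hw2 V hV hVt hVy => h L R Λ T c Q hL hM (1 / R ^ 8) le_rfl w hw hw2 V hV hVt hVy⟩

end Pool.Agent.Lib.SR
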