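import Pool.Agent.Lib.MP_b9430d_co.SR.Defs

/-!
# The finite circle sums `SF`: measurability, symmetry, monotonicity

`∫ f SF T g = ∫ SF T f g`: by Tonelli and translation `∫ f(x) g(x + s rot θ) dx = ∫ f(x - s rot θ) g(x) dx`, and
`- rot θ = rot (θ + π)` with `rot` of period `2 π`.
-/

set_option autoImplicit false

open MeasureTheory Complex Set Real Filter Topology
open scoped ENNReal

namespace Pool.Agent.Lib.SR

open Pool.MPb9430d Pool.MPb9430d.Rough Pool.MPb9430d.Frac Pool.MPb9430d.Mom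

private theorem adj_rot : Measurable rot := continuous_rot.measurable

private theorem adj_meas0 (s : ℝ) {g : ℂ → ℝ≥0∞} (hg : Measurable g) :
    Measurable (fun q : ℂ × ℝ => g (q.1 + s * rot q.2)) :=
  hg.comp (measurable_fst.add ((adj_rot.comp measurable_snd).const_mul _))

private theorem adj_meas1 (s : ℝ) {g : ℂ → ℝ≥0∞} (hg : Measurable g) (y : ℂ) :
    Measurable (fun θ : ℝ => g (y + s * rot θ)) :=
  (adj_meas0 s hg).comp (measurable_const.prodMk measurable_id)

/-- Circle means of a measurable function are measurable. -/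
theorem measurable_AA (s : ℝ) {g : ℂ → ℝ≥0∞} (hg : Measurable g) : Measurable (AA s g) := by
  unfold AA
  exact (Measurable.lintegral_prod_right' (ν := volume.restrict (Ioc (-π) π))
    (adj_meas0 s hg)).const_mul _

theorem measurable_SF (T : Finset ℕ) {g : ℂ → ℝ≥0∞} (hg : Measurable g) : Measurable (SF T g) := by
  unfold SF
  exact Finset.measurable_sum _ (fun m _ => (measurable_AA _ hg).const_mul _)

theorem AA_mono (s : ℝ) {f g : ℂ → ℝ≥0∞} (h : ∀ x, f x ≤ g x) (y : ℂ) : AA s f y ≤ AA s g y := by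
  unfold AA
  gcongr
  exact h _

theorem SF_mono (T : Finset ℕ) {f g : ℂ → ℝ≥0∞} (h : ∀ x, f x ≤ g x) (y : ℂ) :
    SF T f y ≤ SF T g y := by
  unfold SF
  exact Finset.sum_le_sum (fun m _ => mul_le_mul_right (AA_mono _ h y) _)

private theorem adj_period {F : ℝ → ℝ≥0∞} (hF : ∀ t, F (t + 2 * π) = F t) :
    ∫⁻ θ in Ioc (-π) π, F (θ + π) = ∫⁻ θ in Ioc (-π) π, F θ := by
  have h1 : ∫⁻ θ in Ioc (-π) π, F (θ + π) = ∫⁻ θ in Ioc 0 (2 * π), F θ := by
    have h := (measurePreserving_add_right (volume : Measure ℝ) π).setLIntegral_comp_emb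
      (MeasurableEquiv.addRight π).measurableEmbedding F (Ioc (-π) π)
    rw [h]
    congr 2
    ext t
    simp only [mem_image, mem_Ioc]
    constructor
    · rintro ⟨s, ⟨h1, h2⟩, rfl⟩
      constructor <;> linarith
    · rintro ⟨h1, h2⟩
      exact ⟨t - π, ⟨by linarith, by linarith⟩, by ring⟩
  have hp : (0 : ℝ) < 2 * π := by positivity
  have a1 := isAddFundamentalDomain_Ioc hp 0
  have a2 := isAddFundamentalDomain_Ioc hp (-π)
  rw [zero_add] at a1
  rw [show -π + 2 * π = π by ring] at a2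
  rw [h1]
  refine a1.setLIntegral_eq a2 F ?_
  have hk : ∀ k : ℤ, ∀ x, F (x + k * (2 * π)) = F x := by
    intro k x
    have hp' : Function.Periodic F (2 * π) := hF
    exact hp'.int_mul k x
  rintro ⟨g, hg⟩ x
  obtain ⟨k, rfl⟩ := AddSubgroup.mem_zmultiples_iff.1 hg
  change F (k • (2 * π) + x) = F x
  rw [zsmul_eq_mul, add_comm]
  exact hk k x

private theorem adj_neg (s : ℝ) (g : ℂ → ℝ≥0∞) (y : ℂ) :
    ∫⁻ θ in Ioc (-π) π, g (y + -(s * rot θ)) = ∫⁻ θ in Ioc (-π) π, g (y + s * rot θ) := by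
  have h1 : ∀ θ : ℝ, g (y + -(s * rot θ)) = (fun t => g (y + s * rot t)) (θ + π) := by
    intro θ
    simp only
    have h2 : rot (θ + π) = - rot θ := by
      rw [rot_add]
      have : rot π = -1 := by
        unfold rot
        exact Complex.exp_pi_mul_I
      rw [this]
      ring
    rw [h2, mul_neg]
  rw [lintegral_congr (μ := volume.restrict (Ioc (-π) π)) (fun θ => h1 θ)]
  refine adj_period (F := fun t => g (y + s * rot t)) (fun t => ?_)
  rw [rot_periodic]

private theorem adj_expand (s : ℝ) {f g : ℂ → ℝ≥0∞} (hf : Measurable f) (hg : Measurable g) :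
    ∫⁻ x, f x * AA s g x = ENNReal.ofReal (2 * π)⁻¹ * ∫⁻ θ in Ioc (-π) π,
      ∫⁻ x, f x * g (x + s * rot θ) := by
  have h1 : ∀ x, f x * AA s g x = ENNReal.ofReal (2 * π)⁻¹ * ∫⁻ θ in Ioc (-π) π,
      f x * g (x + s * rot θ) := by
    intro x
    unfold AA
    rw [lintegral_const_mul _ (adj_meas1 s hg x)]
    ring
  simp only [h1]
  rw [lintegral_const_mul' _ _ ENNReal.ofReal_ne_top]
  congr 1
  rw [lintegral_lintegral_swap]
  exact ((hf.comp measurable_fst).mul (adj_meas0 s hg)).aemeasurable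

private theorem adj_shift {f g : ℂ → ℝ≥0∞} (a : ℂ) :
    ∫⁻ x, f x * g (x + a) = ∫⁻ x, g x * f (x + -a) := by
  have h := lintegral_add_right_eq_self (μ := (volume : Measure ℂ))
    (fun x => f (x + -a) * g x) a
  have e1 : ∀ x : ℂ, f (x + a + -a) * g (x + a) = f x * g (x + a) := by
    intro x
    rw [add_neg_cancel_right]
  simp only [e1] at h
  rw [h]
  refine lintegral_congr (fun x => ?_)
  ring

/-- Circle means are self-adjoint. -/
theorem AA_adj (s : ℝ) {f g : ℂ → ℝ≥0∞} (hf : Measurable f) (hg : Measurable g) :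
    ∫⁻ x, f x * AA s g x = ∫⁻ x, AA s f x * g x := by
  have h1 : ∫⁻ x, AA s f x * g x = ∫⁻ x, g x * AA s f x := lintegral_congr (fun x => mul_comm _ _)
  rw [h1, adj_expand s hf hg, adj_expand s hg hf]
  congr 1
  have h2 : ∀ θ : ℝ, ∫⁻ x, f x * g (x + s * rot θ) = ∫⁻ x, g x * f (x + -(s * rot θ)) :=
    fun θ => adj_shift _
  rw [lintegral_congr (μ := volume.restrict (Ioc (-π) π)) h2]
  have h3 : ∀ u : ℝ → ℂ, Measurable u →
      ∫⁻ θ in Ioc (-π) π, ∫⁻ x, g x * f (x + u θ) = ∫⁻ x, g x * ∫⁻ θ in Ioc (-π) π, f (x + u θ) := by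
    intro u hu
    have h4 : Measurable (fun q : ℂ × ℝ => f (q.1 + u q.2)) :=
      hf.comp (measurable_fst.add (hu.comp measurable_snd))
    have h5 : ∀ x, g x * ∫⁻ θ in Ioc (-π) π, f (x + u θ) = ∫⁻ θ in Ioc (-π) π, g x * f (x + u θ) := by
      intro x
      rw [lintegral_const_mul]
      exact h4.comp (measurable_const.prodMk measurable_id)
    simp only [h5]
    rw [lintegral_lintegral_swap]
    exact ((hg.comp measurable_snd).mul (h4.comp (measurable_snd.prodMk measurable_fst))).aemeasurable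
  rw [h3 (fun θ => -(s * rot θ)) ((adj_rot.const_mul _).neg), h3 (fun θ => s * rot θ) (adj_rot.const_mul _)]
  refine lintegral_congr (fun x => ?_)
  rw [adj_neg]

/-- The finite circle sums are self-adjoint. -/
theorem SF_adj (T : Finset ℕ) {f g : ℂ → ℝ≥0∞} (hf : Measurable f) (hg : Measurable g) :
    ∫⁻ x, f x * SF T g x = ∫⁻ x, SF T f x * g x := by
  unfold SF
  have h1 : ∀ x, f x * ∑ m ∈ T, (rr m : ℝ≥0∞) * AA √(m : ℝ) g x =
      ∑ m ∈ T, (rr m : ℝ≥0∞) * (f x * AA √(m : ℝ) g x) := by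
    intro x
    rw [Finset.mul_sum]
    exact Finset.sum_congr rfl (fun m _ => by ring)
  have h2 : ∀ x, (∑ m ∈ T, (rr m : ℝ≥0∞) * AA √(m : ℝ) f x) * g x =
      ∑ m ∈ T, (rr m : ℝ≥0∞) * (AA √(m : ℝ) f x * g x) := by
    intro x
    rw [Finset.sum_mul]
    exact Finset.sum_congr rfl (fun m _ => by ring)
  simp only [h1, h2]
  have m1 : ∀ m : ℕ, Measurable (fun x => f x * AA √(m : ℝ) g x) := fun m => hf.mul (measurable_AA _ hg)
  have m2 : ∀ m : ℕ, Measurable (fun x => AA √(m : ℝ) f x * g x) := fun m => (measurable_AA _ hf).mul hg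
  rw [lintegral_finsetSum T (f := fun m x => (rr m : ℝ≥0∞) * (f x * AA √(m : ℝ) g x))
      (fun m _ => (m1 m).const_mul _),
    lintegral_finsetSum T (f := fun m x => (rr m : ℝ≥0∞) * (AA √(m : ℝ) f x * g x))
      (fun m _ => (m2 m).const_mul _)]
  refine Finset.sum_congr rfl (fun m _ => ?_)
  rw [lintegral_const_mul _ (m1 m), lintegral_const_mul _ (m2 m), AA_adj _ hf hg]

/-- Integral of `f` against the circle sum of an indicator function. -/
theorem SF_adj_ind (T : Finset ℕ) {f : ℂ → ℝ≥0∞} (hf : Measurable f) {V : Set ℂ}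
    (hV : MeasurableSet V) : ∫⁻ x, f x * SF T (ind V) x = ∫⁻ y in V, SF T f y := by
  rw [SF_adj T hf (measurable_ind hV), ← lintegral_indicator hV]
  refine lintegral_congr (fun x => ?_)
  by_cases hx : x ∈ V
  · rw [ind_of_mem hx, indicator_of_mem hx, mul_one]
  · rw [ind_of_notMem hx, indicator_of_notMem hx, mul_zero]

end Pool.Agent.Lib.SR
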