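import Pool.Agent.Lib.MP_b9430d_co.SR.Kdd

/-!
# Bounds for the density `DD`

`DD c Q κ t` is a finite sum of at most `3 Q² / κ` terms `C_α ee (α t)`, `|C_α| ≤ Λ`, `|α| ≤ 1 / κ`. Hence
`|DD| ≤ 3 L³ / κ` and `DD` has the Lipschitz constant `20 L³ / κ²`.
-/

set_option autoImplicit false

open MeasureTheory Complex Set Real Filter Topology
open scoped ENNReal

namespace Pool.Agent.Lib.SR

open Pool.MPb9430d Pool.MPb9430d.Rough Pool.MPb9430d.Frac Pool.MPb9430d.Mom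

/-- Number of frequencies. -/
theorem card_FQ_le (Q : ℕ) {H : ℝ} (hH : 0 ≤ H) : ((FQ Q H).card : ℝ) ≤ (2 * H * Q + 1) * Q := by
  have h1 : (FQ Q H).card ≤ ((Finset.Icc (-⌊H * Q⌋) ⌊H * Q⌋) ×ˢ (Finset.Icc 1 Q)).card := by
    unfold FQ
    exact (Finset.card_filter_le _ _).trans Finset.card_image_le
  have h2 : ((Finset.Icc (-⌊H * Q⌋) ⌊H * Q⌋) ×ˢ (Finset.Icc 1 Q)).card =
      (⌊H * Q⌋ + 1 - -⌊H * Q⌋).toNat * Q := by
    rw [Finset.card_product, Int.card_Icc, Nat.card_Icc, Nat.add_sub_cancel]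
  have h3 : 0 ≤ ⌊H * Q⌋ := Int.floor_nonneg.2 (by positivity)
  have h4 : (((⌊H * Q⌋ + 1 - -⌊H * Q⌋).toNat : ℕ) : ℝ) = ((⌊H * Q⌋ + 1 - -⌊H * Q⌋ : ℤ) : ℝ) := by
    have : (((⌊H * Q⌋ + 1 - -⌊H * Q⌋).toNat : ℕ) : ℤ) = ⌊H * Q⌋ + 1 - -⌊H * Q⌋ :=
      Int.toNat_of_nonneg (by linarith)
    have h := congrArg (fun z : ℤ => (z : ℝ)) this
    simpa only [Int.cast_natCast] using h
  have h5 : ((FQ Q H).card : ℝ) ≤ (((⌊H * Q⌋ + 1 - -⌊H * Q⌋).toNat * Q : ℕ) : ℝ) := by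
    exact_mod_cast h1.trans h2.le
  refine h5.trans ?_
  rw [Nat.cast_mul, h4]
  have h6 : ((⌊H * Q⌋ : ℤ) : ℝ) ≤ H * Q := Int.floor_le _
  push_cast
  refine mul_le_mul_of_nonneg_right ?_ (Nat.cast_nonneg Q)
  linarith

private theorem lip_coef {L R Λ : ℝ} {T : Finset ℕ} {c : ℕ → ℝ} {Q : ℕ} (hM : Maj L R Λ T c Q)
    {κ : ℝ} (hκ : 0 < κ) {α : ℚ} (hα : α ∈ FQ Q (1 / κ)) :
    ‖((cof c Q α.den * (1 - κ * |(α : ℝ)|) : ℝ) : ℂ)‖ ≤ L := by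
  rw [Complex.norm_real, Real.norm_eq_abs, abs_mul]
  have h1 := hM.cofb α.den α.den_pos
  have h2 : ((α.den : ℕ) : ℝ) ^ (-(99 / 100) : ℝ) ≤ 1 := by
    refine Real.rpow_le_one_of_one_le_of_nonpos ?_ (by norm_num)
    exact_mod_cast α.den_pos
  have h3 : |cof c Q α.den| ≤ L := by
    refine h1.trans ?_
    have h4 := hM.Λ1
    have h5 := hM.ΛL
    nlinarith
  have h4 := (mem_FQ.1 hα).2
  have h5 : κ * |(α : ℝ)| ≤ 1 := by
    calc κ * |(α : ℝ)| ≤ κ * (1 / κ) := mul_le_mul_of_nonneg_left h4 hκ.le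
      _ = 1 := by field_simp
  have h6 : abs (1 - κ * |(α : ℝ)|) ≤ 1 := by
    rw [abs_le]
    have := mul_nonneg hκ.le (abs_nonneg (α : ℝ))
    constructor <;> linarith
  have h7 : 0 ≤ |cof c Q α.den| := abs_nonneg _
  have h8 : 0 ≤ abs (1 - κ * |(α : ℝ)|) := abs_nonneg _
  nlinarith

private theorem lip_ee (x y : ℝ) : ‖ee x - ee y‖ ≤ 2 * π * |x - y| := by
  have h1 : ee x - ee y = ee y * (ee (x - y) - 1) := by
    rw [mul_sub, ← ee_add, mul_one]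
    congr 2
    ring
  rw [h1, norm_mul, norm_ee, one_mul]
  unfold ee
  have h2 := Real.norm_exp_I_mul_ofReal_sub_one_le (x := 2 * π * (x - y))
  rw [mul_comm] at h2
  refine h2.trans (le_of_eq ?_)
  rw [Real.norm_eq_abs, abs_mul, abs_of_pos (by positivity : (0 : ℝ) < 2 * π)]

private theorem lip_card {L R Λ : ℝ} {T : Finset ℕ} {c : ℕ → ℝ} {Q : ℕ} (hM : Maj L R Λ T c Q)
    {κ : ℝ} (hκ : 0 < κ) (hκ1 : κ ≤ 1) : ((FQ Q (1 / κ)).card : ℝ) * L ≤ 3 * L ^ 3 / κ := by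
  have h1 := card_FQ_le Q (H := 1 / κ) (by positivity)
  have h2 : (1 : ℝ) ≤ Q := by exact_mod_cast hM.Q1
  have h3 := hM.QL
  have h4 := hM.L1
  have h5 : 1 ≤ 1 / κ := by
    rw [le_div_iff₀ hκ]
    linarith
  have h6 : (2 * (1 / κ) * Q + 1) * Q ≤ 3 * (1 / κ) * L ^ 2 := by
    have h7 : (1 : ℝ) ≤ (1 / κ) * Q := by nlinarith
    have h8 : (Q : ℝ) * Q ≤ L ^ 2 := by nlinarith
    calc (2 * (1 / κ) * Q + 1) * Q ≤ (3 * ((1 / κ) * Q)) * Q := by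
          refine mul_le_mul_of_nonneg_right ?_ (by linarith)
          linarith
      _ = 3 * (1 / κ) * (Q * Q) := by ring
      _ ≤ 3 * (1 / κ) * L ^ 2 := mul_le_mul_of_nonneg_left h8 (by positivity)
  calc ((FQ Q (1 / κ)).card : ℝ) * L ≤ 3 * (1 / κ) * L ^ 2 * L :=
        mul_le_mul_of_nonneg_right (h1.trans h6) (by linarith)
    _ = 3 * L ^ 3 / κ := by ring

/-- Size of the density. -/
theorem dd_abs_le {L R Λ : ℝ} {T : Finset ℕ} {c : ℕ → ℝ} {Q : ℕ} (hM : Maj L R Λ T c Q)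
    {κ : ℝ} (hκ : 0 < κ) (hκ1 : κ ≤ 1) (t : ℝ) : |DD c Q κ t| ≤ 3 * L ^ 3 / κ := by
  have h1 : |DD c Q κ t| = ‖(DD c Q κ t : ℂ)‖ := by
    rw [Complex.norm_real, Real.norm_eq_abs]
  rw [h1, dd_eq c Q hκ t]
  refine (norm_sum_le _ _).trans ?_
  refine le_trans ?_ (lip_card hM hκ hκ1)
  rw [← nsmul_eq_mul]
  refine Finset.sum_le_card_nsmul _ _ _ (fun α hα => ?_)
  rw [norm_mul, norm_ee, mul_one]
  exact lip_coef hM hκ hα

/-- Lipschitz bound of the density. -/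
theorem dd_lip_gen {L R Λ : ℝ} {T : Finset ℕ} {c : ℕ → ℝ} {Q : ℕ} (hM : Maj L R Λ T c Q)
    {κ : ℝ} (hκ : 0 < κ) (hκ1 : κ ≤ 1) (s t : ℝ) :
    |DD c Q κ s - DD c Q κ t| ≤ 20 * L ^ 3 / κ ^ 2 * |s - t| := by
  have h1 : |DD c Q κ s - DD c Q κ t| = ‖(DD c Q κ s : ℂ) - (DD c Q κ t : ℂ)‖ := by
    rw [← Complex.ofReal_sub, Complex.norm_real, Real.norm_eq_abs]
  rw [h1, dd_eq c Q hκ s, dd_eq c Q hκ t, ← Finset.sum_sub_distrib]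
  refine (norm_sum_le _ _).trans ?_
  have h2 : ∀ α ∈ FQ Q (1 / κ), ‖((cof c Q α.den * (1 - κ * |(α : ℝ)|) : ℝ) : ℂ) * ee (α * s) -
      ((cof c Q α.den * (1 - κ * |(α : ℝ)|) : ℝ) : ℂ) * ee (α * t)‖ ≤
      L * (2 * π * (1 / κ * |s - t|)) := by
    intro α hα
    rw [← mul_sub, norm_mul]
    refine mul_le_mul (lip_coef hM hκ hα) ?_ (norm_nonneg _) (by linarith [hM.L1])
    refine (lip_ee _ _).trans ?_
    refine mul_le_mul_of_nonneg_left ?_ (by positivity)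
    rw [← mul_sub, abs_mul]
    exact mul_le_mul_of_nonneg_right (mem_FQ.1 hα).2 (abs_nonneg _)
  have h3 := Finset.sum_le_card_nsmul _ _ _ h2
  rw [nsmul_eq_mul] at h3
  refine h3.trans ?_
  have h4 := lip_card hM hκ hκ1
  have h5 : 0 ≤ 2 * π * (1 / κ * |s - t|) := by positivity
  calc ((FQ Q (1 / κ)).card : ℝ) * (L * (2 * π * (1 / κ * |s - t|))) =
        (((FQ Q (1 / κ)).card : ℝ) * L) * (2 * π * (1 / κ * |s - t|)) := by ring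
    _ ≤ 3 * L ^ 3 / κ * (2 * π * (1 / κ * |s - t|)) := mul_le_mul_of_nonneg_right h4 h5
    _ = (6 * π) * (L ^ 3 / κ ^ 2 * |s - t|) := by field_simp; ring
    _ ≤ 20 * (L ^ 3 / κ ^ 2 * |s - t|) := by
        refine mul_le_mul_of_nonneg_right ?_ ?_
        · linarith [Real.pi_lt_d2]
        · have := hM.L1
          positivity
    _ = 20 * L ^ 3 / κ ^ 2 * |s - t| := by ring

/-- Size of the density at the width `1 / L ^ 16`. -/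
theorem dd_le {L R Λ : ℝ} {T : Finset ℕ} {c : ℕ → ℝ} {Q : ℕ} (h : Maj L R Λ T c Q) (hL : 100 ≤ L)
    (t : ℝ) : DD c Q (1 / L ^ 16) t ≤ L ^ 24 := by
  have hL0 := h.L1
  have hκ1 : 1 / L ^ 16 ≤ 1 := by
    rw [div_le_one (by positivity)]
    exact one_le_pow₀ hL0
  refine (le_abs_self _).trans ((dd_abs_le h (by positivity) hκ1 t).trans ?_)
  have e2 : 3 * L ^ 3 / (1 / L ^ 16) = 3 * L ^ 19 := by field_simp
  rw [e2]
  calc 3 * L ^ 19 ≤ L * L ^ 19 := mul_le_mul_of_nonneg_right (by linarith) (by positivity)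
    _ = L ^ 20 := by ring
    _ ≤ L ^ 24 := pow_le_pow_right₀ hL0 (by norm_num)

/-- Lipschitz bound of the density at the width `1 / L ^ 16`. -/
theorem dd_lip {L R Λ : ℝ} {T : Finset ℕ} {c : ℕ → ℝ} {Q : ℕ} (h : Maj L R Λ T c Q) (hL : 100 ≤ L)
    (s t : ℝ) : |DD c Q (1 / L ^ 16) s - DD c Q (1 / L ^ 16) t| ≤ L ^ 42 * |s - t| := by
  have hL0 := h.L1
  have hκ1 : 1 / L ^ 16 ≤ 1 := by
    rw [div_le_one (by positivity)]
    exact one_le_pow₀ hL0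
  refine (dd_lip_gen h (by positivity) hκ1 s t).trans ?_
  refine mul_le_mul_of_nonneg_right ?_ (abs_nonneg _)
  have e3 : 20 * L ^ 3 / (1 / L ^ 16) ^ 2 = 20 * L ^ 35 := by field_simp
  rw [e3]
  calc 20 * L ^ 35 ≤ L * L ^ 35 := mul_le_mul_of_nonneg_right (by linarith) (by positivity)
    _ = L ^ 36 := by ring
    _ ≤ L ^ 42 := pow_le_pow_right₀ hL0 (by norm_num)

/-- The density along `x ↦ ‖x - w‖²`. -/
theorem dd_sq_lip {L R Λ : ℝ} {T : Finset ℕ} {c : ℕ → ℝ} {Q : ℕ} (hM : Maj L R Λ T c Q)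
    {κ : ℝ} (hκ : 0 < κ) (hκ1 : κ ≤ 1) (w x x' : ℂ) :
    |DD c Q κ (‖x - w‖ ^ 2) - DD c Q κ (‖x' - w‖ ^ 2)| ≤
      20 * L ^ 3 / κ ^ 2 * (‖x - x'‖ * (‖x - w‖ + ‖x' - w‖)) := by
  refine (dd_lip_gen hM hκ hκ1 _ _).trans ?_
  have h1 := hM.L1
  refine mul_le_mul_of_nonneg_left ?_ (by positivity)
  have h2 : ‖x - w‖ ^ 2 - ‖x' - w‖ ^ 2 = (‖x - w‖ - ‖x' - w‖) * (‖x - w‖ + ‖x' - w‖) := by ring
  rw [h2, abs_mul, abs_of_nonneg (by positivity : 0 ≤ ‖x - w‖ + ‖x' - w‖)]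
  refine mul_le_mul_of_nonneg_right ?_ (by positivity)
  refine (abs_norm_sub_norm_le _ _).trans (le_of_eq ?_)
  congr 1
  ring

/-- The cut-off density is Lipschitz. -/
theorem cut_dd_lip {L R Λ : ℝ} {T : Finset ℕ} {c : ℕ → ℝ} {Q : ℕ} (hM : Maj L R Λ T c Q)
    {κ ρ D : ℝ} (hκ : 0 < κ) (hκ1 : κ ≤ 1) {w : ℂ} (hw : ‖w‖ ≤ D) (x x' : ℂ) :
    |cut ρ x * DD c Q κ (‖x - w‖ ^ 2) - cut ρ x' * DD c Q κ (‖x' - w‖ ^ 2)| ≤
      (3 * L ^ 3 / κ + 40 * L ^ 3 / κ ^ 2 * (|ρ| + D)) * ‖x - x'‖ := by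
  have hL := hM.L1
  have hD : 0 ≤ D := (norm_nonneg _).trans hw
  have hc : |cut ρ x - cut ρ x'| ≤ ‖x - x'‖ := cut_lip ρ x x'
  have key : ∀ a b : ℂ, ρ ≤ ‖b‖ →
      |cut ρ a * DD c Q κ (‖a - w‖ ^ 2) - cut ρ b * DD c Q κ (‖b - w‖ ^ 2)| ≤
        3 * L ^ 3 / κ * ‖a - b‖ := by
    intro a b hb
    have h1 : cut ρ b = 0 := cut_of_ge hb
    have h2 : |cut ρ a * DD c Q κ (‖a - w‖ ^ 2) - cut ρ b * DD c Q κ (‖b - w‖ ^ 2)| =
        |cut ρ a - cut ρ b| * |DD c Q κ (‖a - w‖ ^ 2)| := by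
      rw [← abs_mul, h1]
      congr 1
      ring
    rw [h2, mul_comm]
    exact mul_le_mul (dd_abs_le hM hκ hκ1 _) (cut_lip ρ a b) (abs_nonneg _) (by positivity)
  have hpos : 0 ≤ 40 * L ^ 3 / κ ^ 2 * (|ρ| + D) := by positivity
  rcases le_or_gt ρ ‖x'‖ with h1 | h1
  · refine (key x x' h1).trans ?_
    exact mul_le_mul_of_nonneg_right (by linarith) (norm_nonneg _)
  rcases le_or_gt ρ ‖x‖ with h2 | h2
  · rw [abs_sub_comm, norm_sub_rev x x']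
    refine (key x' x h2).trans ?_
    exact mul_le_mul_of_nonneg_right (by linarith) (norm_nonneg _)
  have e : cut ρ x * DD c Q κ (‖x - w‖ ^ 2) - cut ρ x' * DD c Q κ (‖x' - w‖ ^ 2) =
      (cut ρ x - cut ρ x') * DD c Q κ (‖x - w‖ ^ 2) +
        cut ρ x' * (DD c Q κ (‖x - w‖ ^ 2) - DD c Q κ (‖x' - w‖ ^ 2)) := by ring
  rw [e]
  refine (abs_add_le _ _).trans ?_
  rw [abs_mul, abs_mul, add_mul]
  have h3 : |cut ρ x'| ≤ 1 := by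
    rw [abs_of_nonneg (cut_nonneg _ _)]
    exact cut_le_one _ _
  refine add_le_add ?_ ?_
  · rw [mul_comm]
    exact mul_le_mul (dd_abs_le hM hκ hκ1 _) hc (abs_nonneg _) (by positivity)
  · have h4 := dd_sq_lip hM hκ hκ1 w x x'
    have h5 : ‖x - w‖ + ‖x' - w‖ ≤ 2 * (|ρ| + D) := by
      have a1 : ‖x - w‖ ≤ ‖x‖ + ‖w‖ := norm_sub_le _ _
      have a2 : ‖x' - w‖ ≤ ‖x'‖ + ‖w‖ := norm_sub_le _ _
      have a3 := le_abs_self ρ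
      linarith
    calc |cut ρ x'| * |DD c Q κ (‖x - w‖ ^ 2) - DD c Q κ (‖x' - w‖ ^ 2)| ≤
          1 * (20 * L ^ 3 / κ ^ 2 * (‖x - x'‖ * (‖x - w‖ + ‖x' - w‖))) :=
          mul_le_mul h3 h4 (abs_nonneg _) zero_le_one
      _ ≤ 1 * (20 * L ^ 3 / κ ^ 2 * (‖x - x'‖ * (2 * (|ρ| + D)))) := by gcongr
      _ = 40 * L ^ 3 / κ ^ 2 * (|ρ| + D) * ‖x - x'‖ := by ring

end Pool.Agent.Lib.SR
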