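import Pool.Agent.Lib.MP_b9430d_co.SR.Kdd
import Pool.Agent.Lib.MP_b9430d_co.SR.XM
import Pool.Agent.Lib.MP_b9430d_co.SR.PrA
import Pool.Agent.Lib.MP_b9430d_co.SR.XAdj
import Pool.Agent.Lib.MP_b9430d_co.SR.XLip

/-!
# Step (6), second half: from the circle sums over `V` to the kernel `KN`

For fixed `w` put `h x = cut ρ x * DD c Q κ₁ (‖x - w‖²)`. By symmetry `∫ h SF T (ind V) = ∫_V SF T h`, by `maj_int` (with
`κ = 1 / R⁸`) `SF T h y ≤ π⁻¹ ∫ h(x) DD c Q κ (‖x - y‖²) dx + 1`, and the integral is at most `KN c Q ρ κ₁ κ w y`. Then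
`prop_a`.
-/

set_option autoImplicit false

open MeasureTheory Complex Set Real Filter Topology
open scoped ENNReal

namespace Pool.Agent.Lib.SR

open Pool.MPb9430d Pool.MPb9430d.Rough Pool.MPb9430d.Frac Pool.MPb9430d.Mom

private theorem qv_cut_le {ρ : ℝ} (hρ : 0 < ρ) (x : ℂ) : cut ρ x ≤ cG ρ x := by
  rcases le_or_gt ‖x‖ (3 * ρ) with h | h
  · exact (cut_le_one ρ x).trans (one_le_cG hρ h)
  · rw [cut_of_ge (by linarith : ρ ≤ ‖x‖)]
    exact (cG_pos ρ x).le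

/-- The pointwise comparison with `KN`. -/
theorem int_le_KN {c : ℕ → ℝ} {Q : ℕ} (hc : ∀ k : ℤ, 0 ≤ nuk c Q k) {ρ κ κ' : ℝ} (hρ : 0 < ρ)
    (hκ : 0 < κ) (hκ' : 0 < κ') (w y : ℂ) :
    ENNReal.ofReal (π⁻¹ * ∫ x, cut ρ x * DD c Q κ (‖x - w‖ ^ 2) * DD c Q κ' (‖x - y‖ ^ 2)) ≤
      KN c Q ρ κ κ' w y := by
  have h0 : ∀ x : ℂ, 0 ≤ cut ρ x * DD c Q κ (‖x - w‖ ^ 2) * DD c Q κ' (‖x - y‖ ^ 2) := fun x =>
    mul_nonneg (mul_nonneg (cut_nonneg _ _) (dd_nonneg hc hκ _)) (dd_nonneg hc hκ' _)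
  have hm : Measurable (fun x : ℂ => cut ρ x * DD c Q κ (‖x - w‖ ^ 2) * DD c Q κ' (‖x - y‖ ^ 2)) := by
    refine Continuous.measurable ?_
    refine ((continuous_cut ρ).mul ?_).mul ?_
    · exact (dd_continuous c Q hκ).comp (by fun_prop)
    · exact (dd_continuous c Q hκ').comp (by fun_prop)
  have h1 : ∫ x, cut ρ x * DD c Q κ (‖x - w‖ ^ 2) * DD c Q κ' (‖x - y‖ ^ 2) =
      (∫⁻ x, ENNReal.ofReal (cut ρ x * DD c Q κ (‖x - w‖ ^ 2) * DD c Q κ' (‖x - y‖ ^ 2))).toReal :=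
    integral_eq_lintegral_of_nonneg_ae (Eventually.of_forall h0) hm.aestronglyMeasurable
  have h2 : π⁻¹ * ∫ x, cut ρ x * DD c Q κ (‖x - w‖ ^ 2) * DD c Q κ' (‖x - y‖ ^ 2) ≤
      ∫ x, cut ρ x * DD c Q κ (‖x - w‖ ^ 2) * DD c Q κ' (‖x - y‖ ^ 2) := by
    have h3 : 0 ≤ ∫ x, cut ρ x * DD c Q κ (‖x - w‖ ^ 2) * DD c Q κ' (‖x - y‖ ^ 2) :=
      integral_nonneg h0
    have h4 : π⁻¹ ≤ 1 := inv_le_one_of_one_le₀ (by linarith [Real.pi_gt_three])
    nlinarith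
  refine (ENNReal.ofReal_le_ofReal h2).trans ?_
  rw [h1]
  refine ENNReal.ofReal_toReal_le.trans ?_
  unfold KN
  refine lintegral_mono (fun x => ENNReal.ofReal_le_ofReal ?_)
  have h5 := qv_cut_le hρ x
  have h6 := dd_nonneg hc hκ (‖x - w‖ ^ 2)
  have h7 := dd_nonneg hc hκ' (‖x - y‖ ^ 2)
  gcongr

/-- Step (6), second half, for fixed `w`. -/
theorem pair_le {ρ : ℝ} (hρ : 1 ≤ ρ) : ∃ C L₀ : ℝ, 0 < C ∧ ∀ (L R Λ : ℝ) (T : Finset ℕ)
    (c : ℕ → ℝ) (Q : ℕ), L₀ ≤ L → Maj L R Λ T c Q → ∀ w : ℂ, R ≤ ‖w‖ → ‖w‖ ≤ 2 * R → ∀ V : Set ℂ,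
    MeasurableSet V → volume V ≠ ∞ → (∀ y ∈ V, L ^ 1500 ≤ ‖y‖ ∧ ‖y‖ ≤ 2 * R) →
    ∫⁻ x, ENNReal.ofReal (cut ρ x * DD c Q (1 / L ^ 16) (‖x - w‖ ^ 2)) * SF T (ind V) x ≤
      ENNReal.ofReal (C * Λ ^ 2 * (√(volume.real V) + volume.real V)) := by
  obtain ⟨C₁, L₁, hC₁, h₁⟩ := prop_a hρ
  obtain ⟨C₂, L₂, hC₂, h₂⟩ := maj_int hρ
  refine ⟨C₁ + 1, max (max L₁ L₂) (max (300 * C₂) ρ), by positivity, ?_⟩
  intro L R Λ T c Q hL hM w hw hw' V hV hVfin hVy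
  have hL1 : L₁ ≤ L := (le_max_left _ _).trans ((le_max_left _ _).trans hL)
  have hL2 : L₂ ≤ L := (le_max_right _ _).trans ((le_max_left _ _).trans hL)
  have hL3 : 300 * C₂ ≤ L := (le_max_left _ _).trans ((le_max_right _ _).trans hL)
  have hL4 : ρ ≤ L := (le_max_right _ _).trans ((le_max_right _ _).trans hL)
  have hL0 := hM.L1
  have hLp : 0 < L := by linarith
  have hR : L ^ 2000 ≤ R := hM.Rl
  have hLR : L ≤ R := by
    refine le_trans ?_ hR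
    calc L = L ^ 1 := (pow_one L).symm
      _ ≤ L ^ 2000 := pow_le_pow_right₀ hL0 (by norm_num)
  have hR1 : 1 ≤ R := hL0.trans hLR
  have hRp : 0 < R := by linarith
  have hκ : 0 < 1 / L ^ 16 := by positivity
  have hκ1 : 1 / L ^ 16 ≤ 1 := by
    rw [div_le_one (by positivity)]
    exact one_le_pow₀ hL0
  have hκ' : 0 < 1 / R ^ 8 := by positivity
  have hκ'1 : 1 / R ^ 8 ≤ 1 := by
    rw [div_le_one (by positivity)]
    exact one_le_pow₀ hR1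
  have hκκ : 1 / R ^ 8 ≤ 1 / L ^ 16 := by
    refine one_div_le_one_div_of_le (by positivity) ?_
    calc L ^ 16 ≤ L ^ 2000 := pow_le_pow_right₀ hL0 (by norm_num)
      _ ≤ R := hR
      _ = R ^ 1 := (pow_one R).symm
      _ ≤ R ^ 8 := pow_le_pow_right₀ hR1 (by norm_num)
  set h : ℂ → ℝ := fun x => cut ρ x * DD c Q (1 / L ^ 16) (‖x - w‖ ^ 2) with hh
  have hcont : Continuous h := by
    refine (continuous_cut ρ).mul ?_
    exact (dd_continuous c Q hκ).comp (by fun_prop)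
  have h0 : ∀ x, 0 ≤ h x := fun x => mul_nonneg (cut_nonneg _ _) (dd_nonneg hM.nonneg hκ _)
  have hB : ∀ x, h x ≤ 3 * L ^ 3 / (1 / L ^ 16) := by
    intro x
    have a1 := (le_abs_self _).trans (dd_abs_le hM hκ hκ1 (‖x - w‖ ^ 2))
    have a2 := cut_le_one ρ x
    have a3 := dd_nonneg hM.nonneg hκ (‖x - w‖ ^ 2)
    calc h x ≤ 1 * DD c Q (1 / L ^ 16) (‖x - w‖ ^ 2) := mul_le_mul_of_nonneg_right a2 a3
      _ ≤ _ := by rw [one_mul]; exact a1
  have hs : ∀ x, ρ < ‖x‖ → h x = 0 := by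
    intro x hx
    simp only [hh]
    rw [cut_of_ge hx.le, zero_mul]
  have hlip := cut_dd_lip hM hκ hκ1 (ρ := ρ) hw'
  set M : ℝ := 3 * L ^ 3 / (1 / L ^ 16) + 40 * L ^ 3 / (1 / L ^ 16) ^ 2 * (|ρ| + 2 * R) with hMdef
  have hsmall : C₂ * R ^ 2 * (3 * L ^ 3 / (1 / L ^ 16) + M) * √(1 / R ^ 8) ≤ 1 := by
    have e1 : √(1 / R ^ 8) = 1 / R ^ 4 := by
      rw [show 1 / R ^ 8 = (1 / R ^ 4) ^ 2 by rw [div_pow, one_pow]; ring_nf]
      exact Real.sqrt_sq (by positivity)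
    have e2 : 3 * L ^ 3 / (1 / L ^ 16) = 3 * L ^ 19 := by field_simp
    have e3 : 40 * L ^ 3 / (1 / L ^ 16) ^ 2 * (|ρ| + 2 * R) = 40 * L ^ 35 * (|ρ| + 2 * R) := by
      field_simp
    have e4 : |ρ| ≤ R := by
      rw [abs_of_pos (by linarith)]
      linarith
    rw [e1, hMdef, e2, e3]
    have e5 : L ^ 19 ≤ L ^ 35 := pow_le_pow_right₀ hL0 (by norm_num)
    have e6 : (3 * L ^ 19 + (3 * L ^ 19 + 40 * L ^ 35 * (|ρ| + 2 * R))) ≤ 150 * L ^ 35 * R := by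
      have e7 : 40 * L ^ 35 * (|ρ| + 2 * R) ≤ 40 * L ^ 35 * (3 * R) := by
        refine mul_le_mul_of_nonneg_left (by linarith) (by positivity)
      have e8 : L ^ 35 ≤ L ^ 35 * R := le_mul_of_one_le_right (by positivity) hR1
      have e9 : 40 * L ^ 35 * (3 * R) = 120 * (L ^ 35 * R) := by ring
      have e10 : 0 < L ^ 35 * R := by positivity
      rw [e9] at e7
      linarith
    have e9 : L ^ 36 ≤ R := (pow_le_pow_right₀ hL0 (by norm_num)).trans hR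
    calc C₂ * R ^ 2 * (3 * L ^ 19 + (3 * L ^ 19 + 40 * L ^ 35 * (|ρ| + 2 * R))) * (1 / R ^ 4) ≤
          C₂ * R ^ 2 * (150 * L ^ 35 * R) * (1 / R ^ 4) := by gcongr
      _ = (150 * C₂) * L ^ 35 / R := by field_simp
      _ ≤ L * L ^ 35 / R := by
          refine div_le_div_of_nonneg_right ?_ hRp.le
          refine mul_le_mul_of_nonneg_right (by linarith) (by positivity)
      _ = L ^ 36 / R := by ring
      _ ≤ 1 := (div_le_one hRp).2 e9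
  rw [SF_adj_ind T (f := fun x => ENNReal.ofReal (h x)) hcont.measurable.ennreal_ofReal hV]
  have hpt : ∀ y ∈ V, SF T (fun x => ENNReal.ofReal (h x)) y ≤
      KN c Q ρ (1 / L ^ 16) (1 / R ^ 8) w y + 1 := by
    intro y hy
    have a1 := h₂ L R Λ T c Q hL2 hM h (3 * L ^ 3 / (1 / L ^ 16)) M (1 / R ^ 8) hcont.measurable h0 hB hs
      hlip hκ' hκ'1 y (hVy y hy).1 (hVy y hy).2
    refine a1.trans ?_
    refine ENNReal.ofReal_add_le.trans ?_
    refine add_le_add ?_ ?_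
    · exact int_le_KN hM.nonneg (by linarith) hκ hκ' w y
    · rw [← ENNReal.ofReal_one]
      exact ENNReal.ofReal_le_ofReal hsmall
  calc ∫⁻ y in V, SF T (fun x => ENNReal.ofReal (h x)) y ≤
        ∫⁻ y in V, (KN c Q ρ (1 / L ^ 16) (1 / R ^ 8) w y + 1) := setLIntegral_mono' hV hpt
    _ = (∫⁻ y in V, KN c Q ρ (1 / L ^ 16) (1 / R ^ 8) w y) + volume V := by
        rw [lintegral_add_right _ measurable_const, setLIntegral_const, one_mul]
    _ ≤ ENNReal.ofReal (C₁ * Λ ^ 2 * (√(volume.real V) + volume.real V)) +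
          ENNReal.ofReal (volume.real V) := by
        refine add_le_add ?_ (le_of_eq ?_)
        · exact h₁ L R Λ T c Q hL1 hM w hw hw' V hV hVfin hVy
        · rw [Measure.real, ENNReal.ofReal_toReal hVfin]
    _ = ENNReal.ofReal (C₁ * Λ ^ 2 * (√(volume.real V) + volume.real V) + volume.real V) := by
        rw [← ENNReal.ofReal_add (by positivity) measureReal_nonneg]
    _ ≤ ENNReal.ofReal ((C₁ + 1) * Λ ^ 2 * (√(volume.real V) + volume.real V)) := by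
        refine ENNReal.ofReal_le_ofReal ?_
        have b1 : 0 ≤ volume.real V := measureReal_nonneg
        have b2 : 0 ≤ √(volume.real V) := Real.sqrt_nonneg _
        have b3 : 1 ≤ Λ ^ 2 := one_le_pow₀ hM.Λ1
        have b4 : volume.real V ≤ Λ ^ 2 * (√(volume.real V) + volume.real V) := by nlinarith
        linarith

end Pool.Agent.Lib.SR
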