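import Pool.Agent.Lib.MP_b9430d_co.SR.XBk
import Pool.Agent.Lib.MP_b9430d_co.SR.XInn
import Pool.Agent.Lib.MP_b9430d_co.SR.XM
import Pool.Agent.Lib.MP_b9430d_co.SR.XSm
import Pool.Agent.Lib.MP_b9430d_co.SR.XLf
import Pool.Agent.Lib.MP_b9430d_co.SR.XqV

/-!
# PrO: Proposition 1

`∫ cut SF_V SF_A = ∫ gV SF_A ≤ ∫_A SF h + small` (`x_smooth`, `h = hV`); for `w ∈ A`:
`SF h w ≤ π⁻¹ ∫ h DD_{κ₂} + small` (`maj_int`, `κ₂ = R^(-100)`), `∫ h DD_{κ₂} = ∫ h DD_{κ₁} + D(w)`, `∫ h DD_{κ₁} ≤ ∫ gV DD_{κ₁} + 1/R`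
(`back_g`) and `∫ gV DD_{κ₁} ≤ C Λ² (√|V| + |V|)` (`gv_le`, `pair_le`). Finally `∫_A |D| ≤ √|A| (∫ D²)^(1/2)` (`cs_set`, `fresnel`).
-/

set_option autoImplicit false

open MeasureTheory Complex Set Real Filter Topology
open scoped ENNReal

namespace Pool.Agent.Lib.SR

open Pool.MPb9430d Pool.MPb9430d.Rough Pool.MPb9430d.Frac Pool.MPb9430d.Mom

/-- The difference of the two smoothed densities. -/
private noncomputable def Dw (T : Finset ℕ) (c : ℕ → ℝ) (Q : ℕ) (ρ L R : ℝ) (n : ℕ) (V : Set ℂ)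
    (w : ℂ) : ℝ :=
  ∫ x, hV T ρ R n V x *
    (DD c Q (1 / R ^ 100) (‖x - w‖ ^ 2) - DD c Q (1 / L ^ 16) (‖x - w‖ ^ 2))

private theorem hv_int {T : Finset ℕ} {ρ R : ℝ} (hρ : 1 ≤ ρ) (hR : 1 ≤ R) (n : ℕ) {V : Set ℂ}
    (hm : MeasurableSet V) : Integrable (hV T ρ R n V) := by
  have hh := hv_facts T hρ hR n hm
  have h4 : Integrable ((Metric.closedBall (0 : ℂ) (ρ + 2)).indicator (fun _ => (n : ℝ))) := by
    rw [integrable_indicator_iff measurableSet_closedBall]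
    exact integrableOn_const measure_closedBall_lt_top.ne
  refine h4.mono' hh.1.aestronglyMeasurable (Eventually.of_forall fun x => ?_)
  rw [Real.norm_of_nonneg (hh.2.1 x)]
  by_cases hx : x ∈ Metric.closedBall (0 : ℂ) (ρ + 2)
  · rw [Set.indicator_of_mem hx]
    exact hh.2.2.1 x
  · rw [Set.indicator_of_notMem hx]
    rw [mem_closedBall_zero_iff, not_le] at hx
    exact (hh.2.2.2.1 x hx.le).le

/-- One point `w`. -/
private theorem one_w {ρ : ℝ} (hρ : 1 ≤ ρ) (n : ℕ) : ∃ C L₀ : ℝ, 0 < C ∧ ∀ (L R Λ : ℝ)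
    (T : Finset ℕ) (c : ℕ → ℝ) (Q : ℕ), L₀ ≤ L → Maj L R Λ T c Q → ∀ V : Set ℂ,
    MeasurableSet V → volume V ≠ ∞ → (∀ y ∈ V, L ^ 1500 ≤ ‖y‖ ∧ ‖y‖ ≤ 2 * R) →
    ∀ w : ℂ, R ≤ ‖w‖ → ‖w‖ ≤ 2 * R →
    SF T (fun x => ENNReal.ofReal (hV T ρ R n V x)) w ≤
      ENNReal.ofReal (C * Λ ^ 2 * (√(volume.real V) + volume.real V) + 2 / R) +
        ENNReal.ofReal |Dw T c Q ρ L R n V w| := by
  obtain ⟨Cb, Lb, hCb, hb⟩ := pair_le hρ
  obtain ⟨Cm, Lm, hCm, hmj⟩ := maj_int (by linarith : 1 ≤ ρ + 2)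
  obtain ⟨Lk, hk⟩ := back_g hρ n
  refine ⟨Cb, max 2 (max Lb (max Lm (max Lk (Cm * (n + 40 * ρ ^ 2 * n))))), hCb,
    fun L R Λ T c Q hL h V hV' hfin hVy w hw1 hw2 => ?_⟩
  have hL2 : 2 ≤ L := (le_max_left _ _).trans hL
  have hLr := (le_max_right _ _).trans hL
  have hLb : Lb ≤ L := (le_max_left _ _).trans hLr
  have hLr2 := (le_max_right _ _).trans hLr
  have hLm : Lm ≤ L := (le_max_left _ _).trans hLr2
  have hLr3 := (le_max_right _ _).trans hLr2
  have hLk : Lk ≤ L := (le_max_left _ _).trans hLr3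
  have hLc : Cm * (n + 40 * ρ ^ 2 * n) ≤ L := (le_max_right _ _).trans hLr3
  have hLL : 1 ≤ L := h.L1
  have hRl := h.Rl
  have hLR : L ≤ R := by
    have h1 : L ^ 1 ≤ L ^ 2000 := pow_le_pow_right₀ hLL (by norm_num)
    rw [pow_one] at h1
    exact h1.trans hRl
  have hR1 : 1 ≤ R := hLL.trans hLR
  have hR0 : 0 < R := by linarith
  have hw0 : L ^ 1500 ≤ ‖w‖ := ((pow_le_pow_right₀ hLL (by norm_num)).trans hRl).trans hw1
  have hκ2 : 0 < 1 / R ^ 100 := by positivity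
  have hκ21 : 1 / R ^ 100 ≤ 1 := by
    rw [div_le_one (by positivity)]
    exact one_le_pow₀ hR1
  have hκ1 : 0 < 1 / L ^ 16 := by positivity
  have hh := hv_facts T hρ hR1 n hV'
  have hi := hv_int (T := T) hρ hR1 n hV'
  have h1 := hmj L R Λ T c Q hLm h (hV T ρ R n V) n (40 * ρ ^ 2 * n * R ^ 18) (1 / R ^ 100) hh.1
    hh.2.1 hh.2.2.1 (fun x hx => hh.2.2.2.1 x hx.le) hh.2.2.2.2 hκ2 hκ21 w hw0 hw2
  -- the error term
  have h2 : √(1 / R ^ 100) = 1 / R ^ 50 := by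
    have e : 1 / R ^ 100 = (1 / R ^ 50) ^ 2 := by
      rw [div_pow, one_pow, ← pow_mul]
    rw [e, Real.sqrt_sq (by positivity)]
  have h3 : Cm * R ^ 2 * (n + 40 * ρ ^ 2 * n * R ^ 18) * √(1 / R ^ 100) ≤ 1 / R := by
    rw [h2]
    have e1 : (n : ℝ) ≤ n * R ^ 18 := le_mul_of_one_le_right (Nat.cast_nonneg n) (one_le_pow₀ hR1)
    have e2 : Cm * R ^ 2 * (n + 40 * ρ ^ 2 * n * R ^ 18) ≤ L * R ^ 20 := by
      calc Cm * R ^ 2 * (n + 40 * ρ ^ 2 * n * R ^ 18)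
          ≤ Cm * R ^ 2 * (n * R ^ 18 + 40 * ρ ^ 2 * n * R ^ 18) := by
            refine mul_le_mul_of_nonneg_left ?_ (by positivity)
            linarith
        _ = Cm * (n + 40 * ρ ^ 2 * n) * R ^ 20 := by ring
        _ ≤ L * R ^ 20 := mul_le_mul_of_nonneg_right hLc (by positivity)
    have e3 : L * R ^ 20 ≤ R ^ 21 := by
      have : L * R ^ 20 ≤ R * R ^ 20 := mul_le_mul_of_nonneg_right hLR (by positivity)
      calc L * R ^ 20 ≤ R * R ^ 20 := this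
        _ = R ^ 21 := by ring
    rw [mul_one_div, div_le_div_iff₀ (by positivity) hR0, one_mul]
    calc Cm * R ^ 2 * (n + 40 * ρ ^ 2 * n * R ^ 18) * R ≤ R ^ 21 * R :=
          mul_le_mul_of_nonneg_right (e2.trans e3) hR0.le
      _ = R ^ 22 := by ring
      _ ≤ R ^ 50 := pow_le_pow_right₀ hR1 (by norm_num)
  -- the difference
  obtain ⟨B2, hB20, hB2⟩ := dd_bdd c Q hκ2
  obtain ⟨B1, hB10, hB1⟩ := dd_bdd c Q hκ1
  have i2 := integrable_inner hi (dd_continuous c Q hκ2) hB2 w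
  have i1 := integrable_inner hi (dd_continuous c Q hκ1) hB1 w
  have h4 : ∫ x, hV T ρ R n V x * DD c Q (1 / R ^ 100) (‖x - w‖ ^ 2) =
      (∫ x, hV T ρ R n V x * DD c Q (1 / L ^ 16) (‖x - w‖ ^ 2)) + Dw T c Q ρ L R n V w := by
    have e1 : Dw T c Q ρ L R n V w =
        (∫ x, hV T ρ R n V x * DD c Q (1 / R ^ 100) (‖x - w‖ ^ 2)) -
          ∫ x, hV T ρ R n V x * DD c Q (1 / L ^ 16) (‖x - w‖ ^ 2) := by
      unfold Dw
      rw [← integral_sub i2 i1]
      refine integral_congr_ae (Eventually.of_forall fun x => ?_)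
      show hV T ρ R n V x * (DD c Q (1 / R ^ 100) (‖x - w‖ ^ 2) -
        DD c Q (1 / L ^ 16) (‖x - w‖ ^ 2)) = _
      ring
    rw [e1]
    ring
  -- the main term
  have h5 := hk L R Λ T c Q hLk h V hV' w hw2
  have h6 := hb L R Λ T c Q hLb h w hw1 hw2 V hV' hfin hVy
  have hg := gv_facts T ρ n hV'
  have hd0 := dd_nonneg h.nonneg hκ1
  have h7 : ∫ x, gV T ρ n V x * DD c Q (1 / L ^ 16) (‖x - w‖ ^ 2) ≤
      Cb * Λ ^ 2 * (√(volume.real V) + volume.real V) := by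
    have ig := integrable_inner hg.2.2.2.2 (dd_continuous c Q hκ1) hB1 w
    have e0 : 0 ≤ Cb * Λ ^ 2 * (√(volume.real V) + volume.real V) := by
      have : 0 ≤ volume.real V := measureReal_nonneg
      positivity
    rw [← ENNReal.ofReal_le_ofReal_iff e0,
      ofReal_integral_eq_lintegral_ofReal ig
        (Eventually.of_forall fun x => mul_nonneg (hg.2.1 x) (hd0 _))]
    refine le_trans (lintegral_mono fun x => ?_) h6
    rw [ENNReal.ofReal_mul (hg.2.1 x), ENNReal.ofReal_mul (cut_nonneg ρ x), mul_right_comm]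
    exact mul_le_mul_left (gv_le T ρ n V x) _
  -- together
  have hπ : π⁻¹ ≤ 1 := by
    rw [inv_le_one₀ Real.pi_pos]
    linarith [Real.pi_gt_three]
  have hπ0 : 0 < π⁻¹ := inv_pos.2 Real.pi_pos
  have hmain0 : 0 ≤ ∫ x, hV T ρ R n V x * DD c Q (1 / L ^ 16) (‖x - w‖ ^ 2) :=
    integral_nonneg fun x => mul_nonneg (hh.2.1 x) (hd0 _)
  refine h1.trans ?_
  rw [← ENNReal.ofReal_add (by
    have : 0 ≤ volume.real V := measureReal_nonneg
    positivity) (abs_nonneg _)]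
  refine ENNReal.ofReal_le_ofReal ?_
  rw [h4, mul_add]
  have h8 : π⁻¹ * (∫ x, hV T ρ R n V x * DD c Q (1 / L ^ 16) (‖x - w‖ ^ 2)) ≤
      ∫ x, hV T ρ R n V x * DD c Q (1 / L ^ 16) (‖x - w‖ ^ 2) :=
    mul_le_of_le_one_left hmain0 hπ
  have h9 : π⁻¹ * Dw T c Q ρ L R n V w ≤ |Dw T c Q ρ L R n V w| := by
    refine (mul_le_mul_of_nonneg_left (le_abs_self _) hπ0.le).trans ?_
    exact mul_le_of_le_one_left (abs_nonneg _) hπ
  have h10 : 2 / R = 1 / R + 1 / R := by ring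
  linarith

theorem prop_one {ρ : ℝ} (hρ : 1 ≤ ρ) (n : ℕ) : ∃ C L₀ : ℝ, 0 < C ∧ ∀ (L R Λ : ℝ)
    (T : Finset ℕ) (c : ℕ → ℝ) (Q : ℕ), L₀ ≤ L → Maj L R Λ T c Q → ∀ A V : Set ℂ,
    MeasurableSet A → MeasurableSet V → volume A ≤ n → volume V ≤ n →
    (∀ w ∈ A, R ≤ ‖w‖ ∧ ‖w‖ ≤ 2 * R) → (∀ y ∈ V, L ^ 1500 ≤ ‖y‖ ∧ ‖y‖ ≤ 2 * R) →
    (∀ᵐ x : ℂ, SF T (ind A) x ≤ n) → (∀ᵐ x : ℂ, SF T (ind V) x ≤ n) →
    ∫⁻ x, ENNReal.ofReal (cut ρ x) * SF T (ind V) x * SF T (ind A) x ≤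
      ENNReal.ofReal (C * Λ ^ 2 * (√(volume.real V) + volume.real V) * volume.real A) +
        ENNReal.ofReal (1 / L ^ 3 * √(volume.real A)) + ENNReal.ofReal (Real.exp (-(L / 2))) := by
  obtain ⟨Cx, Lx, hCx, hx⟩ := x_smooth_gen hρ n
  obtain ⟨Cf, Lf, hCf, hf⟩ := fresnel (by linarith : 1 ≤ ρ + 2)
  obtain ⟨Cw, Lw, hCw, hw⟩ := one_w hρ n
  refine ⟨Cw, max (max 2 (2 * (Cx + 2 * √n))) (max Lx (max Lf (max Lw (2 * (√Cf * n))))), hCw,
    fun L R Λ T c Q hL h A V hA hV' hAn hVn hAw hVy hSA hSV => ?_⟩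
  have hL1 := (le_max_left _ _).trans hL
  have hL2 : 2 ≤ L := (le_max_left _ _).trans hL1
  have hLx2 : 2 * (Cx + 2 * √n) ≤ L := (le_max_right _ _).trans hL1
  have hLr := (le_max_right _ _).trans hL
  have hLx : Lx ≤ L := (le_max_left _ _).trans hLr
  have hLr2 := (le_max_right _ _).trans hLr
  have hLf : Lf ≤ L := (le_max_left _ _).trans hLr2
  have hLr3 := (le_max_right _ _).trans hLr2
  have hLw : Lw ≤ L := (le_max_left _ _).trans hLr3
  have hLc : 2 * (√Cf * n) ≤ L := (le_max_right _ _).trans hLr3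
  have hLL : 1 ≤ L := h.L1
  have hL0 : 0 < L := by linarith
  have hRl := h.Rl
  have hLR4 : L ^ 4 ≤ R := (pow_le_pow_right₀ hLL (by norm_num)).trans hRl
  have hLR : L ≤ R := by
    have h1 : L ^ 1 ≤ L ^ 4 := pow_le_pow_right₀ hLL (by norm_num)
    rw [pow_one] at h1
    exact h1.trans hLR4
  have hR1 : 1 ≤ R := hLL.trans hLR
  have hR0 : 0 < R := by linarith
  have hAfin : volume A ≠ ∞ := ne_top_of_le_ne_top (ENNReal.natCast_ne_top n) hAn
  have hVfin : volume V ≠ ∞ := ne_top_of_le_ne_top (ENNReal.natCast_ne_top n) hVn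
  have hg := gv_facts T ρ n hV'
  have hhf := hv_facts T hρ hR1 n hV'
  have hi := hv_int (T := T) hρ hR1 n hV'
  have ha0 : 0 ≤ volume.real A := measureReal_nonneg
  have hv0 : 0 ≤ volume.real V := measureReal_nonneg
  have han : volume.real A ≤ n := by
    have := ENNReal.toReal_mono (ENNReal.natCast_ne_top n) hAn
    rwa [ENNReal.toReal_natCast] at this
  -- step 1
  have h1 : ∫⁻ x, ENNReal.ofReal (cut ρ x) * SF T (ind V) x * SF T (ind A) x =
      ∫⁻ x, ENNReal.ofReal (gV T ρ n V x) * SF T (ind A) x := by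
    refine lintegral_congr_ae ?_
    filter_upwards [gv_eq (ρ := ρ) hSV] with x hx'
    rw [hx']
  have h2 := hx L R Λ T c Q hLx h A hA hAn hSA (gV T ρ n V) hg.1 hg.2.1 hg.2.2.1
    (fun x hx' => hg.2.2.2.1 x hx'.le)
  rw [h1]
  refine h2.trans ?_
  -- step 2
  set S : Set ℂ := {w : ℂ | R ≤ ‖w‖ ∧ ‖w‖ ≤ 2 * R} with hS
  have hSm : MeasurableSet S := by
    have e : S = (Metric.closedBall (0 : ℂ) (2 * R)) ∩ {w : ℂ | R ≤ ‖w‖} := by
      ext w
      rw [hS, Set.mem_setOf_eq, Set.mem_inter_iff, mem_closedBall_zero_iff, Set.mem_setOf_eq,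
        and_comm]
    rw [e]
    exact measurableSet_closedBall.inter (measurableSet_le measurable_const measurable_norm)
  have hSfin : volume S ≠ ∞ := by
    refine ne_top_of_le_ne_top (measure_closedBall_lt_top (x := (0 : ℂ)) (r := 2 * R)).ne
      (measure_mono fun w hw' => ?_)
    rw [mem_closedBall_zero_iff]
    exact hw'.2
  have hκ2 : 0 < 1 / R ^ 100 := by positivity
  have hκ1 : 0 < 1 / L ^ 16 := by positivity
  obtain ⟨B2, hB20, hB2⟩ := dd_bdd c Q hκ2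
  obtain ⟨B1, hB10, hB1⟩ := dd_bdd c Q hκ1
  have hdd : Continuous (fun t => DD c Q (1 / R ^ 100) t - DD c Q (1 / L ^ 16) t) :=
    (dd_continuous c Q hκ2).sub (dd_continuous c Q hκ1)
  have hddB : ∀ t, |DD c Q (1 / R ^ 100) t - DD c Q (1 / L ^ 16) t| ≤ B2 + B1 := fun t =>
    (abs_sub _ _).trans (add_le_add (hB2 t) (hB1 t))
  have hDm : Measurable (Dw T c Q ρ L R n V) :=
    measurable_inner (d := fun t => DD c Q (1 / R ^ 100) t - DD c Q (1 / L ^ 16) t) hhf.1 hdd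
  have hDb : ∀ w, |Dw T c Q ρ L R n V w| ≤ (B2 + B1) * ∫ x, |hV T ρ R n V x| :=
    abs_inner_le (d := fun t => DD c Q (1 / R ^ 100) t - DD c Q (1 / L ^ 16) t) hi hddB
  have h3 := cs_set hA hSm hAw hSfin hDm hDb
  have h4 := hf L R Λ T c Q hLf h (hV T ρ R n V) n hhf.1 (fun x => by
    rw [abs_of_nonneg (hhf.2.1 x)]
    exact hhf.2.2.1 x) (fun x hx' => hhf.2.2.2.1 x hx'.le)
  have h5 : √(∫ w in S, Dw T c Q ρ L R n V w ^ 2) ≤ 1 / 2 * (1 / L ^ 3) := by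
    have e1 : ∫ w in S, Dw T c Q ρ L R n V w ^ 2 ≤ Cf * n ^ 2 / L ^ 9 := h4
    have e2 : Cf * n ^ 2 / L ^ 9 ≤ (√Cf * n / L ^ 4) ^ 2 := by
      rw [div_pow, mul_pow, Real.sq_sqrt hCf.le, ← pow_mul]
      exact div_le_div_of_nonneg_left (by positivity) (by positivity)
        (pow_le_pow_right₀ hLL (by norm_num))
    have e3 : √(∫ w in S, Dw T c Q ρ L R n V w ^ 2) ≤ √Cf * n / L ^ 4 :=
      Real.sqrt_le_iff.2 ⟨by positivity, e1.trans e2⟩
    refine e3.trans ?_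
    rw [one_div_mul_one_div, div_le_div_iff₀ (by positivity) (by positivity), one_mul]
    calc √Cf * n * (2 * L ^ 3) = 2 * (√Cf * n) * L ^ 3 := by ring
      _ ≤ L * L ^ 3 := mul_le_mul_of_nonneg_right hLc (by positivity)
      _ = L ^ 4 := by ring
  set K0 := Cw * Λ ^ 2 * (√(volume.real V) + volume.real V) + 2 / R with hK0
  have hK00 : 0 ≤ K0 := by positivity
  have h6 : ∫⁻ w in A, SF T (fun x => ENNReal.ofReal (hV T ρ R n V x)) w ≤
      ENNReal.ofReal (K0 * volume.real A) +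
        ENNReal.ofReal (√(volume.real A) * (1 / 2 * (1 / L ^ 3))) := by
    have e1 : ∫⁻ w in A, SF T (fun x => ENNReal.ofReal (hV T ρ R n V x)) w ≤
        ∫⁻ w in A, (ENNReal.ofReal K0 + ENNReal.ofReal |Dw T c Q ρ L R n V w|) := by
      refine setLIntegral_mono' hA fun w hwA => ?_
      exact hw L R Λ T c Q hLw h V hV' hVfin hVy w (hAw w hwA).1 (hAw w hwA).2
    refine e1.trans ?_
    rw [lintegral_add_left measurable_const, setLIntegral_const]
    refine add_le_add (le_of_eq ?_) (h3.trans (ENNReal.ofReal_le_ofReal ?_))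
    · rw [ENNReal.ofReal_mul hK00, Measure.real, ENNReal.ofReal_toReal hAfin]
    · exact mul_le_mul_of_nonneg_left h5 (Real.sqrt_nonneg _)
  have h7 : √(volume.real A) * √(volume.real A) = volume.real A := Real.mul_self_sqrt ha0
  have h8 : √(volume.real A) ≤ √n := Real.sqrt_le_sqrt han
  have hs0 := Real.sqrt_nonneg (volume.real A)
  have h9 : (Cx + 2 * √n) / R ≤ 1 / 2 * (1 / L ^ 3) := by
    rw [one_div_mul_one_div, div_le_div_iff₀ hR0 (by positivity), one_mul]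
    calc (Cx + 2 * √n) * (2 * L ^ 3) = 2 * (Cx + 2 * √n) * L ^ 3 := by ring
      _ ≤ L * L ^ 3 := mul_le_mul_of_nonneg_right hLx2 (by positivity)
      _ = L ^ 4 := by ring
      _ ≤ R := hLR4
  have h10 : ENNReal.ofReal (Real.exp (-R)) ≤ ENNReal.ofReal (Real.exp (-(L / 2))) := by
    refine ENNReal.ofReal_le_ofReal (Real.exp_le_exp.2 ?_)
    linarith
  refine add_le_add ?_ h10
  have h11 : (∫⁻ w in A, SF T (fun x => ENNReal.ofReal (hh ρ R (gV T ρ n V) x)) w) +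
      ENNReal.ofReal (Cx * √(volume.real A) / R) ≤
      ENNReal.ofReal (K0 * volume.real A + √(volume.real A) * (1 / 2 * (1 / L ^ 3)) +
        Cx * √(volume.real A) / R) := by
    rw [ENNReal.ofReal_add (by positivity) (by positivity), ENNReal.ofReal_add (by positivity)
      (by positivity)]
    exact add_le_add h6 le_rfl
  refine h11.trans ?_
  rw [← ENNReal.ofReal_add (by positivity) (by positivity)]
  refine ENNReal.ofReal_le_ofReal ?_
  have h12 : 2 / R * volume.real A + Cx * √(volume.real A) / R ≤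
      1 / 2 * (1 / L ^ 3) * √(volume.real A) := by
    have e1 : volume.real A ≤ √n * √(volume.real A) := by
      have e0 := mul_le_mul_of_nonneg_right h8 hs0
      rwa [h7] at e0
    have e2 : 2 / R * volume.real A ≤ 2 / R * (√n * √(volume.real A)) :=
      mul_le_mul_of_nonneg_left e1 (by positivity)
    have e3 := mul_le_mul_of_nonneg_right h9 hs0
    have e4 : 2 / R * (√n * √(volume.real A)) + Cx * √(volume.real A) / R =
        (Cx + 2 * √n) / R * √(volume.real A) := by ring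
    linarith
  have h13 : K0 * volume.real A = Cw * Λ ^ 2 * (√(volume.real V) + volume.real V) *
      volume.real A + 2 / R * volume.real A := by
    rw [hK0]
    ring
  rw [h13]
  linarith

end Pool.Agent.Lib.SR
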