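import Pool.Agent.Lib.MP_b9430d_co.SR.Ebri
import Pool.Agent.Lib.MP_b9430d_co.SR.Env
import Pool.Agent.Lib.MP_b9430d_co.SR.PrO
import Pool.Agent.Lib.MP_b9430d_co.SR.Est
import Pool.Agent.Lib.MP_b9430d_co.SR.Econ
import Pool.Agent.Lib.MP_b9430d_co.Mom.Fin

/-!
# Eone: the bound for one shell

`χ = ofReal (cut ρ)`, `L = R ^ (1/10^5)`. `V = V₁ ∪ V₂`, `V₁ = V ∩ {‖y‖ < R ^ (1/64)}`, `V₂ = V ∩ {R ^ (1/64) ≤ ‖y‖}`;
`ST T (ind V) ≤ ST T (ind V₁) + ST T (ind V₂)` (`st_tsum` with `ι = Bool`, or `ind V ≤ ind V₁ + ind V₂`, `st_mono`; prove a private `st_add`).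
PART 1: `ST T (ind V₁) x ≤ SP (ind V₁) x` because `0 ∉ T` (termwise, `nq p = 0 ↔ p = 0`), `ST T (ind A) ≤ SS (ind A)`, and `near_var` with `U = V₁`:
`≤ (∫ χ SP (ind V₁)) |A| + η |A| + R⁻³`, `∫ χ SP (ind V₁) ≤ ∫_{closedBall 0 ρ} SS (ind V₁) ≤ (2ρ+1)² |V|` (`ball_mass`).
PART 2: `TF T R =: T'`. `st_le_sf` for `B = A` (`r₁ = R`, `r₂ = 2R`; `(R-ρ)² ≥ R^(1/32)/4`, `(2R+ρ)² ≤ 16 R²`) and `B = V₂` (`r₁ = R^(1/64)`, `r₂ = 2R`;
`(R^(1/64)-ρ)² ≥ R^(1/32)/4` as `R^(1/64) ≥ 2ρ`; `m ≥ 1` because `r₁ - ρ ≥ 1`) on `‖x‖ ≤ ρ`; outside `χ = 0`. Then `prop_one` with `bridge`: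
`SF T' (ind A) ≤ SS (ind A) ≤ n` a.e. (`sf_le_ss`, `ss_le`), `volume A ≤ volume E = n` (`vol_tile`), `L^1500 = R^(3/200) ≤ R^(1/64) ≤ ‖y‖`.
`exp (-(L/2)) + R⁻³ ≤ 1/R` for large `R`.
-/

set_option autoImplicit false

open MeasureTheory Complex Set Real Filter Topology
open scoped ENNReal

namespace Pool.Agent.Lib.SR

open Pool.MPb9430d Pool.MPb9430d.Rough Pool.MPb9430d.Frac Pool.MPb9430d.Mom

/-- For all large `R` there is a majorant of `rr` on `T` with constant `Λ R`. -/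
def HasMaj (T : Set ℕ) (Λ : ℝ → ℝ) : Prop :=
  (0 : ℕ) ∉ T ∧ ∃ R₁ : ℝ, ∀ R : ℝ, R₁ ≤ R → 1 ≤ Λ R ∧ Λ R ≤ R ^ (1 / 10 ^ 5 : ℝ) ∧
    ∃ g : ℕ → ℝ, NT.Maj T (R ^ (1 / 32 : ℝ) / 4) (16 * R ^ 2) (Λ R) ⌊R ^ (1 / 10 ^ 5 : ℝ)⌋₊ g

private theorem Eone_st_le_sp {T : Set ℕ} (h0 : (0 : ℕ) ∉ T) (g : ℂ → ℝ≥0∞) (y : ℂ) :
    NT.ST T g y ≤ SP g y := by
  unfold NT.ST SP
  refine mul_le_mul' le_rfl (lintegral_mono fun θ => ENNReal.tsum_le_tsum fun p => ?_)
  by_cases hp : p = 0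
  · have h1 : Pool.Agent.Lib.DG.nq p ∉ T := by
      rw [hp]
      exact h0
    rw [if_neg h1]
    exact zero_le
  · rw [if_neg hp]
    split_ifs
    · exact le_rfl
    · exact zero_le

private theorem Eone_st_add (T : Set ℕ) {f g : ℂ → ℝ≥0∞} (hf : Measurable f) (hg : Measurable g)
    (y : ℂ) : NT.ST T (fun x => f x + g x) y = NT.ST T f y + NT.ST T g y := by
  have h := st_tsum T (ι := Bool) (g := fun b x => bif b then g x else f x)
    (by intro b; cases b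
        · exact hf
        · exact hg) y
  simp only [tsum_bool, cond_true, cond_false] at h
  exact h

private theorem Eone_mass {V : Set ℂ} (hV : MeasurableSet V) {ρ : ℝ} (hρ : 1 ≤ ρ) :
    ∫⁻ x, ENNReal.ofReal (cut ρ x) * SP (ind V) x ≤
      ENNReal.ofReal ((2 * ρ + 1) ^ 2) * volume V := by
  have hB : MeasurableSet (Metric.closedBall (0 : ℂ) ρ) := Metric.isClosed_closedBall.measurableSet
  calc ∫⁻ x, ENNReal.ofReal (cut ρ x) * SP (ind V) x
      ≤ ∫⁻ x, (Metric.closedBall (0 : ℂ) ρ).indicator (SS (ind V)) x := by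
        refine lintegral_mono fun x => ?_
        by_cases h : x ∈ Metric.closedBall (0 : ℂ) ρ
        · rw [Set.indicator_of_mem h]
          calc ENNReal.ofReal (cut ρ x) * SP (ind V) x ≤ 1 * SS (ind V) x := by
                refine mul_le_mul' ?_ (sp_le_ss _ _)
                exact (ENNReal.ofReal_le_ofReal (cut_le_one ρ x)).trans
                  (le_of_eq ENNReal.ofReal_one)
            _ = SS (ind V) x := one_mul _
        · have h' := h
          rw [mem_closedBall_zero_iff, not_le] at h'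
          rw [cut_of_ge h'.le, ENNReal.ofReal_zero, zero_mul]
          exact zero_le
    _ = ∫⁻ x in Metric.closedBall 0 ρ, SS (ind V) x := lintegral_indicator hB _
    _ ≤ _ := ball_mass hV (by linarith)

private theorem Eone_TF {T : Set ℕ} {R ρ r₁ : ℝ} (hR : 1 ≤ R) (hρ : 1 ≤ ρ) (hρR : ρ ≤ 2 * R)
    (h2 : 2 * ρ ≤ R ^ (1 / 64 : ℝ)) (hr : R ^ (1 / 64 : ℝ) ≤ r₁) :
    ∀ m ∈ T, (r₁ - ρ) ^ 2 ≤ (m : ℝ) → (m : ℝ) ≤ (2 * R + ρ) ^ 2 → m ∈ TF T R := by
  intro m hm h3 h4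
  have e1 : (R ^ (1 / 64 : ℝ)) ^ 2 = R ^ (1 / 32 : ℝ) := by
    rw [← Real.rpow_natCast, ← Real.rpow_mul (by linarith)]
    norm_num
  have h5 : R ^ (1 / 64 : ℝ) / 2 ≤ r₁ - ρ := by linarith
  have h6 : (R ^ (1 / 64 : ℝ) / 2) ^ 2 ≤ (r₁ - ρ) ^ 2 := pow_le_pow_left₀ (by linarith) h5 2
  have h7 : (R ^ (1 / 64 : ℝ) / 2) ^ 2 = R ^ (1 / 32 : ℝ) / 4 := by
    rw [div_pow, e1]; norm_num
  rw [mem_TF, Finset.mem_Icc]
  refine ⟨⟨?_, ?_⟩, hm, by linarith⟩
  · have h8 : (1 : ℝ) ≤ m := by nlinarith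
    exact_mod_cast h8
  · apply Nat.le_floor
    nlinarith

private theorem Eone_ev (ρ L₀ : ℝ) : ∀ᶠ R : ℝ in atTop, 2 ≤ R ∧ 2 * ρ ≤ R ^ (1 / 64 : ℝ) ∧
    ρ ≤ 2 * R ∧ L₀ ≤ R ^ (1 / 10 ^ 5 : ℝ) ∧
    Real.exp (-(R ^ (1 / 10 ^ 5 : ℝ) / 2)) ≤ 1 / (2 * R) := by
  refine (eventually_ge_atTop 2).and (((tendsto_rpow_atTop (by norm_num)).eventually_ge_atTop
    (2 * ρ)).and ((eventually_ge_atTop (ρ / 2)).mono ?_ |>.and
      (((tendsto_rpow_atTop (by norm_num)).eventually_ge_atTop L₀).and ?_)))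
  · intro R h
    linarith
  · have h1 := tendsto_rpow_mul_exp_neg_mul_atTop_nhds_zero (10 ^ 5) (1 / 2) (by norm_num)
    have h2 : Tendsto (fun R : ℝ => R ^ (1 / 10 ^ 5 : ℝ)) atTop atTop :=
      tendsto_rpow_atTop (by norm_num)
    have h3 := (h1.comp h2).eventually_le_const (show (0 : ℝ) < 1 / 2 by norm_num)
    filter_upwards [h3, eventually_gt_atTop 0] with R h4 h5
    have e1 : (R ^ (1 / 10 ^ 5 : ℝ)) ^ (10 ^ 5 : ℝ) = R := by
      rw [← Real.rpow_mul h5.le]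
      norm_num
    rw [Function.comp_apply, e1] at h4
    rw [le_div_iff₀ (by linarith)]
    have e2 : -(1 / 2 : ℝ) * R ^ (1 / 10 ^ 5 : ℝ) = -(R ^ (1 / 10 ^ 5 : ℝ) / 2) := by ring
    rw [e2] at h4
    linarith

theorem one_shell {E : Set ℂ} {n : ℕ} (hE : MeasurableSet E) (hT : Tile E n) {ρ : ℝ}
    (hρ : 1 ≤ ρ) {T : Set ℕ} {Λ : ℝ → ℝ} (hM : HasMaj T Λ) : ∃ C : ℝ, 0 < C ∧ ∀ η : ℝ, 0 < η →
    ∃ R₁ : ℝ, 1 ≤ R₁ ∧ ∀ R : ℝ, R₁ ≤ R → ∀ A V : Set ℂ, MeasurableSet A → MeasurableSet V →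
    A ⊆ E → V ⊆ E → (∀ y ∈ A, R ≤ ‖y‖ ∧ ‖y‖ < 2 * R) → (∀ y ∈ V, ‖y‖ < 2 * R) →
    ∫⁻ x, ENNReal.ofReal (cut ρ x) * NT.ST T (ind V) x * NT.ST T (ind A) x ≤
      ENNReal.ofReal ((C * volume.real V + η) * volume.real A) +
      ENNReal.ofReal (C * Λ R ^ 2 * (√(volume.real (V ∩ {y | R ^ (1 / 64 : ℝ) ≤ ‖y‖})) +
        volume.real (V ∩ {y | R ^ (1 / 64 : ℝ) ≤ ‖y‖})) * volume.real A) +
      ENNReal.ofReal (√(volume.real A) / (R ^ (1 / 10 ^ 5 : ℝ)) ^ 3) + ENNReal.ofReal (1 / R) := by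
  obtain ⟨h0T, R₂, hR₂⟩ := hM
  obtain ⟨C₁, L₀, hC₁, hprop⟩ := prop_one hρ n
  obtain ⟨R₀, hR₀, hbr⟩ := bridge
  have hvol : volume E = n := vol_tile hE hT
  have hfin : volume E ≠ ∞ := by rw [hvol]; exact ENNReal.natCast_ne_top n
  have hP0 : 0 < (2 * ρ + 1) ^ 2 := by positivity
  refine ⟨C₁ + (2 * ρ + 1) ^ 2, by positivity, fun η hη => ?_⟩
  obtain ⟨R₃, hR₃, hnear⟩ := near_var hE hT hρ hη
  obtain ⟨R₄, hR₄⟩ := eventually_atTop.1 (Eone_ev ρ L₀)
  refine ⟨max (max R₂ R₀) (max R₃ R₄), hR₀.trans ((le_max_right _ _).trans (le_max_left _ _)),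
    fun R hR A V mA mV hAE hVE hAR hVR => ?_⟩
  have r2 : R₂ ≤ R := ((le_max_left _ _).trans (le_max_left _ _)).trans hR
  have r0 : R₀ ≤ R := ((le_max_right _ _).trans (le_max_left _ _)).trans hR
  have r3 : R₃ ≤ R := ((le_max_left _ _).trans (le_max_right _ _)).trans hR
  have r4 : R₄ ≤ R := ((le_max_right _ _).trans (le_max_right _ _)).trans hR
  obtain ⟨g1, g2, g3, g4, g5⟩ := hR₄ R r4
  obtain ⟨hΛ1, hΛL, g, hg⟩ := hR₂ R r2
  have hMaj := hbr T R (Λ R) g r0 hΛ1 hΛL hg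
  have hR1 : 1 ≤ R := by linarith
  have hR0 : 0 < R := by linarith
  obtain ⟨L, hLd⟩ : ∃ L : ℝ, L = R ^ (1 / 10 ^ 5 : ℝ) := ⟨_, rfl⟩
  obtain ⟨r, hrd⟩ : ∃ r : ℝ, r = R ^ (1 / 64 : ℝ) := ⟨_, rfl⟩
  have hL1500 : L ^ 1500 ≤ r := by
    rw [hLd, hrd, ← Real.rpow_natCast, ← Real.rpow_mul hR0.le]
    apply Real.rpow_le_rpow_of_exponent_le hR1
    norm_num
  have hrR : r ≤ R := by
    rw [hrd]
    calc R ^ (1 / 64 : ℝ) ≤ R ^ (1 : ℝ) := Real.rpow_le_rpow_of_exponent_le hR1 (by norm_num)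
      _ = R := Real.rpow_one R
  obtain ⟨V₁, hV₁d⟩ : ∃ V₁ : Set ℂ, V₁ = V ∩ {y | ‖y‖ < R ^ (1 / 64 : ℝ)} := ⟨_, rfl⟩
  obtain ⟨V₂, hV₂d⟩ : ∃ V₂ : Set ℂ, V₂ = V ∩ {y | R ^ (1 / 64 : ℝ) ≤ ‖y‖} := ⟨_, rfl⟩
  have mV₁ : MeasurableSet V₁ := by
    rw [hV₁d]; exact mV.inter (measurableSet_lt measurable_norm measurable_const)
  have mV₂ : MeasurableSet V₂ := by
    rw [hV₂d]; exact mV.inter (measurableSet_le measurable_const measurable_norm)
  have hV₁V : V₁ ⊆ V := by rw [hV₁d]; exact Set.inter_subset_left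
  have hV₂V : V₂ ⊆ V := by rw [hV₂d]; exact Set.inter_subset_left
  have hc : Measurable (fun x => ENNReal.ofReal (cut ρ x)) :=
    (continuous_cut ρ).measurable.ennreal_ofReal
  rw [← hV₂d, ← hLd]
  -- splitting
  have hsplit : ∀ x, NT.ST T (ind V) x ≤ NT.ST T (ind V₁) x + NT.ST T (ind V₂) x := by
    intro x
    rw [← Eone_st_add T (measurable_ind mV₁) (measurable_ind mV₂)]
    refine st_mono T (fun y => ?_) x
    by_cases hy : y ∈ V
    · rw [ind_of_mem hy]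
      rcases lt_or_ge ‖y‖ (R ^ (1 / 64 : ℝ)) with h | h
      · rw [ind_of_mem (show y ∈ V₁ by rw [hV₁d]; exact ⟨hy, h⟩)]
        exact le_self_add
      · rw [ind_of_mem (show y ∈ V₂ by rw [hV₂d]; exact ⟨hy, h⟩), add_comm]
        exact le_self_add
    · rw [ind_of_notMem hy]
      exact zero_le
  have hint : ∫⁻ x, ENNReal.ofReal (cut ρ x) * NT.ST T (ind V) x * NT.ST T (ind A) x ≤
      (∫⁻ x, ENNReal.ofReal (cut ρ x) * NT.ST T (ind V₁) x * NT.ST T (ind A) x) +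
      ∫⁻ x, ENNReal.ofReal (cut ρ x) * NT.ST T (ind V₂) x * NT.ST T (ind A) x := by
    have k1 : Measurable
        (fun x => ENNReal.ofReal (cut ρ x) * NT.ST T (ind V₁) x * NT.ST T (ind A) x) :=
      (hc.mul (measurable_ST T (measurable_ind mV₁))).mul (measurable_ST T (measurable_ind mA))
    rw [← lintegral_add_left k1]
    refine lintegral_mono fun x => ?_
    calc ENNReal.ofReal (cut ρ x) * NT.ST T (ind V) x * NT.ST T (ind A) x
        ≤ ENNReal.ofReal (cut ρ x) * (NT.ST T (ind V₁) x + NT.ST T (ind V₂) x) *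
          NT.ST T (ind A) x := mul_le_mul' (mul_le_mul' le_rfl (hsplit x)) le_rfl
      _ = _ := by ring
  -- volumes
  have hAfin : volume A ≠ ∞ := ne_top_of_le_ne_top hfin (measure_mono hAE)
  have hVfin : volume V ≠ ∞ := ne_top_of_le_ne_top hfin (measure_mono hVE)
  have hAof : volume A = ENNReal.ofReal (volume.real A) := (ofReal_measureReal hAfin).symm
  have hVof : volume V = ENNReal.ofReal (volume.real V) := (ofReal_measureReal hVfin).symm
  have hAn : volume A ≤ n := by rw [← hvol]; exact measure_mono hAE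
  have hVn : volume V₂ ≤ n := by rw [← hvol]; exact measure_mono (hV₂V.trans hVE)
  -- first part
  have hP1 : ∫⁻ x, ENNReal.ofReal (cut ρ x) * NT.ST T (ind V₁) x * NT.ST T (ind A) x ≤
      ENNReal.ofReal (((C₁ + (2 * ρ + 1) ^ 2) * volume.real V + η) * volume.real A) +
        ENNReal.ofReal (R ^ (-3 : ℝ)) := by
    calc _ ≤ ∫⁻ x, ENNReal.ofReal (cut ρ x) * SP (ind V₁) x * SS (ind A) x := by
          refine lintegral_mono fun x => ?_
          exact mul_le_mul' (mul_le_mul' le_rfl (Eone_st_le_sp h0T _ x)) (st_le_ss T _ x)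
      _ ≤ (∫⁻ x, ENNReal.ofReal (cut ρ x) * SP (ind V₁) x) * volume A +
          ENNReal.ofReal η * volume A + ENNReal.ofReal (R ^ (-3 : ℝ)) :=
          hnear R r3 A V₁ mA hAE (fun y hy => (hAR y hy).1) mV₁ (hV₁V.trans hVE)
            (fun y hy => by
              rw [hV₁d] at hy
              exact le_of_lt hy.2)
      _ ≤ ENNReal.ofReal ((2 * ρ + 1) ^ 2) * volume V * volume A +
          ENNReal.ofReal η * volume A + ENNReal.ofReal (R ^ (-3 : ℝ)) := by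
          refine add_le_add (add_le_add (mul_le_mul' ?_ le_rfl) le_rfl) le_rfl
          exact (Eone_mass mV₁ hρ).trans (mul_le_mul' le_rfl (measure_mono hV₁V))
      _ ≤ _ := by
          refine add_le_add ?_ le_rfl
          rw [hAof, hVof, ← ENNReal.ofReal_mul hP0.le,
            ← ENNReal.ofReal_mul (mul_nonneg hP0.le measureReal_nonneg),
            ← ENNReal.ofReal_mul hη.le,
            ← ENNReal.ofReal_add
              (mul_nonneg (mul_nonneg hP0.le measureReal_nonneg) measureReal_nonneg)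
              (mul_nonneg hη.le measureReal_nonneg)]
          apply ENNReal.ofReal_le_ofReal
          have h1 : 0 ≤ C₁ * volume.real V * volume.real A :=
            mul_nonneg (mul_nonneg hC₁.le measureReal_nonneg) measureReal_nonneg
          nlinarith
  -- second part
  have hP2 : ∫⁻ x, ENNReal.ofReal (cut ρ x) * NT.ST T (ind V₂) x * NT.ST T (ind A) x ≤
      ENNReal.ofReal (C₁ * Λ R ^ 2 * (√(volume.real V₂) + volume.real V₂) * volume.real A) +
        ENNReal.ofReal (1 / L ^ 3 * √(volume.real A)) + ENNReal.ofReal (Real.exp (-(L / 2))) := by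
    calc _ ≤ ∫⁻ x, ENNReal.ofReal (cut ρ x) * SF (TF T R) (ind V₂) x * SF (TF T R) (ind A) x := by
          refine lintegral_mono fun x => ?_
          by_cases hx : ‖x‖ ≤ ρ
          · refine mul_le_mul' (mul_le_mul' le_rfl ?_) ?_
            · refine st_le_sf mV₂ (r₁ := R ^ (1 / 64 : ℝ)) (r₂ := 2 * R) (by linarith)
                (by linarith) ?_ (Eone_TF hR1 hρ g3 g2 le_rfl) hx
              intro y hy
              rw [hV₂d] at hy
              exact ⟨hy.2, (hVR y hy.1).le⟩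
            · refine st_le_sf mA (r₁ := R) (r₂ := 2 * R) (by linarith)
                (by rw [hrd] at hrR; linarith) ?_
                (Eone_TF hR1 hρ g3 g2 (by rw [hrd] at hrR; exact hrR)) hx
              intro y hy
              exact ⟨(hAR y hy).1, (hAR y hy).2.le⟩
          · push Not at hx
            rw [cut_of_ge hx.le, ENNReal.ofReal_zero, zero_mul, zero_mul]
            exact zero_le
      _ ≤ _ := by
          rw [hLd]
          refine hprop (R ^ (1 / 10 ^ 5 : ℝ)) R (Λ R) (TF T R) g _ g4 hMaj A V₂ mA mV₂ hAn hVn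
            (fun w hw => ⟨(hAR w hw).1, (hAR w hw).2.le⟩) (fun y hy => ?_) ?_ ?_
          · rw [← hLd]
            rw [hV₂d] at hy
            have h1 : R ^ (1 / 64 : ℝ) ≤ ‖y‖ := hy.2
            rw [← hrd] at h1
            exact ⟨hL1500.trans h1, (hVR y hy.1).le⟩
          · filter_upwards [ss_le hE hT hAE] with x hx
            exact (sf_le_ss _ (measurable_ind mA) x).trans hx
          · filter_upwards [ss_le hE hT (hV₂V.trans hVE)] with x hx
            exact (sf_le_ss _ (measurable_ind mV₂) x).trans hx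
  -- the small terms
  have hR3 : R ^ (-3 : ℝ) ≤ 1 / (2 * R) := by
    rw [show (-3 : ℝ) = -((3 : ℕ) : ℝ) by norm_num, Real.rpow_neg hR0.le, Real.rpow_natCast,
      ← one_div]
    apply one_div_le_one_div_of_le (by positivity)
    nlinarith [mul_pos hR0 hR0]
  have hsmall : ENNReal.ofReal (R ^ (-3 : ℝ)) + ENNReal.ofReal (Real.exp (-(L / 2))) ≤
      ENNReal.ofReal (1 / R) := by
    rw [← ENNReal.ofReal_add (Real.rpow_nonneg hR0.le _) (Real.exp_pos _).le]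
    apply ENNReal.ofReal_le_ofReal
    rw [hLd]
    have : 1 / (2 * R) + 1 / (2 * R) = 1 / R := by field_simp; norm_num
    linarith
  have hP2' : ENNReal.ofReal
      (C₁ * Λ R ^ 2 * (√(volume.real V₂) + volume.real V₂) * volume.real A) ≤
      ENNReal.ofReal ((C₁ + (2 * ρ + 1) ^ 2) * Λ R ^ 2 *
        (√(volume.real V₂) + volume.real V₂) * volume.real A) := by
    apply ENNReal.ofReal_le_ofReal
    have h1 : 0 ≤ √(volume.real V₂) + volume.real V₂ :=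
      add_nonneg (Real.sqrt_nonneg _) measureReal_nonneg
    have h2 : 0 ≤ volume.real A := measureReal_nonneg
    gcongr
    linarith
  have hP3 : (1 / L ^ 3 * √(volume.real A)) = √(volume.real A) / L ^ 3 := by ring
  rw [hP3] at hP2
  calc _ ≤ _ := hint
    _ ≤ (ENNReal.ofReal (((C₁ + (2 * ρ + 1) ^ 2) * volume.real V + η) * volume.real A) +
        ENNReal.ofReal (R ^ (-3 : ℝ))) +
        (ENNReal.ofReal ((C₁ + (2 * ρ + 1) ^ 2) * Λ R ^ 2 *
          (√(volume.real V₂) + volume.real V₂) * volume.real A) +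
        ENNReal.ofReal (√(volume.real A) / L ^ 3) + ENNReal.ofReal (Real.exp (-(L / 2)))) :=
        add_le_add hP1 (hP2.trans (add_le_add (add_le_add hP2' le_rfl) le_rfl))
    _ = ENNReal.ofReal (((C₁ + (2 * ρ + 1) ^ 2) * volume.real V + η) * volume.real A) +
        ENNReal.ofReal ((C₁ + (2 * ρ + 1) ^ 2) * Λ R ^ 2 *
          (√(volume.real V₂) + volume.real V₂) * volume.real A) +
        ENNReal.ofReal (√(volume.real A) / L ^ 3) +
        (ENNReal.ofReal (R ^ (-3 : ℝ)) + ENNReal.ofReal (Real.exp (-(L / 2)))) := by ring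
    _ ≤ _ := add_le_add le_rfl hsmall

end Pool.Agent.Lib.SR
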