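import Pool.Agent.Lib.MP_b9430d_co.SR.Est

/-!
# Eshe: decomposition into dyadic shells

`A_j = A ∩ {2^j ≤ ‖y‖ < 2^(j+1)}`, `V_j` the same. As `‖y‖ ≥ 1` on `V ⊇ A`, `ind V = ∑' i, ind (V_i)` and `ST T (ind V) = ∑' i, ST T (ind (V_i))` (`st_tsum`), the same for `A`.
So the left side is `∑' j, ∑' i, J(V_i, A_j)` with `J(B, B') = ∫⁻ χ ST T (ind B) ST T (ind B')`. Pairs with `i ≤ j`: the sum over `i ≤ j` is
`J(V ∩ {‖y‖ < 2^(j+1)}, A_j)`. Pairs with `i > j`: if `A_j` is empty the term is `0`; otherwise there is `w ∈ A_j`, `R₀ ≤ ‖w‖ < 2^(j+1) ≤ 2^i`, so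
`V_i ⊆ A_i` (`hVA`), and `A_j ⊆ V_j`: `J(V_i, A_j) ≤ J(A_i, V_j) = J(V_j, A_i)`; the sum over `j < i` is at most
`J(V ∩ {‖y‖ < 2^(i+1)}, A_i)`. Together `≤ 2 ∑' j`.
-/

set_option autoImplicit false

open MeasureTheory Complex Set Real Filter Topology
open scoped ENNReal

namespace Pool.Agent.Lib.SR

open Pool.MPb9430d Pool.MPb9430d.Rough Pool.MPb9430d.Frac Pool.MPb9430d.Mom

private theorem Eshe_mono {U W : Set ℂ} (h : U ⊆ W) (x : ℂ) : ind U x ≤ ind W x := by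
  by_cases hx : x ∈ U
  · rw [ind_of_mem hx, ind_of_mem (h hx)]
  · rw [ind_of_notMem hx]
    exact zero_le

private theorem Eshe_empty (T : Set ℕ) (x : ℂ) : NT.ST T (ind ∅) x = 0 := by
  have h0 : ∀ y : ℂ, ind ∅ y = 0 := fun y => ind_of_notMem (Set.notMem_empty y)
  unfold NT.ST
  simp only [h0, ite_self, tsum_zero, lintegral_zero, mul_zero]

private theorem Eshe_dec {W : Set ℂ} (hW1 : ∀ y ∈ W, 1 ≤ ‖y‖) :
    ind W = fun y => ∑' i : ℕ, ind (W ∩ {y | (2 : ℝ) ^ i ≤ ‖y‖ ∧ ‖y‖ < 2 ^ (i + 1)}) y := by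
  funext y
  by_cases hy : y ∈ W
  · obtain ⟨k, hk1, hk2⟩ := exists_nat_pow_near (hW1 y hy) (one_lt_two : (1 : ℝ) < 2)
    rw [ind_of_mem hy, tsum_eq_single k]
    · exact (ind_of_mem (show y ∈ W ∩ {y | (2 : ℝ) ^ k ≤ ‖y‖ ∧ ‖y‖ < 2 ^ (k + 1)} from
        ⟨hy, hk1, hk2⟩)).symm
    · intro i hi
      apply ind_of_notMem
      rintro ⟨_, hi1, hi2⟩
      apply hi
      have h1 : (2 : ℝ) ^ i < 2 ^ (k + 1) := lt_of_le_of_lt hi1 hk2
      have h2 : (2 : ℝ) ^ k < 2 ^ (i + 1) := lt_of_le_of_lt hk1 hi2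
      have h3 : i < k + 1 := (pow_lt_pow_iff_right₀ (one_lt_two : (1 : ℝ) < 2)).1 h1
      have h4 : k < i + 1 := (pow_lt_pow_iff_right₀ (one_lt_two : (1 : ℝ) < 2)).1 h2
      omega
  · rw [ind_of_notMem hy]
    symm
    rw [ENNReal.tsum_eq_zero]
    intro i
    exact ind_of_notMem (fun h => hy h.1)

private theorem Eshe_meas (i : ℕ) : MeasurableSet {y : ℂ | (2 : ℝ) ^ i ≤ ‖y‖ ∧ ‖y‖ < 2 ^ (i + 1)} :=
  (measurableSet_le measurable_const measurable_norm).inter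
    (measurableSet_lt measurable_norm measurable_const)

private theorem Eshe_tsum {a b : ℕ → ℝ≥0∞} (h : ∀ i j : ℕ, j < i → a i * b j ≤ a j * b i) :
    (∑' i, a i) * (∑' j, b j) ≤ 2 * ∑' j, (∑ i ∈ Finset.range (j + 1), a i) * b j := by
  have e1 : (∑' i, a i) * (∑' j, b j) = ∑' j, ∑' i, a i * b j := by
    rw [← ENNReal.tsum_mul_left]
    refine tsum_congr fun j => ?_
    rw [ENNReal.tsum_mul_right]
  have e2 : ∀ j, (∑ i ∈ Finset.range (j + 1), a i) * b j =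
      ∑' i, (if i ≤ j then a i * b j else 0) := by
    intro j
    rw [tsum_eq_sum (s := Finset.range (j + 1))]
    · rw [Finset.sum_mul]
      refine Finset.sum_congr rfl fun i hi => ?_
      rw [Finset.mem_range] at hi
      rw [if_pos (by omega)]
    · intro i hi
      rw [Finset.mem_range] at hi
      rw [if_neg (by omega)]
  have e3 : ∑' j, ∑' i, a i * b j =
      (∑' j, ∑' i, (if i ≤ j then a i * b j else 0)) +
        ∑' j, ∑' i, (if j < i then a i * b j else 0) := by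
    rw [← ENNReal.tsum_add]
    refine tsum_congr fun j => ?_
    rw [← ENNReal.tsum_add]
    refine tsum_congr fun i => ?_
    by_cases hij : i ≤ j
    · rw [if_pos hij, if_neg (by omega), add_zero]
    · rw [if_neg hij, if_pos (by omega), zero_add]
  have e4 : ∑' j, ∑' i, (if j < i then a i * b j else 0) ≤
      ∑' j, ∑' i, (if i ≤ j then a i * b j else 0) := by
    calc ∑' j, ∑' i, (if j < i then a i * b j else 0) ≤
        ∑' j, ∑' i, (if j < i then a j * b i else 0) := by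
          refine ENNReal.tsum_le_tsum fun j => ENNReal.tsum_le_tsum fun i => ?_
          split_ifs with hij
          · exact h i j hij
          · exact le_refl _
      _ = ∑' i, ∑' j, (if j < i then a j * b i else 0) := ENNReal.tsum_comm
      _ ≤ ∑' j, ∑' i, (if i ≤ j then a i * b j else 0) := by
          refine ENNReal.tsum_le_tsum fun j => ENNReal.tsum_le_tsum fun i => ?_
          by_cases hij : i < j
          · rw [if_pos hij, if_pos hij.le]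
          · rw [if_neg hij]
            exact zero_le
  rw [e1, e3, two_mul]
  simp only [e2]
  exact add_le_add (le_refl _) e4

theorem shells {V A : Set ℂ} (hV : MeasurableSet V) (hA : MeasurableSet A) (hAV : A ⊆ V)
    (T : Set ℕ) {ρ R₀ : ℝ} (hV1 : ∀ y ∈ V, 1 ≤ ‖y‖) (hAR : ∀ y ∈ A, R₀ ≤ ‖y‖)
    (hVA : ∀ y ∈ V, R₀ ≤ ‖y‖ → y ∈ A) :
    ∫⁻ x, ENNReal.ofReal (cut ρ x) * NT.ST T (ind V) x * NT.ST T (ind A) x ≤
      2 * ∑' j : ℕ, ∫⁻ x, ENNReal.ofReal (cut ρ x) *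
        NT.ST T (ind (V ∩ {y | ‖y‖ < 2 ^ (j + 1)})) x *
        NT.ST T (ind (A ∩ {y | (2 : ℝ) ^ j ≤ ‖y‖ ∧ ‖y‖ < 2 ^ (j + 1)})) x := by
  have hWm : ∀ j : ℕ, MeasurableSet (V ∩ {y : ℂ | ‖y‖ < 2 ^ (j + 1)}) := fun j =>
    hV.inter (measurableSet_lt measurable_norm measurable_const)
  have hcut : Measurable (fun x : ℂ => ENNReal.ofReal (cut ρ x)) := by
    unfold cut
    fun_prop
  have hST : ∀ (W : Set ℂ), MeasurableSet W → (∀ y ∈ W, 1 ≤ ‖y‖) → ∀ x,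
      NT.ST T (ind W) x =
        ∑' i : ℕ, NT.ST T (ind (W ∩ {y | (2 : ℝ) ^ i ≤ ‖y‖ ∧ ‖y‖ < 2 ^ (i + 1)})) x := by
    intro W hW hW1 x
    conv_lhs => rw [Eshe_dec hW1]
    exact st_tsum T (fun i => measurable_ind (hW.inter (Eshe_meas i))) x
  have hpt : ∀ x, NT.ST T (ind V) x * NT.ST T (ind A) x ≤
      2 * ∑' j : ℕ, NT.ST T (ind (V ∩ {y | ‖y‖ < 2 ^ (j + 1)})) x *
        NT.ST T (ind (A ∩ {y | (2 : ℝ) ^ j ≤ ‖y‖ ∧ ‖y‖ < 2 ^ (j + 1)})) x := by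
    intro x
    rw [hST V hV hV1 x, hST A hA (fun y hy => hV1 y (hAV hy)) x]
    refine (Eshe_tsum ?_).trans ?_
    · intro i j hij
      by_cases hne : (A ∩ {y | (2 : ℝ) ^ j ≤ ‖y‖ ∧ ‖y‖ < 2 ^ (j + 1)}).Nonempty
      · obtain ⟨w, hwA, hw1, hw2⟩ := hne
        have h1 : V ∩ {y | (2 : ℝ) ^ i ≤ ‖y‖ ∧ ‖y‖ < 2 ^ (i + 1)} ⊆
            A ∩ {y | (2 : ℝ) ^ i ≤ ‖y‖ ∧ ‖y‖ < 2 ^ (i + 1)} := by
          rintro y ⟨hyV, hy1, hy2⟩
          refine ⟨hVA y hyV ?_, hy1, hy2⟩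
          have h2 : (2 : ℝ) ^ (j + 1) ≤ 2 ^ i := pow_le_pow_right₀ one_le_two hij
          linarith [hAR w hwA]
        have h2 : A ∩ {y | (2 : ℝ) ^ j ≤ ‖y‖ ∧ ‖y‖ < 2 ^ (j + 1)} ⊆
            V ∩ {y | (2 : ℝ) ^ j ≤ ‖y‖ ∧ ‖y‖ < 2 ^ (j + 1)} := fun y hy => ⟨hAV hy.1, hy.2⟩
        rw [mul_comm (NT.ST T (ind (V ∩ {y | (2 : ℝ) ^ j ≤ ‖y‖ ∧ ‖y‖ < 2 ^ (j + 1)})) x)]
        exact mul_le_mul' (st_mono T (Eshe_mono h1) x) (st_mono T (Eshe_mono h2) x)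
      · rw [Set.not_nonempty_iff_eq_empty] at hne
        rw [hne, Eshe_empty, mul_zero]
        exact zero_le
    · refine mul_le_mul' (le_refl _) (ENNReal.tsum_le_tsum fun j => mul_le_mul' ?_ (le_refl _))
      rw [hST _ (hWm j) (fun y hy => hV1 y hy.1) x]
      refine le_trans (le_of_eq ?_) (ENNReal.sum_le_tsum (Finset.range (j + 1)))
      refine Finset.sum_congr rfl fun i hi => ?_
      rw [Finset.mem_range] at hi
      have h3 : V ∩ {y : ℂ | ‖y‖ < 2 ^ (j + 1)} ∩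
          {y : ℂ | (2 : ℝ) ^ i ≤ ‖y‖ ∧ ‖y‖ < 2 ^ (i + 1)} =
          V ∩ {y : ℂ | (2 : ℝ) ^ i ≤ ‖y‖ ∧ ‖y‖ < 2 ^ (i + 1)} := by
        ext y
        constructor
        · rintro ⟨⟨h4, _⟩, h5⟩
          exact ⟨h4, h5⟩
        · rintro ⟨h4, h5, h6⟩
          refine ⟨⟨h4, lt_of_lt_of_le h6 ?_⟩, h5, h6⟩
          exact pow_le_pow_right₀ one_le_two (by omega)
      rw [h3]
  calc ∫⁻ x, ENNReal.ofReal (cut ρ x) * NT.ST T (ind V) x * NT.ST T (ind A) x ≤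
      ∫⁻ x, 2 * ∑' j : ℕ, ENNReal.ofReal (cut ρ x) *
        NT.ST T (ind (V ∩ {y | ‖y‖ < 2 ^ (j + 1)})) x *
        NT.ST T (ind (A ∩ {y | (2 : ℝ) ^ j ≤ ‖y‖ ∧ ‖y‖ < 2 ^ (j + 1)})) x := by
        refine lintegral_mono fun x => ?_
        rw [mul_assoc]
        refine (mul_le_mul' (le_refl _) (hpt x)).trans (le_of_eq ?_)
        rw [mul_left_comm, ← ENNReal.tsum_mul_left]
        simp only [mul_assoc]
    _ = 2 * ∑' j : ℕ, ∫⁻ x, ENNReal.ofReal (cut ρ x) *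
        NT.ST T (ind (V ∩ {y | ‖y‖ < 2 ^ (j + 1)})) x *
        NT.ST T (ind (A ∩ {y | (2 : ℝ) ^ j ≤ ‖y‖ ∧ ‖y‖ < 2 ^ (j + 1)})) x := by
        have hm : ∀ j : ℕ, Measurable (fun x : ℂ => ENNReal.ofReal (cut ρ x) *
            NT.ST T (ind (V ∩ {y | ‖y‖ < 2 ^ (j + 1)})) x *
            NT.ST T (ind (A ∩ {y | (2 : ℝ) ^ j ≤ ‖y‖ ∧ ‖y‖ < 2 ^ (j + 1)})) x) := fun j =>
          (hcut.mul (measurable_ST T (measurable_ind (hWm j)))).mul
            (measurable_ST T (measurable_ind (hA.inter (Eshe_meas j))))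
        rw [lintegral_const_mul _ (Measurable.tsum hm),
          lintegral_tsum (fun j => (hm j).aemeasurable)]

end Pool.Agent.Lib.SR
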