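import Pool.Agent.Lib.MP_b9430d_co.SR.Eone
import Pool.Agent.Lib.MP_b9430d_co.SR.Eshe

/-!
# Esta: sum over the shells

`M R = volume.real (E ∩ {R ≤ ‖y‖})`, `a = volume.real A = M R₀`, `L₀ = R₀ ^ (1/10^5)`, so `a ≥ 1/L₀` (hypothesis). `shells` (`V`, `A` satisfy its hypotheses:
`R₀ ^ (1/64) ≤ R₀`) reduces to `2 ∑' j, J_j` with `A_j = A ∩ {2^j ≤ ‖y‖ < 2^(j+1)}`, `V_{≤ j}`. If `2^(j+1) ≤ R₀` then `A_j = ∅` and `J_j = 0`. Otherwise
`R = 2^j > R₀/2` is large and `one_shell` gives, with `a_j = |A_j|`, `∑ a_j = a` and `|V| ≤ M (R₀^(1/64))`: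
`J_j ≤ (C M(R₀^(1/64)) + η₁) a_j + C B(2^j) a_j + √a_j / L_j³ + 2^(-j)`, `B R = Λ R ² (√(M (R^(1/64))) + M (R^(1/64))) → 0` (hypothesis `hB`;
`|V_{≤j} ∩ {R^(1/64) ≤ ‖y‖}| ≤ M (R^(1/64))`, monotone). As `Λ ≥ 1`, also `M (R^(1/64)) → 0`. `L_j = 2^(j/10^5)`. Cauchy-Schwarz:
`∑_{2^(j+1) > R₀} √a_j / L_j³ ≤ √a (∑ L_j^(-6))^(1/2) ≤ √a C' L₀^(-3) ≤ C' L₀^(-2.5) a` (geometric series of ratio `2^(-6/10^5)`), or simpler
`√a_j ≤ √a` and `∑_{2^(j+1) > R₀} L_j^(-3) ≤ C' L₀^(-3)`. `∑ 2^(-j) ≤ 4/R₀ ≤ η₁ a`. Everything is `≤ η a` for `R₀ ≥ R₃`.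
-/

set_option autoImplicit false

open MeasureTheory Complex Set Real Filter Topology
open scoped ENNReal

namespace Pool.Agent.Lib.SR

open Pool.MPb9430d Pool.MPb9430d.Rough Pool.MPb9430d.Frac Pool.MPb9430d.Mom

private theorem Esta_empty (T : Set ℕ) (x : ℂ) : NT.ST T (ind ∅) x = 0 := by
  have h0 : ∀ y : ℂ, ind ∅ y = 0 := fun y => ind_of_notMem (Set.notMem_empty y)
  unfold NT.ST
  simp only [h0, ite_self, tsum_zero, lintegral_zero, mul_zero]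

private theorem Esta_pow (c : ℝ) (j : ℕ) : ((2 : ℝ) ^ j) ^ c = ((2 : ℝ) ^ c) ^ j := by
  rw [← Real.rpow_natCast 2 j, ← Real.rpow_natCast ((2 : ℝ) ^ c) j, ← Real.rpow_mul (by norm_num),
    ← Real.rpow_mul (by norm_num), mul_comm]

private theorem Esta_q0 {c : ℝ} : 0 < ((((2 : ℝ) ^ c) ^ 3)⁻¹ : ℝ) := by positivity

private theorem Esta_q1 {c : ℝ} (hc : 0 < c) : ((((2 : ℝ) ^ c) ^ 3)⁻¹ : ℝ) < 1 := by
  apply inv_lt_one_of_one_lt₀
  exact one_lt_pow₀ (Real.one_lt_rpow one_lt_two hc) three_ne_zero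

private theorem Esta_key {c R a : ℝ} (hc : 0 < c) (hR : 4 ≤ R) (ha : R ^ (-c) ≤ a) :
    R ^ c ≤ ((R / 2) ^ c) ^ 3 * √a := by
  have hR0 : 0 < R := by linarith
  have h1 : √R ≤ R / 2 := by
    have h2 : (2 : ℝ) ≤ √R := by
      rw [show (2 : ℝ) = √(2 ^ 2) by rw [Real.sqrt_sq (by norm_num)]]
      exact Real.sqrt_le_sqrt (by linarith)
    have h3 := Real.mul_self_sqrt hR0.le
    nlinarith
  have h2 : R ^ (c / 2) ≤ (R / 2) ^ c := by
    have h3 : R ^ (c / 2) = (√R) ^ c := by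
      rw [Real.sqrt_eq_rpow, ← Real.rpow_mul hR0.le]
      congr 1
      ring
    rw [h3]
    exact Real.rpow_le_rpow (Real.sqrt_nonneg _) h1 hc.le
  have h3 : R ^ (-(c / 2)) ≤ √a := by
    have h4 : R ^ (-(c / 2)) = √(R ^ (-c)) := by
      rw [Real.sqrt_eq_rpow, ← Real.rpow_mul hR0.le]
      congr 1
      ring
    rw [h4]
    exact Real.sqrt_le_sqrt ha
  calc R ^ c = (R ^ (c / 2)) ^ 3 * R ^ (-(c / 2)) := by
        rw [← Real.rpow_natCast (R ^ (c / 2)) 3, ← Real.rpow_mul hR0.le, ← Real.rpow_add hR0]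
        congr 1
        push_cast
        ring
    _ ≤ ((R / 2) ^ c) ^ 3 * √a := by
        apply mul_le_mul (pow_le_pow_left₀ (by positivity) h2 3) h3 (by positivity) (by positivity)

theorem star {E : Set ℂ} {n : ℕ} (hE : MeasurableSet E) (hT : Tile E n) {ρ : ℝ}
    (hρ : 1 ≤ ρ) {T : Set ℕ} {Λ : ℝ → ℝ} (hM : HasMaj T Λ)
    (hB : Tendsto (fun R : ℝ => Λ R ^ 2 *
      (√(volume.real (E ∩ {y | R ^ (1 / 64 : ℝ) ≤ ‖y‖})) +
        volume.real (E ∩ {y | R ^ (1 / 64 : ℝ) ≤ ‖y‖}))) atTop (𝓝 0)) {η : ℝ} (hη : 0 < η) :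
    ∃ R₁ : ℝ, 1 ≤ R₁ ∧ ∀ R : ℝ, R₁ ≤ R →
      R ^ (-(1 / 10 ^ 5) : ℝ) ≤ volume.real (E ∩ {y | R ≤ ‖y‖}) →
      ∫⁻ x, ENNReal.ofReal (cut ρ x) * NT.ST T (ind (E ∩ {y | R ^ (1 / 64 : ℝ) < ‖y‖})) x *
        NT.ST T (ind (E ∩ {y | R ≤ ‖y‖})) x ≤
        ENNReal.ofReal η * volume (E ∩ {y | R ≤ ‖y‖}) := by
  obtain ⟨C, hC, hC2⟩ := one_shell hE hT hρ hM
  have hEfin : volume E ≠ ∞ := by
    rw [vol_tile hE hT]
    exact ENNReal.natCast_ne_top n
  have hc : (0 : ℝ) < 1 / 10 ^ 5 := by norm_num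
  obtain ⟨R₁, hR₁, hone⟩ := hC2 (η / 16) (by positivity)
  obtain ⟨RM, hRM⟩ := hM.2
  have hε : 0 < η / (16 * C) := by positivity
  obtain ⟨R₂, hR₂⟩ := eventually_atTop.1 (hB.eventually (gt_mem_nhds hε))
  set q : ℝ := (((2 : ℝ) ^ (1 / 10 ^ 5 : ℝ)) ^ 3)⁻¹ with hqdef
  have hq0 : 0 < q := Esta_q0
  have hq1 : q < 1 := Esta_q1 hc
  have h1q : 0 < 1 - q := by linarith
  obtain ⟨R₃, hR₃⟩ := eventually_atTop.1 ((tendsto_rpow_atTop hc).eventually_ge_atTop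
    (max (16 / (η * (1 - q))) (64 / η)))
  refine ⟨max (max 4 R₃) (max (2 * R₁) (max (2 * |R₂|) (2 * |RM|))), ?_, ?_⟩
  · exact le_trans (by norm_num) ((le_max_left (4 : ℝ) R₃).trans (le_max_left _ _))
  intro R hR hlow
  have hR4 : 4 ≤ R := ((le_max_left (4 : ℝ) R₃).trans (le_max_left _ _)).trans hR
  have hRR3 : R₃ ≤ R := ((le_max_right (4 : ℝ) R₃).trans (le_max_left _ _)).trans hR
  have hRR1 : 2 * R₁ ≤ R := ((le_max_left _ _).trans (le_max_right _ _)).trans hR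
  have hRR2 : 2 * |R₂| ≤ R :=
    (((le_max_left _ _).trans (le_max_right _ _)).trans (le_max_right _ _)).trans hR
  have hRRM : 2 * |RM| ≤ R :=
    (((le_max_right _ _).trans (le_max_right _ _)).trans (le_max_right _ _)).trans hR
  have hR2' := le_abs_self R₂
  have hRM' := le_abs_self RM
  have hR0 : 0 < R := by linarith
  have hK := hR₃ R hRR3
  have hK1 : 16 / (η * (1 - q)) ≤ R ^ (1 / 10 ^ 5 : ℝ) := (le_max_left _ _).trans hK
  have hK2 : 64 / η ≤ R ^ (1 / 10 ^ 5 : ℝ) := (le_max_right _ _).trans hK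
  set V : Set ℂ := E ∩ {y | R ^ (1 / 64 : ℝ) < ‖y‖} with hVdef
  set A : Set ℂ := E ∩ {y | R ≤ ‖y‖} with hAdef
  set a : ℝ := volume.real A with hadef
  have hVm : MeasurableSet V := hE.inter (measurableSet_lt measurable_const measurable_norm)
  have hAm : MeasurableSet A := hE.inter (measurableSet_le measurable_const measurable_norm)
  have hRlt : R ^ (1 / 64 : ℝ) < R := by
    calc R ^ (1 / 64 : ℝ) < R ^ (1 : ℝ) :=
          Real.rpow_lt_rpow_of_exponent_lt (by linarith) (by norm_num)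
      _ = R := Real.rpow_one R
  have hR641 : 1 ≤ R ^ (1 / 64 : ℝ) := Real.one_le_rpow (by linarith) (by norm_num)
  have hAV : A ⊆ V := fun y hy => ⟨hy.1, lt_of_lt_of_le hRlt hy.2⟩
  have hV1 : ∀ y ∈ V, 1 ≤ ‖y‖ := fun y hy => hR641.trans (le_of_lt hy.2)
  have hAR : ∀ y ∈ A, R ≤ ‖y‖ := fun y hy => hy.2
  have hVA : ∀ y ∈ V, R ≤ ‖y‖ → y ∈ A := fun y hy h => ⟨hy.1, h⟩
  have hVE : V ⊆ E := fun y hy => hy.1
  have hAE : A ⊆ E := fun y hy => hy.1
  have hAfin : volume A ≠ ∞ := ne_top_of_le_ne_top hEfin (measure_mono hAE)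
  have ha0 : 0 ≤ a := measureReal_nonneg
  have hvolA : volume A = ENNReal.ofReal a := by
    rw [hadef, Measure.real, ENNReal.ofReal_toReal hAfin]
  obtain ⟨k, hk1, hk2⟩ := exists_nat_pow_near (show (1 : ℝ) ≤ R by linarith)
    (one_lt_two : (1 : ℝ) < 2)
  refine (shells hVm hAm hAV T hV1 hAR hVA).trans ?_
  -- the shells below `R` are empty
  set J : ℕ → ℝ≥0∞ := fun j => ∫⁻ x, ENNReal.ofReal (cut ρ x) *
        NT.ST T (ind (V ∩ {y | ‖y‖ < 2 ^ (j + 1)})) x *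
        NT.ST T (ind (A ∩ {y | (2 : ℝ) ^ j ≤ ‖y‖ ∧ ‖y‖ < 2 ^ (j + 1)})) x with hJdef
  have hJ0 : ∀ j, j < k → J j = 0 := by
    intro j hj
    have hemp : A ∩ {y | (2 : ℝ) ^ j ≤ ‖y‖ ∧ ‖y‖ < 2 ^ (j + 1)} = ∅ := by
      rw [Set.eq_empty_iff_forall_notMem]
      rintro y ⟨hyA, _, hy2⟩
      have h1 : (2 : ℝ) ^ (j + 1) ≤ 2 ^ k := pow_le_pow_right₀ one_le_two hj
      linarith [hAR y hyA]
    rw [hJdef]
    simp only [hemp, Esta_empty, mul_zero, lintegral_zero]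
  have hsum : ∑' j, J j = ∑' i, J (i + k) := by
    rw [← Summable.sum_add_tsum_nat_add' (f := J) (k := k) ENNReal.summable,
      Finset.sum_eq_zero (fun j hj => hJ0 j (Finset.mem_range.1 hj)), zero_add]
  -- measures of the shells
  set Aj : ℕ → Set ℂ := fun j => A ∩ {y | (2 : ℝ) ^ j ≤ ‖y‖ ∧ ‖y‖ < 2 ^ (j + 1)} with hAjdef
  have hAjm : ∀ j, MeasurableSet (Aj j) := fun j => hAm.inter
    ((measurableSet_le measurable_const measurable_norm).inter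
      (measurableSet_lt measurable_norm measurable_const))
  have hAjA : ∀ j, Aj j ⊆ A := fun j y hy => hy.1
  have hAjfin : ∀ j, volume (Aj j) ≠ ∞ := fun j =>
    ne_top_of_le_ne_top hAfin (measure_mono (hAjA j))
  have hAjreal : ∀ j, volume (Aj j) = ENNReal.ofReal (volume.real (Aj j)) := fun j => by
    rw [Measure.real, ENNReal.ofReal_toReal (hAjfin j)]
  have hAjle : ∀ j, volume.real (Aj j) ≤ a := fun j => measureReal_mono (hAjA j) hAfin
  have hdisj : Pairwise (Function.onFun Disjoint (fun i => Aj (i + k))) := by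
    intro i j hij
    rw [Function.onFun, Set.disjoint_left]
    rintro y ⟨_, h1, h2⟩ ⟨_, h3, h4⟩
    apply hij
    have h5 : (2 : ℝ) ^ (i + k) < 2 ^ (j + k + 1) := lt_of_le_of_lt h1 h4
    have h6 : (2 : ℝ) ^ (j + k) < 2 ^ (i + k + 1) := lt_of_le_of_lt h3 h2
    have h7 := (pow_lt_pow_iff_right₀ (one_lt_two : (1 : ℝ) < 2)).1 h5
    have h8 := (pow_lt_pow_iff_right₀ (one_lt_two : (1 : ℝ) < 2)).1 h6
    omega
  have hAsum : ∑' i, volume (Aj (i + k)) ≤ volume A := by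
    rw [← measure_iUnion hdisj (fun i => hAjm (i + k))]
    exact measure_mono (Set.iUnion_subset fun i => hAjA (i + k))
  -- tails of the measure
  have hMmono : ∀ {U : Set ℂ} {r : ℝ}, U ⊆ E → (∀ y ∈ U, r ≤ ‖y‖) →
      volume.real U ≤ volume.real (E ∩ {y | r ≤ ‖y‖}) := by
    intro U r hU hr
    exact measureReal_mono (fun y hy => ⟨hU hy, hr y hy⟩)
      (ne_top_of_le_ne_top hEfin (measure_mono fun y hy => hy.1))
  have hMR : volume.real (E ∩ {y | R ^ (1 / 64 : ℝ) ≤ ‖y‖}) ≤ η / (16 * C) := by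
    have h1 := hR₂ R (by linarith)
    have h2 := (hRM R (by linarith)).1
    have h3 : (1 : ℝ) ≤ Λ R ^ 2 := one_le_pow₀ h2
    have h4 : 0 ≤ volume.real (E ∩ {y | R ^ (1 / 64 : ℝ) ≤ ‖y‖}) := measureReal_nonneg
    have h5 := Real.sqrt_nonneg (volume.real (E ∩ {y | R ^ (1 / 64 : ℝ) ≤ ‖y‖}))
    nlinarith
  -- one shell
  have hJi : ∀ i, J (i + k) ≤ ENNReal.ofReal (3 * η / 16) * volume (Aj (i + k)) +
      (ENNReal.ofReal (√a * q ^ k * q ^ i) + ENNReal.ofReal ((1 / 2) ^ k * (1 / 2) ^ i)) := by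
    intro i
    have h2pow : (2 : ℝ) ^ k ≤ 2 ^ (i + k) := pow_le_pow_right₀ one_le_two (by omega)
    have hhalf : R / 2 < 2 ^ k := by
      rw [pow_succ] at hk2
      linarith
    have hbig : R / 2 < (2 : ℝ) ^ (i + k) := lt_of_lt_of_le hhalf h2pow
    have h := hone (2 ^ (i + k)) (by linarith) (Aj (i + k)) (V ∩ {y | ‖y‖ < 2 ^ (i + k + 1)})
      (hAjm _) (hVm.inter (measurableSet_lt measurable_norm measurable_const))
      ((hAjA _).trans hAE) (fun y hy => hVE hy.1)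
      (fun y hy => ⟨hy.2.1, by have := hy.2.2; rw [pow_succ] at this; linarith⟩)
      (fun y hy => by have := hy.2; rw [Set.mem_ofPred_eq, pow_succ] at this; linarith)
    refine h.trans ?_
    have haj0 : 0 ≤ volume.real (Aj (i + k)) := measureReal_nonneg
    have e1 : ENNReal.ofReal ((C * volume.real (V ∩ {y | ‖y‖ < 2 ^ (i + k + 1)}) + η / 16) *
        volume.real (Aj (i + k))) ≤ ENNReal.ofReal (2 * η / 16 * volume.real (Aj (i + k))) := by
      apply ENNReal.ofReal_le_ofReal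
      apply mul_le_mul_of_nonneg_right _ haj0
      have h1 : volume.real (V ∩ {y | ‖y‖ < 2 ^ (i + k + 1)}) ≤ η / (16 * C) :=
        (hMmono (fun y hy => hVE hy.1) (fun y hy => le_of_lt hy.1.2)).trans hMR
      have h2 : C * volume.real (V ∩ {y | ‖y‖ < 2 ^ (i + k + 1)}) ≤ C * (η / (16 * C)) :=
        mul_le_mul_of_nonneg_left h1 hC.le
      have h3 : C * (η / (16 * C)) = η / 16 := by
        field_simp
      linarith
    have e2 : ENNReal.ofReal (C * Λ (2 ^ (i + k)) ^ 2 *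
        (√(volume.real (V ∩ {y | ‖y‖ < 2 ^ (i + k + 1)} ∩
          {y | ((2 : ℝ) ^ (i + k)) ^ (1 / 64 : ℝ) ≤ ‖y‖})) +
        volume.real (V ∩ {y | ‖y‖ < 2 ^ (i + k + 1)} ∩
          {y | ((2 : ℝ) ^ (i + k)) ^ (1 / 64 : ℝ) ≤ ‖y‖})) * volume.real (Aj (i + k))) ≤
        ENNReal.ofReal (η / 16 * volume.real (Aj (i + k))) := by
      apply ENNReal.ofReal_le_ofReal
      apply mul_le_mul_of_nonneg_right _ haj0
      have h1 : volume.real (V ∩ {y | ‖y‖ < 2 ^ (i + k + 1)} ∩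
          {y | ((2 : ℝ) ^ (i + k)) ^ (1 / 64 : ℝ) ≤ ‖y‖}) ≤
          volume.real (E ∩ {y | ((2 : ℝ) ^ (i + k)) ^ (1 / 64 : ℝ) ≤ ‖y‖}) :=
        hMmono (fun y hy => hVE hy.1.1) (fun y hy => hy.2)
      have h2 := hR₂ (2 ^ (i + k)) (by linarith)
      have h3 := add_le_add (Real.sqrt_le_sqrt h1) h1
      have h4 : Λ (2 ^ (i + k)) ^ 2 *
        (√(volume.real (V ∩ {y | ‖y‖ < 2 ^ (i + k + 1)} ∩
          {y | ((2 : ℝ) ^ (i + k)) ^ (1 / 64 : ℝ) ≤ ‖y‖})) +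
        volume.real (V ∩ {y | ‖y‖ < 2 ^ (i + k + 1)} ∩
          {y | ((2 : ℝ) ^ (i + k)) ^ (1 / 64 : ℝ) ≤ ‖y‖})) ≤ η / (16 * C) :=
        (mul_le_mul_of_nonneg_left h3 (sq_nonneg _)).trans h2.le
      have h5 : C * (η / (16 * C)) = η / 16 := by
        field_simp
      rw [mul_assoc, ← h5]
      exact mul_le_mul_of_nonneg_left h4 hC.le
    have e3 : ENNReal.ofReal (√(volume.real (Aj (i + k))) /
        (((2 : ℝ) ^ (i + k)) ^ (1 / 10 ^ 5 : ℝ)) ^ 3) ≤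
        ENNReal.ofReal (√a * q ^ k * q ^ i) := by
      apply ENNReal.ofReal_le_ofReal
      have h1 : ((((2 : ℝ) ^ (i + k)) ^ (1 / 10 ^ 5 : ℝ)) ^ 3)⁻¹ = q ^ k * q ^ i := by
        rw [Esta_pow, hqdef, ← pow_mul, mul_comm (i + k) 3, pow_mul, ← inv_pow, pow_add, mul_comm]
      rw [div_eq_mul_inv, h1, mul_assoc]
      exact mul_le_mul_of_nonneg_right (Real.sqrt_le_sqrt (hAjle _)) (by positivity)
    have e4 : ENNReal.ofReal (1 / 2 ^ (i + k)) = ENNReal.ofReal ((1 / 2) ^ k * (1 / 2) ^ i) := by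
      congr 1
      rw [← pow_add, add_comm k i, one_div_pow]
    have e5 : ENNReal.ofReal (2 * η / 16 * volume.real (Aj (i + k))) +
        ENNReal.ofReal (η / 16 * volume.real (Aj (i + k))) =
        ENNReal.ofReal (3 * η / 16) * volume (Aj (i + k)) := by
      rw [hAjreal, ← ENNReal.ofReal_mul (by positivity), ← ENNReal.ofReal_add (by positivity)
        (by positivity)]
      congr 1
      ring
    rw [← e5, ← e4, ← add_assoc]
    exact add_le_add (add_le_add (add_le_add e1 e2) e3) (le_refl _)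
  -- summation
  have hgeo : ∑' i : ℕ, ENNReal.ofReal (√a * q ^ k * q ^ i) =
      ENNReal.ofReal (√a * q ^ k * (1 - q)⁻¹) := by
    rw [← ENNReal.ofReal_tsum_of_nonneg (fun i => by positivity)
      ((summable_geometric_of_lt_one hq0.le hq1).mul_left _), tsum_mul_left,
      tsum_geometric_of_lt_one hq0.le hq1]
  have hgeo2 : ∑' i : ℕ, ENNReal.ofReal ((1 / 2 : ℝ) ^ k * (1 / 2) ^ i) =
      ENNReal.ofReal ((1 / 2) ^ k * 2) := by
    rw [← ENNReal.ofReal_tsum_of_nonneg (fun i => by positivity)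
      (summable_geometric_two.mul_left _), tsum_mul_left, tsum_geometric_two]
  have hfinal : 2 * ∑' j, J j ≤ ENNReal.ofReal (2 * (3 * η / 16 * a + (√a * q ^ k * (1 - q)⁻¹ +
      (1 / 2) ^ k * 2))) := by
    rw [hsum]
    calc 2 * ∑' i, J (i + k) ≤ 2 * ∑' i, (ENNReal.ofReal (3 * η / 16) * volume (Aj (i + k)) +
      (ENNReal.ofReal (√a * q ^ k * q ^ i) + ENNReal.ofReal ((1 / 2) ^ k * (1 / 2) ^ i))) :=
          mul_le_mul' (le_refl _) (ENNReal.tsum_le_tsum hJi)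
      _ = 2 * (ENNReal.ofReal (3 * η / 16) * ∑' i, volume (Aj (i + k)) +
          (ENNReal.ofReal (√a * q ^ k * (1 - q)⁻¹) + ENNReal.ofReal ((1 / 2) ^ k * 2))) := by
          rw [ENNReal.tsum_add, ENNReal.tsum_add, ENNReal.tsum_mul_left, hgeo, hgeo2]
      _ ≤ 2 * (ENNReal.ofReal (3 * η / 16) * ENNReal.ofReal a +
          (ENNReal.ofReal (√a * q ^ k * (1 - q)⁻¹) + ENNReal.ofReal ((1 / 2) ^ k * 2))) := by
          rw [← hvolA]
          exact mul_le_mul' (le_refl _) (add_le_add (mul_le_mul' (le_refl _) hAsum) (le_refl _))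
      _ = _ := by
          rw [← ENNReal.ofReal_mul (by positivity), ← ENNReal.ofReal_add (by positivity)
            (by positivity), ← ENNReal.ofReal_add (by positivity) (by positivity),
            ENNReal.ofReal_mul (by norm_num : (0 : ℝ) ≤ 2)]
          norm_num
  refine hfinal.trans ?_
  rw [hvolA, ← ENNReal.ofReal_mul hη.le]
  apply ENNReal.ofReal_le_ofReal
  -- the real inequality
  have hkR : R / 2 < 2 ^ k := by
    rw [pow_succ] at hk2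
    linarith
  have hkey := Esta_key hc hR4 hlow
  have hqk : q ^ k * ((R / 2) ^ (1 / 10 ^ 5 : ℝ)) ^ 3 ≤ 1 := by
    have h1 : q ^ k = ((((2 : ℝ) ^ k) ^ (1 / 10 ^ 5 : ℝ)) ^ 3)⁻¹ := by
      rw [hqdef, inv_pow, Esta_pow, ← pow_mul, ← pow_mul, mul_comm 3 k]
    rw [h1, inv_mul_le_iff₀ (by positivity), mul_one]
    apply pow_le_pow_left₀ (by positivity)
    exact Real.rpow_le_rpow (by positivity) hkR.le hc.le
  have hs0 := Real.sqrt_nonneg a
  have hss : √a * √a = a := Real.mul_self_sqrt ha0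
  have t1 : √a * q ^ k * (1 - q)⁻¹ ≤ η / 16 * a := by
    have h1 : 16 / (η * (1 - q)) * q ^ k ≤ √a := by
      calc 16 / (η * (1 - q)) * q ^ k ≤ (((R / 2) ^ (1 / 10 ^ 5 : ℝ)) ^ 3 * √a) * q ^ k :=
            mul_le_mul_of_nonneg_right (hK1.trans hkey) (by positivity)
        _ = (q ^ k * ((R / 2) ^ (1 / 10 ^ 5 : ℝ)) ^ 3) * √a := by ring
        _ ≤ 1 * √a := mul_le_mul_of_nonneg_right hqk hs0
        _ = √a := one_mul _
    have h2 : √a * q ^ k * (1 - q)⁻¹ = η / 16 * (√a * (16 / (η * (1 - q)) * q ^ k)) := by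
      field_simp
    rw [h2, ← hss]
    apply mul_le_mul_of_nonneg_left _ (by positivity)
    rw [Real.sqrt_mul_self hs0]
    exact mul_le_mul_of_nonneg_left h1 hs0
  have t2 : (1 / 2 : ℝ) ^ k * 2 ≤ η / 16 * a := by
    have h1 : (1 / 2 : ℝ) ^ k ≤ 2 / R := by
      rw [one_div_pow, div_le_div_iff₀ (by positivity) hR0]
      linarith
    have h2 : R ^ (1 / 10 ^ 5 : ℝ) ≤ R * R ^ (-(1 / 10 ^ 5) : ℝ) := by
      calc R ^ (1 / 10 ^ 5 : ℝ) ≤ R ^ (1 + (-(1 / 10 ^ 5)) : ℝ) :=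
            Real.rpow_le_rpow_of_exponent_le (by linarith) (by norm_num)
        _ = R * R ^ (-(1 / 10 ^ 5) : ℝ) := by rw [Real.rpow_add hR0, Real.rpow_one]
    have h3 : 64 / η ≤ R * a :=
      (hK2.trans h2).trans (mul_le_mul_of_nonneg_left hlow hR0.le)
    have h4 : 64 ≤ η * (R * a) := by
      rw [div_le_iff₀ hη] at h3
      linarith
    have h5 : 2 / R * 2 ≤ η / 16 * a := by
      rw [div_mul_eq_mul_div, div_le_iff₀ hR0]
      nlinarith
    linarith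
  nlinarith [mul_nonneg hη.le ha0]

end Pool.Agent.Lib.SR
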