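import Pool.Agent.Lib.MP_b9430d_co.Frac.GauF
import Pool.Agent.Lib.MP_b9430d_co.SR.Defs

/-!
# FA: the oscillating Gaussian integral (Fresnel smoothing, part a)

`win s z = exp (-π |z|² / s²)`. For real `t` and `η ∈ ℂ` the integral of `win s z * e(t |z|² + ⟨η, z⟩)` has the absolute
value `(s⁻⁴ + 4t²)^(-1/2) exp (-π |η|² s⁻² / (s⁻⁴ + 4t²))`. Hence the kernel
`∫ win s (w - w₀) e(a |x₁ - w|² - b |x₂ - w|²) dw`.
-/

set_option autoImplicit false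

open MeasureTheory Complex Set Real Filter Topology

namespace Pool.Agent.Lib.SR.Fres

open Pool.MPb9430d Pool.MPb9430d.Rough Pool.MPb9430d.Frac Pool.MPb9430d.Mom Pool.Agent.Lib.SR

/-- the Gaussian window -/
noncomputable def win (s : ℝ) (z : ℂ) : ℝ := Real.exp (-(π * ‖z‖ ^ 2 / s ^ 2))

theorem win_pos (s : ℝ) (z : ℂ) : 0 < win s z := Real.exp_pos _

theorem win_le_one (s : ℝ) (z : ℂ) : win s z ≤ 1 := by
  unfold win
  rw [Real.exp_le_one_iff]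
  have : 0 ≤ π * ‖z‖ ^ 2 / s ^ 2 := by positivity
  linarith

theorem continuous_win (s : ℝ) : Continuous (win s) := by
  unfold win
  fun_prop

theorem win_eq_gau {s : ℝ} (hs : 0 < s) (z : ℂ) : win s z = s ^ 2 * gau s⁻¹ z := by
  unfold win gau
  rw [inv_pow, ← mul_assoc, mul_inv_cancel₀ (by positivity), one_mul]
  congr 2
  field_simp

theorem integrable_win {s : ℝ} (hs : 0 < s) : Integrable (win s) := by
  have h := (integrable_gau (N := s⁻¹) (by positivity)).const_mul (s ^ 2)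
  exact h.congr (Eventually.of_forall fun z => (win_eq_gau hs z).symm)

theorem integral_win {s : ℝ} (hs : 0 < s) : ∫ z, win s z = s ^ 2 := by
  have h : ∫ z, win s z = ∫ z, s ^ 2 * gau s⁻¹ z := integral_congr_ae (Eventually.of_forall fun z => win_eq_gau hs z)
  rw [h, integral_const_mul, integral_gau (by positivity), mul_one]

/-- the absolute value of the oscillating Gaussian integral -/
theorem norm_osc {s : ℝ} (hs : 0 < s) (t : ℝ) (η : ℂ) :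
    ‖∫ z : ℂ, (win s z : ℂ) * ee (t * ‖z‖ ^ 2 + Frac.ip η z)‖ =
      (√((s ^ 4)⁻¹ + 4 * t ^ 2))⁻¹ * Real.exp (-(π * ‖η‖ ^ 2 * (s ^ 2)⁻¹ / ((s ^ 4)⁻¹ + 4 * t ^ 2))) := by
  set b : ℂ := ((π * (s ^ 2)⁻¹ : ℝ) : ℂ) - ((2 * π * t : ℝ) : ℂ) * I with hb
  have hbre : b.re = π * (s ^ 2)⁻¹ := by
    rw [hb, Complex.sub_re, Complex.re_ofReal_mul, Complex.I_re, Complex.ofReal_re]
    ring
  have hbim : b.im = -(2 * π * t) := by
    rw [hb, Complex.sub_im, Complex.im_ofReal_mul, Complex.I_im, Complex.ofReal_im]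
    ring
  have hb0 : 0 < b.re := by
    rw [hbre]
    positivity
  have e1 : (fun z : ℂ => (win s z : ℂ) * ee (t * ‖z‖ ^ 2 + Frac.ip η z))
      = fun z : ℂ => cexp (-b * ‖z‖ ^ 2 + ((2 * π : ℝ) : ℂ) * I * (inner ℝ η z : ℝ)) := by
    funext z
    unfold win ee
    rw [Complex.ofReal_exp, ← Complex.exp_add, ip_eq_inner, hb]
    congr 1
    push_cast
    field_simp
    ring
  have h2 := GaussianFourier.integral_cexp_neg_mul_sq_norm_add (V := ℂ) hb0 (((2 * π : ℝ) : ℂ) * I) η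
  rw [e1, h2, Complex.finrank_real_complex]
  have e2 : (((2 : ℕ) : ℂ) / 2) = 1 := by norm_num
  rw [e2, Complex.cpow_one, norm_mul, norm_div, Complex.norm_exp]
  have hD : 0 < (s ^ 4)⁻¹ + 4 * t ^ 2 := by positivity
  have hnsq : Complex.normSq b = π ^ 2 * ((s ^ 4)⁻¹ + 4 * t ^ 2) := by
    rw [Complex.normSq_apply, hbre, hbim]
    field_simp
    ring
  have hnorm : ‖b‖ = π * √((s ^ 4)⁻¹ + 4 * t ^ 2) := by
    rw [Complex.norm_def, hnsq, Real.sqrt_mul (by positivity), Real.sqrt_sq Real.pi_pos.le]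
  have hre : ((((2 * π : ℝ) : ℂ) * I) ^ 2 * (‖η‖ : ℂ) ^ 2 / (4 * b)).re
      = -(π * ‖η‖ ^ 2 * (s ^ 2)⁻¹ / ((s ^ 4)⁻¹ + 4 * t ^ 2)) := by
    have e3 : (((2 * π : ℝ) : ℂ) * I) ^ 2 * (‖η‖ : ℂ) ^ 2 / (4 * b) = ((-(π ^ 2 * ‖η‖ ^ 2) : ℝ) : ℂ) * b⁻¹ := by
      have : b ≠ 0 := by
        intro h
        rw [h] at hb0
        simp at hb0
      rw [mul_pow, Complex.I_sq]
      push_cast
      field_simp
      ring
    rw [e3, Complex.re_ofReal_mul, Complex.inv_re, hnsq, hbre]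
    field_simp
  rw [hre, hnorm, Complex.norm_real, Real.norm_of_nonneg Real.pi_pos.le]
  congr 1
  field_simp

/-- the kernel of a pair of frequencies -/
noncomputable def kk (s a b : ℝ) (w₀ x₁ x₂ : ℂ) : ℂ :=
  ∫ w : ℂ, (win s (w - w₀) : ℂ) * ee (a * ‖x₁ - w‖ ^ 2 - b * ‖x₂ - w‖ ^ 2)

private theorem FA_sq (x z : ℂ) : ‖x - z‖ ^ 2 = ‖x‖ ^ 2 - 2 * Frac.ip x z + ‖z‖ ^ 2 := by
  rw [ip_eq_inner, @norm_sub_sq ℝ]
  rfl

private theorem FA_ip (a b : ℝ) (u v z : ℂ) :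
    Frac.ip ((-(2 * a) : ℝ) * u + ((2 * b : ℝ) : ℂ) * v) z = -(2 * a) * Frac.ip u z + 2 * b * Frac.ip v z := by
  unfold Frac.ip
  simp only [Complex.add_re, Complex.add_im, Complex.re_ofReal_mul, Complex.im_ofReal_mul]
  ring

theorem norm_kk {s : ℝ} (hs : 0 < s) (a b : ℝ) (w₀ x₁ x₂ : ℂ) :
    ‖kk s a b w₀ x₁ x₂‖ = (√((s ^ 4)⁻¹ + 4 * (a - b) ^ 2))⁻¹ *
      Real.exp (-(4 * π * ‖(a - b : ℝ) * w₀ - (a * x₁ - b * x₂)‖ ^ 2 * (s ^ 2)⁻¹ /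
        ((s ^ 4)⁻¹ + 4 * (a - b) ^ 2))) := by
  set η : ℂ := ((-(2 * a) : ℝ) : ℂ) * (x₁ - w₀) + ((2 * b : ℝ) : ℂ) * (x₂ - w₀) with hη
  have h1 : kk s a b w₀ x₁ x₂ = ∫ z : ℂ, (win s z : ℂ) * ee (a * ‖x₁ - (z + w₀)‖ ^ 2 - b * ‖x₂ - (z + w₀)‖ ^ 2) := by
    unfold kk
    rw [← integral_add_right_eq_self (μ := (volume : Measure ℂ)) _ w₀]
    refine integral_congr_ae (Eventually.of_forall fun z => ?_)
    simp only [add_sub_cancel_right]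
  have h2 : ∀ z : ℂ, (win s z : ℂ) * ee (a * ‖x₁ - (z + w₀)‖ ^ 2 - b * ‖x₂ - (z + w₀)‖ ^ 2)
      = ee (a * ‖x₁ - w₀‖ ^ 2 - b * ‖x₂ - w₀‖ ^ 2) * ((win s z : ℂ) * ee ((a - b) * ‖z‖ ^ 2 + Frac.ip η z)) := by
    intro z
    have e1 : a * ‖x₁ - (z + w₀)‖ ^ 2 - b * ‖x₂ - (z + w₀)‖ ^ 2
        = (a * ‖x₁ - w₀‖ ^ 2 - b * ‖x₂ - w₀‖ ^ 2) + ((a - b) * ‖z‖ ^ 2 + Frac.ip η z) := by
      rw [show x₁ - (z + w₀) = (x₁ - w₀) - z by ring, show x₂ - (z + w₀) = (x₂ - w₀) - z by ring,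
        FA_sq (x₁ - w₀) z, FA_sq (x₂ - w₀) z, hη, FA_ip]
      ring
    rw [e1, ee_add]
    ring
  have h3 : kk s a b w₀ x₁ x₂ = ee (a * ‖x₁ - w₀‖ ^ 2 - b * ‖x₂ - w₀‖ ^ 2) *
      ∫ z : ℂ, (win s z : ℂ) * ee ((a - b) * ‖z‖ ^ 2 + Frac.ip η z) := by
    rw [h1, ← integral_const_mul]
    exact integral_congr_ae (Eventually.of_forall h2)
  rw [h3, norm_mul, norm_ee, one_mul, norm_osc hs]
  have h4 : ‖η‖ ^ 2 = 4 * ‖((a - b : ℝ) : ℂ) * w₀ - (a * x₁ - b * x₂)‖ ^ 2 := by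
    have e2 : η = ((2 : ℝ) : ℂ) * (((a - b : ℝ) : ℂ) * w₀ - (a * x₁ - b * x₂)) := by
      rw [hη]
      push_cast
      ring
    rw [e2, norm_mul, Complex.norm_real, mul_pow, Real.norm_of_nonneg (by norm_num)]
    norm_num
  rw [h4]
  congr 3
  ring

end Pool.Agent.Lib.SR.Fres
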