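import Pool.Agent.Lib.MP_b9430d_co.SR.FA

/-!
# FB: pairs of Fresnel integrals (Fresnel smoothing, part b)

`FR h a w = ∫ h(x) e(a |x - w|²) dx`. `∫ win s (w - w₀) FR h a conj (FR h b) = ∫∫ h(x₁) h(x₂) kk s a b w₀ x₁ x₂` (Fubini).
For `a = b` the kernel has the absolute value `(4a²)⁻¹ gau (2|a|s) (x₁ - x₂)` and Schur's test gives
`∫ win s (w - w₀) |FR h a|² ≤ ‖h‖₂² / (4a²)`. For `‖w₀‖ ≥ R/2`, `4ρ(|a|+|b|) ≤ |a-b| R`, `s⁻² ≤ |a-b|` the kernel is at most
`s² exp (-(π/20) (R/s)²)`.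
-/

set_option autoImplicit false

open MeasureTheory Complex Set Real Filter Topology

namespace Pool.Agent.Lib.SR.Fres

open Pool.MPb9430d Pool.MPb9430d.Rough Pool.MPb9430d.Frac Pool.MPb9430d.Mom Pool.Agent.Lib.SR

/-- the Fresnel integral of `h` with frequency `a` -/
noncomputable def FR (h : ℂ → ℝ) (a : ℝ) (w : ℂ) : ℂ := ∫ x, (h x : ℂ) * ee (a * ‖x - w‖ ^ 2)

/-- bounded measurable functions with support in a disc -/
structure Bd (ρ B : ℝ) (h : ℂ → ℝ) : Prop where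
  m : Measurable h
  b : ∀ x, |h x| ≤ B
  s : ∀ x, ρ < ‖x‖ → h x = 0

theorem Bd.integrable {ρ B : ℝ} {h : ℂ → ℝ} (H : Bd ρ B h) : Integrable h := by
  have h1 : Integrable ((Metric.closedBall (0 : ℂ) ρ).indicator fun _ => B) :=
    (integrable_indicator_iff measurableSet_closedBall).2 (integrableOn_const (measure_closedBall_lt_top).ne)
  refine h1.mono' H.m.aestronglyMeasurable (Eventually.of_forall fun x => ?_)
  rw [Real.norm_eq_abs]
  by_cases hx : ‖x‖ ≤ ρ
  · rw [Set.indicator_of_mem (by rw [mem_closedBall_zero_iff]; exact hx)]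
    exact H.b x
  · rw [H.s x (not_le.1 hx), abs_zero]
    refine Set.indicator_nonneg (fun _ _ => (abs_nonneg _).trans (H.b 0)) x

theorem Bd.sq {ρ B : ℝ} {h : ℂ → ℝ} (H : Bd ρ B h) : Bd ρ (B ^ 2) fun x => h x ^ 2 where
  m := H.m.pow_const 2
  b x := by
    rw [abs_pow]
    exact pow_le_pow_left₀ (abs_nonneg _) (H.b x) 2
  s x hx := by
    simp only [H.s x hx]
    norm_num

theorem Bd.abs {ρ B : ℝ} {h : ℂ → ℝ} (H : Bd ρ B h) : Bd ρ B fun x => |h x| where
  m := H.m.abs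
  b x := by
    rw [abs_abs]
    exact H.b x
  s x hx := by
    simp only [H.s x hx, abs_zero]

theorem Bd.integral_le {ρ B : ℝ} {h : ℂ → ℝ} (hρ : 0 ≤ ρ) (H : Bd ρ B h) : ∫ x, |h x| ≤ B * (π * ρ ^ 2) := by
  have h1 : Integrable ((Metric.closedBall (0 : ℂ) ρ).indicator fun _ => B) :=
    (integrable_indicator_iff measurableSet_closedBall).2 (integrableOn_const (measure_closedBall_lt_top).ne)
  have h2 : ∫ x, |h x| ≤ ∫ x, (Metric.closedBall (0 : ℂ) ρ).indicator (fun _ => B) x := by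
    refine integral_mono H.abs.integrable h1 fun x => ?_
    by_cases hx : ‖x‖ ≤ ρ
    · simp only
      rw [Set.indicator_of_mem (by rw [mem_closedBall_zero_iff]; exact hx)]
      exact H.b x
    · simp only
      rw [H.s x (not_le.1 hx), abs_zero]
      exact Set.indicator_nonneg (fun _ _ => (abs_nonneg _).trans (H.b 0)) x
  rw [integral_indicator_const _ measurableSet_closedBall] at h2
  have h3 : volume.real (Metric.closedBall (0 : ℂ) ρ) = π * ρ ^ 2 := by
    rw [Measure.real, Complex.volume_closedBall, ENNReal.toReal_mul, ENNReal.toReal_pow, ENNReal.toReal_ofReal hρ]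
    simp [mul_comm]
  rw [h3, smul_eq_mul] at h2
  linarith

private theorem FB_int {ρ B s : ℝ} (hs : 0 < s) {h : ℂ → ℝ} (H : Bd ρ B h) (a b : ℝ) (w₀ : ℂ) :
    Integrable (fun z : ℂ × (ℂ × ℂ) => (win s (z.1 - w₀) : ℂ) * ((h z.2.1 : ℂ) * (h z.2.2 : ℂ) *
      ee (a * ‖z.2.1 - z.1‖ ^ 2 - b * ‖z.2.2 - z.1‖ ^ 2))) := by
  have h1 : Integrable (fun w : ℂ => win s (w - w₀)) := (integrable_win hs).comp_sub_right w₀
  have h2 : Integrable (fun p : ℂ × ℂ => |h p.1| * |h p.2|) := H.abs.integrable.mul_prod H.abs.integrable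
  have h3 : Integrable (fun z : ℂ × (ℂ × ℂ) => win s (z.1 - w₀) * (|h z.2.1| * |h z.2.2|)) := h1.mul_prod h2
  refine h3.mono' ?_ (Eventually.of_forall fun z => ?_)
  · refine Measurable.aestronglyMeasurable ?_
    have m1 : Measurable fun z : ℂ × (ℂ × ℂ) => (win s (z.1 - w₀) : ℂ) :=
      Complex.measurable_ofReal.comp ((continuous_win s).measurable.comp (measurable_fst.sub_const w₀))
    have m2 : Measurable fun z : ℂ × (ℂ × ℂ) => (h z.2.1 : ℂ) :=
      Complex.measurable_ofReal.comp (H.m.comp (measurable_fst.comp measurable_snd))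
    have m3 : Measurable fun z : ℂ × (ℂ × ℂ) => (h z.2.2 : ℂ) :=
      Complex.measurable_ofReal.comp (H.m.comp (measurable_snd.comp measurable_snd))
    have m4 : Measurable fun z : ℂ × (ℂ × ℂ) => ee (a * ‖z.2.1 - z.1‖ ^ 2 - b * ‖z.2.2 - z.1‖ ^ 2) := by
      refine (continuous_ee.comp ?_).measurable
      fun_prop
    exact m1.mul ((m2.mul m3).mul m4)
  · rw [norm_mul, norm_mul, norm_mul, norm_ee, mul_one, Complex.norm_real, Complex.norm_real, Complex.norm_real,
      Real.norm_of_nonneg (win_pos s _).le, Real.norm_eq_abs, Real.norm_eq_abs]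

theorem pair_eq {ρ B s : ℝ} (hs : 0 < s) {h : ℂ → ℝ} (H : Bd ρ B h) (a b : ℝ) (w₀ : ℂ) :
    Integrable (fun w : ℂ => (win s (w - w₀) : ℂ) * (FR h a w * (starRingEnd ℂ) (FR h b w))) ∧
    ∫ w : ℂ, (win s (w - w₀) : ℂ) * (FR h a w * (starRingEnd ℂ) (FR h b w)) =
      ∫ p : ℂ × ℂ, ((h p.1 : ℂ) * (h p.2 : ℂ)) * kk s a b w₀ p.1 p.2 := by
  have hI := FB_int hs H a b w₀
  have e1 : ∀ w : ℂ, (win s (w - w₀) : ℂ) * (FR h a w * (starRingEnd ℂ) (FR h b w))
      = ∫ p : ℂ × ℂ, (win s (w - w₀) : ℂ) * ((h p.1 : ℂ) * (h p.2 : ℂ) *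
        ee (a * ‖p.1 - w‖ ^ 2 - b * ‖p.2 - w‖ ^ 2)) := by
    intro w
    rw [integral_const_mul]
    congr 1
    have e2 : (starRingEnd ℂ) (FR h b w) = ∫ x, (h x : ℂ) * ee (-(b * ‖x - w‖ ^ 2)) := by
      unfold FR
      rw [← integral_conj]
      refine integral_congr_ae (Eventually.of_forall fun x => ?_)
      simp only [map_mul, Complex.conj_ofReal]
      congr 1
      unfold ee
      rw [← Complex.exp_conj, map_mul, Complex.conj_ofReal, Complex.conj_I]
      congr 1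
      push_cast
      ring
    rw [e2]
    unfold FR
    have e3 := integral_prod_mul (μ := (volume : Measure ℂ)) (ν := (volume : Measure ℂ))
      (fun x : ℂ => (h x : ℂ) * ee (a * ‖x - w‖ ^ 2)) (fun x : ℂ => (h x : ℂ) * ee (-(b * ‖x - w‖ ^ 2)))
    rw [← e3]
    refine integral_congr_ae (Eventually.of_forall fun p => ?_)
    simp only
    rw [sub_eq_add_neg (a * ‖p.1 - w‖ ^ 2), ee_add]
    ring
  constructor
  · have := hI.integral_prod_left
    exact this.congr (Eventually.of_forall fun w => (e1 w).symm)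
  · have e4 : ∫ w : ℂ, (win s (w - w₀) : ℂ) * (FR h a w * (starRingEnd ℂ) (FR h b w))
        = ∫ w : ℂ, ∫ p : ℂ × ℂ, (win s (w - w₀) : ℂ) * ((h p.1 : ℂ) * (h p.2 : ℂ) *
          ee (a * ‖p.1 - w‖ ^ 2 - b * ‖p.2 - w‖ ^ 2)) := integral_congr_ae (Eventually.of_forall e1)
    rw [e4, integral_integral_swap hI]
    refine integral_congr_ae (Eventually.of_forall fun p => ?_)
    simp only
    unfold kk
    rw [← integral_const_mul]
    refine integral_congr_ae (Eventually.of_forall fun w => ?_)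
    simp only
    ring

end Pool.Agent.Lib.SR.Fres
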