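import Pool.Agent.Lib.MP_b9430d_co.SR.FB

/-!
# FC: the bounds for the pairs (Fresnel smoothing, part c)
-/

set_option autoImplicit false

open MeasureTheory Complex Set Real Filter Topology

namespace Pool.Agent.Lib.SR.Fres

open Pool.MPb9430d Pool.MPb9430d.Rough Pool.MPb9430d.Frac Pool.MPb9430d.Mom Pool.Agent.Lib.SR

private theorem FC_int1 {ρ B N : ℝ} (hN : 0 < N) {h : ℂ → ℝ} (H : Bd ρ B h) :
    Integrable (fun p : ℂ × ℂ => h p.1 ^ 2 * gau N (p.1 - p.2)) ∧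
      ∫ p : ℂ × ℂ, h p.1 ^ 2 * gau N (p.1 - p.2) = ∫ x, h x ^ 2 := by
  have hg1 : ∀ x : ℂ, Integrable (fun y : ℂ => gau N (x - y)) := fun x => (integrable_gau hN).comp_sub_left x
  have hg2 : ∀ x : ℂ, ∫ y : ℂ, gau N (x - y) = 1 := by
    intro x
    rw [integral_sub_left_eq_self (fun y => gau N y) volume x]
    exact integral_gau hN
  have hm : AEStronglyMeasurable (fun p : ℂ × ℂ => h p.1 ^ 2 * gau N (p.1 - p.2)) (volume.prod volume) := by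
    refine Measurable.aestronglyMeasurable ?_
    exact ((H.m.comp measurable_fst).pow_const 2).mul
      ((continuous_gau N).measurable.comp (measurable_fst.sub measurable_snd))
  have hI : Integrable (fun p : ℂ × ℂ => h p.1 ^ 2 * gau N (p.1 - p.2)) (volume.prod volume) := by
    rw [integrable_prod_iff hm]
    refine ⟨Eventually.of_forall fun x => ?_, ?_⟩
    · simp only
      exact (hg1 x).const_mul (h x ^ 2)
    refine H.sq.integrable.congr (Eventually.of_forall fun x => ?_)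
    simp only
    have e : (fun y : ℂ => ‖h x ^ 2 * gau N (x - y)‖) = fun y => h x ^ 2 * gau N (x - y) := by
      funext y
      rw [Real.norm_of_nonneg (mul_nonneg (sq_nonneg _) (gau_nonneg N _))]
    rw [e, integral_const_mul, hg2 x, mul_one]
  refine ⟨hI, ?_⟩
  have h2 : ∫ p : ℂ × ℂ, h p.1 ^ 2 * gau N (p.1 - p.2) = ∫ x : ℂ, ∫ y : ℂ, h x ^ 2 * gau N (x - y) :=
    integral_prod _ hI
  rw [h2]
  refine integral_congr_ae (Eventually.of_forall fun x => ?_)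
  simp only
  rw [integral_const_mul, hg2 x, mul_one]

private theorem FC_int2 {ρ B N : ℝ} (hN : 0 < N) {h : ℂ → ℝ} (H : Bd ρ B h) :
    Integrable (fun p : ℂ × ℂ => h p.2 ^ 2 * gau N (p.1 - p.2)) ∧
      ∫ p : ℂ × ℂ, h p.2 ^ 2 * gau N (p.1 - p.2) = ∫ x, h x ^ 2 := by
  have h1 := FC_int1 hN H
  have e : ∀ p : ℂ × ℂ, h p.2 ^ 2 * gau N (p.1 - p.2) = h (Prod.swap p).1 ^ 2 * gau N ((Prod.swap p).1 - (Prod.swap p).2) := by
    intro p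
    simp only [Prod.fst_swap, Prod.snd_swap]
    congr 1
    unfold gau
    rw [norm_sub_rev]
  constructor
  · exact (Integrable.swap h1.1).congr (Eventually.of_forall fun p => (e p).symm)
  · rw [← h1.2]
    have h2 := integral_prod_swap (μ := (volume : Measure ℂ)) (ν := (volume : Measure ℂ))
      (fun p : ℂ × ℂ => h p.1 ^ 2 * gau N (p.1 - p.2))
    calc ∫ p : ℂ × ℂ, h p.2 ^ 2 * gau N (p.1 - p.2)
        = ∫ p : ℂ × ℂ, h (Prod.swap p).1 ^ 2 * gau N ((Prod.swap p).1 - (Prod.swap p).2) :=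
          integral_congr_ae (Eventually.of_forall e)
      _ = ∫ p : ℂ × ℂ, h p.1 ^ 2 * gau N (p.1 - p.2) := h2

/-- Schur's test for the Gaussian kernel -/
theorem schur {ρ B N : ℝ} (hN : 0 < N) {h : ℂ → ℝ} (H : Bd ρ B h) :
    Integrable (fun p : ℂ × ℂ => |h p.1| * |h p.2| * gau N (p.1 - p.2)) ∧
      ∫ p : ℂ × ℂ, |h p.1| * |h p.2| * gau N (p.1 - p.2) ≤ ∫ x, h x ^ 2 := by
  have h1 := FC_int1 hN H
  have h2 := FC_int2 hN H
  have h3 : Integrable (fun p : ℂ × ℂ => (h p.1 ^ 2 * gau N (p.1 - p.2) + h p.2 ^ 2 * gau N (p.1 - p.2)) / 2) :=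
    (h1.1.add h2.1).div_const 2
  have hle : ∀ p : ℂ × ℂ, |h p.1| * |h p.2| * gau N (p.1 - p.2)
      ≤ (h p.1 ^ 2 * gau N (p.1 - p.2) + h p.2 ^ 2 * gau N (p.1 - p.2)) / 2 := by
    intro p
    have h4 := gau_nonneg N (p.1 - p.2)
    have h5 : |h p.1| * |h p.2| ≤ (h p.1 ^ 2 + h p.2 ^ 2) / 2 := by
      rw [← sq_abs (h p.1), ← sq_abs (h p.2)]
      nlinarith [sq_nonneg (|h p.1| - |h p.2|)]
    nlinarith
  have hI : Integrable (fun p : ℂ × ℂ => |h p.1| * |h p.2| * gau N (p.1 - p.2)) := by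
    refine h3.mono' ?_ (Eventually.of_forall fun p => ?_)
    · refine Measurable.aestronglyMeasurable ?_
      exact ((H.m.comp measurable_fst).abs.mul (H.m.comp measurable_snd).abs).mul
        ((continuous_gau N).measurable.comp (measurable_fst.sub measurable_snd))
    · rw [Real.norm_of_nonneg (mul_nonneg (mul_nonneg (abs_nonneg _) (abs_nonneg _)) (gau_nonneg N _))]
      exact hle p
  refine ⟨hI, ?_⟩
  calc ∫ p : ℂ × ℂ, |h p.1| * |h p.2| * gau N (p.1 - p.2)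
      ≤ ∫ p : ℂ × ℂ, (h p.1 ^ 2 * gau N (p.1 - p.2) + h p.2 ^ 2 * gau N (p.1 - p.2)) / 2 :=
        integral_mono hI h3 hle
    _ = ∫ x, h x ^ 2 := by
        rw [integral_div, integral_add h1.1 h2.1, h1.2, h2.2]
        ring

private theorem FC_kk_diag {s a : ℝ} (hs : 0 < s) (ha : a ≠ 0) (w₀ x₁ x₂ : ℂ) :
    ‖kk s a a w₀ x₁ x₂‖ = (4 * a ^ 2)⁻¹ * gau (2 * |a| * s) (x₁ - x₂) := by
  rw [norm_kk hs]
  have e1 : ((a - a : ℝ) : ℂ) * w₀ - (a * x₁ - a * x₂) = -((a : ℂ) * (x₁ - x₂)) := by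
    push_cast
    ring
  rw [e1, norm_neg, norm_mul, Complex.norm_real, sub_self]
  have e2 : √((s ^ 4)⁻¹ + 4 * (0 : ℝ) ^ 2) = (s ^ 2)⁻¹ := by
    rw [show (s ^ 4)⁻¹ + 4 * (0 : ℝ) ^ 2 = ((s ^ 2)⁻¹) ^ 2 by rw [← inv_pow, ← inv_pow, ← pow_mul]; ring,
      Real.sqrt_sq (by positivity)]
  rw [e2, inv_inv]
  unfold gau
  have e3 : (2 * |a| * s) ^ 2 = 4 * a ^ 2 * s ^ 2 := by
    rw [mul_pow, mul_pow, sq_abs]
    norm_num
  rw [e3, Real.norm_eq_abs, mul_pow, sq_abs]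
  have e4 : 4 * π * (a ^ 2 * ‖x₁ - x₂‖ ^ 2) * (s ^ 2)⁻¹ / ((s ^ 4)⁻¹ + 4 * (0 : ℝ) ^ 2)
      = π * (4 * a ^ 2 * s ^ 2) * ‖x₁ - x₂‖ ^ 2 := by
    field_simp
    ring
  rw [e4]
  field_simp

/-- the diagonal bound -/
theorem diag_le {ρ B s a : ℝ} (hs : 0 < s) (ha : a ≠ 0) {h : ℂ → ℝ} (H : Bd ρ B h) (w₀ : ℂ) :
    Integrable (fun w : ℂ => win s (w - w₀) * ‖FR h a w‖ ^ 2) ∧
      ∫ w : ℂ, win s (w - w₀) * ‖FR h a w‖ ^ 2 ≤ (4 * a ^ 2)⁻¹ * ∫ x, h x ^ 2 := by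
  have h1 := pair_eq hs H a a w₀
  have e1 : ∀ w : ℂ, (win s (w - w₀) : ℂ) * (FR h a w * (starRingEnd ℂ) (FR h a w))
      = ((win s (w - w₀) * ‖FR h a w‖ ^ 2 : ℝ) : ℂ) := by
    intro w
    rw [Complex.mul_conj, Complex.normSq_eq_norm_sq]
    push_cast
    ring
  have hI : Integrable (fun w : ℂ => win s (w - w₀) * ‖FR h a w‖ ^ 2) := by
    have h2 := h1.1.re
    refine h2.congr (Eventually.of_forall fun w => ?_)
    simp only [e1 w]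
    exact Complex.ofReal_re _
  refine ⟨hI, ?_⟩
  have h3 : ((∫ w : ℂ, win s (w - w₀) * ‖FR h a w‖ ^ 2 : ℝ) : ℂ)
      = ∫ p : ℂ × ℂ, ((h p.1 : ℂ) * (h p.2 : ℂ)) * kk s a a w₀ p.1 p.2 := by
    rw [← h1.2, ← integral_complex_ofReal]
    exact integral_congr_ae (Eventually.of_forall fun w => (e1 w).symm)
  have h4 : ∫ w : ℂ, win s (w - w₀) * ‖FR h a w‖ ^ 2 ≤ ‖∫ p : ℂ × ℂ, ((h p.1 : ℂ) * (h p.2 : ℂ)) * kk s a a w₀ p.1 p.2‖ := by
    rw [← h3, Complex.norm_real]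
    exact Real.le_norm_self _
  have hN : 0 < 2 * |a| * s := by
    have := abs_pos.2 ha
    positivity
  have h5 := schur hN H
  have h6 : ‖∫ p : ℂ × ℂ, ((h p.1 : ℂ) * (h p.2 : ℂ)) * kk s a a w₀ p.1 p.2‖
      ≤ ∫ p : ℂ × ℂ, (4 * a ^ 2)⁻¹ * (|h p.1| * |h p.2| * gau (2 * |a| * s) (p.1 - p.2)) := by
    refine norm_integral_le_of_norm_le (h5.1.const_mul _) (Eventually.of_forall fun p => ?_)
    rw [norm_mul, norm_mul, Complex.norm_real, Complex.norm_real, FC_kk_diag hs ha, Real.norm_eq_abs, Real.norm_eq_abs]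
    exact le_of_eq (by ring)
  rw [integral_const_mul] at h6
  refine h4.trans (h6.trans ?_)
  exact mul_le_mul_of_nonneg_left h5.2 (by positivity)

private theorem FC_kk_far {ρ s R a b : ℝ} (hs : 0 < s) (hR : 0 ≤ R) (hab : (s ^ 2)⁻¹ ≤ |a - b|)
    (hfar : 4 * ρ * (|a| + |b|) ≤ |a - b| * R) {w₀ x₁ x₂ : ℂ} (hw : R / 2 ≤ ‖w₀‖) (h1 : ‖x₁‖ ≤ ρ)
    (h2 : ‖x₂‖ ≤ ρ) : ‖kk s a b w₀ x₁ x₂‖ ≤ s ^ 2 * Real.exp (-(π / 20 * (R / s) ^ 2)) := by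
  rw [norm_kk hs]
  have hD : 0 < (s ^ 4)⁻¹ + 4 * (a - b) ^ 2 := by positivity
  have e1 : (√((s ^ 4)⁻¹ + 4 * (a - b) ^ 2))⁻¹ ≤ s ^ 2 := by
    rw [inv_le_comm₀ (Real.sqrt_pos.2 hD) (by positivity)]
    refine Real.le_sqrt_of_sq_le ?_
    rw [← inv_pow, ← inv_pow, ← pow_mul]
    norm_num
    positivity
  have e2 : |a - b| * R / 4 ≤ ‖((a - b : ℝ) : ℂ) * w₀ - (a * x₁ - b * x₂)‖ := by
    have h3 : ‖(a : ℂ) * x₁ - b * x₂‖ ≤ ρ * (|a| + |b|) := by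
      refine (norm_sub_le _ _).trans ?_
      rw [norm_mul, norm_mul, Complex.norm_real, Complex.norm_real, Real.norm_eq_abs, Real.norm_eq_abs]
      nlinarith [abs_nonneg a, abs_nonneg b]
    have h4 : ‖((a - b : ℝ) : ℂ) * w₀‖ = |a - b| * ‖w₀‖ := by
      rw [norm_mul, Complex.norm_real, Real.norm_eq_abs]
    have h5 := norm_sub_norm_le (((a - b : ℝ) : ℂ) * w₀) ((a : ℂ) * x₁ - b * x₂)
    rw [h4] at h5
    have h6 : |a - b| * (R / 2) ≤ |a - b| * ‖w₀‖ := mul_le_mul_of_nonneg_left hw (abs_nonneg _)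
    nlinarith
  have e3 : π / 20 * (R / s) ^ 2 ≤ 4 * π * ‖((a - b : ℝ) : ℂ) * w₀ - (a * x₁ - b * x₂)‖ ^ 2 * (s ^ 2)⁻¹ /
      ((s ^ 4)⁻¹ + 4 * (a - b) ^ 2) := by
    rw [le_div_iff₀ hD]
    have h7 : (s ^ 4)⁻¹ ≤ (a - b) ^ 2 := by
      rw [← sq_abs (a - b)]
      calc (s ^ 4)⁻¹ = ((s ^ 2)⁻¹) ^ 2 := by rw [← inv_pow, ← inv_pow, ← pow_mul]
        _ ≤ |a - b| ^ 2 := pow_le_pow_left₀ (by positivity) hab 2
    have h8 : (|a - b| * R / 4) ^ 2 ≤ ‖((a - b : ℝ) : ℂ) * w₀ - (a * x₁ - b * x₂)‖ ^ 2 :=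
      pow_le_pow_left₀ (by positivity) e2 2
    calc π / 20 * (R / s) ^ 2 * ((s ^ 4)⁻¹ + 4 * (a - b) ^ 2)
        ≤ π / 20 * (R / s) ^ 2 * ((a - b) ^ 2 + 4 * (a - b) ^ 2) := by gcongr
      _ = 4 * π * (|a - b| * R / 4) ^ 2 * (s ^ 2)⁻¹ := by
          rw [div_pow, div_pow, mul_pow, sq_abs]
          field_simp
          ring
      _ ≤ 4 * π * ‖((a - b : ℝ) : ℂ) * w₀ - (a * x₁ - b * x₂)‖ ^ 2 * (s ^ 2)⁻¹ := by gcongr
  have e4 : Real.exp (-(4 * π * ‖((a - b : ℝ) : ℂ) * w₀ - (a * x₁ - b * x₂)‖ ^ 2 * (s ^ 2)⁻¹ /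
      ((s ^ 4)⁻¹ + 4 * (a - b) ^ 2))) ≤ Real.exp (-(π / 20 * (R / s) ^ 2)) := Real.exp_le_exp.2 (neg_le_neg e3)
  exact mul_le_mul e1 e4 (Real.exp_pos _).le (by positivity)

/-- the far pairs are negligible -/
theorem far_le {ρ B s R a b : ℝ} (hs : 0 < s) (hR : 0 ≤ R) (hab : (s ^ 2)⁻¹ ≤ |a - b|)
    (hfar : 4 * ρ * (|a| + |b|) ≤ |a - b| * R) {w₀ : ℂ} (hw : R / 2 ≤ ‖w₀‖) {h : ℂ → ℝ} (H : Bd ρ B h) :
    ‖∫ w : ℂ, (win s (w - w₀) : ℂ) * (FR h a w * (starRingEnd ℂ) (FR h b w))‖ ≤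
      s ^ 2 * Real.exp (-(π / 20 * (R / s) ^ 2)) * (∫ x, |h x|) ^ 2 := by
  rw [(pair_eq hs H a b w₀).2]
  set E := s ^ 2 * Real.exp (-(π / 20 * (R / s) ^ 2)) with hE
  have hE0 : 0 ≤ E := by positivity
  have hi : Integrable (fun p : ℂ × ℂ => |h p.1| * |h p.2|) := H.abs.integrable.mul_prod H.abs.integrable
  have h1 : ‖∫ p : ℂ × ℂ, ((h p.1 : ℂ) * (h p.2 : ℂ)) * kk s a b w₀ p.1 p.2‖ ≤
      ∫ p : ℂ × ℂ, E * (|h p.1| * |h p.2|) := by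
    refine norm_integral_le_of_norm_le (hi.const_mul E) (Eventually.of_forall fun p => ?_)
    rw [norm_mul, norm_mul, Complex.norm_real, Complex.norm_real, Real.norm_eq_abs, Real.norm_eq_abs]
    by_cases hp1 : ‖p.1‖ ≤ ρ
    · by_cases hp2 : ‖p.2‖ ≤ ρ
      · have := FC_kk_far hs hR hab hfar hw hp1 hp2
        calc |h p.1| * |h p.2| * ‖kk s a b w₀ p.1 p.2‖ ≤ |h p.1| * |h p.2| * E :=
              mul_le_mul_of_nonneg_left this (by positivity)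
          _ = E * (|h p.1| * |h p.2|) := by ring
      · rw [H.s _ (not_le.1 hp2)]
        simp
    · rw [H.s _ (not_le.1 hp1)]
      simp
  refine h1.trans (le_of_eq ?_)
  rw [integral_const_mul]
  congr 1
  have h2 := integral_prod_mul (μ := (volume : Measure ℂ)) (ν := (volume : Measure ℂ)) (fun x : ℂ => |h x|)
    (fun x : ℂ => |h x|)
  rw [sq]
  exact h2

end Pool.Agent.Lib.SR.Fres
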