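import Pool.Agent.Lib.MP_b9430d_co.SR.FC

/-!
# FD: finite sums of Fresnel integrals in a Gaussian window (Fresnel smoothing, part d)

`‖∑ γᵢ Fᵢ‖² = ∑ γᵢ γⱼ Fᵢ conj Fⱼ`. The near pairs, `|αᵢ - αⱼ| R < 4 ρ (|αᵢ| + |αⱼ|)`, are bounded pointwise by
`∑ᵢ Nᵢ γᵢ² |Fᵢ|²`, the far pairs by `far_le`.
-/

set_option autoImplicit false

open MeasureTheory Complex Set Real Filter Topology

namespace Pool.Agent.Lib.SR.Fres

open Pool.MPb9430d Pool.MPb9430d.Rough Pool.MPb9430d.Frac Pool.MPb9430d.Mom Pool.Agent.Lib.SR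

/-- the pair of frequencies is near -/
def near2 (ρ R a b : ℝ) : Prop := |a - b| * R < 4 * ρ * (|a| + |b|)

theorem near2_symm {ρ R a b : ℝ} (h : near2 ρ R a b) : near2 ρ R b a := by
  unfold near2 at h ⊢
  rw [abs_sub_comm, add_comm]
  exact h

open Classical in
/-- the number of frequencies near to `i` -/
noncomputable def Nn {ι : Type*} (Λ : Finset ι) (α : ι → ℝ) (ρ R : ℝ) (i : ι) : ℕ :=
  (Λ.filter fun j => near2 ρ R (α i) (α j)).card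

open Classical in
private theorem FD_near {ι : Type*} (Λ : Finset ι) (α : ι → ℝ) (ρ R : ℝ) (g : ι → ℝ) :
    ∑ p ∈ (Λ ×ˢ Λ).filter (fun p => near2 ρ R (α p.1) (α p.2)), g p.1 * g p.2 ≤
      ∑ i ∈ Λ, (Nn Λ α ρ R i : ℝ) * g i ^ 2 := by
  have h1 : ∑ p ∈ (Λ ×ˢ Λ).filter (fun p => near2 ρ R (α p.1) (α p.2)), g p.1 * g p.2 ≤
      ∑ p ∈ (Λ ×ˢ Λ).filter (fun p => near2 ρ R (α p.1) (α p.2)), (g p.1 ^ 2 / 2 + g p.2 ^ 2 / 2) := by
    refine Finset.sum_le_sum fun p _ => ?_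
    nlinarith [sq_nonneg (g p.1 - g p.2)]
  have h2 : ∑ p ∈ (Λ ×ˢ Λ).filter (fun p => near2 ρ R (α p.1) (α p.2)), g p.1 ^ 2
      = ∑ i ∈ Λ, (Nn Λ α ρ R i : ℝ) * g i ^ 2 := by
    rw [Finset.sum_filter, Finset.sum_product]
    refine Finset.sum_congr rfl fun i _ => ?_
    rw [← Finset.sum_filter]
    simp only [Finset.sum_const, nsmul_eq_mul]
    rfl
  have h3 : ∑ p ∈ (Λ ×ˢ Λ).filter (fun p => near2 ρ R (α p.1) (α p.2)), g p.2 ^ 2
      = ∑ i ∈ Λ, (Nn Λ α ρ R i : ℝ) * g i ^ 2 := by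
    rw [Finset.sum_filter, Finset.sum_product_right]
    refine Finset.sum_congr rfl fun i _ => ?_
    rw [← Finset.sum_filter]
    simp only [Finset.sum_const, nsmul_eq_mul]
    congr 2
    unfold Nn
    congr 1
    ext j
    simp only [Finset.mem_filter]
    exact ⟨fun h => ⟨h.1, near2_symm h.2⟩, fun h => ⟨h.1, near2_symm h.2⟩⟩
  refine h1.trans (le_of_eq ?_)
  rw [Finset.sum_add_distrib, ← Finset.sum_div, ← Finset.sum_div, h2, h3]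
  ring

/-- the bound in one window -/
theorem window_le {ι : Type*} {ρ B s R : ℝ} (hs : 0 < s) (hR : 0 ≤ R) (Λ : Finset ι) (α γ : ι → ℝ)
    (h0 : ∀ i ∈ Λ, α i ≠ 0) (hsp : ∀ i ∈ Λ, ∀ j ∈ Λ, i ≠ j → (s ^ 2)⁻¹ ≤ |α i - α j|)
    {w₀ : ℂ} (hw : R / 2 ≤ ‖w₀‖) (hρ : 0 < ρ) {h : ℂ → ℝ} (H : Bd ρ B h) :
    Integrable (fun w : ℂ => win s (w - w₀) * ‖∑ i ∈ Λ, (γ i : ℂ) * FR h (α i) w‖ ^ 2) ∧
    ∫ w : ℂ, win s (w - w₀) * ‖∑ i ∈ Λ, (γ i : ℂ) * FR h (α i) w‖ ^ 2 ≤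
      (∑ i ∈ Λ, (Nn Λ α ρ R i : ℝ) * γ i ^ 2 / (4 * α i ^ 2)) * (∫ x, h x ^ 2) +
      (∑ i ∈ Λ, |γ i|) ^ 2 * (s ^ 2 * Real.exp (-(π / 20 * (R / s) ^ 2)) * (∫ x, |h x|) ^ 2) := by
  classical
  set F : ι → ℂ → ℂ := fun i w => FR h (α i) w with hF
  set G : ι × ι → ℂ → ℂ := fun p w => (win s (w - w₀) : ℂ) * (F p.1 w * (starRingEnd ℂ) (F p.2 w)) with hG
  have hGI : ∀ p : ι × ι, Integrable (G p) := fun p => (pair_eq hs H (α p.1) (α p.2) w₀).1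
  -- the pointwise expansion
  have e1 : ∀ w : ℂ, ((win s (w - w₀) * ‖∑ i ∈ Λ, (γ i : ℂ) * F i w‖ ^ 2 : ℝ) : ℂ)
      = ∑ p ∈ Λ ×ˢ Λ, ((γ p.1 * γ p.2 : ℝ) : ℂ) * G p w := by
    intro w
    have e2 : ((‖∑ i ∈ Λ, (γ i : ℂ) * F i w‖ ^ 2 : ℝ) : ℂ)
        = (∑ i ∈ Λ, (γ i : ℂ) * F i w) * (starRingEnd ℂ) (∑ i ∈ Λ, (γ i : ℂ) * F i w) := by
      rw [Complex.mul_conj, Complex.normSq_eq_norm_sq]
    rw [Complex.ofReal_mul, e2, map_sum, Finset.sum_mul_sum, ← Finset.sum_product', Finset.mul_sum]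
    refine Finset.sum_congr rfl fun p _ => ?_
    rw [hG, map_mul, Complex.conj_ofReal]
    push_cast
    ring
  have hI : Integrable (fun w : ℂ => win s (w - w₀) * ‖∑ i ∈ Λ, (γ i : ℂ) * F i w‖ ^ 2) := by
    have h1 : Integrable (fun w : ℂ => ∑ p ∈ Λ ×ˢ Λ, ((γ p.1 * γ p.2 : ℝ) : ℂ) * G p w) :=
      integrable_finsetSum _ fun p _ => (hGI p).const_mul _
    refine h1.re.congr (Eventually.of_forall fun w => ?_)
    simp only [← e1 w]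
    exact Complex.ofReal_re _
  refine ⟨hI, ?_⟩
  -- splitting
  set NP := (Λ ×ˢ Λ).filter (fun p => near2 ρ R (α p.1) (α p.2)) with hNP
  set FP := (Λ ×ˢ Λ).filter (fun p => ¬ near2 ρ R (α p.1) (α p.2)) with hFP
  have e3 : ∀ w : ℂ, win s (w - w₀) * ‖∑ i ∈ Λ, (γ i : ℂ) * F i w‖ ^ 2
      ≤ (∑ i ∈ Λ, (Nn Λ α ρ R i : ℝ) * γ i ^ 2 * (win s (w - w₀) * ‖F i w‖ ^ 2)) +
        (∑ p ∈ FP, ((γ p.1 * γ p.2 : ℝ) : ℂ) * G p w).re := by
    intro w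
    have h1 : win s (w - w₀) * ‖∑ i ∈ Λ, (γ i : ℂ) * F i w‖ ^ 2
        = (∑ p ∈ NP, ((γ p.1 * γ p.2 : ℝ) : ℂ) * G p w).re + (∑ p ∈ FP, ((γ p.1 * γ p.2 : ℝ) : ℂ) * G p w).re := by
      rw [← Complex.add_re, hNP, hFP, Finset.sum_filter_add_sum_filter_not, ← e1 w]
      exact (Complex.ofReal_re _).symm
    rw [h1]
    refine add_le_add ?_ le_rfl
    have h2 : (∑ p ∈ NP, ((γ p.1 * γ p.2 : ℝ) : ℂ) * G p w).re ≤
        ∑ p ∈ NP, win s (w - w₀) * ((|γ p.1| * ‖F p.1 w‖) * (|γ p.2| * ‖F p.2 w‖)) := by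
      refine (Complex.re_le_norm _).trans ((norm_sum_le _ _).trans (le_of_eq ?_))
      refine Finset.sum_congr rfl fun p _ => ?_
      rw [hG]
      simp only
      rw [norm_mul, norm_mul, norm_mul, Complex.norm_real, Complex.norm_real, Complex.norm_conj,
        Real.norm_of_nonneg (win_pos s _).le, Real.norm_eq_abs, abs_mul]
      ring
    refine h2.trans ?_
    rw [← Finset.mul_sum]
    have h3 := FD_near Λ α ρ R (fun i => |γ i| * ‖F i w‖)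
    have h4 := mul_le_mul_of_nonneg_left h3 (win_pos s (w - w₀)).le
    refine h4.trans (le_of_eq ?_)
    rw [Finset.mul_sum]
    refine Finset.sum_congr rfl fun i _ => ?_
    rw [mul_pow, sq_abs]
    ring
  have hd : ∀ i ∈ Λ, Integrable (fun w : ℂ => win s (w - w₀) * ‖F i w‖ ^ 2) ∧
      ∫ w : ℂ, win s (w - w₀) * ‖F i w‖ ^ 2 ≤ (4 * α i ^ 2)⁻¹ * ∫ x, h x ^ 2 := fun i hi => diag_le hs (h0 i hi) H w₀
  have hI1 : Integrable (fun w : ℂ => ∑ i ∈ Λ, (Nn Λ α ρ R i : ℝ) * γ i ^ 2 * (win s (w - w₀) * ‖F i w‖ ^ 2)) :=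
    integrable_finsetSum _ fun i hi => (hd i hi).1.const_mul _
  have hI2c : Integrable (fun w : ℂ => ∑ p ∈ FP, ((γ p.1 * γ p.2 : ℝ) : ℂ) * G p w) :=
    integrable_finsetSum _ fun p _ => (hGI p).const_mul _
  have hI2 : Integrable (fun w : ℂ => (∑ p ∈ FP, ((γ p.1 * γ p.2 : ℝ) : ℂ) * G p w).re) := hI2c.re
  have h5 : ∫ w : ℂ, win s (w - w₀) * ‖∑ i ∈ Λ, (γ i : ℂ) * F i w‖ ^ 2 ≤
      (∫ w : ℂ, ∑ i ∈ Λ, (Nn Λ α ρ R i : ℝ) * γ i ^ 2 * (win s (w - w₀) * ‖F i w‖ ^ 2)) +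
        ∫ w : ℂ, (∑ p ∈ FP, ((γ p.1 * γ p.2 : ℝ) : ℂ) * G p w).re := by
    rw [← integral_add hI1 hI2]
    exact integral_mono hI (hI1.add hI2) e3
  refine h5.trans (add_le_add ?_ ?_)
  · rw [integral_finsetSum _ fun i hi => (hd i hi).1.const_mul _, Finset.sum_mul]
    refine Finset.sum_le_sum fun i hi => ?_
    rw [integral_const_mul]
    have h6 : 0 ≤ (Nn Λ α ρ R i : ℝ) * γ i ^ 2 := by positivity
    refine (mul_le_mul_of_nonneg_left (hd i hi).2 h6).trans (le_of_eq ?_)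
    rw [div_eq_mul_inv]
    ring
  · have h7 : ∫ w : ℂ, (∑ p ∈ FP, ((γ p.1 * γ p.2 : ℝ) : ℂ) * G p w).re
        = (∫ w : ℂ, ∑ p ∈ FP, ((γ p.1 * γ p.2 : ℝ) : ℂ) * G p w).re := by
      exact integral_re hI2c
    rw [h7, integral_finsetSum _ fun p _ => (hGI p).const_mul _]
    set E := s ^ 2 * Real.exp (-(π / 20 * (R / s) ^ 2)) * (∫ x, |h x|) ^ 2 with hE
    have hE0 : 0 ≤ E := by positivity
    refine (Complex.re_le_norm _).trans ((norm_sum_le _ _).trans ?_)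
    have h8 : ∀ p ∈ FP, ‖∫ w : ℂ, ((γ p.1 * γ p.2 : ℝ) : ℂ) * G p w‖ ≤ |γ p.1| * |γ p.2| * E := by
      intro p hp
      rw [hFP, Finset.mem_filter, Finset.mem_product] at hp
      rw [integral_const_mul, norm_mul, Complex.norm_real, Real.norm_eq_abs, abs_mul]
      refine mul_le_mul_of_nonneg_left ?_ (by positivity)
      have hne : p.1 ≠ p.2 := by
        intro he
        refine hp.2 ?_
        rw [he]
        unfold near2
        rw [sub_self, abs_zero, zero_mul]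
        have := abs_pos.2 (h0 p.2 hp.1.2)
        positivity
      have hfar : 4 * ρ * (|α p.1| + |α p.2|) ≤ |α p.1 - α p.2| * R := by
        have := hp.2
        unfold near2 at this
        exact not_lt.1 this
      exact far_le hs hR (hsp _ hp.1.1 _ hp.1.2 hne) hfar hw H
    refine (Finset.sum_le_sum h8).trans ?_
    rw [← Finset.sum_mul]
    refine mul_le_mul_of_nonneg_right ?_ hE0
    rw [sq, Finset.sum_mul_sum, ← Finset.sum_product']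
    exact Finset.sum_le_sum_of_subset_of_nonneg (Finset.filter_subset _ _) fun p _ _ => by positivity

end Pool.Agent.Lib.SR.Fres
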