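import Pool.Agent.Lib.MP_b9430d_co.SR.FD

/-!
# FE: from the Gaussian windows to the shell (Fresnel smoothing, part e)

For `R ≤ ‖w‖ ≤ 2R` and `2 s ≤ R`: `1 ≤ e^π / (π s²) ∫ win s (w - w₀) dw₀` over `R/2 ≤ ‖w₀‖ ≤ 3R` (the disc of radius `s`).
-/

set_option autoImplicit false

open MeasureTheory Complex Set Real Filter Topology
open scoped ENNReal

namespace Pool.Agent.Lib.SR.Fres

open Pool.MPb9430d Pool.MPb9430d.Rough Pool.MPb9430d.Frac Pool.MPb9430d.Mom Pool.Agent.Lib.SR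

/-- the annulus of the centres -/
def An (R : ℝ) : Set ℂ := {w | R / 2 ≤ ‖w‖ ∧ ‖w‖ ≤ 3 * R}

theorem measurableSet_An (R : ℝ) : MeasurableSet (An R) := by
  have h1 : MeasurableSet {w : ℂ | R / 2 ≤ ‖w‖} := measurableSet_le measurable_const measurable_norm
  have h2 : MeasurableSet {w : ℂ | ‖w‖ ≤ 3 * R} := measurableSet_le measurable_norm measurable_const
  exact h1.inter h2

private theorem FE_one {s R : ℝ} (hs : 0 < s) (hsR : 2 * s ≤ R) {w : ℂ} (h1 : R ≤ ‖w‖) (h2 : ‖w‖ ≤ 2 * R) :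
    1 ≤ ENNReal.ofReal (Real.exp π / (π * s ^ 2)) * ∫⁻ w₀ in An R, ENNReal.ofReal (win s (w - w₀)) := by
  have hsub : Metric.closedBall w s ⊆ An R := by
    intro v hv
    rw [Metric.mem_closedBall, dist_eq_norm] at hv
    have h3 : |‖v‖ - ‖w‖| ≤ s := (abs_norm_sub_norm_le v w).trans hv
    rw [abs_le] at h3
    constructor <;> linarith [h3.1, h3.2]
  have h4 : ENNReal.ofReal (Real.exp (-π)) * volume (Metric.closedBall w s) ≤
      ∫⁻ w₀ in An R, ENNReal.ofReal (win s (w - w₀)) := by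
    calc ENNReal.ofReal (Real.exp (-π)) * volume (Metric.closedBall w s)
        = ∫⁻ _ in Metric.closedBall w s, ENNReal.ofReal (Real.exp (-π)) := by
          rw [setLIntegral_const]
      _ ≤ ∫⁻ w₀ in Metric.closedBall w s, ENNReal.ofReal (win s (w - w₀)) := by
          refine setLIntegral_mono' measurableSet_closedBall fun v hv => ENNReal.ofReal_le_ofReal ?_
          unfold win
          rw [Real.exp_le_exp, neg_le_neg_iff]
          rw [Metric.mem_closedBall, dist_eq_norm, norm_sub_rev] at hv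
          rw [div_le_iff₀ (by positivity)]
          have : ‖w - v‖ ^ 2 ≤ s ^ 2 := pow_le_pow_left₀ (norm_nonneg _) hv 2
          exact mul_le_mul_of_nonneg_left this Real.pi_pos.le
      _ ≤ ∫⁻ w₀ in An R, ENNReal.ofReal (win s (w - w₀)) := lintegral_mono_set hsub
  refine le_trans ?_ (mul_le_mul_right h4 _)
  rw [Complex.volume_closedBall, ← ENNReal.ofReal_pow hs.le, ← ENNReal.ofReal_coe_nnreal, NNReal.coe_real_pi,
    ← ENNReal.ofReal_mul (by positivity), ← ENNReal.ofReal_mul (by positivity), ← ENNReal.ofReal_mul (by positivity)]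
  rw [← ENNReal.ofReal_one]
  refine ENNReal.ofReal_le_ofReal (le_of_eq ?_)
  rw [Real.exp_neg]
  field_simp

/-- from windows to the shell -/
theorem shell_le {s R K : ℝ} (hs : 0 < s) (hsR : 2 * s ≤ R) (hK : 0 ≤ K) {f : ℂ → ℝ} (hf : Measurable f)
    (hf0 : ∀ w, 0 ≤ f w)
    (hwin : ∀ w₀ : ℂ, R / 2 ≤ ‖w₀‖ → Integrable (fun w => win s (w - w₀) * f w) ∧
      ∫ w, win s (w - w₀) * f w ≤ K) :
    ∫ w in {w : ℂ | R ≤ ‖w‖ ∧ ‖w‖ ≤ 2 * R}, f w ≤ 9 * Real.exp π * (R / s) ^ 2 * K := by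
  have hR0 : 0 < R := by linarith
  set S : Set ℂ := {w : ℂ | R ≤ ‖w‖ ∧ ‖w‖ ≤ 2 * R} with hS
  have hSm : MeasurableSet S := by
    have h1 : MeasurableSet {w : ℂ | R ≤ ‖w‖} := measurableSet_le measurable_const measurable_norm
    have h2 : MeasurableSet {w : ℂ | ‖w‖ ≤ 2 * R} := measurableSet_le measurable_norm measurable_const
    exact h1.inter h2
  set c : ℝ≥0∞ := ENNReal.ofReal (Real.exp π / (π * s ^ 2)) with hc
  have hmw : Measurable fun z : ℂ × ℂ => ENNReal.ofReal (win s (z.1 - z.2)) :=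
    ((continuous_win s).measurable.comp (measurable_fst.sub measurable_snd)).ennreal_ofReal
  have h1 : ∫⁻ w in S, ENNReal.ofReal (f w) ≤
      ∫⁻ w in S, ∫⁻ w₀ in An R, c * (ENNReal.ofReal (f w) * ENNReal.ofReal (win s (w - w₀))) := by
    refine setLIntegral_mono' hSm fun w hw => ?_
    have h2 := FE_one hs hsR hw.1 hw.2
    have hm1 : Measurable fun w₀ : ℂ => ENNReal.ofReal (win s (w - w₀)) :=
      ((continuous_win s).measurable.comp (measurable_const.sub measurable_id)).ennreal_ofReal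
    rw [lintegral_const_mul _ (hm1.const_mul _), lintegral_const_mul _ hm1]
    calc ENNReal.ofReal (f w) = ENNReal.ofReal (f w) * 1 := (mul_one _).symm
      _ ≤ ENNReal.ofReal (f w) * (c * ∫⁻ w₀ in An R, ENNReal.ofReal (win s (w - w₀))) := by gcongr
      _ = c * (ENNReal.ofReal (f w) * ∫⁻ w₀ in An R, ENNReal.ofReal (win s (w - w₀))) := by ring
  have h3 : ∫⁻ w in S, ∫⁻ w₀ in An R, c * (ENNReal.ofReal (f w) * ENNReal.ofReal (win s (w - w₀))) =
      ∫⁻ w₀ in An R, ∫⁻ w in S, c * (ENNReal.ofReal (f w) * ENNReal.ofReal (win s (w - w₀))) := by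
    refine lintegral_lintegral_swap ?_
    refine Measurable.aemeasurable ?_
    exact ((hf.comp measurable_fst).ennreal_ofReal.mul hmw).const_mul c
  have h4 : ∀ w₀ ∈ An R, ∫⁻ w in S, c * (ENNReal.ofReal (f w) * ENNReal.ofReal (win s (w - w₀))) ≤
      c * ENNReal.ofReal K := by
    intro w₀ hw₀
    have hm2 : Measurable fun w : ℂ => ENNReal.ofReal (f w) * ENNReal.ofReal (win s (w - w₀)) :=
      hf.ennreal_ofReal.mul ((continuous_win s).measurable.comp (measurable_id.sub measurable_const)).ennreal_ofReal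
    rw [lintegral_const_mul _ hm2]
    refine mul_le_mul_right ?_ _
    have h5 := hwin w₀ hw₀.1
    calc ∫⁻ w in S, ENNReal.ofReal (f w) * ENNReal.ofReal (win s (w - w₀))
        ≤ ∫⁻ w, ENNReal.ofReal (f w) * ENNReal.ofReal (win s (w - w₀)) := setLIntegral_le_lintegral _ _
      _ = ∫⁻ w, ENNReal.ofReal (win s (w - w₀) * f w) := by
          refine lintegral_congr fun w => ?_
          rw [← ENNReal.ofReal_mul (hf0 w), mul_comm]
      _ = ENNReal.ofReal (∫ w, win s (w - w₀) * f w) :=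
          (ofReal_integral_eq_lintegral_ofReal h5.1
            (Eventually.of_forall fun w => mul_nonneg (win_pos s _).le (hf0 w))).symm
      _ ≤ ENNReal.ofReal K := ENNReal.ofReal_le_ofReal h5.2
  have h6 : ∫⁻ w in S, ENNReal.ofReal (f w) ≤ ENNReal.ofReal (9 * Real.exp π * (R / s) ^ 2 * K) := by
    refine (h1.trans (h3.le)).trans ?_
    refine (setLIntegral_mono' (measurableSet_An R) h4).trans ?_
    rw [setLIntegral_const]
    have h7 : volume (An R) ≤ ENNReal.ofReal (π * (3 * R) ^ 2) := by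
      have hsub : An R ⊆ Metric.closedBall (0 : ℂ) (3 * R) := fun v hv => by
        rw [mem_closedBall_zero_iff]
        exact hv.2
      refine (measure_mono hsub).trans ?_
      rw [Complex.volume_closedBall, ← ENNReal.ofReal_pow (by positivity), ← ENNReal.ofReal_coe_nnreal,
        NNReal.coe_real_pi, ← ENNReal.ofReal_mul (by positivity)]
      exact ENNReal.ofReal_le_ofReal (le_of_eq (by ring))
    calc c * ENNReal.ofReal K * volume (An R) ≤ c * ENNReal.ofReal K * ENNReal.ofReal (π * (3 * R) ^ 2) := by gcongr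
      _ = ENNReal.ofReal (9 * Real.exp π * (R / s) ^ 2 * K) := by
          rw [hc, ← ENNReal.ofReal_mul (by positivity), ← ENNReal.ofReal_mul (by positivity)]
          congr 1
          field_simp
          ring
  rw [integral_eq_lintegral_of_nonneg_ae (Eventually.of_forall hf0) hf.aestronglyMeasurable]
  exact ENNReal.toReal_le_of_le_ofReal (by positivity) h6

/-- the Fresnel integrals are measurable functions of `w` -/
theorem measurable_FR {h : ℂ → ℝ} (hm : Measurable h) (a : ℝ) : Measurable (FR h a) := by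
  unfold FR
  have h1 : Measurable fun z : ℂ × ℂ => (h z.2 : ℂ) * ee (a * ‖z.2 - z.1‖ ^ 2) := by
    refine (Complex.measurable_ofReal.comp (hm.comp measurable_snd)).mul ?_
    refine (continuous_ee.comp ?_).measurable
    fun_prop
  exact (h1.stronglyMeasurable.integral_prod_right' (ν := volume)).measurable

/-- the bound on the shell -/
theorem shell_sum {ι : Type*} {ρ B s R : ℝ} (hs : 0 < s) (hsR : 2 * s ≤ R) (Λ : Finset ι) (α γ : ι → ℝ)
    (h0 : ∀ i ∈ Λ, α i ≠ 0) (hsp : ∀ i ∈ Λ, ∀ j ∈ Λ, i ≠ j → (s ^ 2)⁻¹ ≤ |α i - α j|)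
    (hρ : 0 < ρ) {h : ℂ → ℝ} (H : Bd ρ B h) :
    ∫ w in {w : ℂ | R ≤ ‖w‖ ∧ ‖w‖ ≤ 2 * R}, ‖∑ i ∈ Λ, (γ i : ℂ) * FR h (α i) w‖ ^ 2 ≤
      9 * Real.exp π * (R / s) ^ 2 *
        ((∑ i ∈ Λ, (Nn Λ α ρ R i : ℝ) * γ i ^ 2 / (4 * α i ^ 2)) * (∫ x, h x ^ 2) +
        (∑ i ∈ Λ, |γ i|) ^ 2 * (s ^ 2 * Real.exp (-(π / 20 * (R / s) ^ 2)) * (∫ x, |h x|) ^ 2)) := by
  refine shell_le hs hsR ?_ ?_ (fun w => sq_nonneg _) fun w₀ hw₀ =>
    window_le hs (by linarith) Λ α γ h0 hsp hw₀ hρ H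
  · have h1 : 0 ≤ ∑ i ∈ Λ, (Nn Λ α ρ R i : ℝ) * γ i ^ 2 / (4 * α i ^ 2) :=
      Finset.sum_nonneg fun i _ => by positivity
    have h2 : 0 ≤ ∫ x, h x ^ 2 := integral_nonneg fun x => sq_nonneg _
    positivity
  · refine Measurable.pow_const (Measurable.norm ?_) 2
    exact Finset.measurable_fun_sum _ fun i _ => (measurable_FR H.m (α i)).const_mul _

end Pool.Agent.Lib.SR.Fres
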