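import Pool.Agent.Lib.MP_b9430d_co.SR.FE

/-!
# FF: counting (Fresnel smoothing, part f)

Rational numbers with denominator at most `Q` are `1/Q²`-separated; the number of frequencies near to `α` is at most
`2 + 24 ρ Q² |α| / R`. `∑ min(κ², α⁻²) ≤ 6 κ Q²`, `∑ 1/|α| ≤ 2 Q² (1 + log (H Q))` over the frequencies `α ≠ 0`.
-/

set_option autoImplicit false

open MeasureTheory Complex Set Real Filter Topology
open scoped ENNReal

namespace Pool.Agent.Lib.SR.Fres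

open Pool.MPb9430d Pool.MPb9430d.Rough Pool.MPb9430d.Frac Pool.MPb9430d.Mom Pool.Agent.Lib.SR

/-- the nonzero frequencies -/
noncomputable def F0 (Q : ℕ) (H : ℝ) : Finset ℚ := (FQ Q H).filter fun α => α ≠ 0

theorem mem_F0 {Q : ℕ} {H : ℝ} {α : ℚ} : α ∈ F0 Q H ↔ (α.den ≤ Q ∧ |(α : ℝ)| ≤ H) ∧ α ≠ 0 := by
  unfold F0
  rw [Finset.mem_filter, mem_FQ]

/-- the spacing of the rational numbers with denominator at most `Q` -/
theorem rat_gap {Q : ℕ} {α β : ℚ} (hα : α.den ≤ Q) (hβ : β.den ≤ Q) (hne : α ≠ β) :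
    1 / (Q : ℝ) ^ 2 ≤ |(α : ℝ) - β| := by
  have hα0 : (0 : ℝ) < α.den := by exact_mod_cast α.den_pos
  have hβ0 : (0 : ℝ) < β.den := by exact_mod_cast β.den_pos
  have hα1 : (α.den : ℝ) ≤ Q := by exact_mod_cast hα
  have hβ1 : (β.den : ℝ) ≤ Q := by exact_mod_cast hβ
  have hQ : (0 : ℝ) < Q := hα0.trans_le hα1
  have e : (α : ℝ) - β = ((α.num * β.den - β.num * α.den : ℤ) : ℝ) / (α.den * β.den) := by
    rw [Rat.cast_def α, Rat.cast_def β]
    push_cast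
    field_simp
  have hn : (α.num * β.den - β.num * α.den : ℤ) ≠ 0 := by
    intro h
    apply hne
    have h1 : (α : ℝ) - β = 0 := by
      rw [e, h]
      simp
    have h2 : (α : ℝ) = β := by linarith
    exact_mod_cast h2
  rw [e, abs_div, abs_of_pos (by positivity : (0 : ℝ) < (α.den : ℝ) * β.den)]
  have h3 : (1 : ℝ) ≤ |((α.num * β.den - β.num * α.den : ℤ) : ℝ)| := by
    rw [← Int.cast_abs]
    exact_mod_cast Int.one_le_abs hn
  calc 1 / (Q : ℝ) ^ 2 ≤ 1 / ((α.den : ℝ) * β.den) := by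
        apply one_div_le_one_div_of_le (by positivity)
        rw [sq]
        exact mul_le_mul hα1 hβ1 hβ0.le hQ.le
    _ ≤ |((α.num * β.den - β.num * α.den : ℤ) : ℝ)| / ((α.den : ℝ) * β.den) := by gcongr

private theorem FF_card_int {L : ℝ} (hL : 0 ≤ L) (T : Finset ℤ)
    (h : ∀ a ∈ T, ∀ b ∈ T, (b : ℝ) - a ≤ L) : (T.card : ℝ) ≤ L + 1 := by
  rcases T.eq_empty_or_nonempty with he | hne
  · rw [he]; simp; linarith
  · have hsub : T ⊆ Finset.Icc (T.min' hne) (T.max' hne) := by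
      intro x hx
      rw [Finset.mem_Icc]
      exact ⟨Finset.min'_le _ _ hx, Finset.le_max' _ _ hx⟩
    have hle : T.min' hne ≤ T.max' hne := Finset.min'_le _ _ (Finset.max'_mem _ _)
    have hc := Finset.card_le_card hsub
    rw [Int.card_Icc] at hc
    have h1 := h _ (Finset.min'_mem _ hne) _ (Finset.max'_mem _ hne)
    have h2 : ((T.card : ℤ) : ℝ) ≤ ((T.max' hne + 1 - T.min' hne : ℤ) : ℝ) := by
      have h3 : (T.card : ℤ) ≤ T.max' hne + 1 - T.min' hne := by omega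
      exact_mod_cast h3
    push_cast at h2
    linarith

/-- separated points in a short interval -/
theorem card_sep {T : Finset ℚ} {δ D : ℝ} (hδ : 0 < δ) (hD : 0 ≤ D)
    (h1 : ∀ a ∈ T, ∀ b ∈ T, a ≠ b → δ ≤ |(a : ℝ) - b|) (h2 : ∀ a ∈ T, ∀ b ∈ T, (b : ℝ) - a ≤ D) :
    (T.card : ℝ) ≤ D / δ + 2 := by
  classical
  have hinj : Set.InjOn (fun a : ℚ => ⌊(a : ℝ) / δ⌋) (T : Set ℚ) := by
    intro a ha b hb hab
    by_contra hne
    have h3 := h1 a ha b hb hne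
    simp only at hab
    have h4 := Int.abs_sub_lt_one_of_floor_eq_floor hab
    rw [← sub_div, abs_div, abs_of_pos hδ, div_lt_one hδ] at h4
    linarith
  rw [← Finset.card_image_of_injOn hinj]
  have h5 := FF_card_int (L := D / δ + 1) (by positivity) (T.image fun a : ℚ => ⌊(a : ℝ) / δ⌋) ?_
  · linarith
  · intro x hx y hy
    rw [Finset.mem_image] at hx hy
    obtain ⟨a, ha, rfl⟩ := hx
    obtain ⟨b, hb, rfl⟩ := hy
    have h6 := Int.floor_le ((b : ℝ) / δ)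
    have h7 := Int.lt_floor_add_one ((a : ℝ) / δ)
    have h8 : (b : ℝ) / δ - a / δ ≤ D / δ := by
      rw [← sub_div]
      gcongr
      exact h2 a ha b hb
    linarith

/-- the number of near frequencies -/
theorem nn_le {Q : ℕ} {H ρ R : ℝ} (hQ : 1 ≤ Q) (hρ : 0 < ρ) (hR : 16 * ρ ≤ R) {α : ℚ} :
    (Nn (F0 Q H) (fun α : ℚ => (α : ℝ)) ρ R α : ℝ) ≤ 2 + 24 * ρ * (Q : ℝ) ^ 2 * |(α : ℝ)| / R := by
  classical
  have hR0 : 0 < R := by linarith
  have hQ0 : (0 : ℝ) < Q := by exact_mod_cast (by omega : 0 < Q)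
  unfold Nn
  have key : ∀ β ∈ (F0 Q H).filter (fun β : ℚ => near2 ρ R (α : ℝ) β), |(α : ℝ) - β| ≤ 12 * ρ * |(α : ℝ)| / R := by
    intro β hβ
    rw [Finset.mem_filter] at hβ
    have h1 := hβ.2
    unfold near2 at h1
    have h2 : |(β : ℝ)| - |(α : ℝ)| ≤ |(α : ℝ) - β| := by
      rw [abs_sub_comm]
      exact abs_sub_abs_le_abs_sub _ _
    have h3 : |(α : ℝ) - β| * R ≤ R / 4 * (|(α : ℝ)| + |(β : ℝ)|) := by
      refine h1.le.trans ?_
      have : 4 * ρ ≤ R / 4 := by linarith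
      exact mul_le_mul_of_nonneg_right this (by positivity)
    have h4 : |(α : ℝ) - β| ≤ (|(α : ℝ)| + |(β : ℝ)|) / 4 := by
      have : |(α : ℝ) - β| * R ≤ (|(α : ℝ)| + |(β : ℝ)|) / 4 * R := by linarith
      exact le_of_mul_le_mul_right this hR0
    have h5 : |(β : ℝ)| ≤ 2 * |(α : ℝ)| := by linarith [abs_nonneg (α : ℝ)]
    rw [le_div_iff₀ hR0]
    refine h1.le.trans ?_
    nlinarith
  have h6 := card_sep (T := (F0 Q H).filter (fun β : ℚ => near2 ρ R (α : ℝ) β)) (δ := 1 / (Q : ℝ) ^ 2)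
    (D := 24 * ρ * |(α : ℝ)| / R) (by positivity) (by positivity) ?_ ?_
  · refine h6.trans (le_of_eq ?_)
    field_simp
    ring
  · intro a ha b hb hne
    rw [Finset.mem_filter, mem_F0] at ha hb
    exact rat_gap ha.1.1.1 hb.1.1.1 hne
  · intro a ha b hb
    have h7 := key a ha
    have h8 := key b hb
    rw [abs_le] at h7 h8
    have e : 24 * ρ * |(α : ℝ)| / R = 12 * ρ * |(α : ℝ)| / R + 12 * ρ * |(α : ℝ)| / R := by ring
    rw [e]
    linarith [h7.1, h7.2, h8.1, h8.2]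

/-- sums over the frequencies -/
theorem sum_F0_le {Q : ℕ} {H : ℝ} {f : ℝ → ℝ} (hf : ∀ x, 0 ≤ f x) :
    ∑ α ∈ F0 Q H, f |(α : ℝ)| ≤ 2 * ∑ q ∈ Finset.Icc 1 Q, ∑ m ∈ Finset.Icc 1 ⌊H * Q⌋₊, f ((m : ℝ) / q) := by
  classical
  set e : ℚ → ℕ × ℕ := fun α => (α.den, α.num.natAbs) with he
  set B : Finset (ℕ × ℕ) := (Finset.Icc 1 Q) ×ˢ (Finset.Icc 1 ⌊H * Q⌋₊) with hB
  have habs : ∀ α : ℚ, |(α : ℝ)| = ((e α).2 : ℝ) / (e α).1 := by
    intro α
    rw [he]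
    simp only
    have h1 : (α : ℝ) = α.num / α.den := Rat.cast_def α
    rw [h1, abs_div, abs_of_nonneg (by positivity : (0 : ℝ) ≤ (α.den : ℝ))]
    congr 1
    rw [Nat.cast_natAbs, Int.cast_abs]
  have hmem : ∀ α ∈ F0 Q H, e α ∈ B := by
    intro α hα
    rw [mem_F0] at hα
    rw [hB, Finset.mem_product, Finset.mem_Icc, Finset.mem_Icc, he]
    simp only
    refine ⟨⟨α.den_pos, hα.1.1⟩, ?_, ?_⟩
    · have : α.num ≠ 0 := fun h => hα.2 (Rat.num_eq_zero.1 h)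
      omega
    · rw [Nat.le_floor_iff' (by
        have : α.num ≠ 0 := fun h => hα.2 (Rat.num_eq_zero.1 h)
        omega)]
      have h1 := habs α
      have hd : (0 : ℝ) < α.den := by exact_mod_cast α.den_pos
      have h2 : (α.num.natAbs : ℝ) = |(α : ℝ)| * α.den := by
        rw [h1, he]
        simp only
        field_simp
      have h3 : (α.den : ℝ) ≤ Q := by exact_mod_cast hα.1.1
      rw [h2]
      have h4 : 0 ≤ H := (abs_nonneg _).trans hα.1.2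
      exact mul_le_mul hα.1.2 h3 hd.le h4
  have hpart : ∀ S : Finset ℚ, S ⊆ F0 Q H → (∀ α ∈ S, ∀ β ∈ S, e α = e β → α = β) →
      ∑ α ∈ S, f |(α : ℝ)| ≤ ∑ x ∈ B, f ((x.2 : ℝ) / x.1) := by
    intro S hS hP
    have h1 : ∑ α ∈ S, f |(α : ℝ)| = ∑ x ∈ S.image e, f ((x.2 : ℝ) / x.1) := by
      rw [Finset.sum_image]
      · exact Finset.sum_congr rfl fun α _ => by rw [habs α]
      · intro α hα β hβ hab
        exact hP α hα β hβ hab
    rw [h1]
    refine Finset.sum_le_sum_of_subset_of_nonneg ?_ fun x _ _ => hf _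
    intro x hx
    rw [Finset.mem_image] at hx
    obtain ⟨α, hα, rfl⟩ := hx
    exact hmem α (hS hα)
  have hp1 := hpart ((F0 Q H).filter fun α => 0 ≤ α) (Finset.filter_subset _ _) (by
    intro α hα β hβ hab
    rw [he, Prod.mk.injEq] at hab
    have h1 := Rat.num_nonneg.2 (Finset.mem_filter.1 hα).2
    have h2 := Rat.num_nonneg.2 (Finset.mem_filter.1 hβ).2
    exact Rat.ext (by omega) hab.1)
  have hp2 := hpart ((F0 Q H).filter fun α => ¬ 0 ≤ α) (Finset.filter_subset _ _) (by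
    intro α hα β hβ hab
    rw [he, Prod.mk.injEq] at hab
    have h1 : ¬ 0 ≤ α.num := fun h => (Finset.mem_filter.1 hα).2 (Rat.num_nonneg.1 h)
    have h2 : ¬ 0 ≤ β.num := fun h => (Finset.mem_filter.1 hβ).2 (Rat.num_nonneg.1 h)
    exact Rat.ext (by omega) hab.1)
  rw [← Finset.sum_filter_add_sum_filter_not (F0 Q H) (fun α => 0 ≤ α)]
  have e2 : ∑ x ∈ B, f ((x.2 : ℝ) / x.1) = ∑ q ∈ Finset.Icc 1 Q, ∑ m ∈ Finset.Icc 1 ⌊H * Q⌋₊, f ((m : ℝ) / q) := by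
    rw [hB, Finset.sum_product]
  rw [← e2]
  linarith

/-- the first sum -/
theorem sum_min_sq {κ : ℝ} (hκ : 0 < κ) (hκ1 : κ ≤ 1) {q : ℕ} (hq : 1 ≤ q) (M : ℕ) :
    ∑ m ∈ Finset.Icc 1 M, min (κ ^ 2) (1 / ((m : ℝ) / q) ^ 2) ≤ 3 * κ * q := by
  have hq0 : (0 : ℝ) < q := by exact_mod_cast (by omega : 0 < q)
  have hq1 : (1 : ℝ) ≤ q := by exact_mod_cast hq
  set K := ⌈(q : ℝ) / κ⌉₊ with hK
  have hK1 : (q : ℝ) / κ ≤ K := Nat.le_ceil _
  have hK2 : (K : ℝ) < q / κ + 1 := Nat.ceil_lt_add_one (by positivity)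
  have hK0 : K ≠ 0 := by
    rw [hK]
    have : 0 < ⌈(q : ℝ) / κ⌉₊ := Nat.ceil_pos.2 (by positivity)
    omega
  have h1 : Finset.Icc 1 M ⊆ Finset.Icc 1 K ∪ Finset.Ioc K (max K M) := by
    intro m hm
    rw [Finset.mem_Icc] at hm
    rw [Finset.mem_union, Finset.mem_Icc, Finset.mem_Ioc]
    rcases le_or_gt m K with h | h
    · exact Or.inl ⟨hm.1, h⟩
    · exact Or.inr ⟨h, hm.2.trans (le_max_right _ _)⟩
  have hnn : ∀ m : ℕ, 0 ≤ min (κ ^ 2) (1 / ((m : ℝ) / q) ^ 2) := fun m => le_min (by positivity) (by positivity)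
  have h2 : ∑ m ∈ Finset.Icc 1 M, min (κ ^ 2) (1 / ((m : ℝ) / q) ^ 2) ≤
      ∑ m ∈ Finset.Icc 1 K, min (κ ^ 2) (1 / ((m : ℝ) / q) ^ 2) +
        ∑ m ∈ Finset.Ioc K (max K M), min (κ ^ 2) (1 / ((m : ℝ) / q) ^ 2) := by
    refine (Finset.sum_le_sum_of_subset_of_nonneg h1 fun m _ _ => hnn m).trans ?_
    rw [← Finset.sum_union_inter]
    exact le_add_of_nonneg_right (Finset.sum_nonneg fun m _ => hnn m)
  have h3 : ∑ m ∈ Finset.Icc 1 K, min (κ ^ 2) (1 / ((m : ℝ) / q) ^ 2) ≤ 2 * κ * q := by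
    have : ∑ m ∈ Finset.Icc 1 K, min (κ ^ 2) (1 / ((m : ℝ) / q) ^ 2) ≤ ∑ _m ∈ Finset.Icc 1 K, κ ^ 2 :=
      Finset.sum_le_sum fun m _ => min_le_left _ _
    refine this.trans ?_
    rw [Finset.sum_const, Nat.card_Icc, nsmul_eq_mul]
    have e : ((K + 1 - 1 : ℕ) : ℝ) = K := by norm_cast
    rw [e]
    calc (K : ℝ) * κ ^ 2 ≤ (q / κ + 1) * κ ^ 2 := by gcongr
      _ = κ * q + κ * κ := by field_simp
      _ ≤ κ * q + κ * q := by nlinarith
      _ = 2 * κ * q := by ring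
  have h4 : ∑ m ∈ Finset.Ioc K (max K M), min (κ ^ 2) (1 / ((m : ℝ) / q) ^ 2) ≤ κ * q := by
    have h5 : ∑ m ∈ Finset.Ioc K (max K M), min (κ ^ 2) (1 / ((m : ℝ) / q) ^ 2) ≤
        ∑ m ∈ Finset.Ioc K (max K M), (q : ℝ) ^ 2 * ((m : ℝ) ^ 2)⁻¹ := by
      refine Finset.sum_le_sum fun m hm => (min_le_right _ _).trans (le_of_eq ?_)
      rw [div_pow, one_div_div, div_eq_mul_inv]
    refine h5.trans ?_
    rw [← Finset.mul_sum]
    have h6 := sum_Ioc_inv_sq_le_sub (α := ℝ) hK0 (le_max_left K M)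
    have h7 : (0 : ℝ) ≤ ((max K M : ℕ) : ℝ)⁻¹ := by positivity
    have h8 : ((K : ℝ))⁻¹ ≤ κ / q := by
      rw [inv_le_comm₀ (lt_of_lt_of_le (by positivity) hK1) (by positivity), inv_div]
      exact hK1
    calc (q : ℝ) ^ 2 * ∑ m ∈ Finset.Ioc K (max K M), ((m : ℝ) ^ 2)⁻¹ ≤ (q : ℝ) ^ 2 * (κ / q) := by
          gcongr
          linarith
      _ = κ * q := by field_simp
  linarith

end Pool.Agent.Lib.SR.Fres
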