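import Pool.Agent.Lib.MP_b9430d_co.SR.FF

/-!
# FG: the main term of the Fresnel smoothing

`∑_{α ∈ F0} N_α γ_α² / (4 α²) ≤ Λ² (3 κ Q² + 12 ρ Q⁴ (1 + log (H Q)) / R)` for `|γ_α| ≤ Λ min(1, κ |α|)`.
-/

set_option autoImplicit false

open MeasureTheory Complex Set Real Filter Topology
open scoped ENNReal

namespace Pool.Agent.Lib.SR.Fres

open Pool.MPb9430d Pool.MPb9430d.Rough Pool.MPb9430d.Frac Pool.MPb9430d.Mom Pool.Agent.Lib.SR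

/-- the second sum -/
theorem sum_inv_le {q : ℕ} (hq : 1 ≤ q) (M : ℕ) :
    ∑ m ∈ Finset.Icc 1 M, 1 / ((m : ℝ) / q) ≤ q * (1 + Real.log M) := by
  have h1 := harmonic_le_one_add_log M
  have e : ∑ m ∈ Finset.Icc 1 M, 1 / ((m : ℝ) / q) = q * ((harmonic M : ℚ) : ℝ) := by
    rw [harmonic_eq_sum_Icc]
    push_cast
    rw [Finset.mul_sum]
    refine Finset.sum_congr rfl fun m _ => ?_
    rw [one_div_div, div_eq_mul_inv]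
  rw [e]
  gcongr

/-- the main term -/
theorem main_term {Q : ℕ} {H ρ R κ Λ : ℝ} (hQ : 1 ≤ Q) (hρ : 0 < ρ) (hR : 16 * ρ ≤ R) (hκ : 0 < κ) (hκ1 : κ ≤ 1)
    (hH : 1 ≤ H) (γ : ℚ → ℝ) (hγ : ∀ α ∈ F0 Q H, |γ α| ≤ Λ * min 1 (κ * |(α : ℝ)|)) :
    ∑ α ∈ F0 Q H, (Nn (F0 Q H) (fun α : ℚ => (α : ℝ)) ρ R α : ℝ) * γ α ^ 2 / (4 * (α : ℝ) ^ 2) ≤
      Λ ^ 2 * (3 * κ * Q ^ 2 + 12 * ρ * (Q : ℝ) ^ 4 * (1 + Real.log (H * Q)) / R) := by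
  have hR0 : 0 < R := by linarith
  have hQ0 : (0 : ℝ) < Q := by exact_mod_cast (by omega : 0 < Q)
  have hQ1 : (1 : ℝ) ≤ Q := by exact_mod_cast hQ
  have hHQ : 1 ≤ H * Q := by nlinarith
  -- one term
  have h1 : ∀ α ∈ F0 Q H, (Nn (F0 Q H) (fun α : ℚ => (α : ℝ)) ρ R α : ℝ) * γ α ^ 2 / (4 * (α : ℝ) ^ 2) ≤
      Λ ^ 2 / 2 * min (κ ^ 2) (1 / |(α : ℝ)| ^ 2) + Λ ^ 2 * (6 * ρ * (Q : ℝ) ^ 2 / R) * (1 / |(α : ℝ)|) := by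
    intro α hα
    have hα0 : α ≠ 0 := (mem_F0.1 hα).2
    have hx : 0 < |(α : ℝ)| := abs_pos.2 (by exact_mod_cast hα0)
    set x := |(α : ℝ)| with hxdef
    have e1 : (α : ℝ) ^ 2 = x ^ 2 := (sq_abs _).symm
    have h2 := nn_le (H := H) hQ hρ hR (α := α)
    have h3 : γ α ^ 2 ≤ Λ ^ 2 * (min 1 (κ * x)) ^ 2 := by
      rw [← sq_abs, ← mul_pow]
      exact pow_le_pow_left₀ (abs_nonneg _) (hγ α hα) 2
    have h4 : (min 1 (κ * x)) ^ 2 ≤ 1 := by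
      have ha : 0 ≤ min 1 (κ * x) := le_min zero_le_one (by positivity)
      exact pow_le_one₀ ha (min_le_left _ _)
    have h5 : (min 1 (κ * x)) ^ 2 ≤ (κ * x) ^ 2 := by
      have ha : 0 ≤ min 1 (κ * x) := le_min zero_le_one (by positivity)
      exact pow_le_pow_left₀ ha (min_le_right _ _) 2
    have h6 : (min 1 (κ * x)) ^ 2 / x ^ 2 ≤ min (κ ^ 2) (1 / x ^ 2) := by
      refine le_min ?_ ?_
      · rw [div_le_iff₀ (by positivity)]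
        calc (min 1 (κ * x)) ^ 2 ≤ (κ * x) ^ 2 := h5
          _ = κ ^ 2 * x ^ 2 := by ring
      · gcongr
    have h7 : (min 1 (κ * x)) ^ 2 / x ^ 2 * x ≤ 1 / x := by
      have : (min 1 (κ * x)) ^ 2 / x ^ 2 ≤ 1 / x ^ 2 := by gcongr
      calc (min 1 (κ * x)) ^ 2 / x ^ 2 * x ≤ 1 / x ^ 2 * x := by gcongr
        _ = 1 / x := by field_simp
    rw [e1]
    calc (Nn (F0 Q H) (fun α : ℚ => (α : ℝ)) ρ R α : ℝ) * γ α ^ 2 / (4 * x ^ 2)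
        ≤ (2 + 24 * ρ * (Q : ℝ) ^ 2 * x / R) * (Λ ^ 2 * (min 1 (κ * x)) ^ 2) / (4 * x ^ 2) := by
          gcongr
      _ = Λ ^ 2 / 2 * ((min 1 (κ * x)) ^ 2 / x ^ 2) +
          Λ ^ 2 * (6 * ρ * (Q : ℝ) ^ 2 / R) * ((min 1 (κ * x)) ^ 2 / x ^ 2 * x) := by
          field_simp
          ring
      _ ≤ Λ ^ 2 / 2 * min (κ ^ 2) (1 / x ^ 2) + Λ ^ 2 * (6 * ρ * (Q : ℝ) ^ 2 / R) * (1 / x) := by
          gcongr
  refine (Finset.sum_le_sum h1).trans ?_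
  rw [Finset.sum_add_distrib, ← Finset.mul_sum, ← Finset.mul_sum]
  have h8 : ∑ α ∈ F0 Q H, min (κ ^ 2) (1 / |(α : ℝ)| ^ 2) ≤ 6 * κ * Q ^ 2 := by
    refine (sum_F0_le (f := fun x => min (κ ^ 2) (1 / x ^ 2)) fun x => le_min (by positivity) (by positivity)).trans ?_
    have h9 : ∑ q ∈ Finset.Icc 1 Q, ∑ m ∈ Finset.Icc 1 ⌊H * Q⌋₊, min (κ ^ 2) (1 / ((m : ℝ) / q) ^ 2) ≤
        ∑ _q ∈ Finset.Icc 1 Q, 3 * κ * Q := by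
      refine Finset.sum_le_sum fun q hq => ?_
      rw [Finset.mem_Icc] at hq
      refine (sum_min_sq hκ hκ1 hq.1 _).trans ?_
      have : (q : ℝ) ≤ Q := by exact_mod_cast hq.2
      gcongr
    rw [Finset.sum_const, Nat.card_Icc, nsmul_eq_mul, Nat.add_sub_cancel] at h9
    calc 2 * ∑ q ∈ Finset.Icc 1 Q, ∑ m ∈ Finset.Icc 1 ⌊H * Q⌋₊, min (κ ^ 2) (1 / ((m : ℝ) / q) ^ 2)
        ≤ 2 * (Q * (3 * κ * Q)) := by gcongr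
      _ = 6 * κ * Q ^ 2 := by ring
  have h10 : ∑ α ∈ F0 Q H, 1 / |(α : ℝ)| ≤ 2 * (Q : ℝ) ^ 2 * (1 + Real.log (H * Q)) := by
    have hf : ∀ x : ℝ, 0 ≤ 1 / |x| := fun x => by positivity
    have h11 := sum_F0_le (Q := Q) (H := H) (f := fun x => 1 / |x|) hf
    simp only [abs_abs] at h11
    refine h11.trans ?_
    have h12 : ∑ q ∈ Finset.Icc 1 Q, ∑ m ∈ Finset.Icc 1 ⌊H * Q⌋₊, 1 / |(m : ℝ) / q| ≤
        ∑ _q ∈ Finset.Icc 1 Q, Q * (1 + Real.log (H * Q)) := by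
      refine Finset.sum_le_sum fun q hq => ?_
      rw [Finset.mem_Icc] at hq
      have h13 := sum_inv_le hq.1 ⌊H * Q⌋₊
      have e : ∑ m ∈ Finset.Icc 1 ⌊H * Q⌋₊, 1 / |(m : ℝ) / q| = ∑ m ∈ Finset.Icc 1 ⌊H * Q⌋₊, 1 / ((m : ℝ) / q) :=
        Finset.sum_congr rfl fun m _ => by rw [abs_of_nonneg (by positivity)]
      rw [e]
      refine h13.trans ?_
      have h14 : (q : ℝ) ≤ Q := by exact_mod_cast hq.2
      have h15 : Real.log (⌊H * Q⌋₊ : ℝ) ≤ Real.log (H * Q) := by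
        refine Real.log_le_log ?_ (Nat.floor_le (by linarith))
        exact_mod_cast Nat.floor_pos.2 hHQ
      have h16 : 0 ≤ 1 + Real.log (⌊H * Q⌋₊ : ℝ) := by
        have := Real.log_natCast_nonneg ⌊H * Q⌋₊
        linarith
      exact mul_le_mul h14 (by linarith) h16 hQ0.le
    rw [Finset.sum_const, Nat.card_Icc, nsmul_eq_mul, Nat.add_sub_cancel] at h12
    calc 2 * ∑ q ∈ Finset.Icc 1 Q, ∑ m ∈ Finset.Icc 1 ⌊H * Q⌋₊, 1 / |(m : ℝ) / q|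
        ≤ 2 * (Q * (Q * (1 + Real.log (H * Q)))) := by gcongr
      _ = 2 * (Q : ℝ) ^ 2 * (1 + Real.log (H * Q)) := by ring
  calc Λ ^ 2 / 2 * ∑ α ∈ F0 Q H, min (κ ^ 2) (1 / |(α : ℝ)| ^ 2) +
        Λ ^ 2 * (6 * ρ * (Q : ℝ) ^ 2 / R) * ∑ α ∈ F0 Q H, 1 / |(α : ℝ)|
      ≤ Λ ^ 2 / 2 * (6 * κ * Q ^ 2) + Λ ^ 2 * (6 * ρ * (Q : ℝ) ^ 2 / R) * (2 * (Q : ℝ) ^ 2 * (1 + Real.log (H * Q))) := by
        gcongr
    _ = Λ ^ 2 * (3 * κ * Q ^ 2 + 12 * ρ * (Q : ℝ) ^ 4 * (1 + Real.log (H * Q)) / R) := by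
        field_simp
        ring

/-- the number of frequencies -/
theorem card_F0 {Q : ℕ} {H : ℝ} (hQ : 1 ≤ Q) (hH : 1 ≤ H) : ((F0 Q H).card : ℝ) ≤ 2 * H * Q ^ 2 := by
  have hQ1 : (1 : ℝ) ≤ Q := by exact_mod_cast hQ
  have h := sum_F0_le (Q := Q) (H := H) (f := fun _ => (1 : ℝ)) fun _ => zero_le_one
  simp only [Finset.sum_const, nsmul_eq_mul, mul_one, Nat.card_Icc, Nat.add_sub_cancel] at h
  refine h.trans ?_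
  have h2 : ((⌊H * Q⌋₊ : ℕ) : ℝ) ≤ H * Q := Nat.floor_le (by positivity)
  calc 2 * ((Q : ℝ) * (⌊H * Q⌋₊ : ℕ)) ≤ 2 * ((Q : ℝ) * (H * Q)) := by gcongr
    _ = 2 * H * Q ^ 2 := by ring

end Pool.Agent.Lib.SR.Fres
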