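import Pool.Agent.Lib.MP_b9430d_co.SR.FG

/-!
# FH: Lemma F (Fresnel smoothing), from the expansion of `DD`

`D(w) = ∫ h(x) (DD κ₂ - DD κ₁)(|x - w|²) dx = ∑_{α ∈ F0} γ_α FR h α w`, `|γ_α| ≤ Λ min(1, κ₁ |α|)`; `shell_sum` with
`s = R / L` and `main_term`.
-/

set_option autoImplicit false

open MeasureTheory Complex Set Real Filter Topology
open scoped ENNReal

namespace Pool.Agent.Lib.SR.Fres

open Pool.MPb9430d Pool.MPb9430d.Rough Pool.MPb9430d.Frac Pool.MPb9430d.Mom Pool.Agent.Lib.SR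

/-- the expansion of `DD` -/
def DDE (c : ℕ → ℝ) (Q : ℕ) : Prop := ∀ κ : ℝ, 0 < κ → ∀ t : ℝ, (DD c Q κ t : ℂ) =
  ∑ α ∈ FQ Q (1 / κ), ((cof c Q α.den * (1 - κ * |(α : ℝ)|) : ℝ) : ℂ) * ee (α * t)

open Classical in
/-- the coefficients of the difference -/
noncomputable def gm (c : ℕ → ℝ) (Q : ℕ) (κ₂ κ₁ : ℝ) (α : ℚ) : ℝ :=
  cof c Q α.den * ((1 - κ₂ * |(α : ℝ)|) - if |(α : ℝ)| ≤ 1 / κ₁ then 1 - κ₁ * |(α : ℝ)| else 0)

private theorem FH_diff {c : ℕ → ℝ} {Q : ℕ} (hdd : DDE c Q) {κ₂ κ₁ : ℝ} (h2 : 0 < κ₂) (h21 : κ₂ ≤ κ₁) (t : ℝ) :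
    ((DD c Q κ₂ t - DD c Q κ₁ t : ℝ) : ℂ) = ∑ α ∈ F0 Q (1 / κ₂), (gm c Q κ₂ κ₁ α : ℂ) * ee (α * t) := by
  classical
  have h1 : 0 < κ₁ := h2.trans_le h21
  have hle : 1 / κ₁ ≤ 1 / κ₂ := one_div_le_one_div_of_le h2 h21
  have e1 : FQ Q (1 / κ₁) = (FQ Q (1 / κ₂)).filter fun α : ℚ => |(α : ℝ)| ≤ 1 / κ₁ := by
    ext α
    rw [Finset.mem_filter, mem_FQ, mem_FQ]
    constructor
    · exact fun h => ⟨⟨h.1, h.2.trans hle⟩, h.2⟩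
    · exact fun h => ⟨h.1.1, h.2⟩
  have e2 : ((DD c Q κ₂ t - DD c Q κ₁ t : ℝ) : ℂ) = ∑ α ∈ FQ Q (1 / κ₂), (gm c Q κ₂ κ₁ α : ℂ) * ee (α * t) := by
    rw [Complex.ofReal_sub, hdd κ₂ h2 t, hdd κ₁ h1 t, e1, Finset.sum_filter, ← Finset.sum_sub_distrib]
    refine Finset.sum_congr rfl fun α _ => ?_
    unfold gm
    split_ifs
    · push_cast
      ring
    · push_cast
      ring
  rw [e2]
  unfold F0
  rw [Finset.sum_filter]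
  refine Finset.sum_congr rfl fun α _ => ?_
  split_ifs with h
  · rfl
  · have h0 : α = 0 := by
      by_contra h3
      exact h h3
    have h3 : gm c Q κ₂ κ₁ α = 0 := by
      unfold gm
      rw [h0]
      simp only [Rat.cast_zero, abs_zero, mul_zero, sub_zero]
      rw [if_pos (by positivity)]
      ring
    rw [h3]
    simp

private theorem FH_gm {L R Λ : ℝ} {T : Finset ℕ} {c : ℕ → ℝ} {Q : ℕ} (hM : Maj L R Λ T c Q) {κ₂ κ₁ : ℝ} (h2 : 0 < κ₂)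
    (h21 : κ₂ ≤ κ₁) {α : ℚ} (hα : |(α : ℝ)| ≤ 1 / κ₂) : |gm c Q κ₂ κ₁ α| ≤ Λ * min 1 (κ₁ * |(α : ℝ)|) := by
  have h1 : 0 < κ₁ := h2.trans_le h21
  unfold gm
  rw [abs_mul]
  have h3 : |cof c Q α.den| ≤ Λ := by
    refine (hM.cofb α.den α.den_pos).trans ?_
    have h4 : ((α.den : ℝ)) ^ (-(99 / 100) : ℝ) ≤ 1 := by
      refine Real.rpow_le_one_of_one_le_of_nonpos ?_ (by norm_num)
      exact_mod_cast α.den_pos
    have := hM.Λ1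
    nlinarith
  have h5 : |(1 - κ₂ * |(α : ℝ)|) - if |(α : ℝ)| ≤ 1 / κ₁ then 1 - κ₁ * |(α : ℝ)| else 0| ≤ min 1 (κ₁ * |(α : ℝ)|) := by
    have hx : 0 ≤ |(α : ℝ)| := abs_nonneg _
    have h6 : κ₂ * |(α : ℝ)| ≤ 1 := by
      rw [le_div_iff₀ h2] at hα
      linarith
    have h7 : 0 ≤ κ₂ * |(α : ℝ)| := by positivity
    have h8 : κ₂ * |(α : ℝ)| ≤ κ₁ * |(α : ℝ)| := by gcongr
    split_ifs with h
    · rw [le_div_iff₀ h1] at h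
      rw [abs_of_nonneg (by linarith)]
      refine le_min (by linarith) (by linarith)
    · rw [not_le, div_lt_iff₀ h1] at h
      rw [sub_zero, abs_of_nonneg (by linarith)]
      refine le_min (by linarith) (by linarith)
  exact mul_le_mul h3 h5 (abs_nonneg _) (by linarith [hM.Λ1])

private theorem FH_D {c : ℕ → ℝ} {Q : ℕ} (hdd : DDE c Q) {κ₂ κ₁ : ℝ} (h2 : 0 < κ₂) (h21 : κ₂ ≤ κ₁) {ρ B : ℝ}
    {h : ℂ → ℝ} (H : Bd ρ B h) (w : ℂ) :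
    (∫ x, h x * (DD c Q κ₂ (‖x - w‖ ^ 2) - DD c Q κ₁ (‖x - w‖ ^ 2))) ^ 2 =
      ‖∑ α ∈ F0 Q (1 / κ₂), (gm c Q κ₂ κ₁ α : ℂ) * FR h (α : ℝ) w‖ ^ 2 := by
  have hi : ∀ a : ℝ, Integrable fun x : ℂ => (h x : ℂ) * ee (a * ‖x - w‖ ^ 2) := by
    intro a
    refine H.integrable.abs.mono' ?_ (Eventually.of_forall fun x => ?_)
    · refine Measurable.aestronglyMeasurable ?_
      refine (Complex.measurable_ofReal.comp H.m).mul ?_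
      refine (continuous_ee.comp ?_).measurable
      fun_prop
    · rw [norm_mul, norm_ee, mul_one, Complex.norm_real, Real.norm_eq_abs]
  have e : ((∫ x, h x * (DD c Q κ₂ (‖x - w‖ ^ 2) - DD c Q κ₁ (‖x - w‖ ^ 2)) : ℝ) : ℂ) =
      ∑ α ∈ F0 Q (1 / κ₂), (gm c Q κ₂ κ₁ α : ℂ) * FR h (α : ℝ) w := by
    rw [← integral_complex_ofReal]
    have e1 : (fun x : ℂ => ((h x * (DD c Q κ₂ (‖x - w‖ ^ 2) - DD c Q κ₁ (‖x - w‖ ^ 2)) : ℝ) : ℂ)) =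
        fun x => ∑ α ∈ F0 Q (1 / κ₂), (gm c Q κ₂ κ₁ α : ℂ) * ((h x : ℂ) * ee ((α : ℝ) * ‖x - w‖ ^ 2)) := by
      funext x
      rw [Complex.ofReal_mul, FH_diff hdd h2 h21, Finset.mul_sum]
      refine Finset.sum_congr rfl fun α _ => ?_
      ring
    have e2 : ∀ α ∈ F0 Q (1 / κ₂), Integrable fun x : ℂ =>
        (gm c Q κ₂ κ₁ α : ℂ) * ((h x : ℂ) * ee ((α : ℝ) * ‖x - w‖ ^ 2)) := fun α _ => (hi (α : ℝ)).const_mul _
    rw [e1, integral_finsetSum _ e2]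
    refine Finset.sum_congr rfl fun α _ => ?_
    rw [integral_const_mul]
    rfl
  rw [← e, Complex.norm_real, Real.norm_eq_abs, sq_abs]

/-- Lemma F for every first width between `1 / R ^ 100` and `1 / L ^ 16` -/
theorem fresnel_aux {ρ : ℝ} (hρ : 1 ≤ ρ) : ∃ C L₀ : ℝ, 0 < C ∧ ∀ (L R Λ : ℝ) (T : Finset ℕ)
    (c : ℕ → ℝ) (Q : ℕ), L₀ ≤ L → Maj L R Λ T c Q → DDE c Q → ∀ κ₂ : ℝ, 1 / R ^ 100 ≤ κ₂ → κ₂ ≤ 1 / L ^ 16 →
    ∀ (h : ℂ → ℝ) (B : ℝ), Measurable h → (∀ x, |h x| ≤ B) → (∀ x, ρ < ‖x‖ → h x = 0) →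
    ∫ w in {w : ℂ | R ≤ ‖w‖ ∧ ‖w‖ ≤ 2 * R},
      (∫ x, h x * (DD c Q κ₂ (‖x - w‖ ^ 2) - DD c Q (1 / L ^ 16) (‖x - w‖ ^ 2))) ^ 2 ≤
      C * B ^ 2 / L ^ 9 := by
  refine ⟨9 * Real.exp π * (π * ρ ^ 2) * (3 + 1224 * ρ) + 36 * Real.exp π * (π * ρ ^ 2) ^ 2, max 200 (16 * ρ),
    by positivity, ?_⟩
  intro L R Λ T c Q hL hM hdd κ₂ hκl hκu h B hm hb hsup
  have hL200 : 200 ≤ L := (le_max_left _ _).trans hL
  have hLρ : 16 * ρ ≤ L := (le_max_right _ _).trans hL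
  have hL0 : 0 < L := by linarith
  have hL1 : 1 ≤ L := by linarith
  have H : Bd ρ B h := ⟨hm, hb, hsup⟩
  have hB0 : 0 ≤ B := (abs_nonneg _).trans (hb 0)
  have hLR : ∀ k : ℕ, k ≤ 2000 → L ^ k ≤ R := fun k hk => (pow_le_pow_right₀ hL1 hk).trans hM.Rl
  have hR0 : 0 < R := lt_of_lt_of_le (by positivity) hM.Rl
  have hR1 : 1 ≤ R := by simpa using hLR 0 (by norm_num)
  have hLleR : L ≤ R := by simpa using hLR 1 (by norm_num)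
  have hκ2 : 0 < κ₂ := lt_of_lt_of_le (by positivity) hκl
  have hQ0 : (0 : ℝ) < Q := by exact_mod_cast (by have := hM.Q1; omega : 0 < Q)
  have hΛ0 : 0 < Λ := by linarith [hM.Λ1]
  set s : ℝ := R / L with hs
  have hs0 : 0 < s := by positivity
  have hsR : 2 * s ≤ R := by
    rw [hs, mul_div_assoc', div_le_iff₀ hL0]
    nlinarith
  have hRs : R / s = L := by
    rw [hs]
    field_simp
  set X := F0 Q (1 / κ₂) with hX
  have hX0 : ∀ α ∈ X, (α : ℝ) ≠ 0 := fun α hα => by exact_mod_cast (mem_F0.1 hα).2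
  have hsp : ∀ α ∈ X, ∀ β ∈ X, α ≠ β → (s ^ 2)⁻¹ ≤ |(α : ℝ) - β| := by
    intro α hα β hβ hne
    refine le_trans ?_ (rat_gap (mem_F0.1 hα).1.1 (mem_F0.1 hβ).1.1 hne)
    rw [one_div]
    apply inv_anti₀ (by positivity)
    have h1 : (Q : ℝ) ^ 2 ≤ L ^ 2 := pow_le_pow_left₀ hQ0.le hM.QL 2
    have h2 : L ^ 2 ≤ s := by
      rw [hs, le_div_iff₀ hL0]
      calc L ^ 2 * L = L ^ 3 := by ring
        _ ≤ R := hLR 3 (by norm_num)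
    have h3 : (1 : ℝ) ≤ s := by nlinarith
    nlinarith
  have hH1 : 1 ≤ 1 / κ₂ := by
    rw [le_div_iff₀ hκ2, one_mul]
    refine hκu.trans ?_
    rw [div_le_one (by positivity)]
    exact one_le_pow₀ hL1
  have hHR : 1 / κ₂ ≤ R ^ 100 := by
    rw [div_le_iff₀ hκ2]
    rw [div_le_iff₀ (by positivity)] at hκl
    linarith
  have hgm : ∀ α ∈ X, |gm c Q κ₂ (1 / L ^ 16) α| ≤ Λ * min 1 (1 / L ^ 16 * |(α : ℝ)|) := fun α hα =>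
    FH_gm hM hκ2 hκu (mem_F0.1 hα).1.2
  have key := shell_sum (s := s) (R := R) hs0 hsR X (fun α : ℚ => (α : ℝ)) (gm c Q κ₂ (1 / L ^ 16)) hX0 hsp
    (by linarith) H
  have e1 : ∫ w in {w : ℂ | R ≤ ‖w‖ ∧ ‖w‖ ≤ 2 * R},
      (∫ x, h x * (DD c Q κ₂ (‖x - w‖ ^ 2) - DD c Q (1 / L ^ 16) (‖x - w‖ ^ 2))) ^ 2 =
      ∫ w in {w : ℂ | R ≤ ‖w‖ ∧ ‖w‖ ≤ 2 * R},
        ‖∑ i ∈ X, (gm c Q κ₂ (1 / L ^ 16) i : ℂ) * FR h (i : ℝ) w‖ ^ 2 := by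
    congr 1
    funext w
    exact FH_D hdd hκ2 hκu H w
  rw [e1]
  refine key.trans ?_
  rw [hRs]
  -- the main term
  have h16R : 16 * ρ ≤ R := hLρ.trans hLleR
  have hmain := main_term (H := 1 / κ₂) (κ := 1 / L ^ 16) hM.Q1 (by linarith : 0 < ρ) h16R (by positivity)
    (by rw [div_le_one (by positivity)]; exact one_le_pow₀ hL1) hH1 (gm c Q κ₂ (1 / L ^ 16)) hgm
  have hlog : Real.log (1 / κ₂ * Q) ≤ 101 * L := by
    have h1 : 1 / κ₂ * Q ≤ R ^ 101 := by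
      calc 1 / κ₂ * Q ≤ R ^ 100 * R := by
            have : (Q : ℝ) ≤ R := hM.QL.trans hLleR
            gcongr
        _ = R ^ 101 := by ring
    have h2 : Real.log (1 / κ₂ * Q) ≤ Real.log (R ^ 101) := Real.log_le_log (by positivity) h1
    rw [Real.log_pow] at h2
    have h3 : Real.log R ≤ √L := by
      rw [Real.log_le_iff_le_exp hR0]
      exact hM.Ru
    have h4 : √L ≤ L := by
      rw [Real.sqrt_le_left hL0.le]
      nlinarith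
    push_cast at h2
    linarith
  have hΛ2 : Λ ^ 2 ≤ L ^ 2 := pow_le_pow_left₀ hΛ0.le hM.ΛL 2
  have hQ2 : (Q : ℝ) ^ 2 ≤ L ^ 2 := pow_le_pow_left₀ hQ0.le hM.QL 2
  have hQ4 : (Q : ℝ) ^ 4 ≤ L ^ 4 := pow_le_pow_left₀ hQ0.le hM.QL 4
  have hm2 : ∑ i ∈ X, (Nn X (fun α : ℚ => (α : ℝ)) ρ R i : ℝ) * gm c Q κ₂ (1 / L ^ 16) i ^ 2 / (4 * (i : ℝ) ^ 2) ≤
      (3 + 1224 * ρ) / L ^ 12 := by
    refine hmain.trans ?_
    have h1 : 12 * ρ * (Q : ℝ) ^ 4 * (1 + Real.log (1 / κ₂ * Q)) / R ≤ 1224 * ρ / L ^ 14 := by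
      have h2 : 1 + Real.log (1 / κ₂ * Q) ≤ 102 * L := by linarith
      have h3 : L ^ 19 ≤ R := hLR 19 (by norm_num)
      rw [div_le_div_iff₀ hR0 (by positivity)]
      calc 12 * ρ * (Q : ℝ) ^ 4 * (1 + Real.log (1 / κ₂ * Q)) * L ^ 14
          ≤ 12 * ρ * L ^ 4 * (102 * L) * L ^ 14 := by
            have h5 : 0 ≤ 12 * ρ * L ^ 4 := by positivity
            have h6 : 12 * ρ * (Q : ℝ) ^ 4 ≤ 12 * ρ * L ^ 4 := by gcongr
            have h7 : 0 ≤ 102 * L := by positivity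
            have h8 : 12 * ρ * (Q : ℝ) ^ 4 * (1 + Real.log (1 / κ₂ * Q)) ≤ 12 * ρ * L ^ 4 * (102 * L) := by
              calc 12 * ρ * (Q : ℝ) ^ 4 * (1 + Real.log (1 / κ₂ * Q)) ≤ 12 * ρ * (Q : ℝ) ^ 4 * (102 * L) := by gcongr
                _ ≤ 12 * ρ * L ^ 4 * (102 * L) := by gcongr
            gcongr
        _ = 1224 * ρ * L ^ 19 := by ring
        _ ≤ 1224 * ρ * R := by gcongr
    have h2 : 3 * (1 / L ^ 16) * (Q : ℝ) ^ 2 ≤ 3 / L ^ 14 := by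
      calc 3 * (1 / L ^ 16) * (Q : ℝ) ^ 2 ≤ 3 * (1 / L ^ 16) * L ^ 2 := by gcongr
        _ = 3 / L ^ 14 := by field_simp
    calc Λ ^ 2 * (3 * (1 / L ^ 16) * (Q : ℝ) ^ 2 + 12 * ρ * (Q : ℝ) ^ 4 * (1 + Real.log (1 / κ₂ * Q)) / R)
        ≤ Λ ^ 2 * (3 / L ^ 14 + 1224 * ρ / L ^ 14) := by gcongr
      _ ≤ L ^ 2 * (3 / L ^ 14 + 1224 * ρ / L ^ 14) := by gcongr
      _ = (3 + 1224 * ρ) / L ^ 12 := by field_simp
  -- the sizes of h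
  have hh2 : ∫ x, h x ^ 2 ≤ B ^ 2 * (π * ρ ^ 2) := by
    have h1 := H.sq.integral_le (by linarith)
    have e : ∫ x, |h x ^ 2| = ∫ x, h x ^ 2 := by
      congr 1
      funext x
      exact abs_of_nonneg (sq_nonneg _)
    rwa [e] at h1
  have hh1 : (∫ x, |h x|) ^ 2 ≤ (B * (π * ρ ^ 2)) ^ 2 := by
    refine pow_le_pow_left₀ (integral_nonneg fun x => abs_nonneg _) (H.integral_le (by linarith)) 2
  -- the far term
  have hsumg : (∑ i ∈ X, |gm c Q κ₂ (1 / L ^ 16) i|) ^ 2 ≤ (2 * L ^ 3 * R ^ 100) ^ 2 := by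
    refine pow_le_pow_left₀ (Finset.sum_nonneg fun i _ => abs_nonneg _) ?_ 2
    have h1 : ∑ i ∈ X, |gm c Q κ₂ (1 / L ^ 16) i| ≤ ∑ _i ∈ X, Λ := by
      refine Finset.sum_le_sum fun α hα => (hgm α hα).trans ?_
      have : min 1 (1 / L ^ 16 * |(α : ℝ)|) ≤ 1 := min_le_left _ _
      nlinarith
    rw [Finset.sum_const, nsmul_eq_mul] at h1
    refine h1.trans ?_
    have h2 := card_F0 hM.Q1 hH1
    calc (X.card : ℝ) * Λ ≤ (2 * (1 / κ₂) * Q ^ 2) * Λ := by gcongr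
      _ ≤ (2 * R ^ 100 * L ^ 2) * L := by
          have := hM.ΛL
          gcongr
      _ = 2 * L ^ 3 * R ^ 100 := by ring
  have hexp : L ^ 17 * R ^ 202 * Real.exp (-(π / 20 * L ^ 2)) ≤ 1 := by
    have h1 : L ≤ Real.exp (√L) := hLleR.trans hM.Ru
    have h2 : L ^ 17 ≤ Real.exp (√L) ^ 17 := pow_le_pow_left₀ hL0.le h1 17
    have h3 : R ^ 202 ≤ Real.exp (√L) ^ 202 := pow_le_pow_left₀ hR0.le hM.Ru 202
    have h4 : √L * 14 ≤ L := by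
      have h5 : (14 : ℝ) ≤ √L := Real.le_sqrt_of_sq_le (by linarith)
      have h6 : √L * √L = L := Real.mul_self_sqrt hL0.le
      nlinarith [Real.sqrt_nonneg L]
    have h7 : 219 * √L + -(π / 20 * L ^ 2) ≤ 0 := by
      have h8 : (3 : ℝ) ≤ π := Real.pi_gt_three.le
      nlinarith
    calc L ^ 17 * R ^ 202 * Real.exp (-(π / 20 * L ^ 2))
        ≤ Real.exp (√L) ^ 17 * Real.exp (√L) ^ 202 * Real.exp (-(π / 20 * L ^ 2)) := by gcongr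
      _ = Real.exp (219 * √L + -(π / 20 * L ^ 2)) := by
          rw [← pow_add, ← Real.exp_nat_mul, ← Real.exp_add]
          norm_num
      _ ≤ 1 := by
          rw [Real.exp_le_one_iff]
          exact h7
  have hmain2 : 9 * Real.exp π * L ^ 2 *
      ((∑ i ∈ X, (Nn X (fun α : ℚ => (α : ℝ)) ρ R i : ℝ) * gm c Q κ₂ (1 / L ^ 16) i ^ 2 / (4 * (i : ℝ) ^ 2)) *
        (∫ x, h x ^ 2)) ≤ 9 * Real.exp π * (π * ρ ^ 2) * (3 + 1224 * ρ) * B ^ 2 / L ^ 9 := by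
    have h0 : 0 ≤ ∫ x, h x ^ 2 := integral_nonneg fun x => sq_nonneg _
    calc 9 * Real.exp π * L ^ 2 *
        ((∑ i ∈ X, (Nn X (fun α : ℚ => (α : ℝ)) ρ R i : ℝ) * gm c Q κ₂ (1 / L ^ 16) i ^ 2 / (4 * (i : ℝ) ^ 2)) *
          (∫ x, h x ^ 2))
        ≤ 9 * Real.exp π * L ^ 2 * ((3 + 1224 * ρ) / L ^ 12 * (B ^ 2 * (π * ρ ^ 2))) := by gcongr
      _ = 9 * Real.exp π * (π * ρ ^ 2) * (3 + 1224 * ρ) * B ^ 2 / L ^ 10 := by
          field_simp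
      _ ≤ 9 * Real.exp π * (π * ρ ^ 2) * (3 + 1224 * ρ) * B ^ 2 / L ^ 9 := by
          apply div_le_div_of_nonneg_left (by positivity) (by positivity)
          exact pow_le_pow_right₀ hL1 (by norm_num)
  have hfar2 : 9 * Real.exp π * L ^ 2 * ((∑ i ∈ X, |gm c Q κ₂ (1 / L ^ 16) i|) ^ 2 *
      (s ^ 2 * Real.exp (-(π / 20 * L ^ 2)) * (∫ x, |h x|) ^ 2)) ≤
      36 * Real.exp π * (π * ρ ^ 2) ^ 2 * B ^ 2 / L ^ 9 := by
    have hsle : s ≤ R := div_le_self hR0.le hL1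
    calc 9 * Real.exp π * L ^ 2 * ((∑ i ∈ X, |gm c Q κ₂ (1 / L ^ 16) i|) ^ 2 *
        (s ^ 2 * Real.exp (-(π / 20 * L ^ 2)) * (∫ x, |h x|) ^ 2))
        ≤ 9 * Real.exp π * L ^ 2 * ((2 * L ^ 3 * R ^ 100) ^ 2 *
          (R ^ 2 * Real.exp (-(π / 20 * L ^ 2)) * (B * (π * ρ ^ 2)) ^ 2)) := by gcongr
      _ = 36 * Real.exp π * (π * ρ ^ 2) ^ 2 * B ^ 2 * (L ^ 17 * R ^ 202 * Real.exp (-(π / 20 * L ^ 2))) / L ^ 9 := by
          field_simp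
          ring
      _ ≤ 36 * Real.exp π * (π * ρ ^ 2) ^ 2 * B ^ 2 * 1 / L ^ 9 := by gcongr
      _ = 36 * Real.exp π * (π * ρ ^ 2) ^ 2 * B ^ 2 / L ^ 9 := by rw [mul_one]
  rw [mul_add]
  refine (add_le_add hmain2 hfar2).trans (le_of_eq ?_)
  ring

end Pool.Agent.Lib.SR.Fres
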