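import Pool.Agent.Lib.MP_b9430d_co.SR.PrD
import Pool.Agent.Lib.MP_b9430d_co.NT.TauL

/-!
# Proposition A: class 1, sup norms (helper86)

PROOF. Write `|l| = p₀ / q` (reduced), `q = l.den`, `p₀ = |l.num| ≤ 3 q`. For a pair of the set: `N1 * q = N2 * p₀`, so with
`j = gcd (N1, N2)`: `N2 = q j`, `N1 = p₀ j`. Class 1: `j ≤ q` and `G² ≥ j N2 = j² q`, so `G ≥ j √q` and
`G^(-0.99) ≤ j^(-0.99) q^(-0.495)`. Number of pairs with given `j`: `a.den ∣ N2 = q j`, `b.den ∣ N1 = p₀ j`, the sign of `b`,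
and these three determine `b` (`|b.num| = N2 / a.den`) and `a = l b`: at most `2 τ(q j) τ(p₀ j) ≤ C (q j)^(ε) (p₀ j)^(ε)`,
`ε = 1/100`, `≤ C' q^(4 ε)` as `j ≤ q`, `p₀ ≤ 3 q`. Finally `∑_{j ≤ q} j^(-0.99) ≤ 100 q^(0.01) + 1`, and
`0.04 + 0.01 - 0.495 < 0`.
Divisor bound: `τ(n) ≤ C_ε n^ε` is in NT/TauL (helper61) or in the library.
-/

set_option autoImplicit false

open MeasureTheory Complex Set Real Filter Topology
open scoped ENNReal

namespace Pool.Agent.Lib.SR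

open Pool.MPb9430d.NT (tau tau_rpow)

/-- the structure of a pair with quotient `l` -/
private theorem c1_str {l : ℚ} {p : ℚ × ℚ} (hb : p.2 ≠ 0) (h : p.1 = l * p.2) :
    N2 p = l.den * Nat.gcd (N1 p) (N2 p) ∧ N1 p = l.num.natAbs * Nat.gcd (N1 p) (N2 p) ∧ 0 < N2 p := by
  have e0 : p.1.num * ((l.den : ℤ) * p.2.den) = l.num * p.2.num * p.1.den := by
    have h1 : (p.1.den : ℚ) ≠ 0 := by exact_mod_cast p.1.den_nz
    have h2 : (p.2.den : ℚ) ≠ 0 := by exact_mod_cast p.2.den_nz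
    have h3 : (l.den : ℚ) ≠ 0 := by exact_mod_cast l.den_nz
    have e1 : (p.1.num : ℚ) / p.1.den = p.1 := Rat.num_div_den p.1
    have e2 : (p.2.num : ℚ) / p.2.den = p.2 := Rat.num_div_den p.2
    have e3 : (l.num : ℚ) / l.den = l := Rat.num_div_den l
    have h4 : (p.1.num : ℚ) / p.1.den = (l.num : ℚ) / l.den * ((p.2.num : ℚ) / p.2.den) := by rw [e1, e2, e3, h]
    have h5 : (p.1.num : ℚ) * ((l.den : ℚ) * p.2.den) = l.num * p.2.num * p.1.den := by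
      field_simp at h4
      linarith
    exact_mod_cast h5
  have e1 : N1 p * l.den = N2 p * l.num.natAbs := by
    have h1 := congrArg Int.natAbs e0
    rw [Int.natAbs_mul, Int.natAbs_mul, Int.natAbs_mul, Int.natAbs_mul, Int.natAbs_natCast, Int.natAbs_natCast, Int.natAbs_natCast] at h1
    unfold N1 N2
    calc p.1.num.natAbs * p.2.den * l.den = p.1.num.natAbs * (l.den * p.2.den) := by ring
      _ = l.num.natAbs * p.2.num.natAbs * p.1.den := h1
      _ = _ := by ring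
  have hcop : (l.num.natAbs).Coprime l.den := l.reduced
  have hd : l.den ∣ N2 p := by
    refine Nat.Coprime.dvd_of_dvd_mul_right hcop.symm ?_
    rw [← e1]
    exact Nat.dvd_mul_left _ _
  obtain ⟨j, hj⟩ := hd
  have hN1 : N1 p = l.num.natAbs * j := by
    rw [hj] at e1
    have h1 : N1 p * l.den = l.num.natAbs * j * l.den := by rw [e1]; ring
    exact Nat.eq_of_mul_eq_mul_right l.den_pos h1
  have hg : Nat.gcd (N1 p) (N2 p) = j := by
    rw [hN1, hj, Nat.gcd_mul_right, Nat.Coprime.gcd_eq_one hcop, one_mul]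
  refine ⟨by rw [hg]; exact hj, by rw [hg]; exact hN1, ?_⟩
  unfold N2
  exact Nat.mul_pos (Int.natAbs_pos.2 (Rat.num_ne_zero.2 hb)) p.1.den_pos

/-- the number of the pairs with quotient `l` and given gcd -/
private theorem c1_card {l : ℚ} (hl : l ≠ 0) {j : ℕ} (hj : 0 < j) (S : Finset (ℚ × ℚ))
    (hS : ∀ p ∈ S, p.2 ≠ 0 ∧ p.1 = l * p.2 ∧ Nat.gcd (N1 p) (N2 p) = j) :
    (S.card : ℝ) ≤ 2 * tau (l.den * j) * tau (l.num.natAbs * j) := by
  classical
  have hq : 0 < l.den * j := Nat.mul_pos l.den_pos hj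
  have hp : 0 < l.num.natAbs * j := Nat.mul_pos (Int.natAbs_pos.2 (Rat.num_ne_zero.2 hl)) hj
  have h1 : S.card ≤ ((l.den * j).divisors ×ˢ (l.num.natAbs * j).divisors ×ˢ (Finset.univ : Finset Bool)).card := by
    refine Finset.card_le_card_of_injOn (fun p => (p.1.den, p.2.den, decide (0 < p.2.num))) (fun p hpS => ?_) ?_
    · obtain ⟨h2, h3, h4⟩ := hS p hpS
      obtain ⟨e1, e2, -⟩ := c1_str h2 h3
      rw [h4] at e1 e2
      simp only [Finset.coe_product, Set.mem_prod, Finset.mem_coe, Nat.mem_divisors, Finset.mem_univ, and_true]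
      refine ⟨⟨?_, hq.ne'⟩, ?_, hp.ne'⟩
      · rw [← e1]
        exact Nat.dvd_mul_left _ _
      · rw [← e2]
        exact Nat.dvd_mul_left _ _
    · intro p hpS p' hpS' he
      obtain ⟨h2, h3, h4⟩ := hS p hpS
      obtain ⟨h2', h3', h4'⟩ := hS p' hpS'
      obtain ⟨e1, -, -⟩ := c1_str h2 h3
      obtain ⟨e1', -, -⟩ := c1_str h2' h3'
      rw [h4] at e1
      rw [h4'] at e1'
      simp only [Prod.mk.injEq, decide_eq_decide] at he
      obtain ⟨d1, d2, d3⟩ := he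
      have e3 : p.2.num.natAbs = p'.2.num.natAbs := by
        have e4 : p.2.num.natAbs * p.1.den = p'.2.num.natAbs * p.1.den := by
          have e5 : N2 p = N2 p' := by rw [e1, e1']
          unfold N2 at e5
          rw [← d1] at e5
          exact e5
        exact Nat.eq_of_mul_eq_mul_right p.1.den_pos e4
      have e4 : p.2.num = p'.2.num := by
        rcases lt_trichotomy 0 p.2.num with h5 | h5 | h5
        · have h6 := d3.1 h5
          omega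
        · omega
        · have h6 : ¬ 0 < p'.2.num := fun h7 => by
            have := d3.2 h7
            omega
          omega
      have e5 : p.2 = p'.2 := Rat.ext e4 d2
      exact Prod.ext (by rw [h3, h3', e5]) e5
  rw [Finset.card_product, Finset.card_product, Finset.card_univ, Fintype.card_bool] at h1
  unfold tau
  have h2 : (S.card : ℝ) ≤ ((l.den * j).divisors.card * ((l.num.natAbs * j).divisors.card * 2) : ℕ) := by exact_mod_cast h1
  refine h2.trans (le_of_eq ?_)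
  push_cast
  ring

/-- Module PrC1. -/
theorem class_one : ∃ C : ℝ, 0 < C ∧ ∀ l : ℚ, l ≠ 0 → |l| ≤ 3 → ∀ S : Finset (ℚ × ℚ),
    (∀ p ∈ S, p.1 ≠ 0 ∧ p.2 ≠ 0 ∧ p.1 = l * p.2 ∧ Cl1 p) →
    ∑ p ∈ S, (G12 p : ℝ) ^ (-(99 / 100) : ℝ) ≤ C := by
  classical
  obtain ⟨C0, hC0, hτ0⟩ := tau_rpow 1 (ε := 1 / 100) (by norm_num)
  have hτ : ∀ n : ℕ, 1 ≤ n → tau n ≤ C0 * (n : ℝ) ^ (1 / 100 : ℝ) := fun n hn => by
    have := hτ0 n hn
    rwa [pow_one] at this
  have hsum : Summable (fun n : ℕ => (n : ℝ) ^ (-(119 / 100) : ℝ)) := Real.summable_nat_rpow.2 (by norm_num)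
  obtain ⟨C2, hC2⟩ : ∃ C2, C2 = ∑' n : ℕ, (n : ℝ) ^ (-(119 / 100) : ℝ) := ⟨_, rfl⟩
  have hC20 : 0 ≤ C2 := by
    rw [hC2]
    exact tsum_nonneg fun n => by positivity
  refine ⟨6 * C0 ^ 2 * C2 + 1, by positivity, fun l hl hl3 S hS => ?_⟩
  have hq0 : 0 < l.den := l.den_pos
  have hq1 : (1 : ℝ) ≤ l.den := by exact_mod_cast hq0
  have hqpos : (0 : ℝ) < l.den := by linarith
  have hp0 : 0 < l.num.natAbs := Int.natAbs_pos.2 (Rat.num_ne_zero.2 hl)
  have hp3 : (l.num.natAbs : ℝ) ≤ 3 * l.den := by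
    have h1 : |(l : ℝ)| ≤ 3 := by exact_mod_cast hl3
    have h2 : (l : ℝ) = l.num / l.den := Rat.cast_def l
    rw [h2, abs_div, abs_of_pos hqpos, div_le_iff₀ hqpos] at h1
    rw [Nat.cast_natAbs]
    push_cast
    exact h1
  have hmaps : ∀ p ∈ S, Nat.gcd (N1 p) (N2 p) ∈ Finset.Icc 1 l.den := by
    intro p hpS
    obtain ⟨-, h2, h3, h4⟩ := hS p hpS
    obtain ⟨e1, -, e3⟩ := c1_str h2 h3
    obtain ⟨j, hj⟩ : ∃ j, j = Nat.gcd (N1 p) (N2 p) := ⟨_, rfl⟩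
    have h5 := h4.1
    rw [← hj] at e1 h5 ⊢
    rw [e1] at h5 e3
    have hj0 : 0 < j := Nat.pos_of_mul_pos_left e3
    refine Finset.mem_Icc.2 ⟨hj0, ?_⟩
    rw [sq] at h5
    exact Nat.le_of_mul_le_mul_right h5 hj0
  rw [← Finset.sum_fiberwise_of_maps_to hmaps]
  have hfib : ∀ j ∈ Finset.Icc 1 l.den, ∑ p ∈ S.filter (fun p => Nat.gcd (N1 p) (N2 p) = j), (G12 p : ℝ) ^ (-(99 / 100) : ℝ) ≤
      6 * C0 ^ 2 * (j : ℝ) ^ (-(119 / 100) : ℝ) := by
    intro j hj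
    rw [Finset.mem_Icc] at hj
    have hj0 : 0 < j := hj.1
    have hj1 : (1 : ℝ) ≤ j := by exact_mod_cast hj.1
    have hjpos : (0 : ℝ) < j := by linarith
    have hjq : (j : ℝ) ≤ l.den := by exact_mod_cast hj.2
    have hterm : ∀ p ∈ S.filter (fun p => Nat.gcd (N1 p) (N2 p) = j), (G12 p : ℝ) ^ (-(99 / 100) : ℝ) ≤
        (j : ℝ) ^ (-(99 / 100) : ℝ) * (l.den : ℝ) ^ (-(99 / 200) : ℝ) := by
      intro p hp
      rw [Finset.mem_filter] at hp
      obtain ⟨-, h2, h3, h4⟩ := hS p hp.1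
      obtain ⟨e1, -, -⟩ := c1_str h2 h3
      have h5 := h4.2
      rw [hp.2] at h5 e1
      rw [e1] at h5
      have h6 : ((j : ℝ) * (l.den : ℝ) ^ (1 / 2 : ℝ)) ^ 2 ≤ (G12 p : ℝ) ^ 2 := by
        have h7 : (((j * (l.den * j) : ℕ)) : ℝ) ≤ ((G12 p ^ 2 : ℕ) : ℝ) := by exact_mod_cast h5
        push_cast at h7
        have h8 : ((l.den : ℝ) ^ (1 / 2 : ℝ)) ^ 2 = l.den := by
          rw [← Real.rpow_natCast, ← Real.rpow_mul hqpos.le]
          norm_num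
        rw [mul_pow, h8]
        linarith
      have h7 : (j : ℝ) * (l.den : ℝ) ^ (1 / 2 : ℝ) ≤ G12 p := by
        have h8 : (0 : ℝ) ≤ (G12 p : ℝ) := Nat.cast_nonneg _
        exact (pow_le_pow_iff_left₀ (by positivity) h8 (by norm_num : (2 : ℕ) ≠ 0)).1 h6
      have h8 : 0 < (j : ℝ) * (l.den : ℝ) ^ (1 / 2 : ℝ) := by positivity
      calc (G12 p : ℝ) ^ (-(99 / 100) : ℝ) ≤ ((j : ℝ) * (l.den : ℝ) ^ (1 / 2 : ℝ)) ^ (-(99 / 100) : ℝ) :=
            Real.rpow_le_rpow_of_nonpos h8 h7 (by norm_num)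
        _ = (j : ℝ) ^ (-(99 / 100) : ℝ) * (l.den : ℝ) ^ (-(99 / 200) : ℝ) := by
            rw [Real.mul_rpow hjpos.le (by positivity), ← Real.rpow_mul hqpos.le]
            norm_num
    have hcard := c1_card hl hj0 (S.filter (fun p => Nat.gcd (N1 p) (N2 p) = j)) (fun p hp => by
      rw [Finset.mem_filter] at hp
      obtain ⟨-, h2, h3, -⟩ := hS p hp.1
      exact ⟨h2, h3, hp.2⟩)
    have hA : tau (l.den * j) ≤ C0 * (l.den : ℝ) ^ (2 / 100 : ℝ) := by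
      refine (hτ _ (Nat.mul_pos hq0 hj0)).trans ?_
      refine mul_le_mul_of_nonneg_left ?_ (by linarith)
      push_cast
      calc ((l.den : ℝ) * j) ^ (1 / 100 : ℝ) ≤ ((l.den : ℝ) * l.den) ^ (1 / 100 : ℝ) :=
            Real.rpow_le_rpow (by positivity) (mul_le_mul_of_nonneg_left hjq hqpos.le) (by norm_num)
        _ = (l.den : ℝ) ^ (2 / 100 : ℝ) := by
            rw [Real.mul_rpow hqpos.le hqpos.le, ← Real.rpow_add hqpos]
            norm_num
    have hB : tau (l.num.natAbs * j) ≤ 3 * C0 * (l.den : ℝ) ^ (2 / 100 : ℝ) := by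
      refine (hτ _ (Nat.mul_pos hp0 hj0)).trans ?_
      push_cast
      have h1 : ((l.num.natAbs : ℝ) * j) ^ (1 / 100 : ℝ) ≤ 3 * (l.den : ℝ) ^ (2 / 100 : ℝ) := by
        calc ((l.num.natAbs : ℝ) * j) ^ (1 / 100 : ℝ) ≤ (3 * ((l.den : ℝ) * l.den)) ^ (1 / 100 : ℝ) := by
              refine Real.rpow_le_rpow (by positivity) ?_ (by norm_num)
              calc (l.num.natAbs : ℝ) * j ≤ (3 * l.den) * l.den := mul_le_mul hp3 hjq hjpos.le (by positivity)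
                _ = 3 * ((l.den : ℝ) * l.den) := by ring
          _ = 3 ^ (1 / 100 : ℝ) * (l.den : ℝ) ^ (2 / 100 : ℝ) := by
              rw [Real.mul_rpow (by norm_num) (by positivity), Real.mul_rpow hqpos.le hqpos.le, ← Real.rpow_add hqpos]
              norm_num
          _ ≤ 3 * (l.den : ℝ) ^ (2 / 100 : ℝ) := by
              refine mul_le_mul_of_nonneg_right ?_ (by positivity)
              calc (3 : ℝ) ^ (1 / 100 : ℝ) ≤ 3 ^ (1 : ℝ) := Real.rpow_le_rpow_of_exponent_le (by norm_num) (by norm_num)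
                _ = 3 := Real.rpow_one 3
      nlinarith
    have hT0 : 0 ≤ tau (l.num.natAbs * j) := Pool.MPb9430d.NT.tau_nonneg _
    have hQ2 : (0 : ℝ) < (l.den : ℝ) ^ (2 / 100 : ℝ) := by positivity
    have hcard2 : ((S.filter (fun p => Nat.gcd (N1 p) (N2 p) = j)).card : ℝ) ≤ 6 * C0 ^ 2 * (l.den : ℝ) ^ (4 / 100 : ℝ) := by
      refine hcard.trans ?_
      calc 2 * tau (l.den * j) * tau (l.num.natAbs * j) ≤ 2 * (C0 * (l.den : ℝ) ^ (2 / 100 : ℝ)) * (3 * C0 * (l.den : ℝ) ^ (2 / 100 : ℝ)) :=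
            mul_le_mul (mul_le_mul_of_nonneg_left hA (by norm_num)) hB hT0 (by positivity)
        _ = 6 * C0 ^ 2 * ((l.den : ℝ) ^ (2 / 100 : ℝ) * (l.den : ℝ) ^ (2 / 100 : ℝ)) := by ring
        _ = 6 * C0 ^ 2 * (l.den : ℝ) ^ (4 / 100 : ℝ) := by
            rw [← Real.rpow_add hqpos]
            norm_num
    calc ∑ p ∈ S.filter (fun p => Nat.gcd (N1 p) (N2 p) = j), (G12 p : ℝ) ^ (-(99 / 100) : ℝ)
        ≤ ∑ _p ∈ S.filter (fun p => Nat.gcd (N1 p) (N2 p) = j), (j : ℝ) ^ (-(99 / 100) : ℝ) * (l.den : ℝ) ^ (-(99 / 200) : ℝ) :=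
          Finset.sum_le_sum hterm
      _ = ((S.filter (fun p => Nat.gcd (N1 p) (N2 p) = j)).card : ℝ) * ((j : ℝ) ^ (-(99 / 100) : ℝ) * (l.den : ℝ) ^ (-(99 / 200) : ℝ)) := by
          rw [Finset.sum_const, nsmul_eq_mul]
      _ ≤ 6 * C0 ^ 2 * (l.den : ℝ) ^ (4 / 100 : ℝ) * ((j : ℝ) ^ (-(99 / 100) : ℝ) * (l.den : ℝ) ^ (-(99 / 200) : ℝ)) :=
          mul_le_mul_of_nonneg_right hcard2 (by positivity)
      _ = 6 * C0 ^ 2 * ((j : ℝ) ^ (-(99 / 100) : ℝ) * (l.den : ℝ) ^ (-(91 / 200) : ℝ)) := by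
          have h1 : (l.den : ℝ) ^ (-(91 / 200) : ℝ) = (l.den : ℝ) ^ (4 / 100 : ℝ) * (l.den : ℝ) ^ (-(99 / 200) : ℝ) := by
            rw [← Real.rpow_add hqpos]
            norm_num
          rw [h1]
          ring
      _ ≤ 6 * C0 ^ 2 * ((j : ℝ) ^ (-(99 / 100) : ℝ) * (j : ℝ) ^ (-(20 / 100) : ℝ)) := by
          refine mul_le_mul_of_nonneg_left (mul_le_mul_of_nonneg_left ?_ (by positivity)) (by positivity)
          calc (l.den : ℝ) ^ (-(91 / 200) : ℝ) ≤ (l.den : ℝ) ^ (-(20 / 100) : ℝ) :=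
                Real.rpow_le_rpow_of_exponent_le hq1 (by norm_num)
            _ ≤ (j : ℝ) ^ (-(20 / 100) : ℝ) := Real.rpow_le_rpow_of_nonpos hjpos hjq (by norm_num)
      _ = 6 * C0 ^ 2 * (j : ℝ) ^ (-(119 / 100) : ℝ) := by
          rw [← Real.rpow_add hjpos]
          norm_num
  calc ∑ j ∈ Finset.Icc 1 l.den, ∑ p ∈ S.filter (fun p => Nat.gcd (N1 p) (N2 p) = j), (G12 p : ℝ) ^ (-(99 / 100) : ℝ)
      ≤ ∑ j ∈ Finset.Icc 1 l.den, 6 * C0 ^ 2 * (j : ℝ) ^ (-(119 / 100) : ℝ) := Finset.sum_le_sum hfib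
    _ = 6 * C0 ^ 2 * ∑ j ∈ Finset.Icc 1 l.den, (j : ℝ) ^ (-(119 / 100) : ℝ) := by rw [← Finset.mul_sum]
    _ ≤ 6 * C0 ^ 2 * C2 := by
        refine mul_le_mul_of_nonneg_left ?_ (by positivity)
        rw [hC2]
        exact hsum.sum_le_tsum _ (fun n _ => by positivity)
    _ ≤ 6 * C0 ^ 2 * C2 + 1 := by linarith

end Pool.Agent.Lib.SR
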