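import Pool.Agent.Lib.MP_b9430d_co.SR.Defs

/-!
# Proposition A: definitions (part B, step (7) of STEIN_SIMPLE)

PLAN. `KN c Q ρ κ κ' w y ≤ ‖∑_{(a,b)} tm ..‖` (PrEx), the sum over `a ∈ FQ Q (L^16)`, `b ∈ FQ Q (R^8)`.
The pair `(0,0)` gives `≤ C Λ²`; the pairs which are not resonant give a negligible sum (PrN). Resonant pairs have
`a, b ≠ 0` (PrR). Zone `‖y‖ ≤ R / L^30` (PrZ): the sum over the resonant pairs of `1 / |a + b|` is at most `1`.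
Zone `R / L^30 ≤ ‖y‖ ≤ 2 R`: then `|b| ≤ L^47`, `|a| ≤ 3 |b|` and all resonant pairs have the same quotient `l = a / b`
(PrR). Write `a = k / P`, `b = k' / P'` (reduced), `N1 = |k| P'`, `N2 = |k'| P`, `j = gcd (N1, N2)`,
`G = |k P' + k' P| = |a + b| P P'`. CLASS 1: `j² ≤ N2` and `j N2 ≤ G²`: for fixed `l` the sum of the sup norms is at
most `C Λ² ∑ G^(-0.99) ≤ C Λ²` (PrC1). CLASS 2, the other pairs: for fixed `l` the terms are almost orthogonal in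
`L²(dy)` (PrOr), the square of the norm of one term is at most `C Λ⁴ (P P')^(-1.98) / b²`, and the sum of these over ALL
pairs of class 2 is at most `C` (PrC2).
-/

set_option autoImplicit false

open MeasureTheory Complex Set Real Filter Topology
open scoped ENNReal

namespace Pool.Agent.Lib.SR

open Pool.MPb9430d Pool.MPb9430d.Rough Pool.MPb9430d.Frac Pool.MPb9430d.Mom

/-- The coefficient of `ee (α t)` in `DD c Q κ t`. -/
noncomputable def cc (κ : ℝ) (c : ℕ → ℝ) (Q : ℕ) (α : ℚ) : ℝ := cof c Q α.den * (1 - κ * |(α : ℝ)|)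

/-- The term of the pair of frequencies `p` in the expansion of the kernel, for coefficients `u`, `v`. -/
noncomputable def tm (ρ : ℝ) (u v : ℚ → ℝ) (w y : ℂ) (p : ℚ × ℚ) : ℂ :=
  ((u p.1 * v p.2 : ℝ) : ℂ) * ee ((p.1 : ℝ) * ‖w‖ ^ 2 + (p.2 : ℝ) * ‖y‖ ^ 2) *
    II ρ ((p.1 : ℝ) + p.2) (((p.1 : ℝ) : ℂ) * w + ((p.2 : ℝ) : ℂ) * y)

/-- `|k| P'` for `a = k / P`, `b = k' / P'`. -/
def N1 (p : ℚ × ℚ) : ℕ := p.1.num.natAbs * p.2.den

/-- `|k'| P`. -/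
def N2 (p : ℚ × ℚ) : ℕ := p.2.num.natAbs * p.1.den

/-- `|k P' + k' P|`. -/
def G12 (p : ℚ × ℚ) : ℕ := (p.1.num * p.2.den + p.2.num * p.1.den).natAbs

/-- Class 1: `j² ≤ N2` and `j N2 ≤ G²` with `j = gcd (N1, N2)`. -/
def Cl1 (p : ℚ × ℚ) : Prop :=
  (Nat.gcd (N1 p) (N2 p)) ^ 2 ≤ N2 p ∧ Nat.gcd (N1 p) (N2 p) * N2 p ≤ (G12 p) ^ 2

theorem G12_eq (p : ℚ × ℚ) : (G12 p : ℝ) = |(p.1 : ℝ) + p.2| * ((p.1.den : ℝ) * p.2.den) := by
  have h1 : (0 : ℝ) < p.1.den := by exact_mod_cast p.1.den_pos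
  have h2 : (0 : ℝ) < p.2.den := by exact_mod_cast p.2.den_pos
  have e1 : (p.1 : ℝ) = p.1.num / p.1.den := Rat.cast_def p.1
  have e2 : (p.2 : ℝ) = p.2.num / p.2.den := Rat.cast_def p.2
  unfold G12
  rw [Nat.cast_natAbs]
  push_cast
  have h3 : (p.1.num : ℝ) * p.2.den + p.2.num * p.1.den = ((p.1 : ℝ) + p.2) * ((p.1.den : ℝ) * p.2.den) := by
    rw [e1, e2]
    field_simp
  rw [h3, abs_mul, abs_of_pos (mul_pos h1 h2)]

end Pool.Agent.Lib.SR
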