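import Pool.Agent.Lib.MP_b9430d_co.SR.PrD
import Pool.Agent.Lib.MP_b9430d_co.SR.Kii

/-!
# Proposition A: orthogonality in `L²(dy)` of the terms with a fixed quotient `l = a / b`
-/

set_option autoImplicit false

open MeasureTheory Complex Set Real Filter Topology
open scoped ENNReal

namespace Pool.Agent.Lib.SR

open Pool.MPb9430d Pool.MPb9430d.Rough Pool.MPb9430d.Frac Pool.MPb9430d.Mom

/-- The function of `y` for the pair `(l b, b)`. -/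
noncomputable def JJ (ρ : ℝ) (w : ℂ) (l b : ℝ) (y : ℂ) : ℂ :=
  ee (l * b * ‖w‖ ^ 2 + b * ‖y‖ ^ 2) * II ρ (l * b + b) (((l * b : ℝ) : ℂ) * w + ((b : ℝ) : ℂ) * y)

/-- The quadratic coefficient of the product of two of them. -/
noncomputable def L2c (ρ l b b' : ℝ) : ℂ :=
  ((4 * b ^ 2 : ℝ) : ℂ) / Gm ρ (l * b + b) + ((4 * b' ^ 2 : ℝ) : ℂ) / Gm ρ (-(l * b' + b')) -
    ((2 * (b - b') : ℝ) : ℂ) * I

theorem ee_add' (a b : ℝ) : ee (a + b) = ee a * ee b := by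
  rw [ee, ee, ee, ← Complex.exp_add]
  congr 1
  push_cast
  ring

theorem conj_ee (a : ℝ) : (starRingEnd ℂ) (ee a) = ee (-a) := by
  rw [ee, ee, ← Complex.exp_conj]
  congr 1
  simp only [map_mul, Complex.conj_I, Complex.conj_ofReal]
  push_cast
  ring

theorem norm_ee' (a : ℝ) : ‖ee a‖ = 1 := by
  rw [ee, Complex.norm_exp_ofReal_mul_I]

theorem conj_Gm (ρ s : ℝ) : (starRingEnd ℂ) (Gm ρ s) = Gm ρ (-s) := by
  unfold Gm
  simp only [map_sub, map_mul, Complex.conj_I, Complex.conj_ofReal]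
  push_cast
  ring

theorem norm_Gm_neg (ρ s : ℝ) : ‖Gm ρ (-s)‖ = ‖Gm ρ s‖ := by
  rw [← conj_Gm, Complex.norm_conj]

theorem JJ_shift {ρ : ℝ} (hρ : 0 < ρ) (w : ℂ) (l b : ℝ) (z : ℂ) :
    JJ ρ w l b (z - (l : ℂ) * w) = ((Real.exp (9 * π) : ℝ) : ℂ) * (Gm ρ (l * b + b))⁻¹ *
      (ee (l * b * ‖w‖ ^ 2 + b * (‖z‖ ^ 2 - 2 * l * Frac.ip w z + l ^ 2 * ‖w‖ ^ 2)) *
        Complex.exp (-((4 * π * b ^ 2 * ‖z‖ ^ 2 : ℝ) : ℂ) / Gm ρ (l * b + b))) := by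
  unfold JJ
  rw [II_eq hρ]
  have e1 : ((l * b : ℝ) : ℂ) * w + ((b : ℝ) : ℂ) * (z - (l : ℂ) * w) = ((b : ℝ) : ℂ) * z := by
    push_cast
    ring
  have e2 : ‖z - (l : ℂ) * w‖ ^ 2 = ‖z‖ ^ 2 - 2 * l * Frac.ip w z + l ^ 2 * ‖w‖ ^ 2 := by
    rw [← Complex.normSq_eq_norm_sq, ← Complex.normSq_eq_norm_sq, ← Complex.normSq_eq_norm_sq,
      Complex.normSq_apply, Complex.normSq_apply, Complex.normSq_apply, Frac.ip]
    simp only [Complex.sub_re, Complex.sub_im, Complex.mul_re, Complex.mul_im, Complex.ofReal_re, Complex.ofReal_im]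
    ring
  rw [e1, e2, norm_mul, Complex.norm_real, mul_pow, Real.norm_eq_abs, sq_abs]
  rw [show 4 * π * (b ^ 2 * ‖z‖ ^ 2) = 4 * π * b ^ 2 * ‖z‖ ^ 2 by ring]
  ring

theorem JJ_prod {ρ : ℝ} (hρ : 0 < ρ) (w : ℂ) (l b b' : ℝ) (z : ℂ) :
    JJ ρ w l b (z - (l : ℂ) * w) * (starRingEnd ℂ) (JJ ρ w l b' (z - (l : ℂ) * w)) =
      (((Real.exp (9 * π) : ℝ) : ℂ) ^ 2 * (Gm ρ (l * b + b))⁻¹ * (Gm ρ (-(l * b' + b')))⁻¹ *
        ee ((b - b') * (l + l ^ 2) * ‖w‖ ^ 2)) *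
      (Complex.exp (-(π * L2c ρ l b b') * ‖z‖ ^ 2) * ee (-2 * l * (b - b') * Frac.ip w z)) := by
  rw [JJ_shift hρ, JJ_shift hρ]
  simp only [map_mul, map_inv₀, Complex.conj_ofReal, conj_Gm, conj_ee, ← Complex.exp_conj, map_div₀, map_neg]
  have e3 : ee (l * b * ‖w‖ ^ 2 + b * (‖z‖ ^ 2 - 2 * l * Frac.ip w z + l ^ 2 * ‖w‖ ^ 2)) *
        Complex.exp (-((4 * π * b ^ 2 * ‖z‖ ^ 2 : ℝ) : ℂ) / Gm ρ (l * b + b)) *
      (ee (-(l * b' * ‖w‖ ^ 2 + b' * (‖z‖ ^ 2 - 2 * l * Frac.ip w z + l ^ 2 * ‖w‖ ^ 2))) *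
        Complex.exp (-((4 * π * b' ^ 2 * ‖z‖ ^ 2 : ℝ) : ℂ) / Gm ρ (-(l * b' + b')))) =
      ee ((b - b') * (l + l ^ 2) * ‖w‖ ^ 2) *
        (Complex.exp (-(π * L2c ρ l b b') * ‖z‖ ^ 2) * ee (-2 * l * (b - b') * Frac.ip w z)) := by
    unfold ee L2c
    rw [← Complex.exp_add, ← Complex.exp_add, ← Complex.exp_add, ← Complex.exp_add, ← Complex.exp_add]
    congr 1
    push_cast
    ring
  calc _ = ((Real.exp (9 * π) : ℝ) : ℂ) ^ 2 * (Gm ρ (l * b + b))⁻¹ * (Gm ρ (-(l * b' + b')))⁻¹ *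
      (ee (l * b * ‖w‖ ^ 2 + b * (‖z‖ ^ 2 - 2 * l * Frac.ip w z + l ^ 2 * ‖w‖ ^ 2)) *
        Complex.exp (-((4 * π * b ^ 2 * ‖z‖ ^ 2 : ℝ) : ℂ) / Gm ρ (l * b + b)) *
      (ee (-(l * b' * ‖w‖ ^ 2 + b' * (‖z‖ ^ 2 - 2 * l * Frac.ip w z + l ^ 2 * ‖w‖ ^ 2))) *
        Complex.exp (-((4 * π * b' ^ 2 * ‖z‖ ^ 2 : ℝ) : ℂ) / Gm ρ (-(l * b' + b'))))) := by ring
    _ = _ := by rw [e3]; ring

theorem L2c_re (ρ l b b' : ℝ) : (L2c ρ l b b').re =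
    4 * b ^ 2 * (1 / ρ ^ 2) / ‖Gm ρ (l * b + b)‖ ^ 2 + 4 * b' ^ 2 * (1 / ρ ^ 2) / ‖Gm ρ (l * b' + b')‖ ^ 2 := by
  unfold L2c
  rw [Complex.sub_re, Complex.add_re, Complex.div_re, Complex.div_re, Gm_re, Gm_re, Complex.ofReal_re, Complex.ofReal_im,
    Complex.ofReal_re, Complex.ofReal_im, Complex.re_ofReal_mul, Complex.I_re, ← norm_Gm_neg ρ (l * b' + b'),
    ← Complex.normSq_eq_norm_sq, ← Complex.normSq_eq_norm_sq]
  ring

theorem L2c_norm_le {ρ : ℝ} (hρ : 0 < ρ) (l b b' : ℝ) : ‖L2c ρ l b b'‖ ≤ 4 * b ^ 2 * ρ ^ 2 + 4 * b' ^ 2 * ρ ^ 2 + 2 * |b - b'| := by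
  unfold L2c
  refine (norm_sub_le _ _).trans (add_le_add ((norm_add_le _ _).trans (add_le_add ?_ ?_)) ?_)
  · rw [norm_div, Complex.norm_real, Real.norm_of_nonneg (by positivity), div_eq_mul_inv]
    exact mul_le_mul_of_nonneg_left (norm_Gm_inv_le hρ _) (by positivity)
  · rw [norm_div, Complex.norm_real, Real.norm_of_nonneg (by positivity), div_eq_mul_inv]
    exact mul_le_mul_of_nonneg_left (norm_Gm_inv_le hρ _) (by positivity)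
  · rw [norm_mul, Complex.norm_real, Complex.norm_I, mul_one, Real.norm_eq_abs, abs_mul, abs_of_pos (by norm_num : (0 : ℝ) < 2)]

/-- The cross term. -/
theorem JJ_int {ρ : ℝ} (hρ : 0 < ρ) (w : ℂ) (l b b' : ℝ) (hb : b ≠ 0) (hb' : b' ≠ 0) :
    Integrable (fun y => JJ ρ w l b y * (starRingEnd ℂ) (JJ ρ w l b' y)) ∧
    ‖∫ y, JJ ρ w l b y * (starRingEnd ℂ) (JJ ρ w l b' y)‖ ≤
      Real.exp (9 * π) ^ 2 * ρ ^ 2 / 8 * (1 / (|b| * |b'|)) *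
        Real.exp (-(π * (-2 * l * (b - b')) ^ 2 * ‖w‖ ^ 2 * (L2c ρ l b b').re / ‖L2c ρ l b b'‖ ^ 2)) := by
  have hΓ : 0 < ‖Gm ρ (l * b + b)‖ := norm_pos_iff.2 (Gm_ne hρ _)
  have hΓ' : 0 < ‖Gm ρ (l * b' + b')‖ := norm_pos_iff.2 (Gm_ne hρ _)
  have hb2 : 0 < |b| := abs_pos.2 hb
  have hb2' : 0 < |b'| := abs_pos.2 hb'
  have hre : 0 < (L2c ρ l b b').re := by
    rw [L2c_re]
    have : 0 < b ^ 2 := by positivity
    positivity
  have hI := gint_integrable hre (-2 * l * (b - b')) w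
  have hG := gint hre (-2 * l * (b - b')) w
  have key : Integrable (fun z => JJ ρ w l b (z - (l : ℂ) * w) * (starRingEnd ℂ) (JJ ρ w l b' (z - (l : ℂ) * w))) := by
    simp_rw [JJ_prod hρ]
    exact hI.const_mul _
  constructor
  · have h2 := key.comp_add_right ((l : ℂ) * w)
    simpa only [add_sub_cancel_right] using h2
  · rw [← integral_sub_right_eq_self (fun y => JJ ρ w l b y * (starRingEnd ℂ) (JJ ρ w l b' y)) ((l : ℂ) * w)]
    simp_rw [JJ_prod hρ]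
    rw [integral_const_mul, hG, norm_mul, norm_mul, norm_mul, norm_mul, norm_mul, norm_pow, norm_ee', Complex.norm_real,
      Real.norm_of_nonneg (Real.exp_pos _).le, norm_inv, norm_inv, norm_inv, norm_Gm_neg, Complex.norm_exp, re_neg_div, mul_one, ← mul_assoc]
    refine mul_le_mul_of_nonneg_right ?_ (Real.exp_pos _).le
    have h1 : ‖L2c ρ l b b'‖⁻¹ ≤ ((L2c ρ l b b').re)⁻¹ :=
      inv_anti₀ hre ((le_abs_self _).trans (Complex.abs_re_le_norm _))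
    have h2 : 8 * (1 / ρ ^ 2) * (|b| * |b'|) / (‖Gm ρ (l * b + b)‖ * ‖Gm ρ (l * b' + b')‖) ≤ (L2c ρ l b b').re := by
      rw [L2c_re]
      have h3 : 4 * b ^ 2 * (1 / ρ ^ 2) / ‖Gm ρ (l * b + b)‖ ^ 2 = 4 * (1 / ρ ^ 2) * (|b| / ‖Gm ρ (l * b + b)‖) ^ 2 := by
        rw [div_pow, sq_abs]
        ring
      have h4 : 4 * b' ^ 2 * (1 / ρ ^ 2) / ‖Gm ρ (l * b' + b')‖ ^ 2 = 4 * (1 / ρ ^ 2) * (|b'| / ‖Gm ρ (l * b' + b')‖) ^ 2 := by
        rw [div_pow, sq_abs]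
        ring
      have h5 : 8 * (1 / ρ ^ 2) * (|b| * |b'|) / (‖Gm ρ (l * b + b)‖ * ‖Gm ρ (l * b' + b')‖) =
          4 * (1 / ρ ^ 2) * (2 * (|b| / ‖Gm ρ (l * b + b)‖) * (|b'| / ‖Gm ρ (l * b' + b')‖)) := by
        field_simp
        norm_num
      rw [h3, h4, h5, ← mul_add]
      exact mul_le_mul_of_nonneg_left (two_mul_le_add_sq _ _) (by positivity)
    have h6 : ((L2c ρ l b b').re)⁻¹ ≤ (8 * (1 / ρ ^ 2) * (|b| * |b'|) / (‖Gm ρ (l * b + b)‖ * ‖Gm ρ (l * b' + b')‖))⁻¹ :=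
      inv_anti₀ (by positivity) h2
    calc Real.exp (9 * π) ^ 2 * ‖Gm ρ (l * b + b)‖⁻¹ * ‖Gm ρ (l * b' + b')‖⁻¹ * ‖L2c ρ l b b'‖⁻¹
        ≤ Real.exp (9 * π) ^ 2 * ‖Gm ρ (l * b + b)‖⁻¹ * ‖Gm ρ (l * b' + b')‖⁻¹ *
          (8 * (1 / ρ ^ 2) * (|b| * |b'|) / (‖Gm ρ (l * b + b)‖ * ‖Gm ρ (l * b' + b')‖))⁻¹ :=
          mul_le_mul_of_nonneg_left (h1.trans h6) (by positivity)
      _ = Real.exp (9 * π) ^ 2 * ρ ^ 2 / 8 * (1 / (|b| * |b'|)) := by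
          generalize ‖Gm ρ (l * b + b)‖ = x at hΓ
          generalize ‖Gm ρ (l * b' + b')‖ = x' at hΓ'
          field_simp

theorem kcard_FQ_le {Q : ℕ} {H : ℝ} (hH : 0 ≤ H) : ((FQ Q H).card : ℝ) ≤ (2 * (H * Q) + 1) * Q := by
  have h1 : (FQ Q H).card ≤ ((Finset.Icc (-⌊H * Q⌋) ⌊H * Q⌋) ×ˢ (Finset.Icc 1 Q)).card := by
    unfold FQ
    exact (Finset.card_filter_le _ _).trans Finset.card_image_le
  have h2 : 0 ≤ ⌊H * Q⌋ := Int.floor_nonneg.2 (by positivity)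
  have h3 : ((Finset.Icc (-⌊H * Q⌋) ⌊H * Q⌋).card : ℝ) ≤ 2 * (H * Q) + 1 := by
    rw [Int.card_Icc]
    have h4 : ((⌊H * Q⌋ + 1 - -⌊H * Q⌋).toNat : ℝ) = ((⌊H * Q⌋ + 1 - -⌊H * Q⌋ : ℤ) : ℝ) := by
      rw [← Int.cast_natCast, Int.toNat_of_nonneg (by omega)]
    rw [h4]
    push_cast
    have := Int.floor_le (H * (Q : ℝ))
    linarith
  have h4 : ((FQ Q H).card : ℝ) ≤ ((Finset.Icc (-⌊H * Q⌋) ⌊H * Q⌋).card : ℝ) * ((Finset.Icc 1 Q).card : ℝ) := by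
    rw [← Nat.cast_mul, ← Finset.card_product]
    exact_mod_cast h1
  refine h4.trans ?_
  rw [Nat.card_Icc, Nat.add_sub_cancel]
  exact mul_le_mul_of_nonneg_right h3 (by positivity)

/-- A nonzero rational number with a small denominator is not small. -/
theorem one_div_le_abs {a : ℚ} (ha : a ≠ 0) {X : ℝ} (hX : (a.den : ℝ) ≤ X) : 1 / X ≤ |(a : ℝ)| := by
  have hd : (0 : ℝ) < a.den := by exact_mod_cast a.den_pos
  have hn : (1 : ℝ) ≤ |(a.num : ℝ)| := by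
    have h1 : 1 ≤ |a.num| := Int.one_le_abs (Rat.num_ne_zero.2 ha)
    exact_mod_cast h1
  rw [Rat.cast_def a, abs_div, abs_of_pos hd]
  exact (one_div_le_one_div_of_le hd hX).trans (div_le_div_of_nonneg_right hn hd.le)

/-- Two different rational numbers with small denominators are not close. -/
theorem one_div_le_abs_sub {a b : ℚ} (h : a ≠ b) {X : ℝ} (ha : (a.den : ℝ) ≤ X) (hb : (b.den : ℝ) ≤ X) :
    1 / X ^ 2 ≤ |(a : ℝ) - b| := by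
  have h1 : a - b ≠ 0 := sub_ne_zero.2 h
  have h2 : ((a - b).den : ℝ) ≤ X ^ 2 := by
    have h3 : (a - b).den ∣ a.den * b.den := Rat.sub_den_dvd a b
    have h4 : (a - b).den ≤ a.den * b.den := Nat.le_of_dvd (Nat.mul_pos a.den_pos b.den_pos) h3
    have h5 : ((a - b).den : ℝ) ≤ (a.den : ℝ) * b.den := by exact_mod_cast h4
    rw [sq]
    exact h5.trans (mul_le_mul ha hb (by positivity) ((Nat.cast_nonneg _).trans ha))
  have h3 := one_div_le_abs h1 h2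
  rwa [Rat.cast_sub] at h3

/-- The exponent of the cross terms is large. -/
theorem cross_exp {ρ L : ℝ} (hρ : 1 ≤ ρ) (hL : 100 ≤ L) (hLρ : ρ ^ 2 ≤ L) {w : ℂ} (hw : L ^ 2000 ≤ ‖w‖) {l b b' : ℝ}
    (hl : |l| ≤ 3) (hl' : 1 / L ^ 48 ≤ |l|) (hb : 1 / L ≤ |b|) (hb1 : |b| ≤ L ^ 47) (hb1' : |b'| ≤ L ^ 47)
    (hbb : 1 / L ^ 2 ≤ |b - b'|) :
    L ^ 3600 ≤ π * (-2 * l * (b - b')) ^ 2 * ‖w‖ ^ 2 * (L2c ρ l b b').re / ‖L2c ρ l b b'‖ ^ 2 := by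
  have hρ0 : 0 < ρ := by linarith
  have hL0 : 0 < L := by linarith
  have hL1 : 1 ≤ L := by linarith
  have hb0 : 0 < |b| := lt_of_lt_of_le (by positivity) hb
  have e1 : 1 / L ^ 100 ≤ (-2 * l * (b - b')) ^ 2 := by
    have h1 : 1 / L ^ 50 ≤ |l| * |b - b'| := by
      calc 1 / L ^ 50 = (1 / L ^ 48) * (1 / L ^ 2) := by
            rw [one_div_mul_one_div, ← pow_add]
        _ ≤ |l| * |b - b'| := mul_le_mul hl' hbb (by positivity) (abs_nonneg _)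
    have h2 : (-2 * l * (b - b')) ^ 2 = 4 * (|l| * |b - b'|) ^ 2 := by
      rw [mul_pow |l|, sq_abs, sq_abs]
      ring
    rw [h2]
    calc 1 / L ^ 100 = (1 / L ^ 50) ^ 2 := by
          rw [div_pow, one_pow, ← pow_mul]
      _ ≤ (|l| * |b - b'|) ^ 2 := pow_le_pow_left₀ (by positivity) h1 2
      _ ≤ 4 * (|l| * |b - b'|) ^ 2 := by nlinarith [sq_nonneg (|l| * |b - b'|)]
  have e2 : L ^ 4000 ≤ ‖w‖ ^ 2 := by
    calc L ^ 4000 = (L ^ 2000) ^ 2 := by rw [← pow_mul]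
      _ ≤ ‖w‖ ^ 2 := pow_le_pow_left₀ (by positivity) hw 2
  have hΓ0 : 0 < ‖Gm ρ (l * b + b)‖ := norm_pos_iff.2 (Gm_ne hρ0 _)
  have hΓ : ‖Gm ρ (l * b + b)‖ ^ 2 ≤ L ^ 95 := by
    rw [Gm_norm_sq]
    have h1 : |l * b + b| ≤ 4 * L ^ 47 := by
      rw [show l * b + b = (l + 1) * b by ring, abs_mul]
      have h2 : |l + 1| ≤ 4 := (abs_add_le _ _).trans (by rw [abs_one]; linarith)
      exact mul_le_mul h2 hb1 (abs_nonneg _) (by norm_num)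
    have h2 : (l * b + b) ^ 2 ≤ 16 * L ^ 94 := by
      rw [← sq_abs (l * b + b)]
      calc |l * b + b| ^ 2 ≤ (4 * L ^ 47) ^ 2 := pow_le_pow_left₀ (abs_nonneg _) h1 2
        _ = 16 * L ^ 94 := by rw [mul_pow, ← pow_mul]; norm_num
    have h3 : (1 / ρ ^ 2) ^ 2 ≤ 1 := by
      refine pow_le_one₀ (by positivity) ?_
      rw [div_le_one (by positivity)]
      nlinarith
    have h4 : (1 : ℝ) ≤ L ^ 94 := one_le_pow₀ hL1
    calc (1 / ρ ^ 2) ^ 2 + 4 * (l * b + b) ^ 2 ≤ L ^ 94 + 4 * (16 * L ^ 94) := by linarith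
      _ = 65 * L ^ 94 := by ring
      _ ≤ L * L ^ 94 := mul_le_mul_of_nonneg_right (by linarith) (by positivity)
      _ = L ^ 95 := by rw [← pow_succ']
  have e3 : 1 / L ^ 98 ≤ (L2c ρ l b b').re := by
    rw [L2c_re]
    have h1 : 0 ≤ 4 * b' ^ 2 * (1 / ρ ^ 2) / ‖Gm ρ (l * b' + b')‖ ^ 2 := by positivity
    have h2 : 1 / L ^ 98 ≤ 4 * b ^ 2 * (1 / ρ ^ 2) / ‖Gm ρ (l * b + b)‖ ^ 2 := by
      have h3 : 1 / L ^ 2 ≤ b ^ 2 := by
        rw [← sq_abs b]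
        calc 1 / L ^ 2 = (1 / L) ^ 2 := by rw [div_pow, one_pow]
          _ ≤ |b| ^ 2 := pow_le_pow_left₀ (by positivity) hb 2
      have h4 : 1 / L ≤ 1 / ρ ^ 2 := one_div_le_one_div_of_le (by positivity) hLρ
      calc 1 / L ^ 98 = (1 / L ^ 2) * (1 / L) / L ^ 95 := by
            rw [one_div_mul_one_div, ← pow_succ, div_div, ← pow_add]
        _ ≤ (4 * b ^ 2) * (1 / ρ ^ 2) / ‖Gm ρ (l * b + b)‖ ^ 2 := by
            refine div_le_div₀ (by positivity) (mul_le_mul (by nlinarith [sq_nonneg b]) h4 (by positivity) (by positivity)) (by positivity) hΓ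
    linarith
  have e4 : ‖L2c ρ l b b'‖ ^ 2 ≤ L ^ 192 := by
    have h1 := L2c_norm_le hρ0 l b b'
    have h2 : ∀ x : ℝ, |x| ≤ L ^ 47 → 4 * x ^ 2 * ρ ^ 2 ≤ 4 * L ^ 95 := by
      intro x hx
      have h3 : x ^ 2 ≤ L ^ 94 := by
        rw [← sq_abs x]
        calc |x| ^ 2 ≤ (L ^ 47) ^ 2 := pow_le_pow_left₀ (abs_nonneg _) hx 2
          _ = L ^ 94 := by rw [← pow_mul]
      calc 4 * x ^ 2 * ρ ^ 2 ≤ 4 * L ^ 94 * L := mul_le_mul (by linarith) hLρ (by positivity) (by positivity)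
        _ = 4 * L ^ 95 := by rw [mul_assoc, ← pow_succ]
    have h3 : |b - b'| ≤ 2 * L ^ 95 := by
      have h4 : L ^ 47 ≤ L ^ 95 := pow_le_pow_right₀ hL1 (by norm_num)
      have h5 := abs_sub b b'
      linarith
    have h4 : ‖L2c ρ l b b'‖ ≤ L ^ 96 := by
      calc ‖L2c ρ l b b'‖ ≤ 4 * L ^ 95 + 4 * L ^ 95 + 2 * (2 * L ^ 95) := by linarith [h2 b hb1, h2 b' hb1']
        _ = 12 * L ^ 95 := by ring
        _ ≤ L * L ^ 95 := mul_le_mul_of_nonneg_right (by linarith) (by positivity)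
        _ = L ^ 96 := by rw [← pow_succ']
    calc ‖L2c ρ l b b'‖ ^ 2 ≤ (L ^ 96) ^ 2 := pow_le_pow_left₀ (norm_nonneg _) h4 2
      _ = L ^ 192 := by rw [← pow_mul]
  have hΛ0 : 0 < ‖L2c ρ l b b'‖ := by
    have h1 : 0 < (L2c ρ l b b').re := lt_of_lt_of_le (by positivity) e3
    exact lt_of_lt_of_le h1 ((le_abs_self _).trans (Complex.abs_re_le_norm _))
  have hpi : 1 ≤ π := by linarith [Real.pi_gt_three]
  have hre0 : 0 ≤ (L2c ρ l b b').re := le_trans (by positivity) e3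
  calc L ^ 3600 ≤ L ^ 3610 := pow_le_pow_right₀ hL1 (by norm_num)
    _ = 1 * (1 / L ^ 100) * L ^ 4000 * (1 / L ^ 98) / L ^ 192 := by
        rw [one_mul, eq_div_iff (by positivity), one_div, one_div, ← pow_add]
        rw [show L ^ 4000 = L ^ 100 * (L ^ 98 * L ^ 3802) by rw [← pow_add, ← pow_add]]
        field_simp
    _ ≤ π * (-2 * l * (b - b')) ^ 2 * ‖w‖ ^ 2 * (L2c ρ l b b').re / ‖L2c ρ l b b'‖ ^ 2 := by
        refine div_le_div₀ (by positivity) ?_ (by positivity) e4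
        refine mul_le_mul (mul_le_mul (mul_le_mul hpi e1 (by positivity) (by positivity)) e2 (by positivity) (by positivity)) e3
          (by positivity) (by positivity)

theorem tm_JJ {ρ : ℝ} (u v : ℚ → ℝ) (w y : ℂ) {l : ℚ} {p : ℚ × ℚ} (hp : p.1 = l * p.2) :
    tm ρ u v w y p = ((u p.1 * v p.2 : ℝ) : ℂ) * JJ ρ w l p.2 y := by
  unfold tm JJ
  have h : (p.1 : ℝ) = (l : ℝ) * p.2 := by
    rw [hp, Rat.cast_mul]
  rw [mul_assoc, h]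

/-- Module PrOr. -/
theorem orth {ρ : ℝ} (hρ : 1 ≤ ρ) : ∃ C L₀ : ℝ, 0 < C ∧ ∀ (L : ℝ) (Q : ℕ), L₀ ≤ L → (Q : ℝ) ≤ L →
    ∀ w : ℂ, L ^ 2000 ≤ ‖w‖ → ∀ l : ℚ, |(l : ℝ)| ≤ 3 → 1 / L ^ 48 ≤ |(l : ℝ)| → ∀ S : Finset (ℚ × ℚ),
    (∀ p ∈ S, p.2 ≠ 0 ∧ p.2.den ≤ Q ∧ |(p.2 : ℝ)| ≤ L ^ 47 ∧ p.1 = l * p.2) → ∀ u v : ℚ → ℝ,
    Integrable (fun y => ‖∑ p ∈ S, tm ρ u v w y p‖ ^ 2) ∧
    ∫ y, ‖∑ p ∈ S, tm ρ u v w y p‖ ^ 2 ≤ C * ∑ p ∈ S, (u p.1 * v p.2) ^ 2 / (p.2 : ℝ) ^ 2 := by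
  refine ⟨Real.exp (9 * π) ^ 2 * ρ ^ 2 / 4, max 100 (ρ ^ 2), by positivity, ?_⟩
  intro L Q hL hQ w hw l hl hl' S hS u v
  have hρ0 : 0 < ρ := by linarith
  have hL100 : 100 ≤ L := (le_max_left _ _).trans hL
  have hLρ : ρ ^ 2 ≤ L := (le_max_right _ _).trans hL
  have hL0 : 0 < L := by linarith
  have hL1 : 1 ≤ L := by linarith
  set g : ℚ × ℚ → ℝ := fun p => u p.1 * v p.2 with hg
  have hfun : ∀ y : ℂ, ‖∑ p ∈ S, tm ρ u v w y p‖ ^ 2 =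
      RCLike.re (∑ p ∈ S, ∑ q ∈ S, ((g p * g q : ℝ) : ℂ) * (JJ ρ w l p.2 y * (starRingEnd ℂ) (JJ ρ w l q.2 y))) := by
    intro y
    have h1 : ∑ p ∈ S, tm ρ u v w y p = ∑ p ∈ S, ((g p : ℝ) : ℂ) * JJ ρ w l p.2 y :=
      Finset.sum_congr rfl fun p hp => tm_JJ u v w y (hS p hp).2.2.2
    have h2 : ∑ p ∈ S, ∑ q ∈ S, ((g p * g q : ℝ) : ℂ) * (JJ ρ w l p.2 y * (starRingEnd ℂ) (JJ ρ w l q.2 y)) =
        (∑ p ∈ S, ((g p : ℝ) : ℂ) * JJ ρ w l p.2 y) * (starRingEnd ℂ) (∑ p ∈ S, ((g p : ℝ) : ℂ) * JJ ρ w l p.2 y) := by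
      rw [map_sum, Finset.sum_mul_sum]
      refine Finset.sum_congr rfl fun p _ => Finset.sum_congr rfl fun q _ => ?_
      rw [map_mul, Complex.conj_ofReal]
      push_cast
      ring
    rw [h1, h2, Complex.mul_conj, Complex.normSq_eq_norm_sq]
    simp only [RCLike.re_to_complex, Complex.ofReal_re]
  have hint : ∀ p ∈ S, ∀ q ∈ S, Integrable (fun y => ((g p * g q : ℝ) : ℂ) * (JJ ρ w l p.2 y * (starRingEnd ℂ) (JJ ρ w l q.2 y))) := by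
    intro p hp q hq
    exact ((JJ_int hρ0 w l p.2 q.2 (Rat.cast_ne_zero.2 (hS p hp).1) (Rat.cast_ne_zero.2 (hS q hq).1)).1).const_mul _
  have hint2 : Integrable (fun y => ∑ p ∈ S, ∑ q ∈ S, ((g p * g q : ℝ) : ℂ) * (JJ ρ w l p.2 y * (starRingEnd ℂ) (JJ ρ w l q.2 y))) :=
    integrable_finsetSum _ fun p hp => integrable_finsetSum _ fun q hq => hint p hp q hq
  simp_rw [hfun]
  refine ⟨hint2.re, ?_⟩
  rw [integral_re hint2]
  set E : ℝ := Real.exp (9 * π) ^ 2 * ρ ^ 2 / 8 with hE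
  set x : ℚ × ℚ → ℝ := fun p => |g p| / |(p.2 : ℝ)| with hx
  set N : ℝ := (S.card : ℝ) with hN
  have hx0 : ∀ p, 0 ≤ x p := fun p => by positivity
  -- the cardinality
  have hcard : N ≤ L ^ 3600 := by
    have h1 : S.card ≤ (FQ Q (L ^ 47)).card := by
      refine Finset.card_le_card_of_injOn (fun p => p.2) (fun p hp => ?_) (fun p hp q hq hpq => ?_)
      · exact mem_FQ.2 ⟨(hS p hp).2.1, (hS p hp).2.2.1⟩
      · have hpq' : p.2 = q.2 := hpq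
        exact Prod.ext (by rw [(hS p hp).2.2.2, (hS q hq).2.2.2, hpq']) hpq'
    have h2 : N ≤ ((FQ Q (L ^ 47)).card : ℝ) := by
      rw [hN]
      exact_mod_cast h1
    have h3 := kcard_FQ_le (Q := Q) (H := L ^ 47) (by positivity)
    have h4 : (2 * (L ^ 47 * (Q : ℝ)) + 1) * Q ≤ (2 * (L ^ 47 * L) + 1) * L := by
      refine mul_le_mul ?_ hQ (by positivity) (by positivity)
      have := mul_le_mul_of_nonneg_left hQ (by positivity : (0 : ℝ) ≤ L ^ 47)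
      linarith
    have h5 : (2 * (L ^ 47 * L) + 1) * L ≤ L ^ 50 := by
      have h6 : (1 : ℝ) ≤ L ^ 48 := one_le_pow₀ hL1
      have h7 : L ^ 47 * L = L ^ 48 := by rw [← pow_succ]
      rw [h7]
      calc (2 * L ^ 48 + 1) * L ≤ (L * L ^ 48) * L := by
            refine mul_le_mul_of_nonneg_right ?_ hL0.le
            nlinarith
        _ = L ^ 50 := by ring
    exact h2.trans (h3.trans (h4.trans (h5.trans (pow_le_pow_right₀ hL1 (by norm_num)))))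
  have hpair : ∀ p ∈ S, ∀ q ∈ S, ‖∫ y, ((g p * g q : ℝ) : ℂ) * (JJ ρ w l p.2 y * (starRingEnd ℂ) (JJ ρ w l q.2 y))‖ ≤
      E * (x p * x q) * (if p = q then 1 else 1 / L ^ 3600) := by
    intro p hp q hq
    obtain ⟨-, h1⟩ := JJ_int hρ0 w l p.2 q.2 (Rat.cast_ne_zero.2 (hS p hp).1) (Rat.cast_ne_zero.2 (hS q hq).1)
    rw [integral_const_mul, norm_mul, Complex.norm_real, Real.norm_eq_abs, abs_mul]
    have h2 : Real.exp (-(π * (-2 * (l : ℝ) * ((p.2 : ℝ) - (q.2 : ℝ))) ^ 2 * ‖w‖ ^ 2 * (L2c ρ l p.2 q.2).re / ‖L2c ρ l p.2 q.2‖ ^ 2)) ≤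
        (if p = q then 1 else 1 / L ^ 3600) := by
      split_ifs with hpq
      · rw [Real.exp_le_one_iff, neg_nonpos]
        have : 0 ≤ (L2c ρ l p.2 q.2).re := by
          rw [L2c_re]
          positivity
        positivity
      · have hne : p.2 ≠ q.2 := by
          intro h
          exact hpq (Prod.ext (by rw [(hS p hp).2.2.2, (hS q hq).2.2.2, h]) h)
        have hdp : ((p.2).den : ℝ) ≤ L := (Nat.cast_le.2 (hS p hp).2.1).trans hQ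
        have hdq : ((q.2).den : ℝ) ≤ L := (Nat.cast_le.2 (hS q hq).2.1).trans hQ
        have h3 := cross_exp hρ hL100 hLρ hw hl hl' (one_div_le_abs (hS p hp).1 hdp) (hS p hp).2.2.1 (hS q hq).2.2.1
          (one_div_le_abs_sub hne hdp hdq)
        rw [Real.exp_neg, one_div]
        refine inv_anti₀ (by positivity) (h3.trans ?_)
        exact (le_add_of_nonneg_right zero_le_one).trans (Real.add_one_le_exp _)
    calc |g p| * |g q| * ‖∫ y, JJ ρ w l p.2 y * (starRingEnd ℂ) (JJ ρ w l q.2 y)‖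
        ≤ |g p| * |g q| * (Real.exp (9 * π) ^ 2 * ρ ^ 2 / 8 * (1 / (|(p.2 : ℝ)| * |(q.2 : ℝ)|)) *
          (if p = q then 1 else 1 / L ^ 3600)) := by
          refine mul_le_mul_of_nonneg_left (h1.trans ?_) (by positivity)
          exact mul_le_mul_of_nonneg_left h2 (by positivity)
      _ = E * (x p * x q) * (if p = q then 1 else 1 / L ^ 3600) := by
          rw [hE, hx]
          ring
  have hre : RCLike.re (∫ y, ∑ p ∈ S, ∑ q ∈ S, ((g p * g q : ℝ) : ℂ) * (JJ ρ w l p.2 y * (starRingEnd ℂ) (JJ ρ w l q.2 y))) ≤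
      ∑ p ∈ S, ∑ q ∈ S, E * (x p * x q) * (if p = q then 1 else 1 / L ^ 3600) := by
    refine (RCLike.re_le_norm _).trans ?_
    rw [integral_finsetSum _ fun p hp => integrable_finsetSum _ fun q hq => hint p hp q hq]
    refine (norm_sum_le _ _).trans (Finset.sum_le_sum fun p hp => ?_)
    rw [integral_finsetSum _ fun q hq => hint p hp q hq]
    exact (norm_sum_le _ _).trans (Finset.sum_le_sum fun q hq => hpair p hp q hq)
  refine hre.trans ?_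
  have hsum : ∑ p ∈ S, ∑ q ∈ S, E * (x p * x q) * (if p = q then 1 else 1 / L ^ 3600) ≤
      E * (∑ p ∈ S, x p ^ 2 + 1 / L ^ 3600 * (∑ p ∈ S, x p) ^ 2) := by
    have h1 : ∀ p ∈ S, ∑ q ∈ S, E * (x p * x q) * (if p = q then 1 else 1 / L ^ 3600) ≤
        E * x p ^ 2 + E * (1 / L ^ 3600) * (x p * ∑ q ∈ S, x q) := by
      intro p hp
      have h2 : ∀ q ∈ S, E * (x p * x q) * (if p = q then 1 else 1 / L ^ 3600) ≤
          (if p = q then E * x p ^ 2 else 0) + E * (1 / L ^ 3600) * (x p * x q) := by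
        intro q _
        have h3 : 0 ≤ E * (1 / L ^ 3600) * (x p * x q) := by
          have := hx0 p
          have := hx0 q
          positivity
        split_ifs with h
        · rw [← h] at h3 ⊢
          nlinarith
        · rw [zero_add]
          exact le_of_eq (by ring)
      refine (Finset.sum_le_sum h2).trans ?_
      rw [Finset.sum_add_distrib, Finset.sum_ite_eq, if_pos hp, ← Finset.mul_sum, ← Finset.mul_sum]
    refine (Finset.sum_le_sum h1).trans ?_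
    rw [Finset.sum_add_distrib, ← Finset.mul_sum, ← Finset.mul_sum, ← Finset.sum_mul]
    exact le_of_eq (by ring)
  refine hsum.trans ?_
  have h7 : (∑ p ∈ S, x p) ^ 2 ≤ N * ∑ p ∈ S, x p ^ 2 := sq_sum_le_card_mul_sum_sq
  have h8 : 1 / L ^ 3600 * (∑ p ∈ S, x p) ^ 2 ≤ ∑ p ∈ S, x p ^ 2 := by
    have h9 : 0 ≤ ∑ p ∈ S, x p ^ 2 := Finset.sum_nonneg fun p _ => sq_nonneg _
    rw [one_div, ← div_eq_inv_mul, div_le_iff₀ (by positivity), mul_comm]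
    exact h7.trans (mul_le_mul_of_nonneg_right hcard h9)
  have h10 : ∑ p ∈ S, x p ^ 2 = ∑ p ∈ S, (u p.1 * v p.2) ^ 2 / (p.2 : ℝ) ^ 2 := by
    refine Finset.sum_congr rfl fun p _ => ?_
    simp only [hx, hg, div_pow, sq_abs]
  calc E * (∑ p ∈ S, x p ^ 2 + 1 / L ^ 3600 * (∑ p ∈ S, x p) ^ 2) ≤ E * (∑ p ∈ S, x p ^ 2 + ∑ p ∈ S, x p ^ 2) :=
        mul_le_mul_of_nonneg_left (by linarith) (by positivity)
    _ = Real.exp (9 * π) ^ 2 * ρ ^ 2 / 4 * ∑ p ∈ S, (u p.1 * v p.2) ^ 2 / (p.2 : ℝ) ^ 2 := by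
        rw [h10, hE]
        ring

end Pool.Agent.Lib.SR
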