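import Pool.Agent.Lib.MP_b9430d_co.SR.PrD
import Pool.Agent.Lib.MP_b9430d_co.SR.Kii
import Pool.Agent.Lib.MP_b9430d_co.SR.PrOr

/-!
# Proposition A: the terms which are not resonant (helper86)

PROOF. `‖tm‖ ≤ Λ² ‖II‖ ≤ Λ² exp (9π) ρ² exp (-(π L⁴ / ρ²))` (II_far with `T = L²`); the number of pairs is at most
`(2 (L^16 Q) + 1) Q * (2 (R^8 Q) + 1) Q ≤ L^19 * R^9` (kcard_FQ_le in PrOr) `≤ exp (30 √L)` for `L` large, and
`exp (9π) ρ² exp (30 √L - π L⁴ / ρ²) ≤ 1` for `L ≥ L₀(ρ)`.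
-/

set_option autoImplicit false

open MeasureTheory Complex Set Real Filter Topology
open scoped ENNReal

namespace Pool.Agent.Lib.SR

open Pool.MPb9430d Pool.MPb9430d.Rough Pool.MPb9430d.Frac Pool.MPb9430d.Mom

/-- Module PrN. -/
theorem nonres {ρ : ℝ} (hρ : 1 ≤ ρ) : ∃ L₀ : ℝ, ∀ (L R : ℝ) (Q : ℕ), L₀ ≤ L → L ^ 2000 ≤ R → R ≤ Real.exp (√L) →
    1 ≤ Q → (Q : ℝ) ≤ L → ∀ (Λ : ℝ) (u v : ℚ → ℝ) (w y : ℂ) (S : Finset (ℚ × ℚ)), 0 ≤ Λ →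
    S ⊆ FQ Q (L ^ 16) ×ˢ FQ Q (R ^ 8) → (∀ p ∈ S, |u p.1| ≤ Λ ∧ |v p.2| ≤ Λ) →
    (∀ p ∈ S, L ^ 2 * (1 + |(p.1 : ℝ) + p.2|) ≤ ‖((p.1 : ℝ) : ℂ) * w + ((p.2 : ℝ) : ℂ) * y‖) →
    ∑ p ∈ S, ‖tm ρ u v w y p‖ ≤ Λ ^ 2 := by
  have hρ0 : 0 < ρ := by linarith
  have hπ : 0 < π := Real.pi_pos
  have hE1 : 1 ≤ Real.exp (9 * π) := Real.one_le_exp (by positivity)
  have hρ2 : 1 ≤ ρ ^ 2 := one_le_pow₀ hρ
  have hEρ : ρ ^ 2 ≤ Real.exp (9 * π) * ρ ^ 2 := le_mul_of_one_le_left (by positivity) hE1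
  refine ⟨30 * (Real.exp (9 * π) * ρ ^ 2) + 9, fun L R Q hL hLR hR hQ1 hQL Λ u v w y S hΛ hS hB hfar => ?_⟩
  have hLE : Real.exp (9 * π) * ρ ^ 2 ≤ L := by nlinarith
  have hLρ : 30 * ρ ^ 2 ≤ L := by linarith
  have hL9 : 9 ≤ L := by nlinarith
  have hL0 : 0 < L := by linarith
  have hL1 : 1 ≤ L := by linarith
  have hR1 : 1 ≤ R := (one_le_pow₀ hL1).trans hLR
  have hR0 : 0 < R := by linarith
  have hQ0 : (0 : ℝ) ≤ Q := Nat.cast_nonneg _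
  have hLexp : L ≤ Real.exp L := by linarith [Real.add_one_le_exp L]
  have hRexp : R ≤ Real.exp L := hR.trans (Real.exp_le_exp.2 (by
    rw [Real.sqrt_le_left hL0.le]
    nlinarith))
  have hterm : ∀ p ∈ S, ‖tm ρ u v w y p‖ ≤ Λ ^ 2 * (Real.exp (9 * π) * ρ ^ 2 * Real.exp (-(π * (L ^ 2) ^ 2 / ρ ^ 2))) := by
    intro p hp
    obtain ⟨h1, h2⟩ := hB p hp
    have h3 := II_far hρ (by positivity : (0 : ℝ) ≤ L ^ 2) (hfar p hp)
    unfold tm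
    rw [norm_mul, norm_mul, norm_ee', mul_one, Complex.norm_real, Real.norm_eq_abs, abs_mul, sq Λ]
    exact mul_le_mul (mul_le_mul h1 h2 (abs_nonneg _) hΛ) h3 (norm_nonneg _) (by positivity)
  have hcard : (S.card : ℝ) ≤ Real.exp (29 * L) := by
    have c1 : (S.card : ℝ) ≤ ((FQ Q (L ^ 16)).card : ℝ) * ((FQ Q (R ^ 8)).card : ℝ) := by
      rw [← Nat.cast_mul, ← Finset.card_product]
      exact_mod_cast Finset.card_le_card hS
    have c2 : ∀ H : ℝ, 1 ≤ H → ((FQ Q H).card : ℝ) ≤ 3 * H * L ^ 2 := by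
      intro H hH
      refine (kcard_FQ_le (by linarith)).trans ?_
      have h1 : (2 * (H * (Q : ℝ)) + 1) ≤ 3 * H * L := by
        have h2 : H * (Q : ℝ) ≤ H * L := mul_le_mul_of_nonneg_left hQL (by linarith)
        have h3 : 1 ≤ H * L := by nlinarith
        nlinarith
      calc (2 * (H * (Q : ℝ)) + 1) * Q ≤ (3 * H * L) * L := mul_le_mul h1 hQL hQ0 (by positivity)
        _ = 3 * H * L ^ 2 := by ring
    have c3 := c2 (L ^ 16) (one_le_pow₀ hL1)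
    have c4 := c2 (R ^ 8) (one_le_pow₀ hR1)
    calc (S.card : ℝ) ≤ ((FQ Q (L ^ 16)).card : ℝ) * ((FQ Q (R ^ 8)).card : ℝ) := c1
      _ ≤ (3 * L ^ 16 * L ^ 2) * (3 * R ^ 8 * L ^ 2) := mul_le_mul c3 c4 (Nat.cast_nonneg _) (by positivity)
      _ = 9 * L ^ 20 * R ^ 8 := by ring
      _ ≤ (Real.exp L * Real.exp L ^ 20) * Real.exp L ^ 8 := by
          refine mul_le_mul (mul_le_mul (hL9.trans hLexp) (pow_le_pow_left₀ hL0.le hLexp _) (by positivity) (Real.exp_pos _).le)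
            (pow_le_pow_left₀ hR0.le hRexp _) (by positivity) (by positivity)
      _ = Real.exp (29 * L) := by
          rw [← Real.exp_nat_mul, ← Real.exp_nat_mul, ← Real.exp_add, ← Real.exp_add]
          congr 1
          push_cast
          ring
  calc ∑ p ∈ S, ‖tm ρ u v w y p‖ ≤ ∑ p ∈ S, Λ ^ 2 * (Real.exp (9 * π) * ρ ^ 2 * Real.exp (-(π * (L ^ 2) ^ 2 / ρ ^ 2))) :=
        Finset.sum_le_sum hterm
    _ = (S.card : ℝ) * (Λ ^ 2 * (Real.exp (9 * π) * ρ ^ 2 * Real.exp (-(π * (L ^ 2) ^ 2 / ρ ^ 2)))) := by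
        rw [Finset.sum_const, nsmul_eq_mul]
    _ ≤ Real.exp (29 * L) * (Λ ^ 2 * (Real.exp L * Real.exp (-(π * (L ^ 2) ^ 2 / ρ ^ 2)))) := by
        refine mul_le_mul hcard ?_ (by positivity) (Real.exp_pos _).le
        refine mul_le_mul_of_nonneg_left ?_ (by positivity)
        exact mul_le_mul_of_nonneg_right (hLE.trans hLexp) (Real.exp_pos _).le
    _ = Λ ^ 2 * Real.exp (30 * L - π * (L ^ 2) ^ 2 / ρ ^ 2) := by
        have e1 : 30 * L - π * (L ^ 2) ^ 2 / ρ ^ 2 = 29 * L + (L + -(π * (L ^ 2) ^ 2 / ρ ^ 2)) := by ring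
        rw [e1, Real.exp_add, Real.exp_add]
        ring
    _ ≤ Λ ^ 2 * 1 := by
        refine mul_le_mul_of_nonneg_left ?_ (by positivity)
        rw [Real.exp_le_one_iff, sub_nonpos, le_div_iff₀ (by positivity)]
        have h1 : L * (30 * ρ ^ 2) ≤ L * L := mul_le_mul_of_nonneg_left hLρ hL0.le
        have h2 : L * L ≤ (L ^ 2) ^ 2 := by
          have h3 : 1 ≤ L ^ 2 := one_le_pow₀ hL1
          nlinarith
        have h3 : (1 : ℝ) ≤ π := by linarith [Real.pi_gt_three]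
        have h4 : (L ^ 2) ^ 2 ≤ π * (L ^ 2) ^ 2 := le_mul_of_one_le_left (by positivity) h3
        linarith
    _ = Λ ^ 2 := mul_one _

end Pool.Agent.Lib.SR
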