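import Pool.Agent.Lib.MP_b9430d_co.SR.PrD

/-!
# Proposition A: resonant pairs (helper61 or helper44)

`Res L w y a b`: `(a, b) ≠ (0, 0)` and `‖a w + b y‖ < L² (1 + |a + b|)`.
PROOF. A nonzero rational number of denominator `≤ Q ≤ L` has absolute value `≥ 1 / L`.
`res_ne`: if `b = 0` then `‖a w‖ ≥ R / L` but `L² (1 + |a|) ≤ L² (1 + L^16)`; if `a = 0` then
`‖b y‖ ≥ |b| L^1500 ≥ L² (1 + |b|)` (as `|b| L^1500 ≥ L^1499`). `res_b`: `|b| ‖y‖ ≤ |a| ‖w‖ + L² (1 + |a| + |b|)`, so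
`|b| (R / L^30 - L²) ≤ 2 R L^16 + L² (1 + L^16)`; and `|a| (R - L²) ≤ |b| (2 R + L²) + L²`, `1 ≤ L |b|`. `res_uniq`:
`‖y + l w‖ ≤ L² (1 + |a + b|) / |b| ≤ L² (L + 4)` with `l = a / b`; two values: `|l - l'| R ≤ 2 L² (L + 4)`, but
`|l - l'| = |a b' - a' b| / |b b'| ≥ L^(-4) L^(-94)` if it is not `0`.
-/

set_option autoImplicit false

open MeasureTheory Complex Set Real Filter Topology
open scoped ENNReal

namespace Pool.Agent.Lib.SR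

/-- A nonzero rational number of denominator at most `Q ≤ L` is at least `1 / L`. -/
theorem one_le_mul_abs {Q : ℕ} {L : ℝ} (hQL : (Q : ℝ) ≤ L) {a : ℚ} (ha : a.den ≤ Q) (h0 : a ≠ 0) :
    1 ≤ L * |(a : ℝ)| := by
  have hd : (0 : ℝ) < a.den := by exact_mod_cast a.den_pos
  have h1 : |(a : ℝ)| * a.den = |(a.num : ℝ)| := by
    have e1 : (a : ℝ) = a.num / a.den := Rat.cast_def a
    rw [e1, abs_div, abs_of_pos hd]
    field_simp
  have h2 : (1 : ℝ) ≤ |(a.num : ℝ)| := by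
    have h3 : a.num ≠ 0 := Rat.num_ne_zero.2 h0
    have h4 : 1 ≤ |a.num| := Int.one_le_abs h3
    exact_mod_cast h4
  have h5 : (a.den : ℝ) ≤ L := by
    have : (a.den : ℝ) ≤ Q := by exact_mod_cast ha
    linarith
  calc (1 : ℝ) ≤ |(a : ℝ)| * a.den := by rw [h1]; exact h2
    _ ≤ |(a : ℝ)| * L := mul_le_mul_of_nonneg_left h5 (abs_nonneg _)
    _ = L * |(a : ℝ)| := mul_comm _ _

/-- The two reversed triangle inequalities. -/
theorem res_tri {L : ℝ} {w y : ℂ} {a b : ℚ} (h : Res L w y a b) :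
    |(a : ℝ)| * ‖w‖ ≤ |(b : ℝ)| * ‖y‖ + L ^ 2 * (1 + |(a : ℝ)| + |(b : ℝ)|) ∧
      |(b : ℝ)| * ‖y‖ ≤ |(a : ℝ)| * ‖w‖ + L ^ 2 * (1 + |(a : ℝ)| + |(b : ℝ)|) := by
  have h1 := h.2
  have h2 : |(a : ℝ) + b| ≤ |(a : ℝ)| + |(b : ℝ)| := abs_add_le _ _
  have h3 : L ^ 2 * (1 + |(a : ℝ) + b|) ≤ L ^ 2 * (1 + |(a : ℝ)| + |(b : ℝ)|) :=
    mul_le_mul_of_nonneg_left (by linarith) (sq_nonneg L)
  have ea : ‖((a : ℝ) : ℂ) * w‖ = |(a : ℝ)| * ‖w‖ := by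
    rw [norm_mul, Complex.norm_real, Real.norm_eq_abs]
  have eb : ‖((b : ℝ) : ℂ) * y‖ = |(b : ℝ)| * ‖y‖ := by
    rw [norm_mul, Complex.norm_real, Real.norm_eq_abs]
  have h4 : ‖((a : ℝ) : ℂ) * w‖ ≤ ‖((a : ℝ) : ℂ) * w + ((b : ℝ) : ℂ) * y‖ + ‖((b : ℝ) : ℂ) * y‖ := by
    have := norm_sub_le (((a : ℝ) : ℂ) * w + ((b : ℝ) : ℂ) * y) (((b : ℝ) : ℂ) * y)
    rwa [add_sub_cancel_right] at this
  have h5 : ‖((b : ℝ) : ℂ) * y‖ ≤ ‖((a : ℝ) : ℂ) * w + ((b : ℝ) : ℂ) * y‖ + ‖((a : ℝ) : ℂ) * w‖ := by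
    have := norm_sub_le (((a : ℝ) : ℂ) * w + ((b : ℝ) : ℂ) * y) (((a : ℝ) : ℂ) * w)
    rwa [add_sub_cancel_left] at this
  rw [ea, eb] at h4 h5
  exact ⟨by linarith, by linarith⟩

/-- Module PrR. -/
theorem res_ne : ∃ L₀ : ℝ, ∀ (L R : ℝ) (Q : ℕ), L₀ ≤ L → L ^ 2000 ≤ R → 1 ≤ Q → (Q : ℝ) ≤ L →
    ∀ (w y : ℂ) (a b : ℚ), R ≤ ‖w‖ → L ^ 1500 ≤ ‖y‖ → a ∈ FQ Q (L ^ 16) → b.den ≤ Q → Res L w y a b →
    a ≠ 0 ∧ b ≠ 0 := by
  refine ⟨2, ?_⟩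
  intro L R Q hL hR _ hQL w y a b hw hy ha hb hres
  have hL0 : (0 : ℝ) < L := by linarith
  have hL1 : (1 : ℝ) ≤ L := by linarith
  obtain ⟨had, haH⟩ := mem_FQ.1 ha
  obtain ⟨t1, t2⟩ := res_tri hres
  have hpos : a ≠ 0 ∨ b ≠ 0 := hres.1
  constructor
  · intro ha0
    have hb0 : b ≠ 0 := by
      rcases hpos with h | h
      · exact absurd ha0 h
      · exact h
    have h1 := one_le_mul_abs hQL hb hb0
    rw [ha0] at t2
    simp only [Rat.cast_zero, abs_zero, zero_mul, zero_add, add_zero] at t2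
    have h2 : |(b : ℝ)| * L ^ 1500 ≤ |(b : ℝ)| * ‖y‖ := mul_le_mul_of_nonneg_left hy (abs_nonneg _)
    have h3 : L ^ 2 * (1 + |(b : ℝ)|) ≤ L ^ 2 * (L * |(b : ℝ)| + L * |(b : ℝ)|) := by
      apply mul_le_mul_of_nonneg_left _ (by positivity)
      have : |(b : ℝ)| ≤ L * |(b : ℝ)| := by nlinarith [abs_nonneg (b : ℝ)]
      linarith
    have h4 : |(b : ℝ)| * L ^ 1500 ≤ |(b : ℝ)| * (2 * L ^ 3) := by
      calc |(b : ℝ)| * L ^ 1500 ≤ L ^ 2 * (L * |(b : ℝ)| + L * |(b : ℝ)|) := by linarith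
        _ = |(b : ℝ)| * (2 * L ^ 3) := by ring
    have hbpos : 0 < |(b : ℝ)| := by
      rw [abs_pos]
      exact_mod_cast hb0
    have h5 : L ^ 1500 ≤ 2 * L ^ 3 := le_of_mul_le_mul_left h4 hbpos
    have h6 : L ^ 5 ≤ L ^ 1500 := pow_le_pow_right₀ hL1 (by norm_num)
    have h7 : L ^ 5 = L ^ 2 * L ^ 3 := by ring
    have h8 : (4 : ℝ) ≤ L ^ 2 := by nlinarith
    have h9 : (0 : ℝ) < L ^ 3 := by positivity
    nlinarith
  · intro hb0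
    have ha0 : a ≠ 0 := by
      rcases hpos with h | h
      · exact h
      · exact absurd hb0 h
    have h1 := one_le_mul_abs hQL had ha0
    rw [hb0] at t1
    simp only [Rat.cast_zero, abs_zero, zero_mul, zero_add, add_zero] at t1
    have h2 : |(a : ℝ)| * L ^ 2000 ≤ |(a : ℝ)| * ‖w‖ :=
      mul_le_mul_of_nonneg_left (hR.trans hw) (abs_nonneg _)
    have h3 : L ^ 2 * (1 + |(a : ℝ)|) ≤ L ^ 2 * (L * |(a : ℝ)| + L * |(a : ℝ)|) := by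
      apply mul_le_mul_of_nonneg_left _ (by positivity)
      have : |(a : ℝ)| ≤ L * |(a : ℝ)| := by nlinarith [abs_nonneg (a : ℝ)]
      linarith
    have h4 : |(a : ℝ)| * L ^ 2000 ≤ |(a : ℝ)| * (2 * L ^ 3) := by
      calc |(a : ℝ)| * L ^ 2000 ≤ L ^ 2 * (L * |(a : ℝ)| + L * |(a : ℝ)|) := by linarith
        _ = |(a : ℝ)| * (2 * L ^ 3) := by ring
    have hapos : 0 < |(a : ℝ)| := by
      rw [abs_pos]
      exact_mod_cast ha0
    have h5 : L ^ 2000 ≤ 2 * L ^ 3 := le_of_mul_le_mul_left h4 hapos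
    have h6 : L ^ 5 ≤ L ^ 2000 := pow_le_pow_right₀ hL1 (by norm_num)
    have h7 : L ^ 5 = L ^ 2 * L ^ 3 := by ring
    have h8 : (4 : ℝ) ≤ L ^ 2 := by nlinarith
    have h9 : (0 : ℝ) < L ^ 3 := by positivity
    nlinarith

/-- Module PrR. -/
theorem res_b : ∃ L₀ : ℝ, ∀ (L R : ℝ) (Q : ℕ), L₀ ≤ L → L ^ 2000 ≤ R → 1 ≤ Q → (Q : ℝ) ≤ L →
    ∀ (w y : ℂ) (a b : ℚ), R ≤ ‖w‖ → ‖w‖ ≤ 2 * R → R / L ^ 30 ≤ ‖y‖ → ‖y‖ ≤ 2 * R → a ∈ FQ Q (L ^ 16) →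
    b.den ≤ Q → Res L w y a b → |(b : ℝ)| ≤ L ^ 47 ∧ |a| ≤ 3 * |b| := by
  obtain ⟨L₁, hne⟩ := res_ne
  refine ⟨max L₁ 8, ?_⟩
  intro L R Q hL hR hQ hQL w y a b hw hw2 hy hy2 ha hb hres
  have hL1 : L₁ ≤ L := (le_max_left _ _).trans hL
  have hL8 : (8 : ℝ) ≤ L := (le_max_right _ _).trans hL
  have hL0 : (0 : ℝ) < L := by linarith
  have hLo : (1 : ℝ) ≤ L := by linarith
  have hR0 : 0 < R := lt_of_lt_of_le (by positivity) hR
  have e1970 : L ^ 1970 * L ^ 30 = L ^ 2000 := by rw [← pow_add]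
  have h30 : (0 : ℝ) < L ^ 30 := by positivity
  have hyL : L ^ 1970 ≤ ‖y‖ := by
    refine le_trans ?_ hy
    rw [le_div_iff₀ h30, e1970]
    exact hR
  have hy1500 : L ^ 1500 ≤ ‖y‖ := (pow_le_pow_right₀ hLo (by norm_num)).trans hyL
  obtain ⟨ha0, hb0⟩ := hne L R Q hL1 hR hQ hQL w y a b hw hy1500 ha hb hres
  obtain ⟨had, haH⟩ := mem_FQ.1 ha
  obtain ⟨t1, t2⟩ := res_tri hres
  have h1b := one_le_mul_abs hQL hb hb0
  have hbn : 0 ≤ |(b : ℝ)| := abs_nonneg _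
  have han : 0 ≤ |(a : ℝ)| := abs_nonneg _
  -- size of R
  have hRbig : L ^ 100 ≤ R := (pow_le_pow_right₀ hLo (by norm_num)).trans hR
  have hyb : L ^ 100 ≤ ‖y‖ := (pow_le_pow_right₀ hLo (by norm_num)).trans hyL
  constructor
  · -- |b| (‖y‖ - L²) ≤ 2 R L^16 + L² (1 + L^16)
    have h1 : |(b : ℝ)| * (‖y‖ - L ^ 2) ≤ 2 * R * L ^ 16 + L ^ 2 * (1 + L ^ 16) := by
      have e1 : |(a : ℝ)| * ‖w‖ ≤ L ^ 16 * (2 * R) := mul_le_mul haH hw2 (norm_nonneg _) (by positivity)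
      have e2 : L ^ 2 * (1 + |(a : ℝ)|) ≤ L ^ 2 * (1 + L ^ 16) :=
        mul_le_mul_of_nonneg_left (by linarith) (by positivity)
      nlinarith
    have h2 : R / L ^ 30 / 2 ≤ ‖y‖ - L ^ 2 := by
      have e1 : 2 * L ^ 2 ≤ L ^ 100 := by
        have e2 : L ^ 3 ≤ L ^ 100 := pow_le_pow_right₀ hLo (by norm_num)
        have e3 : L ^ 3 = L * L ^ 2 := by ring
        nlinarith [sq_nonneg L]
      linarith
    have h3 : |(b : ℝ)| * (R / L ^ 30 / 2) ≤ 2 * R * L ^ 16 + L ^ 2 * (1 + L ^ 16) :=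
      (mul_le_mul_of_nonneg_left h2 hbn).trans h1
    have h4 : |(b : ℝ)| * R ≤ (2 * R * L ^ 16 + L ^ 2 * (1 + L ^ 16)) * (2 * L ^ 30) := by
      have e1 : |(b : ℝ)| * R = |(b : ℝ)| * (R / L ^ 30 / 2) * (2 * L ^ 30) := by field_simp
      rw [e1]
      exact mul_le_mul_of_nonneg_right h3 (by positivity)
    have h5 : L ^ 2 * (1 + L ^ 16) ≤ R * L ^ 16 := by
      have e1 : L ^ 2 ≤ R := (pow_le_pow_right₀ hLo (by norm_num : 2 ≤ 100)).trans hRbig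
      have e1' : 2 * L ^ 2 ≤ R := by
        have e2 : L ^ 3 ≤ R := (pow_le_pow_right₀ hLo (by norm_num : 3 ≤ 100)).trans hRbig
        have e3 : L ^ 3 = L * L ^ 2 := by ring
        nlinarith [sq_nonneg L]
      have e2 : (1 : ℝ) ≤ L ^ 16 := one_le_pow₀ hLo
      nlinarith [sq_nonneg L]
    have h6 : |(b : ℝ)| * R ≤ (6 * L ^ 46) * R := by
      calc |(b : ℝ)| * R ≤ (2 * R * L ^ 16 + L ^ 2 * (1 + L ^ 16)) * (2 * L ^ 30) := h4
        _ ≤ (2 * R * L ^ 16 + R * L ^ 16) * (2 * L ^ 30) :=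
            mul_le_mul_of_nonneg_right (by linarith) (by positivity)
        _ = (6 * L ^ 46) * R := by ring
    have h7 : |(b : ℝ)| ≤ 6 * L ^ 46 := le_of_mul_le_mul_right h6 hR0
    calc |(b : ℝ)| ≤ 6 * L ^ 46 := h7
      _ ≤ L * L ^ 46 := mul_le_mul_of_nonneg_right (by linarith) (by positivity)
      _ = L ^ 47 := by ring
  · have h1 : |(a : ℝ)| * (‖w‖ - L ^ 2) ≤ |(b : ℝ)| * (‖y‖ + L ^ 2) + L ^ 2 := by nlinarith
    have h2 : |(a : ℝ)| * (R - L ^ 2) ≤ |(b : ℝ)| * (2 * R + L ^ 2 + L ^ 3) := by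
      calc |(a : ℝ)| * (R - L ^ 2) ≤ |(a : ℝ)| * (‖w‖ - L ^ 2) :=
            mul_le_mul_of_nonneg_left (by linarith) han
        _ ≤ |(b : ℝ)| * (‖y‖ + L ^ 2) + L ^ 2 := h1
        _ ≤ |(b : ℝ)| * (2 * R + L ^ 2) + L ^ 2 * (L * |(b : ℝ)|) := by
            have e1 : |(b : ℝ)| * (‖y‖ + L ^ 2) ≤ |(b : ℝ)| * (2 * R + L ^ 2) :=
              mul_le_mul_of_nonneg_left (by linarith) hbn
            have e2 : L ^ 2 * 1 ≤ L ^ 2 * (L * |(b : ℝ)|) :=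
              mul_le_mul_of_nonneg_left h1b (by positivity)
            linarith
        _ = |(b : ℝ)| * (2 * R + L ^ 2 + L ^ 3) := by ring
    have h3 : 2 * R + L ^ 2 + L ^ 3 ≤ 3 * (R - L ^ 2) := by
      have e1 : L ^ 4 ≤ R := (pow_le_pow_right₀ hLo (by norm_num : 4 ≤ 100)).trans hRbig
      have e2 : L ^ 4 = L * L ^ 3 := by ring
      have e3 : L ^ 2 ≤ L ^ 3 := pow_le_pow_right₀ hLo (by norm_num)
      have e4 : (0 : ℝ) < L ^ 3 := by positivity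
      nlinarith
    have h4 : 0 < R - L ^ 2 := by
      have e1 : L ^ 3 ≤ R := (pow_le_pow_right₀ hLo (by norm_num : 3 ≤ 100)).trans hRbig
      have e2 : L ^ 3 = L * L ^ 2 := by ring
      have e3 : (0 : ℝ) < L ^ 2 := by positivity
      nlinarith
    have h5 : |(a : ℝ)| * (R - L ^ 2) ≤ (3 * |(b : ℝ)|) * (R - L ^ 2) := by
      calc |(a : ℝ)| * (R - L ^ 2) ≤ |(b : ℝ)| * (2 * R + L ^ 2 + L ^ 3) := h2
        _ ≤ |(b : ℝ)| * (3 * (R - L ^ 2)) := mul_le_mul_of_nonneg_left h3 hbn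
        _ = (3 * |(b : ℝ)|) * (R - L ^ 2) := by ring
    have h6 : |(a : ℝ)| ≤ 3 * |(b : ℝ)| := le_of_mul_le_mul_right h5 h4
    exact_mod_cast h6

/-- Module PrR. -/
theorem res_uniq : ∃ L₀ : ℝ, ∀ (L R : ℝ) (Q : ℕ), L₀ ≤ L → L ^ 2000 ≤ R → 1 ≤ Q → (Q : ℝ) ≤ L →
    ∀ (w y : ℂ) (a b a' b' : ℚ), R ≤ ‖w‖ → ‖w‖ ≤ 2 * R → R / L ^ 30 ≤ ‖y‖ → ‖y‖ ≤ 2 * R →
    a ∈ FQ Q (L ^ 16) → b.den ≤ Q → a' ∈ FQ Q (L ^ 16) → b'.den ≤ Q →
    Res L w y a b → Res L w y a' b' → a * b' = a' * b := by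
  obtain ⟨L₁, hne⟩ := res_ne
  obtain ⟨L₂, hrb⟩ := res_b
  refine ⟨max (max L₁ L₂) 8, ?_⟩
  intro L R Q hL hR hQ hQL w y a b a' b' hw hw2 hy hy2 ha hb ha' hb' hres hres'
  have hL1 : L₁ ≤ L := ((le_max_left _ _).trans (le_max_left _ _)).trans hL
  have hL2 : L₂ ≤ L := ((le_max_right _ _).trans (le_max_left _ _)).trans hL
  have hL8 : (8 : ℝ) ≤ L := (le_max_right _ _).trans hL
  have hL0 : (0 : ℝ) < L := by linarith
  have hLo : (1 : ℝ) ≤ L := by linarith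
  have hR0 : 0 < R := lt_of_lt_of_le (by positivity) hR
  have e1970 : L ^ 1970 * L ^ 30 = L ^ 2000 := by rw [← pow_add]
  have h30 : (0 : ℝ) < L ^ 30 := by positivity
  have hyL : L ^ 1970 ≤ ‖y‖ := by
    refine le_trans ?_ hy
    rw [le_div_iff₀ h30, e1970]
    exact hR
  have hy1500 : L ^ 1500 ≤ ‖y‖ := (pow_le_pow_right₀ hLo (by norm_num)).trans hyL
  -- one pair
  have key : ∀ (a b : ℚ), a ∈ FQ Q (L ^ 16) → b.den ≤ Q → Res L w y a b →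
      b ≠ 0 ∧ |(b : ℝ)| ≤ L ^ 47 ∧ ‖y + (((a : ℝ) / b : ℝ) : ℂ) * w‖ ≤ L ^ 2 * (L + 4) := by
    intro a b ha hb hres
    obtain ⟨ha0, hb0⟩ := hne L R Q hL1 hR hQ hQL w y a b hw hy1500 ha hb hres
    obtain ⟨hb47, hab⟩ := hrb L R Q hL2 hR hQ hQL w y a b hw hw2 hy hy2 ha hb hres
    refine ⟨hb0, hb47, ?_⟩
    have hbR : (b : ℝ) ≠ 0 := by exact_mod_cast hb0
    have hbpos : 0 < |(b : ℝ)| := abs_pos.2 hbR
    have h1 : ((b : ℝ) : ℂ) * (y + (((a : ℝ) / b : ℝ) : ℂ) * w) =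
        ((a : ℝ) : ℂ) * w + ((b : ℝ) : ℂ) * y := by
      have hbC : ((b : ℝ) : ℂ) ≠ 0 := by exact_mod_cast hbR
      rw [Complex.ofReal_div]
      field_simp
      ring
    have h2 : |(b : ℝ)| * ‖y + (((a : ℝ) / b : ℝ) : ℂ) * w‖ =
        ‖((a : ℝ) : ℂ) * w + ((b : ℝ) : ℂ) * y‖ := by
      rw [← h1, norm_mul, Complex.norm_real, Real.norm_eq_abs]
    have h3 : |(a : ℝ)| ≤ 3 * |(b : ℝ)| := by exact_mod_cast hab
    have h4 := one_le_mul_abs hQL hb hb0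
    have h5 : 1 + |(a : ℝ) + b| ≤ |(b : ℝ)| * (L + 4) := by
      have := abs_add_le (a : ℝ) (b : ℝ)
      nlinarith
    have h6 : |(b : ℝ)| * ‖y + (((a : ℝ) / b : ℝ) : ℂ) * w‖ ≤ |(b : ℝ)| * (L ^ 2 * (L + 4)) := by
      rw [h2]
      calc ‖((a : ℝ) : ℂ) * w + ((b : ℝ) : ℂ) * y‖ ≤ L ^ 2 * (1 + |(a : ℝ) + b|) := hres.2.le
        _ ≤ L ^ 2 * (|(b : ℝ)| * (L + 4)) := mul_le_mul_of_nonneg_left h5 (by positivity)
        _ = |(b : ℝ)| * (L ^ 2 * (L + 4)) := by ring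
    exact le_of_mul_le_mul_left h6 hbpos
  obtain ⟨hb0, hb47, k1⟩ := key a b ha hb hres
  obtain ⟨hb0', hb47', k2⟩ := key a' b' ha' hb' hres'
  have hbR : (b : ℝ) ≠ 0 := by exact_mod_cast hb0
  have hbR' : (b' : ℝ) ≠ 0 := by exact_mod_cast hb0'
  by_contra hcon
  -- the difference of the quotients
  have h1 : |(a : ℝ) / b - (a' : ℝ) / b'| * ‖w‖ ≤ 2 * (L ^ 2 * (L + 4)) := by
    have e1 : ((((a : ℝ) / b - (a' : ℝ) / b' : ℝ)) : ℂ) * w =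
        (y + (((a : ℝ) / b : ℝ) : ℂ) * w) - (y + (((a' : ℝ) / b' : ℝ) : ℂ) * w) := by
      push_cast; ring
    have e2 : |(a : ℝ) / b - (a' : ℝ) / b'| * ‖w‖ =
        ‖(y + (((a : ℝ) / b : ℝ) : ℂ) * w) - (y + (((a' : ℝ) / b' : ℝ) : ℂ) * w)‖ := by
      rw [← e1, norm_mul, Complex.norm_real, Real.norm_eq_abs]
    rw [e2]
    refine (norm_sub_le _ _).trans ?_
    linarith
  -- lower bound
  have had := (mem_FQ.1 ha).1
  have had' := (mem_FQ.1 ha').1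
  have hx : 1 ≤ |(a : ℝ) * b' - (a' : ℝ) * b| * L ^ 4 := by
    have d1 : (0 : ℝ) < a.den := by exact_mod_cast a.den_pos
    have d2 : (0 : ℝ) < b.den := by exact_mod_cast b.den_pos
    have d3 : (0 : ℝ) < a'.den := by exact_mod_cast a'.den_pos
    have d4 : (0 : ℝ) < b'.den := by exact_mod_cast b'.den_pos
    have e1 : (a : ℝ) = a.num / a.den := Rat.cast_def a
    have e2 : (b : ℝ) = b.num / b.den := Rat.cast_def b
    have e3 : (a' : ℝ) = a'.num / a'.den := Rat.cast_def a'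
    have e4 : (b' : ℝ) = b'.num / b'.den := Rat.cast_def b'
    have e5 : ((a : ℝ) * b' - (a' : ℝ) * b) * (a.den * b'.den * (a'.den * b.den)) =
        ((a.num * b'.num * (a'.den * b.den) - a'.num * b.num * (a.den * b'.den) : ℤ) : ℝ) := by
      push_cast
      rw [e1, e2, e3, e4]
      field_simp
    have e6 : (a.num * b'.num * (a'.den * b.den) - a'.num * b.num * (a.den * b'.den) : ℤ) ≠ 0 := by
      intro h0
      rw [h0] at e5
      have e7 : (a : ℝ) * b' - (a' : ℝ) * b = 0 := by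
        have hne : ((a.den : ℝ) * b'.den * (a'.den * b.den)) ≠ 0 := by positivity
        rcases mul_eq_zero.1 (e5.trans (by norm_num)) with h | h
        · exact h
        · exact absurd h hne
      apply hcon
      have e8 : (a : ℝ) * b' = (a' : ℝ) * b := by linarith
      exact_mod_cast e8
    have e7 : (1 : ℝ) ≤ |((a : ℝ) * b' - (a' : ℝ) * b) * (a.den * b'.den * (a'.den * b.den))| := by
      rw [e5]
      have := Int.one_le_abs e6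
      exact_mod_cast this
    rw [abs_mul, abs_of_pos (by positivity : (0 : ℝ) < a.den * b'.den * (a'.den * b.den))] at e7
    refine e7.trans (mul_le_mul_of_nonneg_left ?_ (abs_nonneg _))
    have f1 : (a.den : ℝ) ≤ L := le_trans (by exact_mod_cast had) hQL
    have f2 : (b.den : ℝ) ≤ L := le_trans (by exact_mod_cast hb) hQL
    have f3 : (a'.den : ℝ) ≤ L := le_trans (by exact_mod_cast had') hQL
    have f4 : (b'.den : ℝ) ≤ L := le_trans (by exact_mod_cast hb') hQL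
    calc (a.den : ℝ) * b'.den * (a'.den * b.den) ≤ L * L * (L * L) :=
          mul_le_mul (mul_le_mul f1 f4 d4.le hL0.le) (mul_le_mul f3 f2 d2.le hL0.le)
            (by positivity) (by positivity)
      _ = L ^ 4 := by ring
  have h2 : |(a : ℝ) / b - (a' : ℝ) / b'| * (|(b : ℝ)| * |(b' : ℝ)|) =
      |(a : ℝ) * b' - (a' : ℝ) * b| := by
    rw [← abs_mul, ← abs_mul]
    congr 1
    field_simp
  have h3 : |(b : ℝ)| * |(b' : ℝ)| ≤ L ^ 94 := by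
    calc |(b : ℝ)| * |(b' : ℝ)| ≤ L ^ 47 * L ^ 47 := mul_le_mul hb47 hb47' (abs_nonneg _) (by positivity)
      _ = L ^ 94 := by rw [← pow_add]
  set D : ℝ := |(a : ℝ) / b - (a' : ℝ) / b'| with hD
  have hD0 : 0 ≤ D := abs_nonneg _
  have h4 : 1 ≤ D * L ^ 98 := by
    calc (1 : ℝ) ≤ |(a : ℝ) * b' - (a' : ℝ) * b| * L ^ 4 := hx
      _ = D * (|(b : ℝ)| * |(b' : ℝ)|) * L ^ 4 := by rw [h2]
      _ ≤ D * L ^ 94 * L ^ 4 := by
          apply mul_le_mul_of_nonneg_right _ (by positivity)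
          exact mul_le_mul_of_nonneg_left h3 hD0
      _ = D * L ^ 98 := by rw [mul_assoc, ← pow_add]
  have h5 : D * R ≤ 2 * (L ^ 2 * (L + 4)) := (mul_le_mul_of_nonneg_left hw hD0).trans h1
  have h6 : L ^ 200 ≤ R := (pow_le_pow_right₀ hLo (by norm_num)).trans hR
  have h7 : D * L ^ 200 ≤ 2 * (L ^ 2 * (L + 4)) := (mul_le_mul_of_nonneg_left h6 hD0).trans h5
  have h8 : L ^ 102 ≤ D * L ^ 200 := by
    have e1 : L ^ 200 = L ^ 98 * L ^ 102 := by rw [← pow_add]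
    rw [e1, ← mul_assoc]
    have e2 : (0 : ℝ) < L ^ 102 := by positivity
    nlinarith
  have h9 : 2 * (L ^ 2 * (L + 4)) < L ^ 102 := by
    have e1 : L ^ 4 ≤ L ^ 102 := pow_le_pow_right₀ hLo (by norm_num)
    have e2 : 2 * (L ^ 2 * (L + 4)) < L ^ 4 := by
      have e3 : L ^ 4 = L ^ 2 * L ^ 2 := by ring
      rw [e3]
      have e4 : 2 * (L + 4) < L ^ 2 := by nlinarith
      have e5 : (0 : ℝ) < L ^ 2 := by positivity
      nlinarith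
    linarith
  linarith

end Pool.Agent.Lib.SR
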