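import Pool.Agent.Lib.MP_b9430d_co.SR.PrR

/-!
# Proposition A: the zone `L^1500 ≤ ‖y‖ ≤ R / L^30` (helper61 or helper44)

PROOF. Let `(a, b)` be resonant, so `a, b ≠ 0` (res_ne), `|a|, |b| ≥ 1/L`, and
`| |a| ‖w‖ - |b| ‖y‖ | ≤ L² (1 + |a| + |b|)`. Hence `|b| (‖y‖ + L²) ≥ |a| (R - L²) - L² ≥ |a| R / 2`, so
`|b| ≥ |a| R / (4 ‖y‖) ≥ |a| L^30 / 4 ≥ 2 |a|`, `|b| ≥ 2`, `|a + b| ≥ |b| / 2 ≥ |a| R / (8 ‖y‖)`, and
`| |a| ‖w‖ - |b| ‖y‖ | ≤ 2 L² |b|`, so `|b|` lies in `[|a| ‖w‖ / (‖y‖ + 2 L²), |a| ‖w‖ / (‖y‖ - 2 L²)]`, an interval of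
length `≤ 16 L² |a| R / ‖y‖²`. Two different rational numbers with denominator `≤ Q` differ by at least `1 / Q²`, so for
given `a` there are at most `2 (16 L² |a| R Q² / ‖y‖² + 1)` values `b`, and the sum of `1 / |a + b|` over them is at most
`(8 ‖y‖ / (|a| R)) * 2 (16 L⁴ |a| R / ‖y‖² + 1) = 256 L⁴ / ‖y‖ + 16 ‖y‖ / (|a| R) ≤ 256 L⁴ / L^1500 + 16 L / L^30`.
The number of `a` is at most `(2 L^16 Q + 1) Q ≤ 3 L^18` (image of the product in the definition of `FQ`).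
-/

set_option autoImplicit false

open MeasureTheory Complex Set Real Filter Topology
open scoped ENNReal

namespace Pool.Agent.Lib.SR

/-- Different rational numbers with denominators at most `Q` differ by at least `1 / Q²`. -/
theorem rat_sep {Q : ℕ} {a b : ℚ} (ha : a.den ≤ Q) (hb : b.den ≤ Q) (hab : a ≠ b) :
    1 ≤ |(a : ℝ) - b| * (Q : ℝ) ^ 2 := by
  have d1 : (0 : ℝ) < a.den := by exact_mod_cast a.den_pos
  have d2 : (0 : ℝ) < b.den := by exact_mod_cast b.den_pos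
  have e1 : (a : ℝ) = a.num / a.den := Rat.cast_def a
  have e2 : (b : ℝ) = b.num / b.den := Rat.cast_def b
  have e5 : ((a : ℝ) - b) * (a.den * b.den) = ((a.num * b.den - b.num * a.den : ℤ) : ℝ) := by
    push_cast
    rw [e1, e2]
    field_simp
  have e6 : (a.num * b.den - b.num * a.den : ℤ) ≠ 0 := by
    intro h0
    rw [h0] at e5
    have hne : ((a.den : ℝ) * b.den) ≠ 0 := by positivity
    rcases mul_eq_zero.1 (e5.trans (by norm_num)) with h | h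
    · apply hab
      have e8 : (a : ℝ) = (b : ℝ) := by linarith
      exact_mod_cast e8
    · exact absurd h hne
  have e7 : (1 : ℝ) ≤ |((a : ℝ) - b) * (a.den * b.den)| := by
    rw [e5]
    have := Int.one_le_abs e6
    exact_mod_cast this
  rw [abs_mul, abs_of_pos (by positivity : (0 : ℝ) < a.den * b.den)] at e7
  refine e7.trans (mul_le_mul_of_nonneg_left ?_ (abs_nonneg _))
  have f1 : (a.den : ℝ) ≤ Q := by exact_mod_cast ha
  have f2 : (b.den : ℝ) ≤ Q := by exact_mod_cast hb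
  calc (a.den : ℝ) * b.den ≤ Q * Q := mul_le_mul f1 f2 d2.le (Nat.cast_nonneg _)
    _ = (Q : ℝ) ^ 2 := by ring

/-- Number of rational numbers with denominator at most `Q` in an interval. -/
theorem rat_count {Q : ℕ} {S : Finset ℚ} {α β : ℝ} (hS : ∀ b ∈ S, b.den ≤ Q ∧ α ≤ (b : ℝ) ∧ (b : ℝ) ≤ β)
    (hαβ : α ≤ β) : (S.card : ℝ) ≤ (β - α) * (Q : ℝ) ^ 2 + 2 := by
  have hQ2 : (0 : ℝ) ≤ (Q : ℝ) ^ 2 := by positivity
  have hcard : S.card ≤ (Finset.Icc ⌊α * (Q : ℝ) ^ 2⌋ ⌊β * (Q : ℝ) ^ 2⌋).card := by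
    apply Finset.card_le_card_of_injOn (fun b : ℚ => ⌊(b : ℝ) * (Q : ℝ) ^ 2⌋)
    · intro b hb
      obtain ⟨_, h1, h2⟩ := hS b hb
      simp only [Finset.coe_Icc, Set.mem_Icc]
      exact ⟨Int.floor_le_floor (mul_le_mul_of_nonneg_right h1 hQ2),
        Int.floor_le_floor (mul_le_mul_of_nonneg_right h2 hQ2)⟩
    · intro b hb b' hb' heq
      by_contra hne
      have h1 := rat_sep (hS b hb).1 (hS b' hb').1 hne
      have h2 := Int.abs_sub_lt_one_of_floor_eq_floor heq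
      have h3 : |(b : ℝ) * (Q : ℝ) ^ 2 - (b' : ℝ) * (Q : ℝ) ^ 2| = |(b : ℝ) - b'| * (Q : ℝ) ^ 2 := by
        rw [← sub_mul, abs_mul, abs_of_nonneg hQ2]
      rw [h3] at h2
      linarith
  have h1 : (S.card : ℝ) ≤ ((⌊β * (Q : ℝ) ^ 2⌋ + 1 - ⌊α * (Q : ℝ) ^ 2⌋).toNat : ℝ) := by
    rw [Int.card_Icc] at hcard
    exact_mod_cast hcard
  have h2 : ⌊α * (Q : ℝ) ^ 2⌋ ≤ ⌊β * (Q : ℝ) ^ 2⌋ :=
    Int.floor_le_floor (mul_le_mul_of_nonneg_right hαβ hQ2)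
  have h3 : (((⌊β * (Q : ℝ) ^ 2⌋ + 1 - ⌊α * (Q : ℝ) ^ 2⌋).toNat : ℤ) : ℝ) =
      ((⌊β * (Q : ℝ) ^ 2⌋ + 1 - ⌊α * (Q : ℝ) ^ 2⌋ : ℤ) : ℝ) := by
    rw [Int.toNat_of_nonneg (by linarith)]
  rw [Int.cast_natCast] at h3
  rw [h3] at h1
  push_cast at h1
  have h4 := Int.floor_le (β * (Q : ℝ) ^ 2)
  have h5 := Int.lt_floor_add_one (α * (Q : ℝ) ^ 2)
  linarith

/-- The number of elements of `FQ`. -/
private theorem card_FQ_le {Q : ℕ} {H : ℝ} (hH : 0 ≤ H) : ((FQ Q H).card : ℝ) ≤ (2 * (H * Q) + 1) * Q := by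
  have h1 : (FQ Q H).card ≤ (2 * ⌊H * Q⌋ + 1).toNat * Q := by
    unfold FQ
    refine (Finset.card_filter_le _ _).trans (Finset.card_image_le.trans ?_)
    rw [Finset.card_product, Int.card_Icc, Nat.card_Icc, Nat.add_sub_cancel]
    apply Nat.mul_le_mul _ le_rfl
    apply Int.toNat_le_toNat
    linarith
  have hf : 0 ≤ ⌊H * (Q : ℝ)⌋ := Int.floor_nonneg.2 (by positivity)
  have h2 : (((2 * ⌊H * (Q : ℝ)⌋ + 1).toNat : ℤ) : ℝ) = ((2 * ⌊H * (Q : ℝ)⌋ + 1 : ℤ) : ℝ) := by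
    rw [Int.toNat_of_nonneg (by linarith)]
  rw [Int.cast_natCast] at h2
  calc ((FQ Q H).card : ℝ) ≤ (((2 * ⌊H * (Q : ℝ)⌋ + 1).toNat * Q : ℕ) : ℝ) := by exact_mod_cast h1
    _ = ((2 * ⌊H * (Q : ℝ)⌋ + 1).toNat : ℝ) * Q := by push_cast; ring
    _ = (2 * (⌊H * (Q : ℝ)⌋ : ℝ) + 1) * Q := by rw [h2]; push_cast; ring
    _ ≤ (2 * (H * Q) + 1) * Q := by
        apply mul_le_mul_of_nonneg_right _ (Nat.cast_nonneg _)
        have := Int.floor_le (H * (Q : ℝ))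
        linarith

open Classical in
/-- Module PrZ. -/
theorem zone_one : ∃ L₀ : ℝ, ∀ (L R : ℝ) (Q : ℕ), L₀ ≤ L → L ^ 2000 ≤ R → 1 ≤ Q → (Q : ℝ) ≤ L →
    ∀ (w y : ℂ), R ≤ ‖w‖ → ‖w‖ ≤ 2 * R → L ^ 1500 ≤ ‖y‖ → ‖y‖ ≤ R / L ^ 30 →
    ∑ p ∈ (FQ Q (L ^ 16) ×ˢ FQ Q (R ^ 8)).filter (fun p => Res L w y p.1 p.2),
      1 / |(p.1 : ℝ) + p.2| ≤ 1 := by
  obtain ⟨L₁, hne⟩ := res_ne
  refine ⟨max L₁ 8, ?_⟩
  intro L R Q hL hR hQ hQL w y hw hw2 hy hy2
  have hL1 : L₁ ≤ L := (le_max_left _ _).trans hL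
  have hL8 : (8 : ℝ) ≤ L := (le_max_right _ _).trans hL
  have hL0 : (0 : ℝ) < L := by linarith
  have hLo : (1 : ℝ) ≤ L := by linarith
  have hR0 : 0 < R := lt_of_lt_of_le (by positivity) hR
  have h30 : (0 : ℝ) < L ^ 30 := by positivity
  have hw0 : 0 < ‖w‖ := lt_of_lt_of_le hR0 hw
  have hy0 : 0 < ‖y‖ := lt_of_lt_of_le (by positivity) hy
  have hRy : ‖y‖ * L ^ 30 ≤ R := by rwa [le_div_iff₀ h30] at hy2
  have hRbig : L ^ 100 ≤ R := (pow_le_pow_right₀ hLo (by norm_num)).trans hR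
  have hybig : L ^ 100 ≤ ‖y‖ := (pow_le_pow_right₀ hLo (by norm_num)).trans hy
  have hQ0 : (0 : ℝ) ≤ Q := Nat.cast_nonneg _
  have hQ2 : (Q : ℝ) ^ 2 ≤ L ^ 2 := pow_le_pow_left₀ hQ0 hQL 2
  have hL2 : (64 : ℝ) ≤ L ^ 2 := by nlinarith
  have hsmall : 8 * L ^ 2 ≤ ‖y‖ := by
    have e1 : L ^ 4 ≤ ‖y‖ := (pow_le_pow_right₀ hLo (by norm_num : 4 ≤ 100)).trans hybig
    have e2 : L ^ 4 = L ^ 2 * L ^ 2 := by ring
    nlinarith
  -- facts on one resonant pair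
  have key : ∀ (a b : ℚ), a ∈ FQ Q (L ^ 16) → b.den ≤ Q → Res L w y a b →
      0 < |(a : ℝ)| ∧ |(a : ℝ)| * R ≤ 8 * ‖y‖ * |(a : ℝ) + b| ∧
        |(a : ℝ)| * ‖w‖ / (‖y‖ + 2 * L ^ 2) ≤ |(b : ℝ)| ∧
        |(b : ℝ)| ≤ |(a : ℝ)| * ‖w‖ / (‖y‖ - 2 * L ^ 2) := by
    intro a b ha hb hres
    obtain ⟨ha0, hb0⟩ := hne L R Q hL1 hR hQ hQL w y a b hw hy ha hb hres
    have had := (mem_FQ.1 ha).1
    have h1a := one_le_mul_abs hQL had ha0
    obtain ⟨t1, t2⟩ := res_tri hres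
    have haR : (a : ℝ) ≠ 0 := by exact_mod_cast ha0
    have hapos : 0 < |(a : ℝ)| := abs_pos.2 haR
    have hbn : 0 ≤ |(b : ℝ)| := abs_nonneg _
    -- `|a| R / 2 ≤ |b| (‖y‖ + L²)`
    have s1 : |(a : ℝ)| * R / 2 ≤ |(b : ℝ)| * (‖y‖ + L ^ 2) := by
      have e1 : |(a : ℝ)| * R ≤ |(a : ℝ)| * ‖w‖ := mul_le_mul_of_nonneg_left hw hapos.le
      have e2 : L ^ 2 * (1 + |(a : ℝ)|) ≤ |(a : ℝ)| * R / 2 := by
        have f1 : 1 + |(a : ℝ)| ≤ |(a : ℝ)| * (2 * L) := by nlinarith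
        have f2 : L ^ 2 * (1 + |(a : ℝ)|) ≤ L ^ 2 * (|(a : ℝ)| * (2 * L)) :=
          mul_le_mul_of_nonneg_left f1 (by positivity)
        have f3 : 4 * L ^ 3 ≤ R := by
          have g1 : L ^ 4 ≤ R := (pow_le_pow_right₀ hLo (by norm_num : 4 ≤ 100)).trans hRbig
          have g2 : L ^ 4 = L * L ^ 3 := by ring
          have g3 : (0 : ℝ) < L ^ 3 := by positivity
          nlinarith
        have f4 : |(a : ℝ)| * (4 * L ^ 3) ≤ |(a : ℝ)| * R := mul_le_mul_of_nonneg_left f3 hapos.le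
        nlinarith
      nlinarith
    have s2 : |(a : ℝ)| * R ≤ 4 * ‖y‖ * |(b : ℝ)| := by
      have e1 : |(b : ℝ)| * (‖y‖ + L ^ 2) ≤ |(b : ℝ)| * (2 * ‖y‖) :=
        mul_le_mul_of_nonneg_left (by nlinarith) hbn
      nlinarith
    -- `2 |a| ≤ |b|`, `2 ≤ |b|`
    have s3 : |(a : ℝ)| * L ^ 30 ≤ 4 * |(b : ℝ)| := by
      have e1 : |(a : ℝ)| * (‖y‖ * L ^ 30) ≤ |(a : ℝ)| * R := mul_le_mul_of_nonneg_left hRy hapos.le
      have e2 : ‖y‖ * (|(a : ℝ)| * L ^ 30) ≤ ‖y‖ * (4 * |(b : ℝ)|) := by nlinarith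
      exact le_of_mul_le_mul_left e2 hy0
    have hL30 : L ^ 2 * L ≤ L ^ 30 := by
      calc L ^ 2 * L = L ^ 3 := by ring
        _ ≤ L ^ 30 := pow_le_pow_right₀ hLo (by norm_num)
    have s4 : 2 * |(a : ℝ)| ≤ |(b : ℝ)| := by
      have e1 : |(a : ℝ)| * 8 ≤ |(a : ℝ)| * L ^ 30 := by
        apply mul_le_mul_of_nonneg_left _ hapos.le
        nlinarith
      linarith
    have s5 : 2 ≤ |(b : ℝ)| := by
      have e1 : |(a : ℝ)| * (L ^ 2 * L) ≤ |(a : ℝ)| * L ^ 30 := mul_le_mul_of_nonneg_left hL30 hapos.le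
      have e2 : |(a : ℝ)| * (L ^ 2 * L) = L ^ 2 * (L * |(a : ℝ)|) := by ring
      have e3 : L ^ 2 * 1 ≤ L ^ 2 * (L * |(a : ℝ)|) := mul_le_mul_of_nonneg_left h1a (by positivity)
      nlinarith
    have s6 : |(b : ℝ)| ≤ 2 * |(a : ℝ) + b| := by
      have e1 : |(b : ℝ)| ≤ |(a : ℝ) + b| + |(a : ℝ)| := by
        have := abs_sub ((a : ℝ) + b) (a : ℝ)
        rwa [add_sub_cancel_left] at this
      linarith
    have s7 : L ^ 2 * (1 + |(a : ℝ)| + |(b : ℝ)|) ≤ 2 * L ^ 2 * |(b : ℝ)| := by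
      have e1 : 1 + |(a : ℝ)| + |(b : ℝ)| ≤ 2 * |(b : ℝ)| := by linarith
      calc L ^ 2 * (1 + |(a : ℝ)| + |(b : ℝ)|) ≤ L ^ 2 * (2 * |(b : ℝ)|) :=
            mul_le_mul_of_nonneg_left e1 (by positivity)
        _ = 2 * L ^ 2 * |(b : ℝ)| := by ring
    refine ⟨hapos, ?_, ?_, ?_⟩
    · calc |(a : ℝ)| * R ≤ 4 * ‖y‖ * |(b : ℝ)| := s2
        _ ≤ 4 * ‖y‖ * (2 * |(a : ℝ) + b|) := mul_le_mul_of_nonneg_left s6 (by positivity)
        _ = 8 * ‖y‖ * |(a : ℝ) + b| := by ring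
    · rw [div_le_iff₀ (by positivity)]
      nlinarith
    · rw [le_div_iff₀ (by nlinarith)]
      nlinarith
  -- the sum over `b` for given `a`
  have inner : ∀ a ∈ FQ Q (L ^ 16),
      ∑ b ∈ FQ Q (R ^ 8), (if Res L w y a b then 1 / |(a : ℝ) + b| else 0) ≤
        512 * L ^ 4 / ‖y‖ + 32 * L * ‖y‖ / R := by
    intro a ha
    rw [← Finset.sum_filter]
    set B := (FQ Q (R ^ 8)).filter (fun b => Res L w y a b) with hB
    have hrhs : 0 ≤ 512 * L ^ 4 / ‖y‖ + 32 * L * ‖y‖ / R := by positivity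
    rcases B.eq_empty_or_nonempty with hBe | hBne
    · rw [hBe, Finset.sum_empty]; exact hrhs
    have hBmem : ∀ b ∈ B, b.den ≤ Q ∧ Res L w y a b := by
      intro b hb
      rw [hB, Finset.mem_filter] at hb
      exact ⟨(mem_FQ.1 hb.1).1, hb.2⟩
    obtain ⟨b₀, hb₀⟩ := hBne
    obtain ⟨hapos, _, _, _⟩ := key a b₀ ha (hBmem b₀ hb₀).1 (hBmem b₀ hb₀).2
    have ha0 : a ≠ 0 := by
      rintro rfl
      simp at hapos
    have h1a := one_le_mul_abs hQL (mem_FQ.1 ha).1 ha0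
    set A : ℝ := |(a : ℝ)| with hA
    set α : ℝ := A * ‖w‖ / (‖y‖ + 2 * L ^ 2) with hα
    set β : ℝ := A * ‖w‖ / (‖y‖ - 2 * L ^ 2) with hβ
    have hd1 : 0 < ‖y‖ + 2 * L ^ 2 := by positivity
    have hd2 : 0 < ‖y‖ - 2 * L ^ 2 := by nlinarith
    have hα0 : 0 ≤ α := by positivity
    have hαβ : α ≤ β := by
      rw [hα, hβ]
      apply div_le_div_of_nonneg_left (by positivity) hd2
      nlinarith
    have hlen : β - α ≤ 16 * L ^ 2 * A * R / ‖y‖ ^ 2 := by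
      have e1 : β - α = A * ‖w‖ * (4 * L ^ 2) / ((‖y‖ - 2 * L ^ 2) * (‖y‖ + 2 * L ^ 2)) := by
        rw [hα, hβ]
        field_simp
        ring
      rw [e1]
      have e2 : ‖y‖ ^ 2 / 2 ≤ (‖y‖ - 2 * L ^ 2) * (‖y‖ + 2 * L ^ 2) := by
        nlinarith [mul_pos hL0 hL0]
      have e3 : A * ‖w‖ * (4 * L ^ 2) ≤ A * (2 * R) * (4 * L ^ 2) := by
        apply mul_le_mul_of_nonneg_right _ (by positivity)
        exact mul_le_mul_of_nonneg_left hw2 hapos.le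
      calc A * ‖w‖ * (4 * L ^ 2) / ((‖y‖ - 2 * L ^ 2) * (‖y‖ + 2 * L ^ 2))
          ≤ A * (2 * R) * (4 * L ^ 2) / (‖y‖ ^ 2 / 2) :=
            div_le_div₀ (by positivity) e3 (by positivity) e2
        _ = 16 * L ^ 2 * A * R / ‖y‖ ^ 2 := by field_simp; ring
    -- positive and negative `b`
    have hcard : (B.card : ℝ) ≤ 2 * ((β - α) * (Q : ℝ) ^ 2 + 2) := by
      have hsplit : B.card ≤ (B.filter (fun b => 0 ≤ b)).card + (B.filter (fun b => ¬ 0 ≤ b)).card :=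
        (Finset.card_filter_add_card_filter_not _).ge
      have hp : ((B.filter (fun b => 0 ≤ b)).card : ℝ) ≤ (β - α) * (Q : ℝ) ^ 2 + 2 := by
        apply rat_count _ hαβ
        intro b hb
        rw [Finset.mem_filter] at hb
        obtain ⟨_, _, h3, h4⟩ := key a b ha (hBmem b hb.1).1 (hBmem b hb.1).2
        have hb' : (0 : ℝ) ≤ (b : ℝ) := by exact_mod_cast hb.2
        rw [abs_of_nonneg hb'] at h3 h4
        exact ⟨(hBmem b hb.1).1, h3, h4⟩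
      have hm : ((B.filter (fun b => ¬ 0 ≤ b)).card : ℝ) ≤ (β - α) * (Q : ℝ) ^ 2 + 2 := by
        have h5 := rat_count (Q := Q) (S := B.filter (fun b => ¬ 0 ≤ b)) (α := -β) (β := -α) (by
          intro b hb
          rw [Finset.mem_filter] at hb
          obtain ⟨_, _, h3, h4⟩ := key a b ha (hBmem b hb.1).1 (hBmem b hb.1).2
          have hb' : (b : ℝ) < 0 := by
            have := hb.2
            push Not at this
            exact_mod_cast this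
          rw [abs_of_neg hb'] at h3 h4
          exact ⟨(hBmem b hb.1).1, by linarith, by linarith⟩) (by linarith)
        have e1 : -α - -β = β - α := by ring
        rwa [e1] at h5
      have : (B.card : ℝ) ≤ ((B.filter (fun b => 0 ≤ b)).card : ℝ) +
          ((B.filter (fun b => ¬ 0 ≤ b)).card : ℝ) := by exact_mod_cast hsplit
      linarith
    have hterm : ∀ b ∈ B, 1 / |(a : ℝ) + b| ≤ 8 * ‖y‖ / (A * R) := by
      intro b hb
      obtain ⟨_, h2, _, _⟩ := key a b ha (hBmem b hb).1 (hBmem b hb).2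
      have hAR : 0 < A * R := mul_pos hapos hR0
      have hpos : 0 < |(a : ℝ) + b| := by
        by_contra hcon
        push Not at hcon
        have : 8 * ‖y‖ * |(a : ℝ) + b| ≤ 0 := mul_nonpos_of_nonneg_of_nonpos (by positivity) hcon
        linarith
      rw [div_le_div_iff₀ hpos hAR, one_mul]
      exact h2
    calc ∑ b ∈ B, 1 / |(a : ℝ) + b| ≤ ∑ _b ∈ B, 8 * ‖y‖ / (A * R) := Finset.sum_le_sum hterm
      _ = B.card * (8 * ‖y‖ / (A * R)) := by rw [Finset.sum_const, nsmul_eq_mul]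
      _ ≤ (2 * ((16 * L ^ 2 * A * R / ‖y‖ ^ 2) * L ^ 2 + 2)) * (8 * ‖y‖ / (A * R)) := by
          apply mul_le_mul_of_nonneg_right _ (by positivity)
          refine hcard.trans ?_
          have e1 : (β - α) * (Q : ℝ) ^ 2 ≤ (16 * L ^ 2 * A * R / ‖y‖ ^ 2) * L ^ 2 :=
            mul_le_mul hlen hQ2 (by positivity) (by positivity)
          linarith
      _ = 256 * L ^ 4 / ‖y‖ + 32 * ‖y‖ / (A * R) := by
          field_simp
          ring
      _ ≤ 512 * L ^ 4 / ‖y‖ + 32 * L * ‖y‖ / R := by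
          have e1 : 256 * L ^ 4 / ‖y‖ ≤ 512 * L ^ 4 / ‖y‖ := by
            apply div_le_div_of_nonneg_right _ hy0.le
            have : (0 : ℝ) < L ^ 4 := by positivity
            linarith
          have e2 : 32 * ‖y‖ / (A * R) ≤ 32 * L * ‖y‖ / R := by
            rw [div_le_div_iff₀ (mul_pos hapos hR0) hR0]
            have e3 : 32 * ‖y‖ * R * 1 ≤ 32 * ‖y‖ * R * (L * A) :=
              mul_le_mul_of_nonneg_left h1a (by positivity)
            nlinarith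
          linarith
  -- the whole sum
  rw [Finset.sum_filter, Finset.sum_product]
  have hcardA : ((FQ Q (L ^ 16)).card : ℝ) ≤ 3 * L ^ 18 := by
    refine (card_FQ_le (by positivity)).trans ?_
    have e1 : (1 : ℝ) ≤ L ^ 16 * Q := by
      have f1 : (1 : ℝ) ≤ L ^ 16 := one_le_pow₀ hLo
      have f2 : (1 : ℝ) ≤ Q := by exact_mod_cast hQ
      nlinarith
    calc (2 * (L ^ 16 * Q) + 1) * Q ≤ (3 * (L ^ 16 * Q)) * Q :=
          mul_le_mul_of_nonneg_right (by linarith) hQ0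
      _ = 3 * L ^ 16 * (Q : ℝ) ^ 2 := by ring
      _ ≤ 3 * L ^ 16 * L ^ 2 := mul_le_mul_of_nonneg_left hQ2 (by positivity)
      _ = 3 * L ^ 18 := by ring
  calc ∑ a ∈ FQ Q (L ^ 16), ∑ b ∈ FQ Q (R ^ 8), (if Res L w y a b then 1 / |(a : ℝ) + b| else 0)
      ≤ ∑ _a ∈ FQ Q (L ^ 16), (512 * L ^ 4 / ‖y‖ + 32 * L * ‖y‖ / R) := Finset.sum_le_sum inner
    _ = (FQ Q (L ^ 16)).card * (512 * L ^ 4 / ‖y‖ + 32 * L * ‖y‖ / R) := by
        rw [Finset.sum_const, nsmul_eq_mul]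
    _ ≤ (3 * L ^ 18) * (512 / L ^ 96 + 32 / L ^ 29) := by
        apply mul_le_mul hcardA _ (by positivity) (by positivity)
        have e1 : 512 * L ^ 4 / ‖y‖ ≤ 512 / L ^ 96 := by
          rw [div_le_div_iff₀ hy0 (by positivity)]
          calc 512 * L ^ 4 * L ^ 96 = 512 * L ^ 100 := by ring
            _ ≤ 512 * ‖y‖ := by linarith
        have e2 : 32 * L * ‖y‖ / R ≤ 32 / L ^ 29 := by
          rw [div_le_div_iff₀ hR0 (by positivity)]
          calc 32 * L * ‖y‖ * L ^ 29 = 32 * (‖y‖ * L ^ 30) := by ring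
            _ ≤ 32 * R := by linarith
        linarith
    _ ≤ 1 := by
        have e1 : (0 : ℝ) < L ^ 96 := by positivity
        have e2 : (3 * L ^ 18) * (512 / L ^ 96 + 32 / L ^ 29) = 1536 / L ^ 78 + 96 / L ^ 11 := by
          field_simp
          ring
        rw [e2]
        have e3 : (8 : ℝ) ^ 11 ≤ L ^ 11 := pow_le_pow_left₀ (by norm_num) hL8 11
        have e4 : (8 : ℝ) ^ 11 ≤ L ^ 78 := by
          refine e3.trans (pow_le_pow_right₀ hLo (by norm_num))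
        have e5 : 1536 / L ^ 78 ≤ 1 / 2 := by
          rw [div_le_div_iff₀ (by positivity) (by norm_num)]
          have : (1536 * 2 : ℝ) ≤ 8 ^ 11 := by norm_num
          linarith
        have e6 : 96 / L ^ 11 ≤ 1 / 2 := by
          rw [div_le_div_iff₀ (by positivity) (by norm_num)]
          have : (96 * 2 : ℝ) ≤ 8 ^ 11 := by norm_num
          linarith
        linarith

end Pool.Agent.Lib.SR
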