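import Pool.Agent.Lib.MP_b9430d_co.SR.PrD
import Pool.Agent.Lib.MP_b9430d_co.SR.Kii
import Pool.Agent.Lib.MP_b9430d_co.SR.PrOr
import Pool.Agent.Lib.MP_b9430d_co.SR.PrC1
import Pool.Agent.Lib.MP_b9430d_co.SR.PrR
import Pool.Agent.Lib.MP_b9430d_co.SR.PrZ
import Pool.Agent.Lib.MP_b9430d_co.SR.PrNr

/-!
# Proposition A: the pointwise bound
-/

set_option autoImplicit false

open MeasureTheory Complex Set Real Filter Topology
open scoped ENNReal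

namespace Pool.Agent.Lib.SR

open Pool.MPb9430d Pool.MPb9430d.Rough Pool.MPb9430d.Frac Pool.MPb9430d.Mom

open Classical in
/-- The pairs which can be resonant in the zone `R / L^30 ≤ ‖y‖`. -/
noncomputable def Ps (L : ℝ) (P : Finset (ℚ × ℚ)) : Finset (ℚ × ℚ) :=
  P.filter (fun p => p.1 ≠ 0 ∧ p.2 ≠ 0 ∧ |(p.2 : ℝ)| ≤ L ^ 47 ∧ |p.1| ≤ 3 * |p.2|)

open Classical in
/-- The pairs of class 2 with the quotient `l`. -/
noncomputable def Pl (L : ℝ) (P : Finset (ℚ × ℚ)) (l : ℚ) : Finset (ℚ × ℚ) :=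
  ((Ps L P).filter (fun p => ¬ Cl1 p)).filter (fun p => p.1 / p.2 = l)

open Classical in
/-- The quotients. -/
noncomputable def Ll (L : ℝ) (P : Finset (ℚ × ℚ)) : Finset ℚ := (Ps L P).image (fun p => p.1 / p.2)

open Classical in
theorem mem_Ps {L : ℝ} {P : Finset (ℚ × ℚ)} {p : ℚ × ℚ} : p ∈ Ps L P ↔
    p ∈ P ∧ p.1 ≠ 0 ∧ p.2 ≠ 0 ∧ |(p.2 : ℝ)| ≤ L ^ 47 ∧ |p.1| ≤ 3 * |p.2| := by
  unfold Ps
  rw [Finset.mem_filter]

open Classical in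
theorem mem_Pl {L : ℝ} {P : Finset (ℚ × ℚ)} {l : ℚ} {p : ℚ × ℚ} : p ∈ Pl L P l ↔
    (p ∈ Ps L P ∧ ¬ Cl1 p) ∧ p.1 / p.2 = l := by
  unfold Pl
  rw [Finset.mem_filter, Finset.mem_filter]

/-- The coefficients. -/
theorem cc_le {L R Λ : ℝ} {T : Finset ℕ} {c : ℕ → ℝ} {Q : ℕ} (hM : Maj L R Λ T c Q) {κ : ℝ} (hκ : 0 < κ) {a : ℚ}
    (ha : a ∈ FQ Q (1 / κ)) : |cc κ c Q a| ≤ Λ * (a.den : ℝ) ^ (-(99 / 100) : ℝ) := by
  unfold cc
  rw [abs_mul]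
  have h1 := hM.cofb a.den a.den_pos
  have h2 : |(1 - κ * |(a : ℝ)|)| ≤ 1 := by
    have h3 := (mem_FQ.1 ha).2
    rw [le_div_iff₀ hκ] at h3
    rw [abs_le]
    have h4 : 0 ≤ κ * |(a : ℝ)| := by positivity
    constructor
    · linarith [mul_comm κ |(a : ℝ)|]
    · linarith
  calc |cof c Q a.den| * |(1 - κ * |(a : ℝ)|)| ≤ |cof c Q a.den| * 1 := mul_le_mul_of_nonneg_left h2 (abs_nonneg _)
    _ ≤ _ := by rw [mul_one]; exact h1

theorem cc_le' {L R Λ : ℝ} {T : Finset ℕ} {c : ℕ → ℝ} {Q : ℕ} (hM : Maj L R Λ T c Q) {κ : ℝ} (hκ : 0 < κ) {a : ℚ}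
    (ha : a ∈ FQ Q (1 / κ)) : |cc κ c Q a| ≤ Λ := by
  refine (cc_le hM hκ ha).trans ?_
  have h0 : (1 : ℝ) ≤ a.den := by exact_mod_cast a.den_pos
  have h1 : (a.den : ℝ) ^ (-(99 / 100) : ℝ) ≤ 1 := Real.rpow_le_one_of_one_le_of_nonpos h0 (by norm_num)
  have h2 := hM.Λ1
  nlinarith

theorem norm_tm_le (ρ : ℝ) (u v : ℚ → ℝ) (w y : ℂ) (p : ℚ × ℚ) {U V B : ℝ} (hU : |u p.1| ≤ U) (hV : |v p.2| ≤ V)
    (hB : ‖II ρ ((p.1 : ℝ) + p.2) (((p.1 : ℝ) : ℂ) * w + ((p.2 : ℝ) : ℂ) * y)‖ ≤ B) : ‖tm ρ u v w y p‖ ≤ U * V * B := by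
  unfold tm
  rw [norm_mul, norm_mul, norm_ee', mul_one, Complex.norm_real, Real.norm_eq_abs, abs_mul]
  have hU0 : 0 ≤ U := (abs_nonneg _).trans hU
  have hV0 : 0 ≤ V := (abs_nonneg _).trans hV
  exact mul_le_mul (mul_le_mul hU hV (abs_nonneg _) hU0) hB (norm_nonneg _) (by positivity)

/-- The sup norm of a term of class 1. -/
theorem tm_class_one {ρ : ℝ} (hρ : 1 ≤ ρ) {Λ : ℝ} {u v : ℚ → ℝ} (w y : ℂ) {p : ℚ × ℚ} (hp2 : p.2 ≠ 0)
    (hc : Cl1 p) (hu : |u p.1| ≤ Λ * (p.1.den : ℝ) ^ (-(99 / 100) : ℝ)) (hv : |v p.2| ≤ Λ * (p.2.den : ℝ) ^ (-(99 / 100) : ℝ)) :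
    ‖tm ρ u v w y p‖ ≤ Real.exp (9 * π) * ρ ^ 2 * Λ ^ 2 * (G12 p : ℝ) ^ (-(99 / 100) : ℝ) := by
  have hρ0 : 0 < ρ := by linarith
  have hd1 : (0 : ℝ) < p.1.den := by exact_mod_cast p.1.den_pos
  have hd2 : (0 : ℝ) < p.2.den := by exact_mod_cast p.2.den_pos
  have hG := G12_eq p
  -- `G ≥ 1`
  have hG1 : 1 ≤ G12 p := by
    have hn : 0 < N2 p := by
      unfold N2
      exact Nat.mul_pos (Int.natAbs_pos.2 (Rat.num_ne_zero.2 hp2)) p.1.den_pos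
    have hj : 0 < Nat.gcd (N1 p) (N2 p) := Nat.gcd_pos_of_pos_right _ hn
    have h1 : 0 < G12 p ^ 2 := lt_of_lt_of_le (Nat.mul_pos hj hn) hc.2
    exact Nat.one_le_iff_ne_zero.2 fun h => by rw [h] at h1; exact absurd h1 (by norm_num)
  have hG0 : (0 : ℝ) < G12 p := by exact_mod_cast hG1
  set D : ℝ := (p.1.den : ℝ) * p.2.den with hD
  have hD0 : 0 < D := by positivity
  have hs : 0 < |(p.1 : ℝ) + p.2| := by
    by_contra h
    push Not at h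
    have : |(p.1 : ℝ) + p.2| = 0 := le_antisymm h (abs_nonneg _)
    rw [this, zero_mul] at hG
    linarith
  have hsn : (p.1 : ℝ) + p.2 ≠ 0 := abs_pos.1 hs
  have hsum : |(p.1 : ℝ) + p.2| = G12 p / D := by
    rw [hG]
    field_simp
  have hDr : (p.1.den : ℝ) ^ (-(99 / 100) : ℝ) * (p.2.den : ℝ) ^ (-(99 / 100) : ℝ) = D ^ (-(99 / 100) : ℝ) :=
    (Real.mul_rpow hd1.le hd2.le).symm
  rcases le_total (G12 p : ℝ) D with h | h
  · have h1 := norm_tm_le ρ u v w y p hu hv (norm_II_le1 hρ0 _ _)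
    refine h1.trans ?_
    have h2 : D ^ (-(99 / 100) : ℝ) ≤ (G12 p : ℝ) ^ (-(99 / 100) : ℝ) :=
      Real.rpow_le_rpow_of_nonpos hG0 h (by norm_num)
    calc Λ * (p.1.den : ℝ) ^ (-(99 / 100) : ℝ) * (Λ * (p.2.den : ℝ) ^ (-(99 / 100) : ℝ)) * (Real.exp (9 * π) * ρ ^ 2)
        = Real.exp (9 * π) * ρ ^ 2 * Λ ^ 2 * ((p.1.den : ℝ) ^ (-(99 / 100) : ℝ) * (p.2.den : ℝ) ^ (-(99 / 100) : ℝ)) := by ring
      _ ≤ _ := by
        rw [hDr]
        exact mul_le_mul_of_nonneg_left h2 (by positivity)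
  · have h1 := norm_tm_le ρ u v w y p hu hv (norm_II_le2 hρ0 hsn _)
    refine h1.trans ?_
    have h3 : D ^ (-(99 / 100) : ℝ) * (D / G12 p) ≤ (G12 p : ℝ) ^ (-(99 / 100) : ℝ) := by
      have e1 : D ^ (-(99 / 100) : ℝ) * D = D ^ (1 / 100 : ℝ) := by
        rw [← Real.rpow_add_one hD0.ne']
        norm_num
      have e2 : (G12 p : ℝ) ^ (-(99 / 100) : ℝ) * G12 p = (G12 p : ℝ) ^ (1 / 100 : ℝ) := by
        rw [← Real.rpow_add_one hG0.ne']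
        norm_num
      rw [← mul_div_assoc, div_le_iff₀ hG0, e1, e2]
      exact Real.rpow_le_rpow hD0.le h (by norm_num)
    have h4 : Real.exp (9 * π) / |(p.1 : ℝ) + p.2| = Real.exp (9 * π) * (D / G12 p) := by
      rw [hsum]
      field_simp
    have h5 : (1 : ℝ) ≤ ρ ^ 2 := by nlinarith
    calc Λ * (p.1.den : ℝ) ^ (-(99 / 100) : ℝ) * (Λ * (p.2.den : ℝ) ^ (-(99 / 100) : ℝ)) * (Real.exp (9 * π) / |(p.1 : ℝ) + p.2|)
        = Real.exp (9 * π) * 1 * Λ ^ 2 * ((p.1.den : ℝ) ^ (-(99 / 100) : ℝ) * (p.2.den : ℝ) ^ (-(99 / 100) : ℝ) * (D / G12 p)) := by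
          rw [h4]
          ring
      _ ≤ Real.exp (9 * π) * ρ ^ 2 * Λ ^ 2 * (G12 p : ℝ) ^ (-(99 / 100) : ℝ) := by
        rw [hDr]
        exact mul_le_mul (mul_le_mul_of_nonneg_right (mul_le_mul_of_nonneg_left h5 (by positivity)) (by positivity)) h3
          (by positivity) (by positivity)

open Classical in
/-- Module PrPt. -/
theorem pointwise {ρ : ℝ} (hρ : 1 ≤ ρ) : ∃ C L₀ : ℝ, 0 < C ∧ ∀ (L R Λ : ℝ) (T : Finset ℕ) (c : ℕ → ℝ)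
    (Q : ℕ), L₀ ≤ L → Maj L R Λ T c Q → ∀ κ' : ℝ, 1 / R ^ 8 ≤ κ' → ∀ w y : ℂ, R ≤ ‖w‖ → ‖w‖ ≤ 2 * R →
    L ^ 1500 ≤ ‖y‖ → ‖y‖ ≤ 2 * R →
    ‖∑ p ∈ FQ Q (1 / (1 / L ^ 16)) ×ˢ FQ Q (1 / κ'), tm ρ (cc (1 / L ^ 16) c Q) (cc κ' c Q) w y p‖ ≤
      C * Λ ^ 2 + √(∑ l ∈ Ll L (FQ Q (1 / (1 / L ^ 16)) ×ˢ FQ Q (1 / κ')),
        ‖∑ p ∈ Pl L (FQ Q (1 / (1 / L ^ 16)) ×ˢ FQ Q (1 / κ')) l, tm ρ (cc (1 / L ^ 16) c Q) (cc κ' c Q) w y p‖ ^ 2) := by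
  obtain ⟨C₁, hC₁, h1⟩ := class_one
  obtain ⟨L₁, hres⟩ := res_ne
  obtain ⟨L₂, hresb⟩ := res_b
  obtain ⟨L₃, huniq⟩ := res_uniq
  obtain ⟨L₄, hzone⟩ := zone_one
  obtain ⟨L₅, hnon⟩ := nonres hρ
  refine ⟨Real.exp (9 * π) * ρ ^ 2 * (C₁ + 1) + Real.exp (9 * π) + 1, max (max (max L₁ L₂) (max L₃ L₄)) (max L₅ 100), by positivity, ?_⟩
  intro L R Λ T c Q hL hM κ' hκ' w y hw hw2 hy hy2
  have hL₁ : L₁ ≤ L := (le_max_left _ _).trans ((le_max_left _ _).trans ((le_max_left _ _).trans hL))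
  have hL₂ : L₂ ≤ L := (le_max_right _ _).trans ((le_max_left _ _).trans ((le_max_left _ _).trans hL))
  have hL₃ : L₃ ≤ L := (le_max_left _ _).trans ((le_max_right _ _).trans ((le_max_left _ _).trans hL))
  have hL₄ : L₄ ≤ L := (le_max_right _ _).trans ((le_max_right _ _).trans ((le_max_left _ _).trans hL))
  have hL₅ : L₅ ≤ L := (le_max_left _ _).trans ((le_max_right _ _).trans hL)
  have hL100 : 100 ≤ L := (le_max_right _ _).trans ((le_max_right _ _).trans hL)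
  have hρ0 : 0 < ρ := by linarith
  have hL0 : 0 < L := by linarith
  have hL1 : 1 ≤ L := by linarith
  have hR0 : 0 < R := lt_of_lt_of_le (by positivity) hM.Rl
  have hΛ0 : 0 ≤ Λ := by linarith [hM.Λ1]
  have hκ0 : 0 < κ' := lt_of_lt_of_le (by positivity) hκ'
  have hκ1 : (0 : ℝ) < 1 / L ^ 16 := by positivity
  set E : ℝ := Real.exp (9 * π) with hE
  have hE0 : 0 < E := Real.exp_pos _
  set P : Finset (ℚ × ℚ) := FQ Q (1 / (1 / L ^ 16)) ×ˢ FQ Q (1 / κ') with hP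
  set u := cc (1 / L ^ 16) c Q with hu
  set v := cc κ' c Q with hv
  have hPmem : ∀ p ∈ P, p.1 ∈ FQ Q (1 / (1 / L ^ 16)) ∧ p.2 ∈ FQ Q (1 / κ') := fun p hp => Finset.mem_product.1 hp
  have hPsub : P ⊆ FQ Q (L ^ 16) ×ˢ FQ Q (R ^ 8) := by
    intro p hp
    obtain ⟨h2, h3⟩ := hPmem p hp
    rw [one_div_one_div] at h2
    refine Finset.mem_product.2 ⟨h2, mem_FQ.2 ⟨(mem_FQ.1 h3).1, (mem_FQ.1 h3).2.trans ?_⟩⟩
    rw [one_div_le hκ0 (by positivity)]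
    exact hκ'
  have hcu : ∀ p ∈ P, |u p.1| ≤ Λ * (p.1.den : ℝ) ^ (-(99 / 100) : ℝ) := fun p hp => cc_le hM hκ1 (hPmem p hp).1
  have hcv : ∀ p ∈ P, |v p.2| ≤ Λ * (p.2.den : ℝ) ^ (-(99 / 100) : ℝ) := fun p hp => cc_le hM hκ0 (hPmem p hp).2
  have hcu' : ∀ p ∈ P, |u p.1| ≤ Λ := fun p hp => cc_le' hM hκ1 (hPmem p hp).1
  have hcv' : ∀ p ∈ P, |v p.2| ≤ Λ := fun p hp => cc_le' hM hκ0 (hPmem p hp).2
  have hP1 : ∀ p ∈ P, p.1 ∈ FQ Q (L ^ 16) := fun p hp => (Finset.mem_product.1 (hPsub hp)).1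
  have hP2 : ∀ p ∈ P, p.2.den ≤ Q := fun p hp => (mem_FQ.1 (hPmem p hp).2).1
  -- sums over sets of non resonant pairs
  have hnonS : ∀ S ⊆ P, (∀ p ∈ S, p ≠ 0 ∧ ¬ Res L w y p.1 p.2) → ∑ p ∈ S, ‖tm ρ u v w y p‖ ≤ Λ ^ 2 := by
    intro S hS hSr
    refine hnon L R Q hL₅ hM.Rl hM.Ru hM.Q1 hM.QL Λ u v w y S hΛ0 (hS.trans hPsub)
      (fun p hp => ⟨hcu' p (hS hp), hcv' p (hS hp)⟩) ?_
    intro p hp
    obtain ⟨h2, h3⟩ := hSr p hp
    by_contra h4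
    push Not at h4
    refine h3 ⟨?_, h4⟩
    by_contra h5
    push Not at h5
    exact h2 (Prod.ext h5.1 h5.2)
  -- the pair `(0,0)`
  have hzero : ∀ p ∈ P, ‖tm ρ u v w y p‖ ≤ E * ρ ^ 2 * Λ ^ 2 := by
    intro p hp
    refine (norm_tm_le ρ u v w y p (hcu' p hp) (hcv' p hp) (norm_II_le1 hρ0 _ _)).trans (le_of_eq ?_)
    ring
  have hzeroS : ∀ S ⊆ P, (∀ p ∈ S, p = 0) → ∑ p ∈ S, ‖tm ρ u v w y p‖ ≤ E * ρ ^ 2 * Λ ^ 2 := by
    intro S hS hS0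
    have hsub : S ⊆ {0} := fun p hp => Finset.mem_singleton.2 (hS0 p hp)
    rcases Finset.subset_singleton_iff.1 hsub with h2 | h2
    · rw [h2, Finset.sum_empty]
      positivity
    · rw [h2, Finset.sum_singleton]
      exact hzero 0 (hS (by rw [h2]; exact Finset.mem_singleton_self _))
  set G : ℝ := ∑ l ∈ Ll L P, ‖∑ p ∈ Pl L P l, tm ρ u v w y p‖ ^ 2 with hG
  have hG0 : 0 ≤ G := Finset.sum_nonneg fun l _ => sq_nonneg _
  rcases le_total ‖y‖ (R / L ^ 30) with hz | hz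
  · -- zone 1
    have hsplit : ‖∑ p ∈ P, tm ρ u v w y p‖ ≤ ∑ p ∈ P.filter (fun p => Res L w y p.1 p.2), ‖tm ρ u v w y p‖ +
        (∑ p ∈ P.filter (fun p => ¬ Res L w y p.1 p.2 ∧ p = 0), ‖tm ρ u v w y p‖ +
          ∑ p ∈ P.filter (fun p => ¬ Res L w y p.1 p.2 ∧ p ≠ 0), ‖tm ρ u v w y p‖) := by
      refine (norm_sum_le _ _).trans (le_of_eq ?_)
      rw [← Finset.sum_filter_add_sum_filter_not P (fun p => Res L w y p.1 p.2)]
      congr 1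
      rw [← Finset.sum_filter_add_sum_filter_not (P.filter (fun p => ¬ Res L w y p.1 p.2)) (fun p => p = 0), Finset.filter_filter,
        Finset.filter_filter]
    have hA : ∑ p ∈ P.filter (fun p => Res L w y p.1 p.2), ‖tm ρ u v w y p‖ ≤ E * Λ ^ 2 := by
      have h2 : ∀ p ∈ P.filter (fun p => Res L w y p.1 p.2), ‖tm ρ u v w y p‖ ≤ E * Λ ^ 2 * (1 / |(p.1 : ℝ) + p.2|) := by
        intro p hp
        obtain ⟨hpP, hpr⟩ := Finset.mem_filter.1 hp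
        have hne := hres L R Q hL₁ hM.Rl hM.Q1 hM.QL w y p.1 p.2 hw hy (hP1 p hpP) (hP2 p hpP) hpr
        have hs : (p.1 : ℝ) + p.2 ≠ 0 := by
          intro h3
          have h4 : (p.2 : ℝ) = -(p.1 : ℝ) := by linarith
          have h5 := hpr.2
          rw [h3, abs_zero, add_zero, mul_one, h4] at h5
          have h6 : ((p.1 : ℝ) : ℂ) * w + ((-(p.1 : ℝ) : ℝ) : ℂ) * y = ((p.1 : ℝ) : ℂ) * (w - y) := by
            push_cast
            ring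
          rw [h6, norm_mul, Complex.norm_real, Real.norm_eq_abs] at h5
          have h7 : 1 / L ≤ |(p.1 : ℝ)| := one_div_le_abs hne.1 ((Nat.cast_le.2 (mem_FQ.1 (hP1 p hpP)).1).trans hM.QL)
          have h8 : R / 2 ≤ ‖w - y‖ := by
            have h9 : R / L ^ 30 ≤ R / 2 := by
              refine div_le_div_of_nonneg_left hR0.le (by norm_num) ?_
              calc (2 : ℝ) ≤ L := by linarith
                _ ≤ L ^ 30 := le_self_pow₀ hL1 (by norm_num)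
            have := norm_sub_norm_le w y
            linarith
          have h10 : 1 / L * (R / 2) ≤ |(p.1 : ℝ)| * ‖w - y‖ := mul_le_mul h7 h8 (by positivity) (abs_nonneg _)
          have h11 : L ^ 2 ≤ 1 / L * (R / 2) := by
            rw [one_div, ← div_eq_inv_mul, le_div_iff₀ hL0]
            have h12 : L ^ 4 ≤ R := (pow_le_pow_right₀ hL1 (by norm_num)).trans hM.Rl
            have h13 : 2 * (L ^ 2 * L) ≤ L ^ 4 := by
              have : L ^ 4 = L * (L ^ 2 * L) := by ring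
              rw [this]
              exact mul_le_mul_of_nonneg_right (by linarith) (by positivity)
            linarith
          linarith
        refine (norm_tm_le ρ u v w y p (hcu' p hpP) (hcv' p hpP) (norm_II_le2 hρ0 hs _)).trans (le_of_eq ?_)
        rw [hE]
        ring
      refine (Finset.sum_le_sum h2).trans ?_
      rw [← Finset.mul_sum]
      have h3 : ∑ p ∈ P.filter (fun p => Res L w y p.1 p.2), 1 / |(p.1 : ℝ) + p.2| ≤ 1 := by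
        refine le_trans (Finset.sum_le_sum_of_subset_of_nonneg (Finset.filter_subset_filter _ hPsub) fun p _ _ => by positivity)
          (hzone L R Q hL₄ hM.Rl hM.Q1 hM.QL w y hw hw2 hy hz)
      calc E * Λ ^ 2 * ∑ p ∈ P.filter (fun p => Res L w y p.1 p.2), 1 / |(p.1 : ℝ) + p.2| ≤ E * Λ ^ 2 * 1 :=
            mul_le_mul_of_nonneg_left h3 (by positivity)
        _ = E * Λ ^ 2 := mul_one _
    have hB := hzeroS (P.filter (fun p => ¬ Res L w y p.1 p.2 ∧ p = 0)) (Finset.filter_subset _ _)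
      (fun p hp => (Finset.mem_filter.1 hp).2.2)
    have hC := hnonS (P.filter (fun p => ¬ Res L w y p.1 p.2 ∧ p ≠ 0)) (Finset.filter_subset _ _)
      (fun p hp => ⟨(Finset.mem_filter.1 hp).2.2, (Finset.mem_filter.1 hp).2.1⟩)
    have hsq := Real.sqrt_nonneg G
    have hcc : 0 ≤ E * ρ ^ 2 * C₁ * Λ ^ 2 := by positivity
    calc ‖∑ p ∈ P, tm ρ u v w y p‖ ≤ E * Λ ^ 2 + (E * ρ ^ 2 * Λ ^ 2 + Λ ^ 2) := hsplit.trans (add_le_add hA (add_le_add hB hC))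
      _ ≤ (E * ρ ^ 2 * (C₁ + 1) + E + 1) * Λ ^ 2 + √G := by nlinarith
  · -- zone 2
    by_cases hex : ∃ p₀ ∈ P, Res L w y p₀.1 p₀.2
    · obtain ⟨p₀, hp₀, hr₀⟩ := hex
      have hne₀ := hres L R Q hL₁ hM.Rl hM.Q1 hM.QL w y p₀.1 p₀.2 hw hy (hP1 p₀ hp₀) (hP2 p₀ hp₀) hr₀
      set l : ℚ := p₀.1 / p₀.2 with hl
      have hPs : ∀ p ∈ P, Res L w y p.1 p.2 → p ∈ Ps L P ∧ p.1 / p.2 = l := by
        intro p hp hr
        have hne := hres L R Q hL₁ hM.Rl hM.Q1 hM.QL w y p.1 p.2 hw hy (hP1 p hp) (hP2 p hp) hr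
        have hb := hresb L R Q hL₂ hM.Rl hM.Q1 hM.QL w y p.1 p.2 hw hw2 hz hy2 (hP1 p hp) (hP2 p hp) hr
        have hun := huniq L R Q hL₃ hM.Rl hM.Q1 hM.QL w y p.1 p.2 p₀.1 p₀.2 hw hw2 hz hy2 (hP1 p hp) (hP2 p hp)
          (hP1 p₀ hp₀) (hP2 p₀ hp₀) hr hr₀
        refine ⟨mem_Ps.2 ⟨hp, hne.1, hne.2, hb.1, hb.2⟩, ?_⟩
        rw [hl, div_eq_div_iff hne.2 hne₀.2]
        exact hun
      have hlL : l ∈ Ll L P := by
        unfold Ll
        exact Finset.mem_image.2 ⟨p₀, (hPs p₀ hp₀ hr₀).1, rfl⟩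
      have hl0 : l ≠ 0 := div_ne_zero hne₀.1 hne₀.2
      have hl3 : |l| ≤ 3 := by
        rw [hl, abs_div, div_le_iff₀ (abs_pos.2 hne₀.2)]
        exact (mem_Ps.1 (hPs p₀ hp₀ hr₀).1).2.2.2.2
      -- decomposition of `P`
      set A : ℚ × ℚ → Prop := fun p => p ∈ Ps L P ∧ p.1 / p.2 = l with hA
      have hsub : Pl L P l = P.filter (fun p => A p ∧ ¬ Cl1 p) := by
        ext p
        rw [mem_Pl, Finset.mem_filter]
        constructor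
        · rintro ⟨⟨h2, h3⟩, h4⟩
          exact ⟨(mem_Ps.1 h2).1, ⟨h2, h4⟩, h3⟩
        · rintro ⟨-, ⟨h2, h3⟩, h4⟩
          exact ⟨⟨h2, h4⟩, h3⟩
      have hsplit : ∑ p ∈ P, tm ρ u v w y p = ∑ p ∈ Pl L P l, tm ρ u v w y p +
          (∑ p ∈ P.filter (fun p => A p ∧ Cl1 p), tm ρ u v w y p +
            (∑ p ∈ P.filter (fun p => ¬ A p ∧ p = 0), tm ρ u v w y p +
              ∑ p ∈ P.filter (fun p => ¬ A p ∧ p ≠ 0), tm ρ u v w y p)) := by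
        rw [hsub, ← Finset.sum_filter_add_sum_filter_not P A,
          ← Finset.sum_filter_add_sum_filter_not (P.filter A) Cl1,
          ← Finset.sum_filter_add_sum_filter_not (P.filter (fun p => ¬ A p)) (fun p => p = 0), Finset.filter_filter,
          Finset.filter_filter, Finset.filter_filter, Finset.filter_filter]
        ring
      have hA1 : ‖∑ p ∈ Pl L P l, tm ρ u v w y p‖ ≤ √G := by
        refine Real.le_sqrt_of_sq_le ?_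
        exact Finset.single_le_sum (f := fun l => ‖∑ p ∈ Pl L P l, tm ρ u v w y p‖ ^ 2) (fun l _ => sq_nonneg _) hlL
      have hA2 : ‖∑ p ∈ P.filter (fun p => A p ∧ Cl1 p), tm ρ u v w y p‖ ≤ E * ρ ^ 2 * Λ ^ 2 * C₁ := by
        refine (norm_sum_le _ _).trans ?_
        have h2 : ∀ p ∈ P.filter (fun p => A p ∧ Cl1 p), ‖tm ρ u v w y p‖ ≤ E * ρ ^ 2 * Λ ^ 2 * (G12 p : ℝ) ^ (-(99 / 100) : ℝ) := by
          intro p hp
          obtain ⟨hpP, ⟨h3, -⟩, h4⟩ := Finset.mem_filter.1 hp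
          exact tm_class_one hρ w y (mem_Ps.1 h3).2.2.1 h4 (hcu p hpP) (hcv p hpP)
        refine (Finset.sum_le_sum h2).trans ?_
        rw [← Finset.mul_sum]
        refine mul_le_mul_of_nonneg_left ?_ (by positivity)
        refine h1 l hl0 hl3 _ fun p hp => ?_
        obtain ⟨hpP, ⟨h3, h5⟩, h4⟩ := Finset.mem_filter.1 hp
        refine ⟨(mem_Ps.1 h3).2.1, (mem_Ps.1 h3).2.2.1, ?_, h4⟩
        rw [← h5, div_mul_cancel₀ _ (mem_Ps.1 h3).2.2.1]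
      have hA3 : ‖∑ p ∈ P.filter (fun p => ¬ A p ∧ p = 0), tm ρ u v w y p‖ ≤ E * ρ ^ 2 * Λ ^ 2 :=
        (norm_sum_le _ _).trans (hzeroS _ (Finset.filter_subset _ _) (fun p hp => (Finset.mem_filter.1 hp).2.2))
      have hA4 : ‖∑ p ∈ P.filter (fun p => ¬ A p ∧ p ≠ 0), tm ρ u v w y p‖ ≤ Λ ^ 2 := by
        refine (norm_sum_le _ _).trans (hnonS _ (Finset.filter_subset _ _) fun p hp => ?_)
        obtain ⟨hpP, h3, h4⟩ := Finset.mem_filter.1 hp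
        exact ⟨h4, fun hr => h3 (hPs p hpP hr)⟩
      rw [hsplit]
      have hEL : 0 ≤ E * Λ ^ 2 := by positivity
      calc _ ≤ √G + (E * ρ ^ 2 * Λ ^ 2 * C₁ + (E * ρ ^ 2 * Λ ^ 2 + Λ ^ 2)) :=
            (norm_add_le _ _).trans (add_le_add hA1 ((norm_add_le _ _).trans (add_le_add hA2 ((norm_add_le _ _).trans (add_le_add hA3 hA4)))))
        _ ≤ (E * ρ ^ 2 * (C₁ + 1) + E + 1) * Λ ^ 2 + √G := by nlinarith
    · push Not at hex
      have hsplit : ‖∑ p ∈ P, tm ρ u v w y p‖ ≤ ∑ p ∈ P.filter (fun p => p = 0), ‖tm ρ u v w y p‖ +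
          ∑ p ∈ P.filter (fun p => ¬ (p = 0)), ‖tm ρ u v w y p‖ := by
        refine (norm_sum_le _ _).trans (le_of_eq ?_)
        rw [← Finset.sum_filter_add_sum_filter_not P (fun p => p = 0)]
      have hB := hzeroS (P.filter (fun p => p = 0)) (Finset.filter_subset _ _) (fun p hp => (Finset.mem_filter.1 hp).2)
      have hC := hnonS (P.filter (fun p => ¬ (p = 0))) (Finset.filter_subset _ _)
        (fun p hp => ⟨(Finset.mem_filter.1 hp).2, hex p (Finset.mem_filter.1 hp).1⟩)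
      have hsq := Real.sqrt_nonneg G
      have hcc : 0 ≤ E * ρ ^ 2 * C₁ * Λ ^ 2 := by positivity
      have hEL : 0 ≤ E * Λ ^ 2 := by positivity
      calc ‖∑ p ∈ P, tm ρ u v w y p‖ ≤ E * ρ ^ 2 * Λ ^ 2 + Λ ^ 2 := hsplit.trans (add_le_add hB hC)
        _ ≤ (E * ρ ^ 2 * (C₁ + 1) + E + 1) * Λ ^ 2 + √G := by nlinarith

end Pool.Agent.Lib.SR
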