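import Pool.Agent.Lib.MP_b9430d_co.SR.XHv
import Pool.Agent.Lib.MP_b9430d_co.SR.XLip
import Pool.Agent.Lib.MP_b9430d_co.SR.Kdd
import Pool.Agent.Lib.MP_b9430d_co.Frac.GauM

/-!
# XBk: back from the smoothed function to the function itself

`F x = cut (ρ + 2) x * DD (‖x - w‖²)` is bounded by `L^24` and Lipschitz with constant `L^24 + L^42 (2 (ρ + 2) + 4 R)`;
`∫ F * smo N g = ∫ smo N F * g` and `|smo N F - F| ≤ 2 Lip / N`, `N = R⁶`.
-/

set_option autoImplicit false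

open MeasureTheory Complex Set Real Filter Topology
open scoped ENNReal

namespace Pool.Agent.Lib.SR

open Pool.MPb9430d Pool.MPb9430d.Rough Pool.MPb9430d.Frac Pool.MPb9430d.Mom

private theorem XBk_gle (N : ℝ) (x : ℂ) : gau N x ≤ N ^ 2 := by
  unfold gau
  refine mul_le_of_le_one_right (sq_nonneg N) ?_
  rw [Real.exp_le_one_iff]
  have : 0 ≤ π * N ^ 2 * ‖x‖ ^ 2 := by positivity
  linarith

private theorem XBk_even (N : ℝ) (x t : ℂ) : gau N (x - t) = gau N (t - x) := by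
  unfold gau
  rw [norm_sub_rev]

theorem smo_near {N M B : ℝ} (hN : 0 < N) {F : ℂ → ℝ} (hc : Continuous F)
    (hb : ∀ x, |F x| ≤ B) (hl : ∀ x y, |F x - F y| ≤ M * ‖x - y‖) (t : ℂ) :
    smo N F t ≤ F t + 2 * M / N := by
  have hG := integrable_gau hN
  have hGt : Integrable (fun x => gau N (t - x)) := hG.comp_sub_left t
  have h1 : Integrable (fun x => gau N (t - x) * F x) := by
    refine hGt.mul_bdd (c := B) hc.aestronglyMeasurable (Eventually.of_forall fun x => ?_)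
    rw [Real.norm_eq_abs]
    exact hb x
  have h2 := gau_moment hN zero_le_one (by norm_num : (1 : ℝ) ≤ 2)
  have h3 : Integrable (fun x => gau N (t - x) * ‖t - x‖ ^ (1 : ℝ)) := h2.1.comp_sub_left t
  have h4 : ∫ x, gau N (t - x) * ‖t - x‖ ^ (1 : ℝ) = ∫ x, gau N x * ‖x‖ ^ (1 : ℝ) :=
    integral_sub_left_eq_self (fun x => gau N x * ‖x‖ ^ (1 : ℝ)) volume t
  have h5 : ∫ x, gau N (t - x) * F t = F t := by
    rw [integral_mul_const, integral_sub_left_eq_self (fun x => gau N x) volume t, integral_gau hN,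
      one_mul]
  have h6 : smo N F t ≤ ∫ x, (gau N (t - x) * F t + M * (gau N (t - x) * ‖t - x‖ ^ (1 : ℝ))) := by
    unfold smo
    refine integral_mono h1 ((hGt.mul_const _).add (h3.const_mul _)) (fun x => ?_)
    show gau N (t - x) * F x ≤ gau N (t - x) * F t + M * (gau N (t - x) * ‖t - x‖ ^ (1 : ℝ))
    rw [Real.rpow_one]
    have h7 := (abs_le.1 (hl t x)).1
    have h8 := gau_nonneg N (t - x)
    nlinarith
  rw [integral_add (hGt.mul_const _) (h3.const_mul _), h5, integral_const_mul, h4] at h6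
  have hM : 0 ≤ M := by
    have h9 := (abs_nonneg _).trans (hl 0 1)
    rwa [zero_sub, norm_neg, norm_one, mul_one] at h9
  have h10 : M * ∫ x, gau N x * ‖x‖ ^ (1 : ℝ) ≤ M * (2 * N ^ (-1 : ℝ)) :=
    mul_le_mul_of_nonneg_left h2.2 hM
  have h11 : M * (2 * N ^ (-1 : ℝ)) = 2 * M / N := by
    rw [Real.rpow_neg_one]
    ring
  linarith

theorem smo_adj {N B : ℝ} (hN : 0 < N) {F g : ℂ → ℝ} (hc : Continuous F)
    (hb : ∀ x, |F x| ≤ B) (hi : Integrable g) :
    ∫ x, F x * smo N g x = ∫ t, smo N F t * g t := by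
  have h2 : Integrable (fun p : ℂ × ℂ => gau N p.2 * g (p.1 - p.2)) (volume.prod volume) :=
    (integrable_gau hN).convolution_integrand (ContinuousLinearMap.mul ℝ ℝ) hi
  have h1 : Integrable (fun p : ℂ × ℂ => F p.1 * (gau N (p.1 - p.2) * g p.2))
      (volume.prod volume) := by
    have h3 : Integrable (fun p : ℂ × ℂ => gau N (p.1 - p.2) * g p.2) (volume.prod volume) := by
      have h4 : Integrable (fun p : ℂ × ℂ => g p.2 * gau N (p.1 - p.2)) (volume.prod volume) :=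
        hi.convolution_integrand (ContinuousLinearMap.mul ℝ ℝ) (integrable_gau hN)
      refine h4.congr (Eventually.of_forall fun p => ?_)
      show g p.2 * gau N (p.1 - p.2) = gau N (p.1 - p.2) * g p.2
      ring
    refine h3.bdd_mul (c := B) (hc.comp continuous_fst).aestronglyMeasurable
      (Eventually.of_forall fun p => ?_)
    rw [Real.norm_eq_abs]
    exact hb _
  have e1 : ∀ x, F x * smo N g x = ∫ t, F x * (gau N (x - t) * g t) := by
    intro x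
    unfold smo
    rw [integral_const_mul]
  have e2 : ∀ t, smo N F t * g t = ∫ x, F x * (gau N (x - t) * g t) := by
    intro t
    unfold smo
    rw [← integral_mul_const]
    refine integral_congr_ae (Eventually.of_forall fun x => ?_)
    show gau N (t - x) * F x * g t = F x * (gau N (x - t) * g t)
    rw [XBk_even N t x]
    ring
  rw [integral_congr_ae (Eventually.of_forall e1), integral_congr_ae (Eventually.of_forall e2)]
  exact integral_integral_swap h1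

theorem back_gen {N M B : ℝ} (hN : 0 < N) {F g : ℂ → ℝ} (hc : Continuous F)
    (hb : ∀ x, |F x| ≤ B) (hl : ∀ x y, |F x - F y| ≤ M * ‖x - y‖) (h0 : ∀ x, 0 ≤ g x)
    (hi : Integrable g) :
    ∫ x, F x * smo N g x ≤ (∫ x, F x * g x) + 2 * M / N * ∫ x, g x := by
  rw [smo_adj hN hc hb hi]
  have h1 : Integrable (fun x => F x * g x) := by
    refine hi.bdd_mul (c := B) hc.aestronglyMeasurable (Eventually.of_forall fun x => ?_)
    rw [Real.norm_eq_abs]
    exact hb _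
  rw [← integral_const_mul, ← integral_add h1 (hi.const_mul _)]
  have h2 : Integrable (fun x => smo N F x * g x) := by
    refine hi.bdd_mul (c := B) (measurable_smo hc.measurable).aestronglyMeasurable
      (Eventually.of_forall fun x => ?_)
    rw [Real.norm_eq_abs]
    exact abs_smo_le hN hc.measurable hb x
  refine integral_mono h2 (h1.add (hi.const_mul _)) (fun x => ?_)
  show smo N F x * g x ≤ F x * g x + 2 * M / N * g x
  have h3 := smo_near hN hc hb hl x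
  nlinarith [h0 x]

private theorem XBk_ball {ρ R : ℝ} (hρ : 1 ≤ ρ) (hR : ρ ≤ R) {w x y : ℂ} (hw : ‖w‖ ≤ 2 * R)
    (hx : ‖x‖ < ρ + 2) (hy : ‖y‖ < ρ + 2) :
    |‖x - w‖ ^ 2 - ‖y - w‖ ^ 2| ≤ 10 * R * ‖x - y‖ := by
  have h1 : ‖x - w‖ ^ 2 - ‖y - w‖ ^ 2 = (‖x - w‖ - ‖y - w‖) * (‖x - w‖ + ‖y - w‖) := by ring
  have h2 : |‖x - w‖ - ‖y - w‖| ≤ ‖x - y‖ := by
    have h := abs_norm_sub_norm_le (x - w) (y - w)
    rwa [sub_sub_sub_cancel_right] at h
  have h3 := norm_sub_le x w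
  have h4 := norm_sub_le y w
  have h5 : 0 ≤ ‖x - w‖ + ‖y - w‖ := by positivity
  rw [h1, abs_mul, abs_of_nonneg h5, mul_comm (10 * R)]
  refine mul_le_mul h2 ?_ h5 (norm_nonneg _)
  linarith

private theorem XBk_lip {ρ R K M : ℝ} (hρ : 1 ≤ ρ) (hR : ρ ≤ R) (hK : 0 ≤ K) (hM : 0 ≤ M) {w : ℂ}
    (hw : ‖w‖ ≤ 2 * R) {d : ℝ → ℝ} (hd : ∀ t, |d t| ≤ K) (hl : ∀ s t, |d s - d t| ≤ M * |s - t|)
    (x y : ℂ) :
    |cut (ρ + 2) x * d (‖x - w‖ ^ 2) - cut (ρ + 2) y * d (‖y - w‖ ^ 2)| ≤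
      (K + M * (10 * R)) * ‖x - y‖ := by
  have hR0 : 0 < R := by linarith
  have key : ∀ x y : ℂ, ‖y‖ < ρ + 2 →
      |cut (ρ + 2) x * d (‖x - w‖ ^ 2) - cut (ρ + 2) y * d (‖y - w‖ ^ 2)| ≤
        (K + M * (10 * R)) * ‖x - y‖ := by
    intro x y hy
    by_cases hx : ρ + 2 ≤ ‖x‖
    · have e : cut (ρ + 2) x * d (‖x - w‖ ^ 2) - cut (ρ + 2) y * d (‖y - w‖ ^ 2) =
          (cut (ρ + 2) x - cut (ρ + 2) y) * d (‖y - w‖ ^ 2) := by
        rw [cut_of_ge hx]
        ring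
      rw [e, abs_mul]
      have h1 := mul_le_mul (cut_lip (ρ + 2) x y) (hd (‖y - w‖ ^ 2)) (abs_nonneg _) (norm_nonneg _)
      have h2 : 0 ≤ M * (10 * R) * ‖x - y‖ := by positivity
      nlinarith
    · rw [not_le] at hx
      have e : cut (ρ + 2) x * d (‖x - w‖ ^ 2) - cut (ρ + 2) y * d (‖y - w‖ ^ 2) =
          (cut (ρ + 2) x - cut (ρ + 2) y) * d (‖x - w‖ ^ 2) +
            cut (ρ + 2) y * (d (‖x - w‖ ^ 2) - d (‖y - w‖ ^ 2)) := by ring
      rw [e]
      refine (abs_add_le _ _).trans ?_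
      rw [abs_mul, abs_mul, abs_of_nonneg (cut_nonneg _ y), add_mul]
      refine add_le_add ?_ ?_
      · rw [mul_comm K]
        exact mul_le_mul (cut_lip (ρ + 2) x y) (hd _) (abs_nonneg _) (norm_nonneg _)
      · refine (mul_le_of_le_one_left (abs_nonneg _) (cut_le_one _ y)).trans ((hl _ _).trans ?_)
        rw [mul_assoc]
        exact mul_le_mul_of_nonneg_left (XBk_ball hρ hR hw hx hy) hM
  by_cases hy : ‖y‖ < ρ + 2
  · exact key x y hy
  · rw [not_lt] at hy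
    by_cases hx : ‖x‖ < ρ + 2
    · have h1 := key y x hx
      rw [abs_sub_comm, norm_sub_rev x y]
      exact h1
    · rw [not_lt] at hx
      rw [cut_of_ge hx, cut_of_ge hy, zero_mul, zero_mul, sub_zero, abs_zero]
      positivity

/-- From the smoothed function back to the function itself. -/
theorem back_g {ρ : ℝ} (hρ : 1 ≤ ρ) (n : ℕ) : ∃ L₀ : ℝ, ∀ (L R Λ : ℝ)
    (T : Finset ℕ) (c : ℕ → ℝ) (Q : ℕ), L₀ ≤ L → Maj L R Λ T c Q → ∀ V : Set ℂ,
    MeasurableSet V → ∀ w : ℂ, ‖w‖ ≤ 2 * R →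
    ∫ x, hV T ρ R n V x * DD c Q (1 / L ^ 16) (‖x - w‖ ^ 2) ≤
      (∫ x, gV T ρ n V x * DD c Q (1 / L ^ 16) (‖x - w‖ ^ 2)) + 1 / R := by
  refine ⟨max 100 (max ρ (100 * n * ρ ^ 2)), fun L R Λ T c Q hL h V hm w hw => ?_⟩
  have hL1 : 100 ≤ L := (le_max_left _ _).trans hL
  have hL2 : ρ ≤ L := ((le_max_left _ _).trans (le_max_right _ _)).trans hL
  have hL3 : 100 * n * ρ ^ 2 ≤ L := ((le_max_right _ _).trans (le_max_right _ _)).trans hL
  have hL0 : 0 < L := by linarith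
  have hLL : 1 ≤ L := h.L1
  have hRl := h.Rl
  have hLR : L ^ 1 ≤ L ^ 2000 := pow_le_pow_right₀ hLL (by norm_num)
  rw [pow_one] at hLR
  have hR1 : 1 ≤ R := by linarith
  have hR0 : 0 < R := by linarith
  have hρR : ρ ≤ R := by linarith
  have hκ : 0 < 1 / L ^ 16 := by positivity
  have hdc : Continuous (DD c Q (1 / L ^ 16)) := dd_continuous c Q hκ
  have hd0 := dd_nonneg h.nonneg hκ
  have hdb : ∀ t, |DD c Q (1 / L ^ 16) t| ≤ L ^ 24 := fun t => by
    rw [abs_of_nonneg (hd0 t)]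
    exact dd_le h hL1 t
  have hdl := dd_lip h hL1
  have hg := gv_facts T ρ n hm
  have hN : 0 < R ^ 6 := by positivity
  set F : ℂ → ℝ := fun x => cut (ρ + 2) x * DD c Q (1 / L ^ 16) (‖x - w‖ ^ 2) with hF
  have hFc : Continuous F := by
    refine (continuous_cut _).mul (hdc.comp ?_)
    fun_prop
  have hFb : ∀ x, |F x| ≤ L ^ 24 := fun x => by
    rw [hF]
    simp only
    rw [abs_mul, abs_of_nonneg (cut_nonneg _ x)]
    exact (mul_le_of_le_one_left (abs_nonneg _) (cut_le_one _ x)).trans (hdb _)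
  have hFl : ∀ x y, |F x - F y| ≤ (L ^ 24 + L ^ 42 * (10 * R)) * ‖x - y‖ :=
    XBk_lip hρ hρR (by positivity) (by positivity) hw hdb hdl
  have hmain := back_gen hN hFc hFb hFl hg.2.1 hg.2.2.2.2
  have e1 : ∫ x, hV T ρ R n V x * DD c Q (1 / L ^ 16) (‖x - w‖ ^ 2) =
      ∫ x, F x * smo (R ^ 6) (gV T ρ n V) x := by
    refine integral_congr_ae (Eventually.of_forall fun x => ?_)
    show cut (ρ + 2) x * smo (R ^ 6) (gV T ρ n V) x * DD c Q (1 / L ^ 16) (‖x - w‖ ^ 2) =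
      cut (ρ + 2) x * DD c Q (1 / L ^ 16) (‖x - w‖ ^ 2) * smo (R ^ 6) (gV T ρ n V) x
    ring
  have e2 : ∫ x, gV T ρ n V x * DD c Q (1 / L ^ 16) (‖x - w‖ ^ 2) = ∫ x, F x * gV T ρ n V x := by
    refine integral_congr_ae (Eventually.of_forall fun x => ?_)
    show gV T ρ n V x * DD c Q (1 / L ^ 16) (‖x - w‖ ^ 2) =
      cut (ρ + 2) x * DD c Q (1 / L ^ 16) (‖x - w‖ ^ 2) * gV T ρ n V x
    by_cases hx : ρ ≤ ‖x‖
    · rw [hg.2.2.2.1 x hx, zero_mul, mul_zero]
    · rw [not_le] at hx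
      rw [cut_of_le (by linarith : ‖x‖ ≤ ρ + 2 - 1)]
      ring
  rw [e1, e2]
  refine hmain.trans (add_le_add le_rfl ?_)
  have h1 := gv_int (T := T) (by linarith : 0 ≤ ρ) n hm
  have h2 : 0 ≤ 2 * (L ^ 24 + L ^ 42 * (10 * R)) / R ^ 6 := by positivity
  refine (mul_le_mul_of_nonneg_left h1 h2).trans ?_
  have h3 : L ^ 24 + L ^ 42 * (10 * R) ≤ 11 * L ^ 42 * R := by
    have h4 : L ^ 24 ≤ L ^ 42 := pow_le_pow_right₀ hLL (by norm_num)
    have h5 : L ^ 42 ≤ L ^ 42 * R := le_mul_of_one_le_right (by positivity) hR1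
    nlinarith
  have h4 : n * (π * ρ ^ 2) * 22 ≤ L := by
    have h5 : π ≤ 4 := Real.pi_le_four
    have h6 : 0 ≤ (n : ℝ) * ρ ^ 2 := by positivity
    nlinarith
  have h5 : L ^ 43 ≤ R := (pow_le_pow_right₀ hLL (by norm_num)).trans hRl
  have h6 : 2 * (L ^ 24 + L ^ 42 * (10 * R)) / R ^ 6 * (n * (π * ρ ^ 2)) =
      (L ^ 24 + L ^ 42 * (10 * R)) * (2 * (n * (π * ρ ^ 2))) / R ^ 6 := by ring
  rw [h6, div_le_div_iff₀ (by positivity) hR0, one_mul]
  have h7 : 0 ≤ n * (π * ρ ^ 2) := by positivity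
  have h8 : (L ^ 24 + L ^ 42 * (10 * R)) * (2 * (n * (π * ρ ^ 2))) ≤ L ^ 43 * R := by
    calc (L ^ 24 + L ^ 42 * (10 * R)) * (2 * (n * (π * ρ ^ 2)))
        ≤ (11 * L ^ 42 * R) * (2 * (n * (π * ρ ^ 2))) :=
          mul_le_mul_of_nonneg_right h3 (by positivity)
      _ = L ^ 42 * R * (n * (π * ρ ^ 2) * 22) := by ring
      _ ≤ L ^ 42 * R * L := mul_le_mul_of_nonneg_left h4 (by positivity)
      _ = L ^ 43 * R := by ring
  calc (L ^ 24 + L ^ 42 * (10 * R)) * (2 * (n * (π * ρ ^ 2))) * R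
      ≤ L ^ 43 * R * R := mul_le_mul_of_nonneg_right h8 hR0.le
    _ ≤ R * R * R := by
        refine mul_le_mul_of_nonneg_right (mul_le_mul_of_nonneg_right h5 hR0.le) hR0.le
    _ = R ^ 3 := by ring
    _ ≤ R ^ 6 := pow_le_pow_right₀ hR1 (by norm_num)

end Pool.Agent.Lib.SR
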