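import Pool.Agent.Lib.MP_b9430d_co.SR.Defs

/-!
# Definitions for the proof of `prop_one`

`gV` is the truncated cut-off sum over `V` (`≤ n` everywhere), `hV` its smoothed version with a cut-off.
-/

set_option autoImplicit false

open MeasureTheory Complex Set Real Filter Topology
open scoped ENNReal

namespace Pool.Agent.Lib.SR

open Pool.MPb9430d Pool.MPb9430d.Rough Pool.MPb9430d.Frac Pool.MPb9430d.Mom

/-- The cut-off sum over `V`, truncated at `n`. -/
noncomputable def gV (T : Finset ℕ) (ρ : ℝ) (n : ℕ) (V : Set ℂ) (x : ℂ) : ℝ :=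
  cut ρ x * min (n : ℝ) (SF T (ind V) x).toReal

/-- The smoothed function. -/
noncomputable def hV (T : Finset ℕ) (ρ R : ℝ) (n : ℕ) (V : Set ℂ) (x : ℂ) : ℝ :=
  cut (ρ + 2) x * smo (R ^ 6) (gV T ρ n V) x

end Pool.Agent.Lib.SR
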