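import Pool.Agent.Lib.MP_b9430d_co.SR.XDef
import Pool.Agent.Lib.MP_b9430d_co.SR.XAdj
import Pool.Agent.Lib.MP_b9430d_co.Mom.SmB
import Pool.Agent.Lib.MP_b9430d_co.Frac.GauM

/-!
# XHv: the functions gV and hV

`gV = cut ρ * min n (SF T (ind V)).toReal`: measurable (`measurable_SF`), `0 ≤ gV ≤ n`, zero for `‖x‖ ≥ ρ` (`cut_of_ge`), so
integrable (bounded with support in a ball). `gv_le`: `min n (v.toReal) ≤ v.toReal ≤ v`. `gv_eq`: `v ≤ n` makes the minimum
equal to `v.toReal` and `v` finite. `hV`: `smo_nonneg`, `abs_smo_le` (`K = n`), `measurable_smo` (Mom/SmB). Lipschitz: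
`|smo N g x - smo N g y| ≤ ∫ |gau N (x - t) - gau N (y - t)| g t ≤ 8 N³ ‖x - y‖ ∫ g` (`gau_lip` in Frac/GauM, `N = R⁶`),
`∫ g ≤ n π ρ²`, `cut_lip` and `|cut| ≤ 1`, `|smo| ≤ n`: constant `n + 8 R^18 n π ρ² ≤ 40 ρ² n R^18`.
-/

set_option autoImplicit false

open MeasureTheory Complex Set Real Filter Topology
open scoped ENNReal

namespace Pool.Agent.Lib.SR

open Pool.MPb9430d Pool.MPb9430d.Rough Pool.MPb9430d.Frac Pool.MPb9430d.Mom

theorem gv_le_ind (T : Finset ℕ) (ρ : ℝ) (n : ℕ) (V : Set ℂ) (x : ℂ) :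
    gV T ρ n V x ≤ (Metric.closedBall (0 : ℂ) ρ).indicator (fun _ => (n : ℝ)) x := by
  have h0 := cut_nonneg ρ x
  have h1 := cut_le_one ρ x
  have h2 : 0 ≤ min (n : ℝ) (SF T (ind V) x).toReal := le_min (Nat.cast_nonneg n) ENNReal.toReal_nonneg
  have h3 : min (n : ℝ) (SF T (ind V) x).toReal ≤ n := min_le_left _ _
  by_cases hx : x ∈ Metric.closedBall (0 : ℂ) ρ
  · rw [Set.indicator_of_mem hx]
    unfold gV
    calc cut ρ x * min (n : ℝ) (SF T (ind V) x).toReal ≤ 1 * n :=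
          mul_le_mul h1 h3 h2 zero_le_one
      _ = n := one_mul _
  · rw [Set.indicator_of_notMem hx]
    unfold gV
    rw [mem_closedBall_zero_iff, not_le] at hx
    rw [cut_of_ge hx.le, zero_mul]

theorem gv_facts (T : Finset ℕ) (ρ : ℝ) (n : ℕ) {V : Set ℂ} (hm : MeasurableSet V) :
    Measurable (gV T ρ n V) ∧ (∀ x, 0 ≤ gV T ρ n V x) ∧ (∀ x, gV T ρ n V x ≤ n) ∧
      (∀ x, ρ ≤ ‖x‖ → gV T ρ n V x = 0) ∧ Integrable (gV T ρ n V) := by
  have h1 : Measurable (gV T ρ n V) :=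
    (continuous_cut ρ).measurable.mul
      (measurable_const.min (measurable_SF T (measurable_const.indicator hm)).ennreal_toReal)
  have h2 : ∀ x, 0 ≤ gV T ρ n V x := fun x =>
    mul_nonneg (cut_nonneg ρ x) (le_min (Nat.cast_nonneg n) ENNReal.toReal_nonneg)
  have h3 : ∀ x, gV T ρ n V x ≤ n := by
    intro x
    refine (gv_le_ind T ρ n V x).trans ?_
    refine Set.indicator_le_self' (fun _ _ => Nat.cast_nonneg n) x
  refine ⟨h1, h2, h3, fun x hx => ?_, ?_⟩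
  · unfold gV
    rw [cut_of_ge hx, zero_mul]
  · have h4 : Integrable ((Metric.closedBall (0 : ℂ) ρ).indicator (fun _ => (n : ℝ))) := by
      rw [integrable_indicator_iff measurableSet_closedBall]
      exact integrableOn_const measure_closedBall_lt_top.ne
    refine h4.mono' h1.aestronglyMeasurable (Eventually.of_forall fun x => ?_)
    rw [Real.norm_of_nonneg (h2 x)]
    exact gv_le_ind T ρ n V x

theorem gv_int {T : Finset ℕ} {ρ : ℝ} (hρ : 0 ≤ ρ) (n : ℕ) {V : Set ℂ} (hm : MeasurableSet V) :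
    ∫ x, gV T ρ n V x ≤ n * (π * ρ ^ 2) := by
  have hg := gv_facts T ρ n hm
  have h4 : Integrable ((Metric.closedBall (0 : ℂ) ρ).indicator (fun _ => (n : ℝ))) := by
    rw [integrable_indicator_iff measurableSet_closedBall]
    exact integrableOn_const measure_closedBall_lt_top.ne
  have h5 : ∫ x, gV T ρ n V x ≤ ∫ x, (Metric.closedBall (0 : ℂ) ρ).indicator (fun _ => (n : ℝ)) x :=
    integral_mono hg.2.2.2.2 h4 (gv_le_ind T ρ n V)
  refine h5.trans (le_of_eq ?_)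
  rw [integral_indicator measurableSet_closedBall, setIntegral_const, smul_eq_mul,
    Measure.real, Complex.volume_closedBall]
  rw [ENNReal.toReal_mul, ENNReal.toReal_pow, ENNReal.toReal_ofReal hρ, ENNReal.coe_toReal,
    NNReal.coe_real_pi]
  ring

theorem gv_le (T : Finset ℕ) (ρ : ℝ) (n : ℕ) (V : Set ℂ) (x : ℂ) :
    ENNReal.ofReal (gV T ρ n V x) ≤ ENNReal.ofReal (cut ρ x) * SF T (ind V) x := by
  unfold gV
  rw [ENNReal.ofReal_mul (cut_nonneg ρ x)]
  refine mul_le_mul_right ?_ _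
  exact (ENNReal.ofReal_le_ofReal (min_le_right _ _)).trans ENNReal.ofReal_toReal_le

theorem gv_eq {T : Finset ℕ} {ρ : ℝ} {n : ℕ} {V : Set ℂ} (h : ∀ᵐ x : ℂ, SF T (ind V) x ≤ n) :
    ∀ᵐ x : ℂ, ENNReal.ofReal (gV T ρ n V x) = ENNReal.ofReal (cut ρ x) * SF T (ind V) x := by
  filter_upwards [h] with x hx
  have h1 : SF T (ind V) x ≠ ∞ := ne_top_of_le_ne_top (ENNReal.natCast_ne_top n) hx
  have h2 : (SF T (ind V) x).toReal ≤ n := by
    have := ENNReal.toReal_mono (ENNReal.natCast_ne_top n) hx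
    rwa [ENNReal.toReal_natCast] at this
  unfold gV
  rw [min_eq_right h2, ENNReal.ofReal_mul (cut_nonneg ρ x), ENNReal.ofReal_toReal h1]

private theorem XHv_gle (N : ℝ) (x : ℂ) : gau N x ≤ N ^ 2 := by
  unfold gau
  refine mul_le_of_le_one_right (sq_nonneg N) ?_
  rw [Real.exp_le_one_iff]
  have : 0 ≤ π * N ^ 2 * ‖x‖ ^ 2 := by positivity
  linarith

theorem smo_lip {N : ℝ} (hN : 0 < N) {g : ℂ → ℝ} (h0 : ∀ x, 0 ≤ g x) (hi : Integrable g) (x y : ℂ) :
    |smo N g x - smo N g y| ≤ 8 * N ^ 3 * ‖x - y‖ * ∫ t, g t := by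
  have hI : ∀ z : ℂ, Integrable (fun t => gau N (z - t) * g t) := by
    intro z
    refine hi.bdd_mul (c := N ^ 2) ?_ (Eventually.of_forall fun t => ?_)
    · exact ((continuous_gau N).comp (continuous_const.sub continuous_id)).aestronglyMeasurable
    · rw [Real.norm_of_nonneg (gau_nonneg N _)]
      exact XHv_gle N _
  unfold smo
  rw [← integral_sub (hI x) (hI y), ← integral_const_mul]
  refine (abs_integral_le_integral_abs).trans ?_
  refine integral_mono_of_nonneg (Eventually.of_forall fun t => abs_nonneg _) (hi.const_mul _)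
    (Eventually.of_forall fun t => ?_)
  show |gau N (x - t) * g t - gau N (y - t) * g t| ≤ 8 * N ^ 3 * ‖x - y‖ * g t
  rw [← sub_mul, abs_mul, abs_of_nonneg (h0 t)]
  refine mul_le_mul_of_nonneg_right ?_ (h0 t)
  have h := gau_lip hN (x - t) (y - t)
  rwa [sub_sub_sub_cancel_right] at h

theorem hv_facts (T : Finset ℕ) {ρ R : ℝ} (hρ : 1 ≤ ρ) (hR : 1 ≤ R) (n : ℕ) {V : Set ℂ}
    (hm : MeasurableSet V) :
    Measurable (hV T ρ R n V) ∧ (∀ x, 0 ≤ hV T ρ R n V x) ∧ (∀ x, hV T ρ R n V x ≤ n) ∧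
      (∀ x, ρ + 2 ≤ ‖x‖ → hV T ρ R n V x = 0) ∧
      (∀ x y, |hV T ρ R n V x - hV T ρ R n V y| ≤ 40 * ρ ^ 2 * n * R ^ 18 * ‖x - y‖) := by
  have hg := gv_facts T ρ n hm
  have hR0 : 0 < R := by linarith
  have hN : 0 < R ^ 6 := by positivity
  have hs0 : ∀ x, 0 ≤ smo (R ^ 6) (gV T ρ n V) x := fun x => smo_nonneg hg.2.1 x
  have hs1 : ∀ x, smo (R ^ 6) (gV T ρ n V) x ≤ n := fun x => by
    have h := abs_smo_le hN hg.1 (K := (n : ℝ)) (fun x => by
      rw [abs_of_nonneg (hg.2.1 x)]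
      exact hg.2.2.1 x) x
    exact (le_abs_self _).trans h
  refine ⟨(continuous_cut _).measurable.mul (measurable_smo hg.1), fun x => ?_, fun x => ?_,
    fun x hx => ?_, fun x y => ?_⟩
  · exact mul_nonneg (cut_nonneg _ x) (hs0 x)
  · unfold hV
    calc cut (ρ + 2) x * smo (R ^ 6) (gV T ρ n V) x ≤ 1 * n :=
          mul_le_mul (cut_le_one _ x) (hs1 x) (hs0 x) zero_le_one
      _ = n := one_mul _
  · unfold hV
    rw [cut_of_ge hx, zero_mul]
  · have e1 : hV T ρ R n V x - hV T ρ R n V y =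
        (cut (ρ + 2) x - cut (ρ + 2) y) * smo (R ^ 6) (gV T ρ n V) x +
          cut (ρ + 2) y * (smo (R ^ 6) (gV T ρ n V) x - smo (R ^ 6) (gV T ρ n V) y) := by
      unfold hV
      ring
    have h1 := cut_lip (ρ + 2) x y
    have h2 := smo_lip hN hg.2.1 hg.2.2.2.2 x y
    have h3 := gv_int (T := T) (by linarith : 0 ≤ ρ) n hm
    have h4 : |(cut (ρ + 2) x - cut (ρ + 2) y) * smo (R ^ 6) (gV T ρ n V) x| ≤ ‖x - y‖ * n := by
      rw [abs_mul, abs_of_nonneg (hs0 x)]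
      exact mul_le_mul h1 (hs1 x) (hs0 x) (norm_nonneg _)
    have h5 : |cut (ρ + 2) y * (smo (R ^ 6) (gV T ρ n V) x - smo (R ^ 6) (gV T ρ n V) y)| ≤
        8 * (R ^ 6) ^ 3 * ‖x - y‖ * (n * (π * ρ ^ 2)) := by
      rw [abs_mul, abs_of_nonneg (cut_nonneg _ y)]
      refine (mul_le_of_le_one_left (abs_nonneg _) (cut_le_one _ y)).trans (h2.trans ?_)
      exact mul_le_mul_of_nonneg_left h3 (by positivity)
    rw [e1]
    refine (abs_add_le _ _).trans ((add_le_add h4 h5).trans ?_)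
    have h6 : (R ^ 6) ^ 3 = R ^ 18 := by ring
    have h7 : 1 ≤ R ^ 18 := one_le_pow₀ hR
    have h8 : π ≤ 4 := Real.pi_le_four
    have h9 : 1 ≤ ρ ^ 2 := one_le_pow₀ hρ
    have h10 : 0 ≤ ‖x - y‖ * n := by positivity
    have h11 : 1 ≤ ρ ^ 2 * R ^ 18 := by nlinarith
    rw [h6]
    calc ‖x - y‖ * n + 8 * R ^ 18 * ‖x - y‖ * (n * (π * ρ ^ 2))
        = ‖x - y‖ * n * (1 + 8 * π * (ρ ^ 2 * R ^ 18)) := by ring
      _ ≤ ‖x - y‖ * n * (40 * (ρ ^ 2 * R ^ 18)) := by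
          refine mul_le_mul_of_nonneg_left ?_ h10
          nlinarith
      _ = 40 * ρ ^ 2 * n * R ^ 18 * ‖x - y‖ := by ring

end Pool.Agent.Lib.SR
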